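import Pool.Agent.H816R2.KM2N

/-!
A Steiner system `S(2,6,231)`: 9 copies of an abelian group of order 25 and 6 fixed points.
-/

set_option autoImplicit false

namespace Pool.Agent.TH848.KM

open Pool.Agent.H816R2.KM2

def full231 : List (List ℕ) :=
  [[0, 1, 145, 157, 180, 224],
   [0, 2, 135, 168, 187, 218],
   [0, 6, 133, 154, 175, 209],
   [0, 12, 125, 163, 176, 214],
   [0, 25, 86, 108, 150, 169],
   [0, 26, 52, 82, 208, 220],
   [0, 27, 74, 77, 190, 196],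
   [0, 28, 96, 103, 177, 198],
   [0, 29, 69, 101, 182, 189],
   [0, 30, 98, 114, 200, 222],
   [0, 31, 72, 91, 164, 171],
   [0, 32, 57, 123, 158, 167],
   [0, 33, 61, 81, 136, 140],
   [0, 34, 78, 124, 152, 160],
   [0, 35, 70, 80, 115, 230],
   [0, 36, 60, 104, 172, 174],
   [0, 37, 50, 113, 191, 192],
   [0, 38, 65, 122, 211, 212],
   [0, 39, 55, 106, 132, 134],
   [0, 40, 92, 121, 178, 181],
   [0, 41, 87, 111, 129, 141],
   [0, 42, 59, 84, 161, 165],
   [0, 43, 63, 112, 139, 148],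
   [0, 44, 73, 99, 130, 142],
   [0, 45, 79, 102, 126, 137],
   [0, 46, 51, 109, 219, 221],
   [0, 47, 94, 107, 201, 205],
   [0, 48, 71, 88, 207, 213],
   [0, 49, 68, 83, 183, 195],
   [0, 53, 89, 120, 204, 217],
   [0, 54, 90, 116, 155, 162],
   [0, 56, 93, 100, 153, 159],
   [0, 58, 75, 117, 188, 197],
   [0, 62, 85, 118, 206, 215],
   [0, 64, 97, 105, 128, 147],
   [0, 66, 95, 119, 144, 146],
   [0, 67, 76, 110, 179, 186],
   [0, 131, 170, 193, 210, 225],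
   [25, 31, 149, 168, 177, 212],
   [25, 33, 132, 157, 181, 205],
   [25, 36, 147, 170, 197, 222],
   [25, 37, 139, 159, 194, 201],
   [25, 52, 79, 104, 166, 167],
   [25, 56, 87, 117, 216, 218],
   [25, 61, 82, 121, 152, 155],
   [25, 62, 94, 112, 187, 198],
   [25, 63, 76, 103, 210, 221],
   [25, 64, 88, 119, 126, 134],
   [25, 69, 83, 123, 190, 192],
   [25, 73, 91, 111, 140, 144],
   [25, 135, 171, 175, 208, 226],
   [50, 57, 148, 170, 185, 205],
   [50, 58, 136, 158, 189, 207],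
   [50, 61, 143, 159, 184, 215],
   [50, 64, 140, 155, 188, 214],
   [50, 139, 152, 197, 216, 227],
   [75, 82, 147, 151, 183, 217],
   [75, 84, 144, 156, 195, 202],
   [75, 88, 145, 159, 190, 211],
   [75, 89, 141, 164, 180, 222],
   [75, 133, 163, 179, 219, 228],
   [100, 101, 139, 163, 193, 206],
   [100, 102, 146, 152, 189, 211],
   [100, 109, 145, 155, 177, 200],
   [100, 113, 144, 165, 178, 208],
   [100, 147, 154, 191, 207, 229]]

def short231 : List (List ℕ × List ℕ) :=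
  [([0, 1, 2, 3, 4], [0, 5, 10, 15, 20, 229]),
   ([0, 1, 2, 3, 4], [0, 9, 13, 17, 21, 226]),
   ([0, 1, 2, 3, 4], [0, 8, 11, 19, 22, 228]),
   ([0, 1, 2, 3, 4], [0, 7, 14, 16, 23, 227]),
   ([0, 1, 2, 3, 4], [25, 30, 35, 40, 45, 225]),
   ([0, 5, 10, 15, 20], [25, 26, 27, 28, 29, 227]),
   ([0, 1, 2, 3, 4], [25, 34, 38, 42, 46, 228]),
   ([0, 1, 2, 3, 4], [25, 32, 39, 41, 48, 229]),
   ([0, 1, 2, 3, 4], [50, 55, 60, 65, 70, 226]),
   ([0, 1, 2, 3, 4], [50, 56, 62, 68, 74, 228]),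
   ([0, 1, 2, 3, 4], [50, 59, 63, 67, 71, 225]),
   ([0, 5, 10, 15, 20], [50, 51, 52, 53, 54, 229]),
   ([0, 1, 2, 3, 4], [75, 80, 85, 90, 95, 227]),
   ([0, 1, 2, 3, 4], [75, 83, 86, 94, 97, 229]),
   ([0, 5, 10, 15, 20], [75, 76, 77, 78, 79, 226]),
   ([0, 1, 2, 3, 4], [75, 81, 87, 93, 99, 225]),
   ([0, 1, 2, 3, 4], [100, 105, 110, 115, 120, 228]),
   ([0, 1, 2, 3, 4], [100, 107, 114, 116, 123, 225]),
   ([0, 1, 2, 3, 4], [100, 106, 112, 118, 124, 227]),
   ([0, 1, 2, 3, 4], [100, 108, 111, 119, 122, 226]),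
   ([0, 1, 2, 3, 4], [125, 130, 135, 140, 145, 230]),
   ([0, 1, 2, 3, 4], [150, 155, 160, 165, 170, 230]),
   ([0, 1, 2, 3, 4], [175, 180, 185, 190, 195, 230]),
   ([0, 1, 2, 3, 4], [200, 205, 210, 215, 220, 230]),
   ([0], [225, 226, 227, 228, 229, 230])]

theorem ex231 : ∃ 𝓑 : Set (Finset (Fin 231)), IsS2 (Fin 231) 6 𝓑 :=
  of_coded (codedP 5 (codedZ 5)) 6 9 6 231 rfl full231 short231
    (by decide +kernel) (by decide +kernel) (by decide +kernel) (by decide +kernel)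
    (by decide +kernel) (by decide +kernel)

end Pool.Agent.TH848.KM
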