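import Pool.Agent.H816R2.KM2N

/-!
A Steiner system `S(2,6,261)`: 3 copies of an abelian group of order 87 and 0 fixed points.
-/

set_option autoImplicit false

namespace Pool.Agent.TH848.KM

open Pool.Agent.H816R2.KM2

def full261 : List (List ℕ) :=
  [[0, 1, 128, 153, 179, 258],
   [0, 2, 67, 120, 220, 251],
   [0, 3, 11, 16, 50, 219],
   [0, 4, 25, 121, 169, 232],
   [0, 6, 99, 168, 223, 247],
   [0, 7, 38, 92, 193, 195],
   [0, 9, 26, 41, 135, 164],
   [0, 10, 129, 146, 206, 255],
   [0, 12, 35, 122, 194, 224],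
   [0, 14, 44, 116, 139, 151],
   [0, 18, 190, 205, 222, 231],
   [0, 19, 132, 173, 180, 200],
   [0, 24, 191, 235, 239, 253],
   [0, 27, 98, 161, 202, 260],
   [0, 28, 104, 108, 177, 227],
   [0, 29, 90, 91, 112, 171],
   [0, 33, 147, 157, 166, 176],
   [0, 36, 105, 234, 237, 250],
   [0, 42, 115, 130, 225, 252],
   [0, 89, 97, 150, 238, 243],
   [0, 100, 103, 174, 185, 221],
   [0, 101, 131, 145, 197, 209],
   [0, 106, 111, 143, 192, 226],
   [87, 89, 100, 120, 136, 176],
   [87, 114, 194, 204, 239, 258],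
   [87, 129, 199, 220, 221, 227]]

def short261 : List (List ℕ × List ℕ) :=
  []

theorem ex261 : ∃ 𝓑 : Set (Finset (Fin 261)), IsS2 (Fin 261) 6 𝓑 :=
  of_coded (codedZ 87) 6 3 0 261 rfl full261 short261
    (by decide +kernel) (by decide +kernel) (by decide +kernel) (by decide +kernel)
    (by decide +kernel) (by decide +kernel)

end Pool.Agent.TH848.KM
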