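import Pool.Agent.TH848.KM.Tree

/-!
A Steiner system `S(2,6,321)`: 15 copies of an abelian group of order 21 and 6 fixed points.
-/

set_option autoImplicit false
set_option maxRecDepth 100000

namespace Pool.Agent.TH848.KM

open Pool.Agent.H816R2.KM2

def t321_0 : BT :=
  (.node (.node (.node (.node (.node (.leaf [0, 1, 13, 126, 204, 231])
  (.leaf [0, 2, 29, 117, 279, 308])
 ) (.node (.leaf [0, 3, 98, 125, 205, 247])
  (.leaf [0, 4, 15, 53, 79, 152])
 )) (.node (.node (.leaf [0, 5, 96, 257, 275, 297])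
  (.leaf [0, 7, 175, 223, 292, 298])
 ) (.node (.leaf [0, 21, 102, 118, 160, 237])
  (.leaf [0, 22, 47, 108, 127, 194])
 ))) (.node (.node (.node (.leaf [0, 23, 74, 105, 107, 123])
  (.leaf [0, 24, 83, 246, 295, 316])
 ) (.node (.leaf [0, 25, 71, 159, 268, 320])
  (.leaf [0, 26, 56, 174, 210, 260])
 )) (.node (.node (.leaf [0, 28, 141, 171, 178, 193])
  (.leaf [0, 30, 42, 58, 61, 270])
 ) (.node (.leaf [0, 31, 151, 155, 166, 176])
  (.leaf [0, 32, 170, 187, 228, 286])
 )))) (.node (.node (.node (.node (.leaf [0, 33, 80, 85, 110, 173])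
  (.leaf [0, 34, 54, 106, 300, 307])
 ) (.node (.leaf [0, 35, 43, 161, 230, 287])
  (.leaf [0, 36, 41, 52, 232, 301])
 )) (.node (.node (.leaf [0, 37, 101, 179, 219, 319])
  (.leaf [0, 38, 269, 281, 302, 315])
 ) (.node (.leaf [0, 39, 94, 169, 180, 242])
  (.leaf [0, 40, 163, 238, 284, 310])
 ))) (.node (.node (.node (.leaf [0, 44, 84, 139, 248, 271])
  (.leaf [0, 45, 135, 153, 185, 305])
 ) (.node (.leaf [0, 46, 196, 264, 266, 289])
  (.leaf [0, 48, 157, 207, 236, 314])
 )) (.node (.node (.leaf [0, 50, 68, 192, 201, 214])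
  (.leaf [0, 51, 100, 259, 276, 283])
 ) (.node (.leaf [0, 55, 76, 182, 272, 296])
  (.leaf [0, 57, 66, 206, 249, 290])
 )))))

def t321_1 : BT :=
  (.node (.node (.node (.node (.node (.leaf [0, 60, 77, 138, 227, 278])
  (.leaf [0, 62, 162, 184, 234, 243])
 ) (.node (.leaf [0, 63, 88, 111, 198, 258])
  (.leaf [0, 65, 109, 124, 136, 282])
 )) (.node (.node (.leaf [0, 67, 133, 149, 195, 240])
  (.leaf [0, 69, 86, 167, 217, 245])
 ) (.node (.leaf [0, 70, 113, 154, 181, 197])
  (.leaf [0, 72, 78, 82, 215, 262])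
 ))) (.node (.node (.node (.leaf [0, 73, 143, 199, 226, 303])
  (.leaf [0, 81, 190, 253, 280, 299])
 ) (.node (.leaf [0, 87, 90, 92, 156, 263])
  (.leaf [0, 89, 121, 150, 218, 267])
 )) (.node (.node (.leaf [0, 93, 128, 183, 208, 209])
  (.leaf [0, 97, 103, 130, 165, 294])
 ) (.node (.leaf [0, 99, 116, 129, 224, 288])
  (.leaf [0, 104, 114, 144, 188, 309])
 )))) (.node (.node (.node (.node (.leaf [0, 112, 200, 225, 229, 261])
  (.leaf [0, 119, 186, 212, 256, 317])
 ) (.node (.leaf [0, 120, 131, 222, 233, 241])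
  (.leaf [0, 132, 213, 220, 235, 265])
 )) (.node (.node (.leaf [0, 137, 164, 172, 250, 273])
  (.leaf [0, 140, 142, 145, 293, 311])
 ) (.node (.leaf [0, 147, 189, 255, 274, 318])
  (.leaf [0, 177, 211, 221, 254, 304])
 ))) (.node (.node (.node (.leaf [21, 22, 34, 130, 201, 279])
  (.leaf [21, 23, 71, 222, 249, 311])
 ) (.node (.leaf [21, 24, 60, 146, 230, 280])
  (.leaf [21, 25, 36, 116, 163, 257])
 )) (.node (.node (.leaf [21, 28, 95, 174, 239, 303])
  (.leaf [21, 42, 79, 99, 170, 318])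
 ) (.node (.leaf [21, 43, 63, 136, 223, 265])
  (.leaf [21, 44, 59, 205, 235, 270])
 )))))

def t321_2 : BT :=
  (.node (.node (.node (.node (.node (.leaf [21, 45, 87, 198, 219, 250])
  (.leaf [21, 47, 75, 93, 164, 215])
 ) (.node (.leaf [21, 48, 144, 153, 168, 272])
  (.leaf [21, 55, 103, 203, 283, 284])
 )) (.node (.node (.leaf [21, 56, 81, 89, 100, 141])
  (.leaf [21, 61, 175, 204, 221, 299])
 ) (.node (.leaf [21, 64, 110, 202, 213, 290])
  (.leaf [21, 65, 158, 210, 212, 228])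
 ))) (.node (.node (.node (.leaf [21, 66, 145, 167, 236, 317])
  (.leaf [21, 70, 91, 98, 195, 289])
 ) (.node (.leaf [21, 73, 96, 256, 260, 271])
  (.leaf [21, 74, 86, 90, 179, 297])
 )) (.node (.node (.leaf [21, 76, 117, 211, 241, 248])
  (.leaf [21, 77, 106, 181, 266, 298])
 ) (.node (.leaf [21, 78, 83, 115, 131, 242])
  (.leaf [21, 82, 137, 251, 268, 295])
 )))) (.node (.node (.node (.node (.leaf [21, 84, 108, 189, 246, 258])
  (.leaf [21, 92, 128, 191, 269, 305])
 ) (.node (.leaf [21, 101, 154, 218, 259, 293])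
  (.leaf [21, 104, 125, 133, 142, 267])
 )) (.node (.node (.leaf [21, 111, 135, 234, 262, 282])
  (.leaf [21, 113, 152, 186, 276, 288])
 ) (.node (.leaf [21, 120, 127, 150, 281, 301])
  (.leaf [21, 123, 161, 178, 192, 310])
 ))) (.node (.node (.node (.leaf [21, 132, 140, 173, 206, 225])
  (.leaf [21, 139, 151, 208, 254, 291])
 ) (.node (.leaf [21, 149, 190, 214, 229, 314])
  (.leaf [21, 157, 177, 197, 244, 274])
 )) (.node (.node (.leaf [21, 194, 196, 199, 231, 304])
  (.leaf [42, 43, 51, 134, 187, 220])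
 ) (.node (.leaf [42, 46, 78, 93, 152, 232])
  (.leaf [42, 49, 73, 164, 280, 310])
 )))))

def t321_3 : BT :=
  (.node (.node (.node (.node (.node (.leaf [42, 52, 64, 120, 166, 196])
  (.leaf [42, 65, 92, 107, 165, 315])
 ) (.node (.leaf [42, 69, 76, 100, 144, 250])
  (.leaf [42, 71, 118, 167, 174, 256])
 )) (.node (.node (.leaf [42, 77, 122, 142, 184, 287])
  (.leaf [42, 82, 116, 276, 313, 314])
 ) (.node (.leaf [42, 85, 213, 225, 226, 278])
  (.leaf [42, 87, 105, 126, 130, 136])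
 ))) (.node (.node (.node (.leaf [42, 94, 197, 293, 297, 317])
  (.leaf [42, 95, 125, 140, 282, 294])
 ) (.node (.leaf [42, 97, 109, 173, 218, 320])
  (.leaf [42, 98, 145, 153, 214, 296])
 )) (.node (.node (.leaf [42, 101, 188, 231, 237, 248])
  (.leaf [42, 102, 176, 208, 242, 284])
 ) (.node (.leaf [42, 104, 155, 277, 290, 300])
  (.leaf [42, 106, 129, 154, 161, 199])
 )))) (.node (.node (.node (.node (.leaf [42, 108, 168, 202, 240, 261])
  (.leaf [42, 111, 200, 215, 241, 299])
 ) (.node (.leaf [42, 112, 245, 279, 311, 319])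
  (.leaf [42, 113, 117, 139, 149, 265])
 )) (.node (.node (.leaf [42, 114, 158, 221, 258, 316])
  (.leaf [42, 119, 194, 198, 204, 224])
 ) (.node (.leaf [42, 121, 171, 172, 180, 305])
  (.leaf [42, 123, 238, 257, 298, 306])
 ))) (.node (.node (.node (.leaf [42, 131, 179, 252, 255, 307])
  (.leaf [42, 175, 228, 236, 263, 289])
 ) (.node (.leaf [63, 64, 76, 205, 276, 311])
  (.leaf [63, 65, 127, 155, 173, 231])
 )) (.node (.node (.leaf [63, 66, 123, 181, 200, 312])
  (.leaf [63, 85, 218, 257, 299, 308])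
 ) (.node (.leaf [63, 93, 176, 194, 207, 281])
  (.leaf [63, 95, 124, 172, 240, 279])
 )))))

def t321_4 : BT :=
  (.node (.node (.node (.node (.node (.leaf [63, 97, 143, 262, 293, 306])
  (.leaf [63, 98, 228, 251, 266, 288])
 ) (.node (.leaf [63, 126, 140, 160, 183, 222])
  (.leaf [63, 130, 245, 274, 290, 292])
 )) (.node (.node (.leaf [63, 135, 150, 199, 272, 319])
  (.leaf [63, 141, 162, 167, 206, 220])
 ) (.node (.leaf [63, 148, 185, 215, 277, 301])
  (.leaf [63, 149, 179, 182, 184, 263])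
 ))) (.node (.node (.node (.leaf [63, 180, 186, 234, 254, 286])
  (.leaf [63, 202, 225, 242, 255, 313])
 ) (.node (.leaf [84, 85, 93, 119, 219, 239])
  (.leaf [84, 106, 162, 197, 228, 299])
 )) (.node (.node (.leaf [84, 112, 124, 125, 169, 207])
  (.leaf [84, 126, 178, 201, 290, 316])
 ) (.node (.leaf [84, 137, 186, 192, 229, 305])
  (.leaf [84, 142, 159, 161, 193, 272])
 )))) (.node (.node (.node (.node (.leaf [84, 147, 187, 242, 253, 309])
  (.leaf [84, 149, 175, 196, 203, 267])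
 ) (.node (.leaf [84, 151, 154, 211, 236, 279])
  (.leaf [84, 185, 220, 294, 300, 311])
 )) (.node (.node (.leaf [105, 112, 157, 251, 269, 312])
  (.leaf [105, 115, 148, 225, 271, 292])
 ) (.node (.leaf [105, 140, 187, 216, 240, 275])
  (.leaf [105, 144, 217, 231, 311, 318])
 ))) (.node (.node (.node (.leaf [105, 166, 221, 233, 234, 308])
  (.leaf [105, 175, 224, 273, 279, 290])
 ) (.node (.leaf [105, 204, 211, 259, 266, 274])
  (.leaf [126, 127, 187, 225, 243, 265])
 )) (.node (.node (.leaf [126, 150, 208, 304, 306, 309])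
  (.leaf [126, 185, 194, 227, 248, 315])
 ) (.node (.leaf [126, 205, 244, 284, 299, 320])
  (.leaf [126, 245, 261, 269, 270, 308])
 )))))

def t321_5 : BT :=
  (.node (.leaf [147, 148, 160, 231, 280, 308])
  (.node (.leaf [147, 171, 195, 267, 272, 281])
  (.leaf [189, 233, 235, 238, 264, 292])
 ))

def full321 : BT :=
  (.node (.node t321_0 (.node t321_1 t321_2)) (.node t321_3 (.node t321_4 t321_5)))

def short321 : List (List ℕ × List ℕ) :=
  [([0], [315, 316, 317, 318, 319, 320])]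

theorem ex321 : ∃ 𝓑 : Set (Finset (Fin 321)), IsS2 (Fin 321) 6 𝓑 :=
  of_codedT (codedZ 21) 6 15 6 321 rfl full321 short321
    (by decide +kernel) (by decide +kernel) (by decide +kernel) (by decide +kernel)
    (by decide +kernel) (by decide +kernel)

end Pool.Agent.TH848.KM
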