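import Pool.Agent.TH848.KM.Tree

/-!
A Steiner system `S(2,6,346)`: 69 copies of an abelian group of order 5 and 1 fixed points.
-/

set_option autoImplicit false
set_option maxRecDepth 100000

namespace Pool.Agent.TH848.KM

open Pool.Agent.H816R2.KM2

def t346_0 : BT :=
  (.node (.node (.node (.node (.node (.leaf [0, 1, 156, 176, 247, 254])
  (.leaf [0, 2, 13, 32, 45, 164])
 ) (.node (.leaf [0, 5, 26, 180, 280, 298])
  (.leaf [0, 6, 137, 204, 268, 286])
 )) (.node (.node (.leaf [0, 7, 241, 257, 273, 306])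
  (.leaf [0, 8, 138, 154, 212, 252])
 ) (.node (.leaf [0, 9, 60, 126, 182, 198])
  (.leaf [0, 10, 114, 184, 271, 311])
 ))) (.node (.node (.node (.leaf [0, 12, 107, 131, 210, 269])
  (.leaf [0, 14, 54, 111, 203, 331])
 ) (.node (.leaf [0, 15, 68, 80, 189, 334])
  (.leaf [0, 16, 73, 149, 279, 319])
 )) (.node (.node (.leaf [0, 17, 98, 159, 239, 336])
  (.leaf [0, 18, 106, 152, 282, 287])
 ) (.node (.leaf [0, 19, 36, 91, 243, 266])
  (.leaf [0, 20, 96, 194, 221, 289])
 )))) (.node (.node (.node (.node (.leaf [0, 21, 24, 64, 233, 248])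
  (.leaf [0, 22, 27, 100, 301, 341])
 ) (.node (.leaf [0, 23, 44, 136, 283, 343])
  (.leaf [0, 25, 42, 74, 183, 217])
 )) (.node (.node (.leaf [0, 28, 93, 170, 255, 275])
  (.leaf [0, 29, 119, 153, 208, 228])
 ) (.node (.leaf [0, 31, 195, 231, 295, 328])
  (.leaf [0, 33, 55, 61, 235, 265])
 ))) (.node (.node (.node (.leaf [0, 34, 90, 134, 192, 309])
  (.leaf [0, 35, 66, 196, 209, 276])
 ) (.node (.leaf [0, 37, 62, 193, 259, 293])
  (.leaf [0, 38, 181, 186, 307, 322])
 )) (.node (.node (.leaf [0, 39, 127, 174, 281, 326])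
  (.leaf [0, 40, 78, 124, 285, 296])
 ) (.node (.leaf [0, 41, 146, 211, 300, 302])
  (.leaf [0, 43, 166, 185, 201, 323])
 )))))

def t346_1 : BT :=
  (.node (.node (.node (.node (.node (.leaf [0, 46, 158, 173, 223, 333])
  (.leaf [0, 47, 202, 229, 290, 314])
 ) (.node (.leaf [0, 49, 72, 142, 190, 238])
  (.leaf [0, 50, 82, 262, 313, 315])
 )) (.node (.node (.leaf [0, 51, 112, 150, 237, 294])
  (.leaf [0, 52, 129, 143, 214, 263])
 ) (.node (.leaf [0, 53, 101, 115, 274, 344])
  (.leaf [0, 56, 89, 151, 191, 332])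
 ))) (.node (.node (.node (.leaf [0, 57, 86, 157, 305, 340])
  (.leaf [0, 58, 71, 140, 207, 222])
 ) (.node (.leaf [0, 59, 123, 132, 272, 303])
  (.leaf [0, 63, 102, 113, 160, 168])
 )) (.node (.node (.leaf [0, 65, 94, 213, 219, 284])
  (.leaf [0, 67, 81, 179, 187, 267])
 ) (.node (.leaf [0, 69, 205, 236, 244, 251])
  (.leaf [0, 70, 128, 200, 299, 321])
 )))) (.node (.node (.node (.node (.leaf [0, 75, 141, 161, 197, 291])
  (.leaf [0, 76, 165, 172, 256, 339])
 ) (.node (.leaf [0, 77, 121, 215, 232, 297])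
  (.leaf [0, 79, 220, 226, 308, 325])
 )) (.node (.node (.leaf [0, 83, 84, 249, 258, 327])
  (.leaf [0, 85, 99, 148, 310, 312])
 ) (.node (.leaf [0, 87, 139, 316, 337, 342])
  (.leaf [0, 88, 116, 177, 206, 330])
 ))) (.node (.node (.node (.leaf [0, 92, 122, 135, 225, 242])
  (.leaf [0, 95, 120, 230, 278, 324])
 ) (.node (.leaf [0, 97, 125, 178, 270, 292])
  (.leaf [0, 103, 144, 188, 260, 317])
 )) (.node (.node (.leaf [0, 104, 130, 167, 240, 335])
  (.leaf [0, 105, 109, 110, 261, 264])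
 ) (.node (.leaf [0, 108, 147, 169, 318, 329])
  (.leaf [0, 117, 216, 218, 224, 245])
 )))))

def t346_2 : BT :=
  (.node (.node (.node (.node (.node (.leaf [0, 118, 199, 250, 277, 320])
  (.leaf [0, 133, 145, 163, 171, 345])
 ) (.node (.leaf [0, 227, 234, 288, 304, 338])
  (.leaf [5, 6, 126, 154, 287, 300])
 )) (.node (.node (.leaf [5, 7, 121, 248, 258, 312])
  (.leaf [5, 10, 75, 185, 283, 290])
 ) (.node (.leaf [5, 11, 29, 144, 224, 257])
  (.leaf [5, 12, 150, 192, 306, 327])
 ))) (.node (.node (.node (.leaf [5, 13, 30, 56, 58, 65])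
  (.leaf [5, 14, 158, 213, 225, 272])
 ) (.node (.leaf [5, 15, 87, 161, 201, 252])
  (.leaf [5, 16, 25, 107, 250, 339])
 )) (.node (.node (.leaf [5, 17, 69, 164, 215, 233])
  (.leaf [5, 18, 196, 226, 237, 251])
 ) (.node (.leaf [5, 19, 46, 131, 311, 343])
  (.leaf [5, 20, 132, 189, 238, 293])
 )))) (.node (.node (.node (.node (.leaf [5, 21, 49, 99, 259, 262])
  (.leaf [5, 22, 32, 145, 182, 212])
 ) (.node (.leaf [5, 23, 42, 109, 194, 229])
  (.leaf [5, 24, 35, 55, 84, 156])
 )) (.node (.node (.leaf [5, 27, 74, 111, 187, 268])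
  (.leaf [5, 28, 47, 168, 209, 232])
 ) (.node (.leaf [5, 31, 53, 140, 275, 296])
  (.leaf [5, 33, 36, 179, 198, 331])
 ))) (.node (.node (.node (.leaf [5, 34, 133, 219, 249, 318])
  (.leaf [5, 37, 70, 177, 228, 243])
 ) (.node (.leaf [5, 38, 96, 172, 241, 337])
  (.leaf [5, 39, 128, 141, 227, 247])
 )) (.node (.node (.leaf [5, 40, 86, 216, 265, 307])
  (.leaf [5, 41, 72, 105, 197, 274])
 ) (.node (.leaf [5, 43, 63, 143, 200, 242])
  (.leaf [5, 44, 54, 134, 163, 173])
 )))))

def t346_3 : BT :=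
  (.node (.node (.node (.node (.node (.leaf [5, 45, 193, 206, 282, 289])
  (.leaf [5, 48, 114, 149, 202, 288])
 ) (.node (.leaf [5, 50, 57, 119, 302, 316])
  (.leaf [5, 51, 68, 120, 253, 279])
 )) (.node (.node (.leaf [5, 52, 155, 157, 277, 322])
  (.leaf [5, 59, 92, 146, 270, 344])
 ) (.node (.leaf [5, 60, 112, 129, 186, 208])
  (.leaf [5, 62, 148, 181, 314, 317])
 ))) (.node (.node (.node (.leaf [5, 64, 130, 162, 188, 299])
  (.leaf [5, 66, 139, 142, 261, 335])
 ) (.node (.leaf [5, 67, 102, 167, 220, 334])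
  (.leaf [5, 71, 73, 91, 264, 332])
 )) (.node (.node (.leaf [5, 76, 89, 108, 123, 342])
  (.leaf [5, 77, 82, 320, 338, 341])
 ) (.node (.leaf [5, 78, 170, 184, 235, 326])
  (.leaf [5, 79, 103, 118, 295, 313])
 )))) (.node (.node (.node (.node (.leaf [5, 80, 176, 223, 308, 315])
  (.leaf [5, 81, 190, 195, 273, 323])
 ) (.node (.leaf [5, 83, 122, 138, 324, 329])
  (.leaf [5, 85, 210, 260, 297, 328])
 )) (.node (.node (.leaf [5, 88, 94, 169, 245, 333])
  (.leaf [5, 90, 98, 160, 218, 222])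
 ) (.node (.leaf [5, 93, 97, 115, 291, 345])
  (.leaf [5, 95, 110, 166, 205, 211])
 ))) (.node (.node (.node (.leaf [5, 100, 178, 240, 276, 294])
  (.leaf [5, 101, 221, 234, 303, 321])
 ) (.node (.leaf [5, 104, 207, 231, 263, 266])
  (.leaf [5, 106, 117, 174, 278, 292])
 )) (.node (.node (.leaf [5, 113, 147, 175, 239, 330])
  (.leaf [5, 116, 137, 230, 236, 325])
 ) (.node (.leaf [5, 152, 159, 165, 281, 340])
  (.leaf [5, 171, 204, 217, 305, 319])
 )))))

def t346_4 : BT :=
  (.node (.node (.node (.node (.node (.leaf [5, 191, 269, 284, 301, 336])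
  (.leaf [10, 11, 46, 233, 245, 300])
 ) (.node (.leaf [10, 12, 78, 99, 207, 240])
  (.leaf [10, 15, 52, 135, 199, 217])
 )) (.node (.node (.leaf [10, 16, 87, 261, 303, 315])
  (.leaf [10, 17, 200, 210, 289, 326])
 ) (.node (.leaf [10, 18, 117, 157, 296, 306])
  (.leaf [10, 19, 64, 88, 89, 142])
 ))) (.node (.node (.node (.leaf [10, 20, 37, 166, 276, 292])
  (.leaf [10, 21, 43, 100, 202, 270])
 ) (.node (.leaf [10, 22, 85, 146, 274, 287])
  (.leaf [10, 23, 68, 95, 195, 227])
 )) (.node (.node (.leaf [10, 24, 197, 263, 280, 299])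
  (.leaf [10, 25, 48, 82, 228, 235])
 ) (.node (.leaf [10, 26, 119, 156, 255, 301])
  (.leaf [10, 27, 79, 178, 275, 344])
 )))) (.node (.node (.node (.node (.leaf [10, 29, 42, 152, 305, 323])
  (.leaf [10, 30, 74, 167, 194, 201])
 ) (.node (.leaf [10, 31, 110, 128, 284, 293])
  (.leaf [10, 33, 163, 164, 234, 339])
 )) (.node (.node (.leaf [10, 35, 39, 116, 193, 237])
  (.leaf [10, 36, 84, 168, 230, 314])
 ) (.node (.leaf [10, 38, 56, 104, 209, 225])
  (.leaf [10, 40, 103, 242, 250, 310])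
 ))) (.node (.node (.node (.leaf [10, 41, 92, 140, 288, 342])
  (.leaf [10, 44, 130, 172, 212, 251])
 ) (.node (.leaf [10, 49, 127, 131, 244, 265])
  (.leaf [10, 51, 60, 188, 282, 318])
 )) (.node (.node (.leaf [10, 53, 93, 198, 279, 285])
  (.leaf [10, 54, 138, 144, 241, 330])
 ) (.node (.leaf [10, 57, 98, 145, 259, 334])
  (.leaf [10, 59, 191, 216, 313, 317])
 )))))

def t346_5 : BT :=
  (.node (.node (.node (.node (.node (.leaf [10, 61, 115, 169, 215, 238])
  (.leaf [10, 62, 124, 147, 222, 247])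
 ) (.node (.leaf [10, 63, 77, 136, 262, 331])
  (.leaf [10, 65, 239, 246, 278, 307])
 )) (.node (.node (.leaf [10, 66, 129, 160, 298, 343])
  (.leaf [10, 69, 90, 151, 211, 333])
 ) (.node (.leaf [10, 70, 154, 257, 264, 286])
  (.leaf [10, 71, 83, 102, 118, 341])
 ))) (.node (.node (.node (.leaf [10, 72, 126, 180, 254, 322])
  (.leaf [10, 73, 96, 174, 277, 340])
 ) (.node (.leaf [10, 80, 141, 165, 294, 320])
  (.leaf [10, 81, 86, 91, 206, 338])
 )) (.node (.node (.leaf [10, 94, 139, 187, 248, 295])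
  (.leaf [10, 101, 137, 171, 297, 308])
 ) (.node (.leaf [10, 106, 203, 221, 253, 266])
  (.leaf [10, 107, 120, 150, 224, 302])
 )))) (.node (.node (.node (.node (.leaf [10, 108, 162, 219, 258, 324])
  (.leaf [10, 109, 170, 173, 181, 268])
 ) (.node (.leaf [10, 111, 133, 177, 327, 329])
  (.leaf [10, 113, 121, 122, 196, 335])
 )) (.node (.node (.leaf [10, 123, 183, 189, 281, 316])
  (.leaf [10, 125, 186, 236, 272, 328])
 ) (.node (.leaf [10, 132, 175, 192, 231, 321])
  (.leaf [10, 148, 149, 155, 252, 269])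
 ))) (.node (.node (.node (.leaf [10, 158, 176, 319, 336, 345])
  (.leaf [10, 179, 182, 218, 229, 260])
 ) (.node (.leaf [10, 208, 220, 291, 312, 337])
  (.leaf [15, 16, 34, 196, 256, 328])
 )) (.node (.node (.leaf [15, 17, 50, 104, 184, 330])
  (.leaf [15, 20, 115, 190, 277, 314])
 ) (.node (.leaf [15, 21, 117, 169, 223, 236])
  (.leaf [15, 22, 179, 250, 262, 324])
 )))))

def t346_6 : BT :=
  (.node (.node (.node (.node (.node (.leaf [15, 23, 145, 235, 297, 323])
  (.leaf [15, 24, 44, 66, 94, 151])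
 ) (.node (.leaf [15, 25, 27, 124, 233, 263])
  (.leaf [15, 26, 48, 122, 137, 168])
 )) (.node (.node (.leaf [15, 28, 140, 200, 212, 300])
  (.leaf [15, 30, 147, 152, 204, 232])
 ) (.node (.leaf [15, 31, 116, 146, 186, 259])
  (.leaf [15, 32, 82, 139, 282, 345])
 ))) (.node (.node (.node (.leaf [15, 35, 99, 185, 295, 304])
  (.leaf [15, 36, 55, 98, 246, 281])
 ) (.node (.leaf [15, 38, 61, 76, 274, 315])
  (.leaf [15, 39, 121, 123, 264, 285])
 )) (.node (.node (.leaf [15, 40, 95, 97, 191, 219])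
  (.leaf [15, 41, 46, 118, 221, 222])
 ) (.node (.leaf [15, 42, 54, 167, 242, 271])
  (.leaf [15, 43, 79, 149, 227, 261])
 )))) (.node (.node (.node (.node (.leaf [15, 45, 177, 181, 208, 292])
  (.leaf [15, 49, 73, 153, 316, 321])
 ) (.node (.leaf [15, 51, 77, 110, 224, 248])
  (.leaf [15, 56, 64, 91, 178, 342])
 )) (.node (.node (.leaf [15, 57, 65, 109, 220, 241])
  (.leaf [15, 58, 83, 103, 214, 240])
 ) (.node (.leaf [15, 59, 105, 131, 294, 341])
  (.leaf [15, 62, 75, 170, 180, 251])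
 ))) (.node (.node (.node (.leaf [15, 63, 71, 84, 211, 296])
  (.leaf [15, 69, 166, 172, 280, 310])
 ) (.node (.leaf [15, 70, 249, 268, 270, 273])
  (.leaf [15, 74, 113, 325, 336, 343])
 )) (.node (.node (.leaf [15, 78, 142, 158, 193, 331])
  (.leaf [15, 81, 173, 197, 265, 279])
 ) (.node (.leaf [15, 88, 163, 175, 275, 340])
  (.leaf [15, 90, 164, 202, 207, 305])
 )))))

def t346_7 : BT :=
  (.node (.node (.node (.node (.node (.leaf [15, 93, 129, 134, 206, 337])
  (.leaf [15, 100, 101, 150, 272, 293])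
 ) (.node (.leaf [15, 107, 144, 176, 230, 238])
  (.leaf [15, 111, 126, 209, 226, 283])
 )) (.node (.node (.leaf [15, 112, 128, 160, 301, 311])
  (.leaf [15, 114, 216, 269, 299, 322])
 ) (.node (.leaf [15, 120, 133, 229, 309, 320])
  (.leaf [15, 125, 165, 174, 188, 335])
 ))) (.node (.node (.node (.leaf [15, 127, 138, 243, 291, 313])
  (.leaf [15, 130, 136, 194, 225, 290])
 ) (.node (.leaf [15, 141, 210, 266, 306, 317])
  (.leaf [15, 155, 205, 215, 303, 326])
 )) (.node (.node (.leaf [15, 156, 187, 245, 286, 288])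
  (.leaf [15, 171, 183, 234, 257, 258])
 ) (.node (.leaf [15, 192, 247, 276, 307, 332])
  (.leaf [20, 21, 47, 170, 187, 200])
 )))) (.node (.node (.node (.node (.leaf [20, 26, 87, 153, 254, 333])
  (.leaf [20, 27, 43, 61, 236, 335])
 ) (.node (.leaf [20, 28, 108, 184, 241, 279])
  (.leaf [20, 29, 78, 128, 278, 345])
 )) (.node (.node (.leaf [20, 31, 54, 135, 215, 267])
  (.leaf [20, 32, 92, 120, 313, 325])
 ) (.node (.leaf [20, 33, 86, 169, 239, 243])
  (.leaf [20, 34, 77, 118, 319, 321])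
 ))) (.node (.node (.node (.leaf [20, 35, 71, 195, 288, 312])
  (.leaf [20, 38, 75, 83, 266, 331])
 ) (.node (.leaf [20, 39, 122, 156, 207, 209])
  (.leaf [20, 45, 51, 52, 291, 301])
 )) (.node (.node (.leaf [20, 49, 125, 154, 158, 343])
  (.leaf [20, 50, 84, 113, 224, 255])
 ) (.node (.leaf [20, 53, 81, 145, 244, 263])
  (.leaf [20, 55, 64, 196, 225, 316])
 )))))

def t346_8 : BT :=
  (.node (.node (.node (.node (.node (.leaf [20, 57, 117, 127, 211, 275])
  (.leaf [20, 58, 167, 246, 273, 328])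
 ) (.node (.leaf [20, 59, 69, 206, 271, 305])
  (.leaf [20, 62, 68, 105, 208, 230])
 )) (.node (.node (.leaf [20, 66, 182, 265, 300, 311])
  (.leaf [20, 70, 111, 219, 256, 308])
 ) (.node (.leaf [20, 72, 112, 171, 302, 310])
  (.leaf [20, 73, 102, 130, 257, 339])
 ))) (.node (.node (.node (.leaf [20, 74, 109, 164, 223, 337])
  (.leaf [20, 76, 99, 143, 245, 307])
 ) (.node (.leaf [20, 79, 85, 94, 136, 165])
  (.leaf [20, 82, 100, 183, 218, 303])
 )) (.node (.node (.leaf [20, 89, 95, 129, 250, 297])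
  (.leaf [20, 91, 181, 251, 282, 315])
 ) (.node (.leaf [20, 93, 213, 227, 233, 259])
  (.leaf [20, 101, 123, 185, 231, 318])
 )))) (.node (.node (.node (.node (.leaf [20, 107, 134, 137, 216, 330])
  (.leaf [20, 110, 150, 193, 252, 298])
 ) (.node (.leaf [20, 114, 141, 179, 287, 309])
  (.leaf [20, 119, 173, 205, 286, 324])
 )) (.node (.node (.leaf [20, 121, 172, 175, 296, 342])
  (.leaf [20, 124, 144, 162, 217, 334])
 ) (.node (.leaf [20, 126, 133, 317, 332, 341])
  (.leaf [20, 131, 151, 178, 199, 248])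
 ))) (.node (.node (.node (.leaf [20, 139, 146, 161, 306, 326])
  (.leaf [20, 140, 142, 155, 268, 336])
 ) (.node (.leaf [20, 159, 240, 262, 283, 329])
  (.leaf [20, 160, 202, 228, 242, 269])
 )) (.node (.node (.leaf [20, 163, 192, 212, 284, 323])
  (.leaf [20, 176, 203, 220, 270, 327])
 ) (.node (.leaf [20, 188, 214, 290, 294, 338])
  (.leaf [25, 26, 208, 226, 314, 323])
 )))))

def t346_9 : BT :=
  (.node (.node (.node (.node (.node (.leaf [25, 30, 37, 83, 307, 312])
  (.leaf [25, 31, 73, 157, 230, 331])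
 ) (.node (.leaf [25, 32, 133, 137, 194, 198])
  (.leaf [25, 33, 88, 127, 268, 280])
 )) (.node (.node (.leaf [25, 34, 145, 173, 240, 287])
  (.leaf [25, 35, 95, 102, 109, 125])
 ) (.node (.leaf [25, 36, 46, 187, 265, 271])
  (.leaf [25, 38, 80, 179, 180, 330])
 ))) (.node (.node (.node (.leaf [25, 39, 110, 117, 201, 336])
  (.leaf [25, 40, 92, 200, 305, 309])
 ) (.node (.leaf [25, 44, 68, 148, 291, 298])
  (.leaf [25, 45, 211, 224, 241, 247])
 )) (.node (.node (.leaf [25, 50, 162, 203, 264, 328])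
  (.leaf [25, 51, 59, 93, 295, 310])
 ) (.node (.leaf [25, 52, 177, 222, 288, 308])
  (.leaf [25, 53, 67, 98, 168, 341])
 )))) (.node (.node (.node (.node (.leaf [25, 54, 61, 321, 337, 343])
  (.leaf [25, 55, 138, 174, 189, 213])
 ) (.node (.leaf [25, 56, 130, 182, 255, 281])
  (.leaf [25, 57, 128, 143, 317, 320])
 )) (.node (.node (.leaf [25, 58, 245, 248, 292, 329])
  (.leaf [25, 60, 96, 141, 283, 303])
 ) (.node (.leaf [25, 62, 219, 238, 275, 289])
  (.leaf [25, 63, 126, 139, 246, 333])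
 ))) (.node (.node (.node (.leaf [25, 65, 147, 190, 227, 296])
  (.leaf [25, 66, 100, 171, 212, 216])
 ) (.node (.leaf [25, 69, 97, 204, 223, 327])
  (.leaf [25, 70, 84, 164, 251, 260])
 )) (.node (.node (.leaf [25, 71, 81, 135, 270, 315])
  (.leaf [25, 75, 111, 132, 134, 156])
 ) (.node (.leaf [25, 76, 131, 254, 272, 326])
  (.leaf [25, 78, 91, 104, 286, 290])
 )))))

def t346_10 : BT :=
  (.node (.node (.node (.node (.node (.leaf [25, 85, 175, 178, 195, 256])
  (.leaf [25, 87, 112, 116, 192, 242])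
 ) (.node (.leaf [25, 89, 113, 144, 274, 340])
  (.leaf [25, 94, 159, 236, 294, 316])
 )) (.node (.node (.leaf [25, 99, 120, 158, 232, 237])
  (.leaf [25, 101, 119, 170, 262, 269])
 ) (.node (.leaf [25, 106, 146, 163, 205, 335])
  (.leaf [25, 108, 150, 244, 299, 319])
 ))) (.node (.node (.node (.leaf [25, 123, 191, 193, 199, 249])
  (.leaf [25, 149, 186, 218, 282, 325])
 ) (.node (.leaf [25, 151, 160, 197, 210, 318])
  (.leaf [25, 161, 196, 215, 293, 301])
 )) (.node (.node (.leaf [25, 166, 169, 221, 267, 311])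
  (.leaf [25, 188, 252, 273, 285, 334])
 ) (.node (.leaf [30, 31, 43, 255, 287, 326])
  (.leaf [30, 32, 128, 159, 246, 339])
 )))) (.node (.node (.node (.node (.leaf [30, 35, 54, 120, 181, 335])
  (.leaf [30, 36, 44, 138, 142, 342])
 ) (.node (.leaf [30, 39, 47, 163, 313, 343])
  (.leaf [30, 40, 100, 177, 290, 340])
 )) (.node (.node (.leaf [30, 41, 50, 81, 198, 238])
  (.leaf [30, 45, 105, 205, 278, 297])
 ) (.node (.leaf [30, 46, 102, 324, 332, 344])
  (.leaf [30, 49, 94, 108, 218, 243])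
 ))) (.node (.node (.node (.leaf [30, 51, 75, 175, 187, 207])
  (.leaf [30, 55, 165, 173, 233, 253])
 ) (.node (.leaf [30, 59, 103, 122, 268, 338])
  (.leaf [30, 60, 169, 190, 289, 308])
 )) (.node (.node (.leaf [30, 61, 66, 116, 188, 254])
  (.leaf [30, 62, 106, 178, 285, 320])
 ) (.node (.leaf [30, 64, 67, 150, 270, 276])
  (.leaf [30, 68, 112, 117, 229, 262])
 )))))

def t346_11 : BT :=
  (.node (.node (.node (.node (.node (.leaf [30, 69, 125, 171, 227, 334])
  (.leaf [30, 70, 77, 214, 235, 301])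
 ) (.node (.leaf [30, 71, 212, 247, 281, 318])
  (.leaf [30, 73, 84, 95, 99, 179])
 )) (.node (.node (.leaf [30, 76, 82, 86, 304, 309])
  (.leaf [30, 79, 96, 113, 273, 341])
 ) (.node (.leaf [30, 87, 104, 133, 208, 250])
  (.leaf [30, 89, 109, 158, 217, 310])
 ))) (.node (.node (.node (.leaf [30, 92, 203, 228, 302, 323])
  (.leaf [30, 93, 149, 184, 223, 316])
 ) (.node (.leaf [30, 97, 172, 220, 261, 293])
  (.leaf [30, 98, 164, 186, 226, 277])
 )) (.node (.node (.leaf [30, 101, 118, 183, 191, 314])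
  (.leaf [30, 107, 124, 211, 239, 306])
 ) (.node (.leaf [30, 110, 222, 256, 275, 303])
  (.leaf [30, 111, 140, 213, 274, 317])
 )))) (.node (.node (.node (.node (.leaf [30, 121, 132, 154, 263, 269])
  (.leaf [30, 136, 182, 206, 224, 242])
 ) (.node (.leaf [30, 141, 216, 225, 251, 252])
  (.leaf [30, 143, 189, 221, 296, 298])
 )) (.node (.node (.leaf [30, 151, 202, 209, 272, 321])
  (.leaf [30, 153, 170, 248, 284, 294])
 ) (.node (.leaf [30, 155, 168, 200, 264, 271])
  (.leaf [30, 244, 260, 291, 300, 331])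
 ))) (.node (.node (.node (.leaf [35, 37, 110, 220, 281, 322])
  (.leaf [35, 40, 211, 259, 277, 297])
 ) (.node (.leaf [35, 41, 127, 149, 307, 343])
  (.leaf [35, 42, 135, 250, 311, 316])
 )) (.node (.node (.leaf [35, 44, 56, 162, 192, 331])
  (.leaf [35, 46, 50, 146, 210, 251])
 ) (.node (.leaf [35, 47, 86, 104, 203, 247])
  (.leaf [35, 49, 89, 225, 256, 319])
 )))))

def t346_12 : BT :=
  (.node (.node (.node (.node (.node (.leaf [35, 51, 145, 236, 249, 292])
  (.leaf [35, 52, 57, 190, 204, 326])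
 ) (.node (.leaf [35, 53, 64, 68, 321, 328])
  (.leaf [35, 61, 72, 140, 306, 345])
 )) (.node (.node (.leaf [35, 62, 85, 134, 200, 255])
  (.leaf [35, 65, 103, 148, 198, 218])
 ) (.node (.leaf [35, 67, 70, 79, 107, 151])
  (.leaf [35, 69, 105, 114, 285, 340])
 ))) (.node (.node (.node (.leaf [35, 74, 130, 219, 230, 287])
  (.leaf [35, 75, 133, 143, 231, 244])
 ) (.node (.leaf [35, 76, 119, 161, 214, 224])
  (.leaf [35, 87, 108, 213, 246, 323])
 )) (.node (.node (.leaf [35, 88, 121, 217, 274, 293])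
  (.leaf [35, 91, 163, 177, 283, 299])
 ) (.node (.leaf [35, 92, 115, 152, 264, 294])
  (.leaf [35, 93, 155, 165, 207, 221])
 )))) (.node (.node (.node (.node (.leaf [35, 94, 158, 172, 239, 263])
  (.leaf [35, 96, 147, 315, 338, 342])
 ) (.node (.leaf [35, 100, 179, 222, 266, 298])
  (.leaf [35, 106, 235, 240, 300, 318])
 )) (.node (.node (.leaf [35, 112, 189, 201, 212, 233])
  (.leaf [35, 126, 132, 168, 229, 334])
 ) (.node (.leaf [35, 131, 138, 159, 275, 301])
  (.leaf [35, 136, 252, 254, 302, 303])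
 ))) (.node (.node (.node (.leaf [35, 139, 160, 171, 272, 273])
  (.leaf [35, 144, 187, 199, 258, 262])
 ) (.node (.leaf [35, 150, 153, 173, 232, 261])
  (.leaf [35, 154, 180, 184, 278, 325])
 )) (.node (.node (.leaf [35, 166, 215, 253, 289, 329])
  (.leaf [35, 216, 267, 296, 308, 336])
 ) (.node (.leaf [40, 41, 209, 248, 256, 269])
  (.leaf [40, 42, 65, 120, 288, 291])
 )))))

def t346_13 : BT :=
  (.node (.node (.node (.node (.node (.leaf [40, 46, 73, 101, 121, 125])
  (.leaf [40, 47, 66, 157, 189, 195])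
 ) (.node (.leaf [40, 48, 77, 178, 282, 322])
  (.leaf [40, 49, 56, 61, 261, 338])
 )) (.node (.node (.leaf [40, 51, 99, 228, 246, 283])
  (.leaf [40, 53, 129, 167, 217, 232])
 ) (.node (.leaf [40, 55, 70, 153, 185, 186])
  (.leaf [40, 58, 113, 119, 295, 300])
 ))) (.node (.node (.node (.leaf [40, 59, 118, 184, 260, 324])
  (.leaf [40, 62, 169, 258, 264, 303])
 ) (.node (.leaf [40, 64, 112, 132, 226, 330])
  (.leaf [40, 74, 85, 88, 225, 233])
 )) (.node (.node (.leaf [40, 75, 82, 128, 201, 335])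
  (.leaf [40, 79, 104, 239, 280, 281])
 ) (.node (.leaf [40, 81, 114, 133, 218, 333])
  (.leaf [40, 83, 105, 180, 206, 302])
 )))) (.node (.node (.node (.node (.leaf [40, 84, 116, 154, 183, 339])
  (.leaf [40, 87, 234, 245, 275, 318])
 ) (.node (.leaf [40, 89, 188, 243, 312, 326])
  (.leaf [40, 93, 176, 199, 251, 313])
 )) (.node (.node (.leaf [40, 94, 127, 179, 235, 270])
  (.leaf [40, 96, 198, 223, 311, 329])
 ) (.node (.leaf [40, 98, 190, 266, 278, 315])
  (.leaf [40, 106, 147, 224, 236, 323])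
 ))) (.node (.node (.node (.leaf [40, 108, 166, 325, 334, 345])
  (.leaf [40, 110, 156, 172, 249, 262])
 ) (.node (.leaf [40, 111, 155, 161, 182, 267])
  (.leaf [40, 115, 135, 170, 231, 331])
 )) (.node (.node (.leaf [40, 122, 151, 159, 222, 241])
  (.leaf [40, 134, 160, 175, 212, 254])
 ) (.node (.leaf [40, 136, 205, 214, 276, 298])
  (.leaf [40, 141, 142, 207, 293, 327])
 )))))

def t346_14 : BT :=
  (.node (.node (.node (.node (.node (.leaf [40, 158, 162, 171, 316, 317])
  (.leaf [40, 194, 230, 271, 279, 336])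
 ) (.node (.leaf [45, 46, 107, 116, 229, 338])
  (.leaf [45, 47, 138, 162, 180, 194])
 )) (.node (.node (.leaf [45, 50, 108, 156, 308, 340])
  (.leaf [45, 53, 176, 234, 281, 325])
 ) (.node (.leaf [45, 55, 81, 87, 210, 335])
  (.leaf [45, 56, 103, 135, 184, 287])
 ))) (.node (.node (.node (.leaf [45, 58, 75, 149, 216, 256])
  (.leaf [45, 59, 209, 236, 238, 267])
 ) (.node (.leaf [45, 60, 158, 215, 290, 296])
  (.leaf [45, 61, 112, 170, 217, 280])
 )) (.node (.node (.leaf [45, 63, 80, 151, 283, 305])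
  (.leaf [45, 64, 97, 195, 254, 271])
 ) (.node (.leaf [45, 65, 169, 178, 189, 300])
  (.leaf [45, 66, 86, 131, 259, 264])
 )))) (.node (.node (.node (.node (.leaf [45, 67, 121, 153, 295, 345])
  (.leaf [45, 68, 134, 140, 182, 248])
 ) (.node (.leaf [45, 70, 148, 167, 294, 307])
  (.leaf [45, 71, 92, 93, 272, 286])
 )) (.node (.node (.leaf [45, 76, 168, 199, 298, 316])
  (.leaf [45, 77, 171, 213, 242, 318])
 ) (.node (.leaf [45, 78, 98, 125, 252, 330])
  (.leaf [45, 82, 223, 243, 314, 321])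
 ))) (.node (.node (.node (.leaf [45, 83, 123, 141, 274, 279])
  (.leaf [45, 88, 96, 152, 302, 327])
 ) (.node (.leaf [45, 91, 114, 190, 253, 328])
  (.leaf [45, 94, 174, 265, 303, 329])
 )) (.node (.node (.leaf [45, 99, 119, 147, 231, 334])
  (.leaf [45, 104, 122, 179, 212, 333])
 ) (.node (.leaf [45, 110, 118, 196, 197, 309])
  (.leaf [45, 113, 127, 233, 251, 299])
 )))))

def t346_15 : BT :=
  (.node (.node (.node (.node (.node (.leaf [45, 133, 188, 202, 275, 319])
  (.leaf [45, 137, 260, 261, 276, 326])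
 ) (.node (.leaf [45, 142, 235, 258, 273, 320])
  (.leaf [45, 144, 163, 268, 288, 306])
 )) (.node (.node (.leaf [45, 218, 246, 277, 313, 336])
  (.leaf [50, 52, 68, 207, 269, 312])
 ) (.node (.leaf [50, 56, 87, 102, 285, 345])
  (.leaf [50, 59, 163, 167, 279, 289])
 ))) (.node (.node (.node (.leaf [50, 60, 116, 125, 135, 159])
  (.leaf [50, 63, 233, 240, 273, 324])
 ) (.node (.leaf [50, 70, 201, 217, 244, 254])
  (.leaf [50, 71, 123, 173, 190, 228])
 )) (.node (.node (.leaf [50, 72, 78, 166, 250, 337])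
  (.leaf [50, 73, 97, 171, 237, 253])
 ) (.node (.leaf [50, 74, 133, 151, 311, 342])
  (.leaf [50, 75, 105, 150, 191, 259])
 )))) (.node (.node (.node (.node (.leaf [50, 77, 148, 263, 296, 309])
  (.leaf [50, 80, 134, 170, 222, 295])
 ) (.node (.leaf [50, 85, 128, 153, 181, 209])
  (.leaf [50, 86, 100, 172, 188, 225])
 )) (.node (.node (.leaf [50, 88, 137, 160, 199, 339])
  (.leaf [50, 89, 107, 110, 213, 258])
 ) (.node (.leaf [50, 91, 180, 192, 249, 256])
  (.leaf [50, 93, 106, 120, 185, 333])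
 ))) (.node (.node (.node (.leaf [50, 94, 189, 194, 301, 321])
  (.leaf [50, 96, 101, 109, 265, 334])
 ) (.node (.leaf [50, 99, 183, 214, 297, 326])
  (.leaf [50, 115, 118, 122, 143, 177])
 )) (.node (.node (.leaf [50, 129, 132, 200, 221, 288])
  (.leaf [50, 131, 144, 229, 266, 319])
 ) (.node (.leaf [50, 145, 196, 208, 270, 280])
  (.leaf [50, 152, 230, 257, 292, 307])
 )))))

def t346_16 : BT :=
  (.node (.node (.node (.node (.node (.leaf [50, 157, 176, 211, 218, 274])
  (.leaf [50, 161, 226, 239, 284, 318])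
 ) (.node (.leaf [50, 232, 246, 303, 305, 335])
  (.leaf [55, 56, 172, 195, 221, 305])
 )) (.node (.node (.leaf [55, 62, 158, 194, 254, 291])
  (.leaf [55, 66, 163, 327, 334, 344])
 ) (.node (.leaf [55, 71, 159, 176, 284, 299])
  (.leaf [55, 72, 128, 232, 279, 312])
 ))) (.node (.node (.node (.leaf [55, 74, 105, 129, 188, 203])
  (.leaf [55, 75, 157, 178, 206, 301])
 ) (.node (.leaf [55, 76, 92, 160, 184, 249])
  (.leaf [55, 78, 97, 113, 198, 231])
 )) (.node (.node (.leaf [55, 79, 111, 137, 238, 336])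
  (.leaf [55, 82, 108, 179, 204, 227])
 ) (.node (.leaf [55, 83, 121, 143, 222, 251])
  (.leaf [55, 85, 170, 197, 292, 322])
 )))) (.node (.node (.node (.node (.leaf [55, 91, 140, 234, 262, 310])
  (.leaf [55, 95, 122, 200, 303, 307])
 ) (.node (.leaf [55, 99, 212, 264, 274, 313])
  (.leaf [55, 109, 216, 250, 283, 287])
 )) (.node (.node (.leaf [55, 112, 154, 240, 241, 282])
  (.leaf [55, 114, 120, 144, 182, 215])
 ) (.node (.leaf [55, 118, 130, 131, 298, 328])
  (.leaf [55, 127, 162, 256, 293, 321])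
 ))) (.node (.node (.node (.leaf [55, 135, 136, 175, 201, 230])
  (.leaf [55, 145, 243, 252, 277, 324])
 ) (.node (.leaf [55, 149, 187, 226, 228, 266])
  (.leaf [55, 151, 152, 166, 219, 338])
 )) (.node (.node (.leaf [55, 167, 255, 267, 295, 317])
  (.leaf [55, 236, 263, 276, 288, 333])
 ) (.node (.leaf [60, 61, 148, 205, 266, 327])
  (.leaf [60, 62, 123, 172, 302, 341])
 )))))

def t346_17 : BT :=
  (.node (.node (.node (.node (.node (.leaf [60, 67, 246, 251, 286, 316])
  (.leaf [60, 70, 161, 240, 247, 275])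
 ) (.node (.leaf [60, 72, 91, 117, 199, 214])
  (.leaf [60, 74, 120, 149, 222, 334])
 )) (.node (.node (.leaf [60, 76, 152, 178, 201, 218])
  (.leaf [60, 77, 137, 142, 281, 314])
 ) (.node (.leaf [60, 80, 130, 210, 285, 292])
  (.leaf [60, 83, 181, 204, 238, 261])
 ))) (.node (.node (.node (.leaf [60, 84, 107, 166, 297, 340])
  (.leaf [60, 86, 94, 114, 267, 268])
 ) (.node (.leaf [60, 87, 180, 221, 223, 225])
  (.leaf [60, 90, 124, 171, 200, 241])
 )) (.node (.node (.leaf [60, 93, 127, 228, 263, 304])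
  (.leaf [60, 95, 101, 177, 259, 335])
 ) (.node (.leaf [60, 97, 134, 155, 279, 306])
  (.leaf [60, 99, 118, 154, 211, 338])
 )))) (.node (.node (.node (.node (.leaf [60, 100, 103, 157, 194, 224])
  (.leaf [60, 102, 106, 229, 276, 325])
 ) (.node (.leaf [60, 105, 139, 175, 193, 313])
  (.leaf [60, 150, 185, 195, 311, 324])
 )) (.node (.node (.leaf [60, 160, 243, 255, 293, 328])
  (.leaf [60, 164, 231, 232, 274, 299])
 ) (.node (.leaf [60, 207, 212, 309, 310, 332])
  (.leaf [65, 66, 112, 175, 244, 336])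
 ))) (.node (.node (.node (.leaf [65, 67, 74, 137, 180, 292])
  (.leaf [65, 70, 75, 78, 182, 192])
 ) (.node (.leaf [65, 71, 134, 217, 283, 320])
  (.leaf [65, 76, 88, 155, 194, 204])
 )) (.node (.node (.leaf [65, 79, 231, 233, 242, 267])
  (.leaf [65, 80, 83, 161, 303, 340])
 ) (.node (.leaf [65, 81, 102, 163, 196, 235])
  (.leaf [65, 86, 113, 174, 294, 318])
 )))))

def t346_18 : BT :=
  (.node (.node (.node (.node (.node (.leaf [65, 87, 146, 191, 277, 321])
  (.leaf [65, 89, 116, 238, 282, 301])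
 ) (.node (.leaf [65, 90, 125, 193, 221, 315])
  (.leaf [65, 92, 117, 143, 247, 338])
 )) (.node (.node (.leaf [65, 95, 139, 225, 271, 287])
  (.leaf [65, 99, 171, 202, 203, 299])
 ) (.node (.leaf [65, 101, 127, 144, 312, 327])
  (.leaf [65, 108, 230, 255, 274, 316])
 ))) (.node (.node (.node (.leaf [65, 118, 133, 149, 270, 302])
  (.leaf [65, 121, 157, 214, 313, 329])
 ) (.node (.leaf [65, 123, 158, 248, 268, 324])
  (.leaf [65, 129, 136, 159, 256, 259])
 )) (.node (.node (.leaf [65, 132, 236, 262, 285, 322])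
  (.leaf [65, 140, 168, 201, 210, 280])
 ) (.node (.leaf [65, 176, 222, 261, 309, 317])
  (.leaf [65, 251, 257, 305, 308, 337])
 )))) (.node (.node (.node (.node (.leaf [70, 71, 142, 205, 242, 329])
  (.leaf [70, 85, 147, 155, 203, 339])
 ) (.node (.leaf [70, 87, 137, 222, 296, 302])
  (.leaf [70, 88, 118, 136, 266, 305])
 )) (.node (.node (.leaf [70, 95, 178, 180, 304, 315])
  (.leaf [70, 100, 135, 149, 198, 245])
 ) (.node (.leaf [70, 102, 170, 238, 258, 281])
  (.leaf [70, 109, 120, 162, 306, 314])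
 ))) (.node (.node (.node (.leaf [70, 113, 229, 248, 297, 322])
  (.leaf [70, 116, 124, 166, 187, 196])
 ) (.node (.leaf [70, 119, 130, 165, 289, 341])
  (.leaf [70, 156, 220, 267, 290, 292])
 )) (.node (.node (.leaf [70, 157, 225, 255, 303, 325])
  (.leaf [70, 163, 191, 207, 208, 262])
 ) (.node (.leaf [70, 179, 213, 237, 291, 327])
  (.leaf [70, 233, 265, 278, 284, 332])
 )))))

def t346_19 : BT :=
  (.node (.node (.node (.node (.node (.leaf [75, 76, 215, 258, 311, 322])
  (.leaf [75, 84, 202, 226, 279, 294])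
 ) (.node (.leaf [75, 89, 120, 189, 236, 329])
  (.leaf [75, 92, 123, 163, 214, 229])
 )) (.node (.node (.leaf [75, 94, 126, 147, 302, 343])
  (.leaf [75, 102, 148, 162, 208, 277])
 ) (.node (.leaf [75, 103, 158, 204, 289, 318])
  (.leaf [75, 106, 109, 186, 245, 313])
 ))) (.node (.node (.node (.leaf [75, 115, 267, 269, 286, 327])
  (.leaf [75, 117, 131, 205, 263, 305])
 ) (.node (.leaf [75, 129, 165, 199, 264, 278])
  (.leaf [75, 136, 153, 220, 247, 272])
 )) (.node (.node (.leaf [75, 154, 188, 196, 210, 265])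
  (.leaf [75, 173, 225, 241, 285, 300])
 ) (.node (.leaf [75, 224, 250, 270, 293, 330])
  (.leaf [80, 87, 152, 240, 251, 270])
 )))) (.node (.node (.node (.node (.leaf [80, 88, 131, 156, 279, 284])
  (.leaf [80, 91, 93, 159, 187, 230])
 ) (.node (.leaf [80, 92, 109, 111, 147, 171])
  (.leaf [80, 94, 168, 215, 277, 325])
 )) (.node (.node (.leaf [80, 97, 133, 138, 206, 236])
  (.leaf [80, 98, 185, 188, 219, 264])
 ) (.node (.leaf [80, 99, 102, 112, 248, 249])
  (.leaf [80, 105, 144, 234, 282, 293])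
 ))) (.node (.node (.node (.leaf [80, 110, 154, 164, 228, 306])
  (.leaf [80, 116, 129, 218, 244, 316])
 ) (.node (.leaf [80, 118, 142, 145, 200, 247])
  (.leaf [80, 119, 155, 232, 254, 288])
 )) (.node (.node (.leaf [80, 121, 250, 265, 291, 317])
  (.leaf [80, 122, 127, 166, 191, 258])
 ) (.node (.leaf [80, 125, 128, 148, 190, 267])
  (.leaf [80, 136, 146, 207, 233, 286])
 )))))

def t346_20 : BT :=
  (.node (.node (.node (.node (.node (.leaf [80, 153, 158, 229, 287, 299])
  (.leaf [80, 173, 198, 209, 289, 327])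
 ) (.node (.leaf [80, 174, 192, 193, 273, 296])
  (.leaf [80, 213, 257, 281, 313, 331])
 )) (.node (.node (.leaf [85, 92, 97, 101, 320, 326])
  (.leaf [85, 95, 107, 167, 280, 305])
 ) (.node (.leaf [85, 116, 184, 212, 272, 314])
  (.leaf [85, 120, 127, 176, 217, 241])
 ))) (.node (.node (.node (.leaf [85, 122, 161, 235, 236, 295])
  (.leaf [85, 126, 145, 186, 231, 294])
 ) (.node (.leaf [85, 132, 182, 199, 222, 234])
  (.leaf [85, 141, 163, 180, 188, 286])
 )) (.node (.node (.leaf [85, 142, 172, 216, 223, 279])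
  (.leaf [85, 169, 193, 261, 284, 285])
 ) (.node (.leaf [85, 174, 207, 245, 289, 323])
  (.leaf [85, 198, 262, 291, 296, 334])
 )))) (.node (.node (.node (.node (.leaf [90, 96, 130, 142, 254, 259])
  (.leaf [90, 97, 139, 154, 239, 267])
 ) (.node (.leaf [90, 100, 197, 243, 283, 306])
  (.leaf [90, 101, 106, 168, 295, 324])
 )) (.node (.node (.leaf [90, 102, 111, 251, 275, 279])
  (.leaf [90, 105, 133, 147, 199, 335])
 ) (.node (.leaf [90, 112, 206, 231, 291, 316])
  (.leaf [90, 119, 136, 179, 217, 258])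
 ))) (.node (.node (.node (.leaf [90, 132, 204, 224, 284, 313])
  (.leaf [90, 140, 153, 320, 332, 343])
 ) (.node (.leaf [90, 183, 238, 272, 299, 338])
  (.leaf [95, 105, 183, 231, 292, 306])
 )) (.node (.node (.leaf [95, 106, 126, 142, 199, 201])
  (.leaf [95, 114, 124, 160, 289, 316])
 ) (.node (.leaf [95, 116, 145, 155, 281, 342])
  (.leaf [95, 117, 163, 244, 285, 321])
 )))))

def t346_21 : BT :=
  (.node (.node (.node (.node (.node (.leaf [95, 123, 130, 154, 181, 206])
  (.leaf [95, 133, 189, 190, 242, 262])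
 ) (.node (.leaf [95, 135, 153, 207, 218, 318])
  (.leaf [95, 138, 168, 214, 267, 322])
 )) (.node (.node (.leaf [95, 143, 157, 169, 226, 312])
  (.leaf [95, 164, 257, 266, 293, 320])
 ) (.node (.leaf [95, 182, 243, 286, 299, 334])
  (.leaf [100, 106, 138, 158, 187, 259])
 ))) (.node (.node (.node (.leaf [100, 112, 153, 234, 253, 327])
  (.leaf [100, 113, 192, 257, 285, 316])
 ) (.node (.leaf [100, 121, 147, 210, 228, 309])
  (.leaf [100, 125, 250, 263, 308, 318])
 )) (.node (.node (.leaf [100, 127, 193, 207, 214, 219])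
  (.leaf [100, 130, 144, 148, 231, 280])
 ) (.node (.leaf [100, 132, 186, 239, 305, 314])
  (.leaf [100, 139, 156, 164, 184, 203])
 )))) (.node (.node (.node (.node (.leaf [100, 140, 217, 237, 304, 321])
  (.leaf [100, 142, 152, 169, 196, 229])
 ) (.node (.leaf [100, 151, 162, 249, 300, 329])
  (.leaf [100, 200, 260, 274, 295, 338])
 )) (.node (.node (.leaf [105, 115, 207, 247, 298, 319])
  (.leaf [105, 117, 128, 268, 272, 325])
 ) (.node (.leaf [105, 118, 140, 161, 192, 254])
  (.leaf [105, 127, 136, 178, 279, 287])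
 ))) (.node (.node (.node (.leaf [105, 130, 170, 245, 273, 303])
  (.leaf [105, 138, 226, 250, 290, 328])
 ) (.node (.leaf [105, 143, 155, 184, 238, 270])
  (.leaf [105, 156, 194, 196, 212, 263])
 )) (.node (.node (.leaf [105, 195, 204, 280, 301, 334])
  (.leaf [110, 122, 139, 167, 290, 344])
 ) (.node (.leaf [110, 135, 138, 185, 308, 320])
  (.leaf [110, 137, 192, 214, 223, 239])
 )))))

def t346_22 : BT :=
  (.node (.node (.node (.node (.node (.leaf [110, 143, 188, 207, 277, 301])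
  (.leaf [110, 147, 179, 263, 274, 310])
 ) (.node (.leaf [110, 148, 168, 169, 182, 184])
  (.leaf [110, 157, 158, 199, 241, 321])
 )) (.node (.node (.leaf [110, 200, 238, 276, 311, 331])
  (.leaf [115, 116, 160, 189, 240, 284])
 ) (.node (.leaf [115, 120, 173, 326, 332, 340])
  (.leaf [115, 121, 127, 255, 273, 282])
 ))) (.node (.node (.node (.leaf [115, 150, 200, 203, 246, 257])
  (.leaf [115, 168, 226, 254, 293, 305])
 ) (.node (.leaf [115, 178, 225, 230, 312, 318])
  (.leaf [115, 184, 201, 275, 292, 333])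
 )) (.node (.node (.leaf [120, 128, 249, 260, 303, 310])
  (.leaf [120, 130, 184, 200, 294, 323])
 ) (.node (.leaf [120, 139, 147, 243, 258, 275])
  (.leaf [120, 145, 198, 204, 251, 255])
 )))) (.node (.node (.node (.node (.leaf [120, 168, 191, 206, 270, 319])
  (.leaf [120, 178, 202, 267, 277, 280])
 ) (.node (.leaf [120, 209, 252, 282, 284, 337])
  (.leaf [125, 126, 152, 164, 220, 235])
 )) (.node (.node (.leaf [125, 157, 182, 196, 307, 326])
  (.leaf [125, 170, 213, 232, 306, 320])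
 ) (.node (.leaf [125, 173, 199, 216, 237, 247])
  (.leaf [125, 175, 180, 243, 295, 309])
 ))) (.node (.node (.node (.leaf [125, 211, 223, 287, 288, 339])
  (.leaf [130, 145, 168, 175, 211, 248])
 ) (.node (.leaf [130, 151, 221, 235, 276, 317])
  (.leaf [130, 163, 169, 266, 274, 302])
 )) (.node (.node (.leaf [130, 199, 242, 295, 314, 336])
  (.leaf [135, 142, 154, 173, 313, 341])
 ) (.node (.leaf [135, 146, 222, 260, 280, 323])
  (.leaf [135, 167, 195, 203, 304, 319])
 )))))

def t346_23 : BT :=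
  (.node (.node (.node (.node (.node (.leaf [135, 227, 248, 281, 298, 335])
  (.leaf [140, 145, 147, 151, 172, 176])
 ) (.node (.leaf [140, 146, 190, 243, 297, 329])
  (.leaf [140, 154, 165, 255, 276, 299])
 )) (.node (.node (.leaf [140, 173, 174, 175, 194, 337])
  (.leaf [140, 180, 198, 287, 301, 333])
 ) (.node (.leaf [145, 152, 216, 238, 288, 310])
  (.leaf [145, 153, 159, 161, 189, 331])
 ))) (.node (.node (.node (.leaf [145, 191, 218, 290, 302, 335])
  (.leaf [150, 178, 179, 194, 269, 303])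
 ) (.node (.leaf [150, 228, 267, 278, 312, 338])
  (.leaf [155, 160, 172, 250, 313, 314])
 )) (.node (.node (.leaf [155, 169, 181, 213, 230, 240])
  (.leaf [155, 218, 225, 273, 297, 331])
 ) (.node (.leaf [160, 162, 167, 178, 245, 260])
  (.leaf [160, 220, 257, 274, 282, 333])
 )))) (.node (.node (.node (.node (.leaf [165, 170, 175, 205, 229, 323])
  (.leaf [165, 178, 187, 238, 247, 250])
 ) (.node (.leaf [165, 236, 242, 300, 306, 330])
  (.leaf [170, 188, 209, 270, 305, 332])
 )) (.node (.node (.leaf [175, 185, 255, 285, 310, 339])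
  (.leaf [180, 187, 191, 252, 307, 340])
 ) (.node (.leaf [180, 189, 214, 217, 277, 343])
  (.leaf [180, 195, 200, 266, 282, 344])
 ))) (.node (.node (.node (.leaf [180, 226, 230, 248, 285, 341])
  (.leaf [180, 228, 229, 238, 257, 342])
 ) (.node (.leaf [180, 247, 253, 264, 269, 345])
  (.leaf [180, 262, 270, 323, 337, 338])
 )) (.node (.node (.leaf [185, 192, 221, 232, 300, 345])
  (.leaf [185, 193, 242, 244, 247, 341])
 ) (.node (.leaf [185, 208, 224, 252, 259, 342])
  (.leaf [185, 215, 220, 228, 273, 340])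
 )))))

def t346_24 : BT :=
  (.node (.node (.node (.node (.leaf [185, 223, 275, 326, 336, 338])
  (.node (.leaf [190, 201, 214, 232, 236, 342])
  (.leaf [190, 203, 233, 235, 311, 340])
 )) (.node (.leaf [190, 219, 260, 269, 293, 341])
  (.node (.leaf [190, 229, 280, 327, 332, 336])
  (.leaf [195, 197, 224, 234, 267, 343])
 ))) (.node (.node (.leaf [195, 205, 240, 258, 302, 340])
  (.node (.leaf [195, 209, 212, 246, 291, 342])
  (.leaf [195, 216, 226, 244, 270, 345])
 )) (.node (.node (.leaf [195, 237, 285, 318, 332, 338])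
  (.leaf [200, 206, 215, 219, 263, 343])
 ) (.node (.leaf [200, 208, 236, 258, 310, 345])
  (.leaf [200, 209, 245, 254, 298, 340])
 )))) (.node (.node (.node (.leaf [200, 244, 290, 318, 334, 337])
  (.node (.leaf [205, 259, 295, 319, 331, 332])
  (.leaf [210, 221, 226, 263, 275, 342])
 )) (.node (.node (.leaf [210, 243, 257, 267, 288, 341])
  (.leaf [210, 253, 300, 324, 334, 336])
 ) (.node (.leaf [215, 234, 305, 328, 331, 336])
  (.leaf [220, 234, 250, 260, 284, 342])
 ))) (.node (.node (.leaf [235, 242, 246, 260, 309, 343])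
  (.node (.leaf [235, 253, 256, 267, 298, 342])
  (.leaf [245, 268, 310, 320, 331, 334])
 )) (.node (.node (.leaf [270, 277, 279, 281, 304, 307])
  (.leaf [270, 282, 285, 290, 306, 313])
 ) (.node (.leaf [285, 291, 295, 299, 302, 311])
  (.leaf [315, 317, 321, 325, 329, 340])
 )))))

def full346 : BT :=
  (.node (.node (.node (.node t346_0 (.node t346_1 t346_2)) (.node t346_3 (.node t346_4 t346_5))) (.node (.node t346_6 (.node t346_7 t346_8)) (.node t346_9 (.node t346_10 t346_11)))) (.node (.node (.node t346_12 (.node t346_13 t346_14)) (.node t346_15 (.node t346_16 t346_17))) (.node (.node t346_18 (.node t346_19 t346_20)) (.node (.node t346_21 t346_22) (.node t346_23 t346_24)))))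

def short346 : List (List ℕ × List ℕ) :=
  [([0], [110, 111, 112, 113, 114, 345]),
   ([0], [210, 211, 212, 213, 214, 345]),
   ([0], [320, 321, 322, 323, 324, 345]),
   ([0], [340, 341, 342, 343, 344, 345])]

theorem ex346 : ∃ 𝓑 : Set (Finset (Fin 346)), IsS2 (Fin 346) 6 𝓑 :=
  of_codedT (codedZ 5) 6 69 1 346 rfl full346 short346
    (by decide +kernel) (by decide +kernel) (by decide +kernel) (by decide +kernel)
    (by decide +kernel) (by decide +kernel)

end Pool.Agent.TH848.KM
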