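import Pool.Agent.TH848.KM.Tree

/-!
A Steiner system `S(2,6,471)`: 15 copies of an abelian group of order 31 and 6 fixed points.
-/

set_option autoImplicit false
set_option maxRecDepth 100000

namespace Pool.Agent.TH848.KM

open Pool.Agent.H816R2.KM2

def t471_0 : BT :=
  (.node (.node (.node (.node (.node (.leaf [0, 1, 47, 281, 309, 388])
  (.leaf [0, 2, 257, 272, 373, 404])
 ) (.node (.leaf [0, 3, 203, 420, 450, 452])
  (.leaf [0, 4, 157, 193, 214, 343])
 )) (.node (.node (.leaf [0, 5, 72, 88, 111, 421])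
  (.leaf [0, 6, 45, 54, 220, 437])
 ) (.node (.leaf [0, 7, 143, 174, 219, 222])
  (.leaf [0, 8, 78, 85, 159, 221])
 ))) (.node (.node (.node (.leaf [0, 9, 361, 419, 427, 454])
  (.leaf [0, 10, 36, 73, 92, 408])
 ) (.node (.leaf [0, 11, 176, 296, 304, 455])
  (.leaf [0, 12, 37, 347, 407, 411])
 )) (.node (.node (.leaf [0, 13, 115, 177, 422, 428])
  (.leaf [0, 14, 100, 201, 216, 224])
 ) (.node (.leaf [0, 15, 156, 169, 316, 319])
  (.leaf [0, 31, 97, 120, 342, 371])
 )))) (.node (.node (.node (.node (.leaf [0, 32, 61, 186, 322, 329])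
  (.leaf [0, 33, 60, 372, 446, 453])
 ) (.node (.leaf [0, 34, 128, 227, 254, 443])
  (.leaf [0, 35, 75, 171, 251, 301])
 )) (.node (.node (.leaf [0, 38, 133, 160, 287, 414])
  (.leaf [0, 40, 53, 64, 91, 248])
 ) (.node (.leaf [0, 41, 173, 305, 348, 377])
  (.leaf [0, 42, 183, 207, 323, 350])
 ))) (.node (.node (.node (.leaf [0, 43, 154, 211, 271, 391])
  (.leaf [0, 44, 228, 265, 294, 376])
 ) (.node (.leaf [0, 49, 237, 262, 295, 399])
  (.leaf [0, 50, 125, 192, 256, 384])
 )) (.node (.node (.leaf [0, 51, 158, 196, 328, 363])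
  (.leaf [0, 52, 168, 284, 365, 398])
 ) (.node (.leaf [0, 55, 146, 181, 302, 423])
  (.leaf [0, 58, 80, 170, 276, 288])
 )))))

def t471_1 : BT :=
  (.node (.node (.node (.node (.node (.leaf [0, 59, 151, 238, 273, 456])
  (.leaf [0, 62, 317, 334, 382, 393])
 ) (.node (.leaf [0, 65, 153, 267, 359, 389])
  (.leaf [0, 66, 198, 298, 336, 424])
 )) (.node (.node (.leaf [0, 68, 98, 204, 240, 368])
  (.leaf [0, 69, 86, 134, 145, 155])
 ) (.node (.leaf [0, 71, 84, 320, 331, 434])
  (.leaf [0, 74, 163, 223, 327, 379])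
 ))) (.node (.node (.node (.leaf [0, 76, 79, 93, 132, 147])
  (.leaf [0, 81, 178, 242, 324, 396])
 ) (.node (.leaf [0, 87, 119, 199, 225, 345])
  (.leaf [0, 89, 205, 291, 315, 413])
 )) (.node (.node (.leaf [0, 90, 126, 260, 354, 386])
  (.leaf [0, 94, 191, 300, 395, 466])
 ) (.node (.leaf [0, 95, 122, 124, 378, 397])
  (.leaf [0, 96, 175, 252, 337, 412])
 )))) (.node (.node (.node (.node (.leaf [0, 99, 180, 231, 364, 461])
  (.leaf [0, 101, 195, 292, 401, 468])
 ) (.node (.leaf [0, 103, 194, 247, 432, 435])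
  (.leaf [0, 104, 144, 269, 394, 442])
 )) (.node (.node (.leaf [0, 105, 215, 283, 400, 469])
  (.leaf [0, 107, 152, 235, 286, 356])
 ) (.node (.leaf [0, 108, 129, 338, 362, 385])
  (.leaf [0, 109, 150, 313, 351, 390])
 ))) (.node (.node (.node (.leaf [0, 110, 127, 230, 303, 357])
  (.leaf [0, 112, 188, 306, 375, 470])
 ) (.node (.leaf [0, 113, 135, 258, 381, 457])
  (.leaf [0, 114, 209, 218, 405, 464])
 )) (.node (.node (.leaf [0, 116, 208, 297, 374, 467])
  (.leaf [0, 118, 161, 234, 349, 438])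
 ) (.node (.leaf [0, 121, 166, 275, 314, 425])
  (.leaf [0, 123, 212, 289, 380, 465])
 )))))

def t471_2 : BT :=
  (.node (.node (.node (.node (.node (.leaf [0, 130, 236, 249, 346, 431])
  (.leaf [0, 131, 148, 279, 312, 339])
 ) (.node (.leaf [0, 137, 274, 340, 360, 441])
  (.leaf [0, 138, 190, 233, 325, 358])
 )) (.node (.node (.leaf [0, 139, 162, 299, 321, 448])
  (.leaf [0, 140, 179, 290, 330, 451])
 ) (.node (.leaf [0, 141, 213, 232, 326, 355])
  (.leaf [0, 142, 253, 311, 353, 458])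
 ))) (.node (.node (.node (.leaf [0, 149, 229, 278, 367, 406])
  (.leaf [0, 197, 226, 268, 344, 459])
 ) (.node (.leaf [0, 206, 239, 259, 369, 440])
  (.leaf [0, 217, 250, 277, 282, 307])
 )) (.node (.node (.leaf [0, 261, 266, 318, 333, 403])
  (.leaf [0, 263, 264, 341, 439, 460])
 ) (.node (.leaf [0, 310, 383, 392, 436, 463])
  (.leaf [31, 32, 78, 96, 122, 450])
 )))) (.node (.node (.node (.node (.leaf [31, 34, 79, 316, 338, 420])
  (.leaf [31, 36, 80, 390, 446, 458])
 ) (.node (.leaf [31, 37, 289, 306, 406, 437])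
  (.leaf [31, 38, 107, 117, 205, 267])
 )) (.node (.node (.leaf [31, 39, 128, 190, 447, 460])
  (.leaf [31, 41, 160, 191, 264, 273])
 ) (.node (.leaf [31, 42, 145, 231, 245, 269])
  (.leaf [31, 43, 192, 238, 239, 378])
 ))) (.node (.node (.node (.leaf [31, 45, 189, 197, 359, 368])
  (.leaf [31, 46, 109, 123, 147, 457])
 ) (.node (.leaf [31, 62, 136, 143, 375, 400])
  (.leaf [31, 63, 194, 325, 382, 419])
 )) (.node (.node (.leaf [31, 64, 208, 218, 349, 399])
  (.leaf [31, 65, 90, 217, 346, 367])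
 ) (.node (.leaf [31, 66, 89, 99, 118, 279])
  (.leaf [31, 67, 183, 230, 286, 429])
 )))))

def t471_3 : BT :=
  (.node (.node (.node (.node (.node (.leaf [31, 70, 250, 299, 324, 415])
  (.leaf [31, 72, 159, 202, 317, 463])
 ) (.node (.leaf [31, 74, 101, 203, 288, 314])
  (.leaf [31, 81, 116, 200, 301, 337])
 )) (.node (.node (.leaf [31, 83, 182, 201, 334, 436])
  (.leaf [31, 85, 277, 290, 327, 422])
 ) (.node (.leaf [31, 88, 158, 235, 303, 408])
  (.leaf [31, 91, 195, 247, 364, 376])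
 ))) (.node (.node (.node (.leaf [31, 92, 209, 326, 393, 418])
  (.leaf [31, 93, 351, 362, 404, 433])
 ) (.node (.leaf [31, 98, 210, 266, 361, 424])
  (.leaf [31, 102, 180, 305, 395, 423])
 )) (.node (.node (.leaf [31, 103, 114, 156, 185, 186])
  (.leaf [31, 104, 113, 124, 162, 179])
 ) (.node (.leaf [31, 105, 222, 336, 357, 435])
  (.leaf [31, 106, 140, 225, 272, 384])
 )))) (.node (.node (.node (.node (.leaf [31, 111, 139, 240, 255, 391])
  (.leaf [31, 112, 243, 315, 356, 464])
 ) (.node (.leaf [31, 115, 161, 284, 380, 414])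
  (.leaf [31, 119, 193, 261, 352, 413])
 )) (.node (.node (.leaf [31, 127, 232, 311, 410, 465])
  (.leaf [31, 129, 242, 322, 425, 470])
 ) (.node (.leaf [31, 130, 149, 155, 416, 421])
  (.leaf [31, 131, 221, 333, 409, 468])
 ))) (.node (.node (.node (.leaf [31, 133, 215, 291, 360, 461])
  (.leaf [31, 135, 177, 271, 331, 386])
 ) (.node (.leaf [31, 138, 170, 363, 373, 411])
  (.leaf [31, 141, 171, 350, 402, 426])
 )) (.node (.node (.leaf [31, 144, 164, 256, 320, 389])
  (.leaf [31, 146, 188, 298, 353, 438])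
 ) (.node (.leaf [31, 148, 244, 318, 428, 467])
  (.leaf [31, 150, 223, 329, 412, 469])
 )))))

def t471_4 : BT :=
  (.node (.node (.node (.node (.node (.leaf [31, 152, 233, 340, 427, 466])
  (.leaf [31, 165, 176, 310, 347, 366])
 ) (.node (.leaf [31, 166, 229, 265, 355, 392])
  (.leaf [31, 168, 253, 307, 388, 443])
 )) (.node (.node (.leaf [31, 173, 274, 282, 387, 456])
  (.leaf [31, 175, 236, 262, 358, 383])
 ) (.node (.leaf [31, 248, 285, 304, 319, 332])
  (.leaf [31, 287, 302, 348, 365, 434])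
 ))) (.node (.node (.node (.leaf [62, 63, 202, 233, 293, 297])
  (.leaf [62, 64, 156, 259, 270, 280])
 ) (.node (.leaf [62, 67, 235, 249, 252, 421])
  (.leaf [62, 71, 113, 359, 363, 454])
 )) (.node (.node (.leaf [62, 72, 144, 145, 222, 284])
  (.leaf [62, 73, 219, 226, 391, 395])
 ) (.node (.leaf [62, 93, 160, 181, 412, 425])
  (.leaf [62, 96, 241, 355, 433, 451])
 )))) (.node (.node (.node (.node (.leaf [62, 98, 148, 237, 337, 353])
  (.leaf [62, 99, 221, 251, 396, 422])
 ) (.node (.leaf [62, 100, 304, 312, 361, 460])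
  (.leaf [62, 102, 115, 248, 387, 388])
 )) (.node (.node (.leaf [62, 105, 112, 137, 142, 310])
  (.leaf [62, 108, 208, 256, 331, 450])
 ) (.node (.leaf [62, 109, 195, 271, 320, 449])
  (.leaf [62, 117, 285, 339, 352, 439])
 ))) (.node (.node (.node (.leaf [62, 118, 244, 276, 379, 415])
  (.leaf [62, 119, 131, 228, 314, 360])
 ) (.node (.leaf [62, 121, 224, 358, 404, 448])
  (.leaf [62, 124, 373, 402, 437, 462])
 )) (.node (.node (.leaf [62, 125, 154, 189, 214, 217])
  (.leaf [62, 126, 153, 155, 196, 207])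
 ) (.node (.leaf [62, 128, 204, 325, 427, 436])
  (.leaf [62, 132, 172, 272, 289, 408])
 )))))

def t471_5 : BT :=
  (.node (.node (.node (.node (.node (.leaf [62, 139, 227, 302, 401, 435])
  (.leaf [62, 140, 238, 287, 374, 464])
 ) (.node (.leaf [62, 147, 169, 255, 300, 429])
  (.leaf [62, 151, 199, 326, 410, 463])
 )) (.node (.node (.leaf [62, 157, 190, 286, 342, 414])
  (.leaf [62, 164, 262, 344, 455, 466])
 ) (.node (.leaf [62, 165, 267, 365, 447, 468])
  (.leaf [62, 166, 200, 376, 406, 458])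
 ))) (.node (.node (.node (.leaf [62, 168, 173, 186, 442, 457])
  (.leaf [62, 170, 261, 346, 438, 469])
 ) (.node (.leaf [62, 171, 266, 367, 461, 470])
  (.leaf [62, 175, 203, 399, 431, 441])
 )) (.node (.node (.leaf [62, 176, 260, 348, 452, 467])
  (.leaf [62, 177, 265, 369, 444, 465])
 ) (.node (.leaf [62, 184, 213, 303, 371, 423])
  (.leaf [62, 187, 216, 341, 385, 390])
 )))) (.node (.node (.node (.node (.leaf [62, 188, 253, 299, 383, 432])
  (.leaf [62, 215, 274, 290, 392, 405])
 ) (.node (.leaf [62, 279, 323, 328, 345, 368])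
  (.leaf [93, 94, 157, 185, 264, 326])
 )) (.node (.node (.leaf [93, 95, 254, 275, 410, 429])
  (.leaf [93, 96, 234, 265, 321, 333])
 ) (.node (.leaf [93, 99, 189, 281, 283, 313])
  (.leaf [93, 108, 271, 282, 291, 457])
 ))) (.node (.node (.node (.leaf [93, 124, 201, 202, 438, 461])
  (.leaf [93, 128, 151, 279, 417, 420])
 ) (.node (.leaf [93, 129, 150, 163, 178, 341])
  (.leaf [93, 137, 267, 301, 424, 439])
 )) (.node (.node (.leaf [93, 139, 165, 277, 360, 377])
  (.leaf [93, 140, 176, 250, 353, 398])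
 ) (.node (.leaf [93, 142, 260, 288, 413, 460])
  (.leaf [93, 158, 183, 226, 239, 248])
 )))))

def t471_6 : BT :=
  (.node (.node (.node (.node (.node (.leaf [93, 161, 180, 186, 218, 247])
  (.leaf [93, 162, 197, 300, 311, 450])
 ) (.node (.leaf [93, 179, 206, 289, 340, 449])
  (.leaf [93, 192, 229, 331, 375, 436])
 )) (.node (.node (.leaf [93, 211, 236, 320, 400, 463])
  (.leaf [93, 220, 245, 372, 411, 426])
 ) (.node (.leaf [93, 223, 294, 339, 405, 459])
  (.leaf [93, 242, 295, 312, 432, 440])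
 ))) (.node (.node (.node (.leaf [93, 310, 349, 364, 384, 391])
  (.leaf [124, 127, 192, 214, 296, 358])
 ) (.node (.leaf [124, 130, 297, 298, 450, 455])
  (.leaf [124, 133, 268, 299, 343, 348])
 )) (.node (.node (.leaf [124, 137, 239, 329, 335, 363])
  (.leaf [124, 167, 174, 310, 445, 454])
 ) (.node (.leaf [124, 169, 216, 304, 398, 418])
  (.leaf [124, 170, 171, 193, 210, 372])
 )))) (.node (.node (.node (.node (.leaf [124, 172, 187, 285, 377, 419])
  (.leaf [124, 195, 208, 252, 275, 279])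
 ) (.node (.leaf [124, 199, 204, 217, 251, 276])
  (.leaf [124, 257, 270, 403, 441, 458])
 )) (.node (.node (.leaf [124, 341, 379, 396, 408, 429])
  (.leaf [155, 159, 281, 312, 382, 397])
 ) (.node (.leaf [155, 163, 252, 354, 367, 376])
  (.leaf [155, 164, 235, 239, 330, 392])
 ))) (.node (.node (.node (.leaf [155, 197, 245, 323, 419, 448])
  (.leaf [155, 200, 203, 227, 238, 403])
 ) (.node (.leaf [155, 206, 220, 328, 418, 451])
  (.leaf [155, 221, 244, 291, 298, 310])
 )) (.node (.node (.leaf [155, 225, 240, 248, 288, 301])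
  (.leaf [155, 372, 413, 424, 449, 450])
 ) (.node (.leaf [186, 190, 256, 275, 343, 405])
  (.leaf [186, 193, 298, 387, 395, 422])
 )))))

def t471_7 : BT :=
  (.node (.node (.node (.leaf [186, 198, 316, 347, 416, 433])
  (.node (.leaf [186, 228, 237, 249, 278, 434])
  (.leaf [186, 255, 272, 279, 314, 337])
 )) (.node (.node (.leaf [186, 260, 267, 315, 336, 341])
  (.leaf [217, 222, 359, 390, 442, 462])
 ) (.node (.leaf [217, 227, 315, 420, 427, 439])
  (.leaf [217, 229, 298, 303, 378, 440])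
 ))) (.node (.node (.leaf [217, 284, 305, 356, 357, 372])
  (.node (.leaf [217, 289, 300, 310, 353, 360])
  (.leaf [248, 311, 340, 341, 377, 398])
 )) (.node (.node (.leaf [248, 325, 326, 386, 389, 403])
  (.leaf [279, 344, 369, 372, 418, 419])
 ) (.node (.leaf [279, 355, 358, 414, 423, 434])
  (.leaf [310, 381, 394, 403, 448, 451])
 ))))

def full471 : BT :=
  (.node (.node (.node t471_0 t471_1) (.node t471_2 t471_3)) (.node (.node t471_4 t471_5) (.node t471_6 t471_7)))

def short471 : List (List ℕ × List ℕ) :=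
  [([0], [465, 466, 467, 468, 469, 470])]

theorem ex471 : ∃ 𝓑 : Set (Finset (Fin 471)), IsS2 (Fin 471) 6 𝓑 :=
  of_codedT (codedZ 31) 6 15 6 471 rfl full471 short471
    (by decide +kernel) (by decide +kernel) (by decide +kernel) (by decide +kernel)
    (by decide +kernel) (by decide +kernel)

end Pool.Agent.TH848.KM
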