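import Pool.Agent.TH848.KM.Tree

/-!
A Steiner system `S(2,6,501)`: 100 copies of an abelian group of order 5 and 1 fixed points.
-/

set_option autoImplicit false
set_option maxRecDepth 100000

namespace Pool.Agent.TH848.KM

open Pool.Agent.H816R2.KM2

def t501_0 : BT :=
  (.node (.node (.node (.node (.node (.leaf [0, 1, 103, 143, 147, 497])
  (.leaf [0, 2, 46, 73, 107, 123])
 ) (.node (.leaf [0, 5, 15, 35, 40, 75])
  (.leaf [0, 6, 81, 82, 125, 172])
 )) (.node (.node (.leaf [0, 7, 18, 41, 79, 500])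
  (.leaf [0, 8, 26, 59, 101, 109])
 ) (.node (.leaf [0, 9, 232, 285, 296, 466])
  (.leaf [0, 10, 58, 117, 457, 487])
 ))) (.node (.node (.node (.leaf [0, 11, 39, 63, 156, 169])
  (.leaf [0, 12, 77, 185, 274, 317])
 ) (.node (.leaf [0, 13, 209, 276, 406, 458])
  (.leaf [0, 14, 17, 60, 341, 379])
 )) (.node (.node (.leaf [0, 16, 32, 88, 137, 157])
  (.leaf [0, 19, 126, 127, 131, 171])
 ) (.node (.leaf [0, 20, 267, 298, 328, 442])
  (.leaf [0, 21, 261, 287, 360, 450])
 )))) (.node (.node (.node (.node (.leaf [0, 22, 190, 223, 365, 463])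
  (.leaf [0, 23, 25, 158, 469, 492])
 ) (.node (.leaf [0, 24, 89, 170, 461, 474])
  (.leaf [0, 27, 106, 292, 354, 460])
 )) (.node (.node (.leaf [0, 28, 181, 282, 389, 420])
  (.leaf [0, 29, 237, 291, 449, 470])
 ) (.node (.leaf [0, 30, 262, 286, 330, 369])
  (.leaf [0, 31, 57, 194, 318, 455])
 ))) (.node (.node (.node (.leaf [0, 33, 205, 307, 375, 490])
  (.leaf [0, 34, 37, 91, 128, 148])
 ) (.node (.leaf [0, 36, 61, 210, 225, 263])
  (.leaf [0, 38, 218, 308, 315, 452])
 )) (.node (.node (.leaf [0, 42, 67, 162, 175, 498])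
  (.leaf [0, 43, 98, 116, 161, 495])
 ) (.node (.leaf [0, 44, 224, 290, 325, 456])
  (.leaf [0, 45, 230, 253, 334, 434])
 )))))

def t501_1 : BT :=
  (.node (.node (.node (.node (.node (.leaf [0, 47, 203, 207, 372, 464])
  (.leaf [0, 48, 76, 80, 259, 368])
 ) (.node (.leaf [0, 50, 279, 336, 349, 424])
  (.leaf [0, 51, 187, 239, 350, 401])
 )) (.node (.node (.leaf [0, 52, 213, 236, 355, 376])
  (.leaf [0, 53, 272, 289, 342, 410])
 ) (.node (.leaf [0, 54, 254, 313, 390, 475])
  (.leaf [0, 55, 122, 179, 481, 493])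
 ))) (.node (.node (.node (.leaf [0, 56, 100, 241, 323, 471])
  (.leaf [0, 62, 120, 277, 322, 331])
 ) (.node (.leaf [0, 64, 387, 404, 421, 437])
  (.leaf [0, 65, 87, 214, 302, 467])
 )) (.node (.node (.leaf [0, 66, 255, 266, 275, 489])
  (.leaf [0, 68, 256, 309, 426, 427])
 ) (.node (.leaf [0, 69, 129, 135, 337, 385])
  (.leaf [0, 70, 222, 353, 396, 445])
 )))) (.node (.node (.node (.node (.leaf [0, 72, 359, 362, 381, 472])
  (.leaf [0, 74, 92, 268, 348, 482])
 ) (.node (.leaf [0, 78, 211, 310, 327, 476])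
  (.leaf [0, 83, 229, 329, 371, 454])
 )) (.node (.node (.leaf [0, 84, 219, 234, 246, 412])
  (.leaf [0, 85, 235, 344, 356, 407])
 ) (.node (.leaf [0, 86, 221, 260, 393, 428])
  (.leaf [0, 90, 204, 248, 321, 431])
 ))) (.node (.node (.node (.leaf [0, 93, 243, 312, 443, 485])
  (.leaf [0, 94, 196, 252, 405, 479])
 ) (.node (.leaf [0, 95, 233, 250, 374, 448])
  (.leaf [0, 96, 99, 118, 154, 499])
 )) (.node (.node (.leaf [0, 97, 273, 293, 413, 435])
  (.leaf [0, 104, 249, 419, 438, 484])
 ) (.node (.leaf [0, 108, 212, 284, 297, 384])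
  (.leaf [0, 110, 112, 153, 208, 415])
 )))))

def t501_2 : BT :=
  (.node (.node (.node (.node (.node (.leaf [0, 111, 159, 186, 303, 494])
  (.leaf [0, 113, 183, 258, 414, 451])
 ) (.node (.leaf [0, 114, 191, 193, 281, 423])
  (.leaf [0, 115, 188, 399, 425, 459])
 )) (.node (.node (.leaf [0, 119, 184, 217, 314, 478])
  (.leaf [0, 124, 198, 280, 333, 440])
 ) (.node (.leaf [0, 130, 165, 247, 294, 339])
  (.leaf [0, 132, 269, 347, 439, 462])
 ))) (.node (.node (.node (.leaf [0, 133, 177, 182, 195, 343])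
  (.leaf [0, 134, 197, 228, 288, 373])
 ) (.node (.leaf [0, 136, 226, 340, 364, 441])
  (.leaf [0, 138, 320, 346, 351, 417])
 )) (.node (.node (.leaf [0, 139, 144, 180, 201, 270])
  (.leaf [0, 140, 227, 358, 397, 408])
 ) (.node (.leaf [0, 141, 240, 301, 357, 488])
  (.leaf [0, 145, 238, 403, 418, 477])
 )))) (.node (.node (.node (.node (.leaf [0, 149, 305, 316, 411, 430])
  (.leaf [0, 150, 220, 245, 383, 400])
 ) (.node (.leaf [0, 151, 352, 366, 436, 491])
  (.leaf [0, 152, 200, 215, 363, 416])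
 )) (.node (.node (.leaf [0, 155, 265, 295, 370, 446])
  (.leaf [0, 160, 271, 361, 386, 465])
 ) (.node (.leaf [0, 163, 299, 382, 388, 453])
  (.leaf [0, 164, 304, 306, 378, 444])
 ))) (.node (.node (.node (.leaf [0, 166, 216, 278, 311, 422])
  (.leaf [0, 167, 199, 244, 377, 473])
 ) (.node (.leaf [0, 168, 251, 326, 395, 447])
  (.leaf [0, 173, 242, 300, 380, 432])
 )) (.node (.node (.leaf [0, 174, 189, 202, 394, 398])
  (.leaf [0, 176, 345, 392, 402, 480])
 ) (.node (.leaf [0, 178, 264, 335, 338, 483])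
  (.leaf [0, 192, 231, 257, 324, 409])
 )))))

def t501_3 : BT :=
  (.node (.node (.node (.node (.node (.leaf [0, 206, 332, 429, 433, 486])
  (.leaf [0, 283, 319, 367, 391, 468])
 ) (.node (.leaf [5, 6, 225, 295, 353, 463])
  (.leaf [5, 7, 120, 124, 274, 372])
 )) (.node (.node (.leaf [5, 10, 184, 239, 325, 411])
  (.leaf [5, 11, 383, 413, 421, 446])
 ) (.node (.leaf [5, 12, 201, 210, 276, 423])
  (.leaf [5, 13, 220, 281, 375, 461])
 ))) (.node (.node (.node (.leaf [5, 14, 230, 304, 390, 464])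
  (.leaf [5, 17, 84, 215, 282, 349])
 ) (.node (.leaf [5, 18, 21, 24, 58, 99])
  (.leaf [5, 19, 98, 119, 173, 497])
 )) (.node (.node (.leaf [5, 20, 72, 135, 453, 481])
  (.leaf [5, 22, 63, 247, 252, 256])
 ) (.node (.leaf [5, 23, 238, 331, 377, 459])
  (.leaf [5, 25, 33, 177, 246, 420])
 )))) (.node (.node (.node (.node (.leaf [5, 26, 39, 91, 161, 167])
  (.leaf [5, 27, 223, 306, 337, 430])
 ) (.node (.leaf [5, 29, 60, 140, 452, 482])
  (.leaf [5, 30, 49, 164, 479, 488])
 )) (.node (.node (.leaf [5, 31, 209, 333, 368, 465])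
  (.leaf [5, 32, 189, 248, 313, 407])
 ) (.node (.leaf [5, 34, 69, 78, 132, 136])
  (.leaf [5, 36, 87, 114, 138, 154])
 ))) (.node (.node (.node (.leaf [5, 37, 143, 144, 152, 495])
  (.leaf [5, 38, 73, 74, 163, 498])
 ) (.node (.leaf [5, 41, 149, 156, 176, 496])
  (.leaf [5, 42, 61, 64, 130, 148])
 )) (.node (.node (.leaf [5, 43, 48, 190, 303, 344])
  (.leaf [5, 45, 186, 191, 278, 438])
 ) (.node (.leaf [5, 46, 47, 50, 76, 178])
  (.leaf [5, 51, 320, 339, 380, 457])
 )))))

def t501_4 : BT :=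
  (.node (.node (.node (.node (.node (.leaf [5, 52, 212, 345, 391, 448])
  (.leaf [5, 53, 126, 211, 329, 460])
 ) (.node (.leaf [5, 54, 183, 356, 433, 473])
  (.leaf [5, 55, 181, 241, 347, 428])
 )) (.node (.node (.leaf [5, 57, 142, 226, 231, 492])
  (.leaf [5, 59, 192, 268, 400, 401])
 ) (.node (.leaf [5, 62, 202, 269, 393, 456])
  (.leaf [5, 65, 257, 373, 436, 470])
 ))) (.node (.node (.node (.leaf [5, 66, 213, 249, 351, 474])
  (.leaf [5, 67, 198, 284, 369, 410])
 ) (.node (.leaf [5, 68, 291, 378, 417, 468])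
  (.leaf [5, 70, 131, 224, 298, 471])
 )) (.node (.node (.leaf [5, 71, 141, 153, 162, 499])
  (.leaf [5, 79, 222, 227, 290, 487])
 ) (.node (.leaf [5, 82, 182, 219, 319, 396])
  (.leaf [5, 83, 105, 151, 466, 475])
 )))) (.node (.node (.node (.node (.leaf [5, 85, 118, 200, 208, 324])
  (.leaf [5, 86, 228, 283, 318, 399])
 ) (.node (.leaf [5, 88, 115, 236, 271, 478])
  (.leaf [5, 89, 275, 292, 409, 480])
 )) (.node (.node (.leaf [5, 90, 205, 259, 359, 361])
  (.leaf [5, 92, 113, 288, 293, 450])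
 ) (.node (.leaf [5, 93, 112, 203, 237, 311])
  (.leaf [5, 94, 261, 262, 355, 441])
 ))) (.node (.node (.node (.leaf [5, 95, 254, 300, 364, 437])
  (.leaf [5, 96, 240, 323, 330, 485])
 ) (.node (.leaf [5, 97, 194, 287, 376, 387])
  (.leaf [5, 100, 301, 335, 366, 424])
 )) (.node (.node (.leaf [5, 101, 250, 327, 354, 494])
  (.leaf [5, 102, 255, 374, 398, 493])
 ) (.node (.leaf [5, 104, 285, 392, 431, 486])
  (.leaf [5, 107, 139, 172, 253, 414])
 )))))

def t501_5 : BT :=
  (.node (.node (.node (.node (.node (.leaf [5, 108, 251, 314, 316, 362])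
  (.leaf [5, 109, 243, 267, 367, 489])
 ) (.node (.leaf [5, 110, 242, 258, 305, 408])
  (.leaf [5, 111, 309, 321, 322, 402])
 )) (.node (.node (.leaf [5, 116, 185, 195, 429, 444])
  (.leaf [5, 117, 307, 342, 403, 416])
 ) (.node (.leaf [5, 121, 273, 350, 365, 455])
  (.leaf [5, 125, 277, 308, 415, 490])
 ))) (.node (.node (.node (.leaf [5, 127, 328, 343, 379, 381])
  (.leaf [5, 128, 199, 263, 449, 458])
 ) (.node (.leaf [5, 133, 206, 279, 341, 386])
  (.leaf [5, 134, 218, 332, 442, 443])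
 )) (.node (.node (.leaf [5, 137, 196, 232, 358, 418])
  (.leaf [5, 145, 216, 294, 394, 427])
 ) (.node (.leaf [5, 146, 207, 260, 265, 469])
  (.leaf [5, 147, 245, 280, 397, 405])
 )))) (.node (.node (.node (.node (.leaf [5, 150, 217, 310, 388, 447])
  (.leaf [5, 155, 166, 204, 270, 476])
 ) (.node (.leaf [5, 157, 169, 235, 244, 264])
  (.leaf [5, 158, 346, 357, 432, 440])
 )) (.node (.node (.leaf [5, 159, 315, 338, 385, 404])
  (.leaf [5, 160, 193, 312, 382, 426])
 ) (.node (.leaf [5, 165, 180, 289, 360, 483])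
  (.leaf [5, 168, 187, 296, 302, 435])
 ))) (.node (.node (.node (.leaf [5, 170, 266, 425, 445, 491])
  (.leaf [5, 174, 214, 412, 434, 451])
 ) (.node (.leaf [5, 175, 326, 419, 422, 454])
  (.leaf [5, 179, 334, 384, 389, 472])
 )) (.node (.node (.leaf [5, 188, 317, 340, 348, 371])
  (.leaf [5, 197, 336, 395, 439, 477])
 ) (.node (.leaf [5, 221, 234, 363, 406, 484])
  (.leaf [10, 15, 196, 226, 302, 389])
 )))))

def t501_6 : BT :=
  (.node (.node (.node (.node (.node (.leaf [10, 16, 51, 100, 481, 488])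
  (.leaf [10, 17, 82, 200, 240, 344])
 ) (.node (.leaf [10, 19, 37, 68, 83, 92])
  (.leaf [10, 20, 45, 63, 80, 120])
 )) (.node (.node (.leaf [10, 21, 35, 79, 89, 118])
  (.leaf [10, 22, 40, 77, 349, 393])
 ) (.node (.leaf [10, 23, 87, 91, 106, 499])
  (.leaf [10, 24, 275, 287, 338, 486])
 ))) (.node (.node (.node (.leaf [10, 25, 175, 253, 332, 477])
  (.leaf [10, 26, 277, 395, 399, 450])
 ) (.node (.leaf [10, 27, 313, 376, 416, 471])
  (.leaf [10, 28, 177, 187, 190, 258])
 )) (.node (.node (.leaf [10, 29, 46, 74, 158, 174])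
  (.leaf [10, 30, 276, 356, 404, 446])
 ) (.node (.leaf [10, 31, 260, 311, 424, 426])
  (.leaf [10, 32, 60, 112, 165, 497])
 )))) (.node (.node (.node (.node (.leaf [10, 33, 225, 250, 407, 436])
  (.leaf [10, 34, 208, 309, 328, 473])
 ) (.node (.leaf [10, 36, 44, 47, 102, 111])
  (.leaf [10, 39, 255, 310, 370, 459])
 )) (.node (.node (.leaf [10, 41, 48, 205, 238, 347])
  (.leaf [10, 42, 65, 126, 469, 480])
 ) (.node (.leaf [10, 43, 281, 296, 335, 428])
  (.leaf [10, 49, 195, 291, 331, 462])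
 ))) (.node (.node (.node (.leaf [10, 50, 215, 330, 378, 423])
  (.leaf [10, 52, 54, 124, 130, 495])
 ) (.node (.leaf [10, 53, 72, 153, 191, 402])
  (.leaf [10, 55, 142, 262, 319, 491])
 )) (.node (.node (.leaf [10, 56, 121, 125, 128, 496])
  (.leaf [10, 57, 67, 119, 123, 146])
 ) (.node (.leaf [10, 59, 280, 320, 327, 468])
  (.leaf [10, 64, 183, 198, 292, 466])
 )))))

def t501_7 : BT :=
  (.node (.node (.node (.node (.node (.leaf [10, 66, 221, 274, 439, 452])
  (.leaf [10, 69, 322, 341, 355, 380])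
 ) (.node (.leaf [10, 70, 233, 323, 350, 409])
  (.leaf [10, 71, 228, 252, 417, 425])
 )) (.node (.node (.leaf [10, 73, 131, 189, 324, 470])
  (.leaf [10, 76, 180, 244, 364, 458])
 ) (.node (.leaf [10, 78, 133, 156, 456, 465])
  (.leaf [10, 81, 267, 288, 336, 461])
 ))) (.node (.node (.node (.leaf [10, 84, 115, 138, 141, 178])
  (.leaf [10, 85, 339, 357, 371, 431])
 ) (.node (.leaf [10, 86, 235, 282, 422, 443])
  (.leaf [10, 88, 94, 114, 169, 498])
 )) (.node (.node (.leaf [10, 90, 317, 429, 432, 467])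
  (.leaf [10, 93, 346, 362, 385, 492])
 ) (.node (.leaf [10, 95, 219, 224, 259, 435])
  (.leaf [10, 96, 202, 333, 337, 448])
 )))) (.node (.node (.node (.node (.leaf [10, 97, 148, 248, 254, 454])
  (.leaf [10, 98, 147, 227, 295, 354])
 ) (.node (.leaf [10, 99, 103, 122, 134, 159])
  (.leaf [10, 101, 264, 307, 345, 447])
 )) (.node (.node (.leaf [10, 104, 232, 270, 398, 451])
  (.leaf [10, 105, 247, 297, 360, 396])
 ) (.node (.leaf [10, 107, 314, 321, 386, 413])
  (.leaf [10, 108, 182, 306, 381, 442])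
 ))) (.node (.node (.node (.leaf [10, 109, 210, 242, 358, 493])
  (.leaf [10, 110, 340, 405, 427, 474])
 ) (.node (.leaf [10, 113, 186, 388, 419, 485])
  (.leaf [10, 116, 246, 284, 289, 366])
 )) (.node (.node (.leaf [10, 127, 193, 268, 390, 414])
  (.leaf [10, 129, 143, 160, 217, 444])
 ) (.node (.leaf [10, 132, 211, 261, 303, 489])
  (.leaf [10, 135, 312, 392, 430, 490])
 )))))

def t501_8 : BT :=
  (.node (.node (.node (.node (.node (.leaf [10, 136, 181, 437, 438, 453])
  (.leaf [10, 137, 172, 249, 266, 475])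
 ) (.node (.leaf [10, 139, 170, 218, 257, 316])
  (.leaf [10, 140, 220, 263, 353, 363])
 )) (.node (.node (.leaf [10, 144, 245, 299, 387, 434])
  (.leaf [10, 145, 194, 234, 256, 397])
 ) (.node (.leaf [10, 149, 199, 236, 265, 384])
  (.leaf [10, 150, 269, 273, 368, 440])
 ))) (.node (.node (.node (.leaf [10, 151, 162, 285, 294, 464])
  (.leaf [10, 152, 185, 351, 379, 472])
 ) (.node (.leaf [10, 154, 230, 326, 361, 479])
  (.leaf [10, 157, 251, 290, 304, 367])
 )) (.node (.node (.leaf [10, 161, 318, 352, 394, 494])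
  (.leaf [10, 163, 271, 334, 365, 401])
 ) (.node (.leaf [10, 164, 212, 223, 406, 478])
  (.leaf [10, 166, 203, 301, 403, 410])
 )))) (.node (.node (.node (.node (.leaf [10, 167, 197, 305, 374, 415])
  (.leaf [10, 171, 216, 308, 449, 482])
 ) (.node (.leaf [10, 173, 229, 237, 293, 400])
  (.leaf [10, 176, 192, 359, 383, 484])
 )) (.node (.node (.leaf [10, 179, 201, 286, 298, 441])
  (.leaf [10, 207, 243, 343, 348, 369])
 ) (.node (.leaf [10, 209, 241, 372, 373, 483])
  (.leaf [10, 214, 329, 418, 433, 476])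
 ))) (.node (.node (.node (.leaf [15, 16, 60, 121, 135, 162])
  (.leaf [15, 17, 94, 131, 141, 168])
 ) (.node (.leaf [15, 20, 229, 249, 337, 388])
  (.leaf [15, 22, 198, 199, 391, 462])
 )) (.node (.node (.leaf [15, 24, 36, 83, 321, 364])
  (.leaf [15, 25, 310, 320, 338, 394])
 ) (.node (.leaf [15, 26, 160, 191, 299, 476])
  (.leaf [15, 27, 237, 262, 385, 453])
 )))))

def t501_9 : BT :=
  (.node (.node (.node (.node (.node (.leaf [15, 28, 206, 284, 292, 361])
  (.leaf [15, 29, 265, 288, 371, 493])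
 ) (.node (.leaf [15, 30, 118, 165, 182, 443])
  (.leaf [15, 32, 225, 336, 415, 438])
 )) (.node (.node (.leaf [15, 33, 125, 183, 331, 358])
  (.leaf [15, 34, 209, 349, 433, 456])
 ) (.node (.leaf [15, 37, 301, 305, 318, 471])
  (.leaf [15, 39, 66, 159, 176, 495])
 ))) (.node (.node (.node (.leaf [15, 41, 124, 220, 231, 259])
  (.leaf [15, 42, 282, 300, 312, 461])
 ) (.node (.leaf [15, 44, 193, 216, 352, 481])
  (.leaf [15, 45, 68, 107, 451, 466])
 )) (.node (.node (.leaf [15, 46, 306, 346, 375, 460])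
  (.leaf [15, 47, 97, 110, 489, 494])
 ) (.node (.leaf [15, 48, 202, 215, 244, 435])
  (.leaf [15, 49, 247, 266, 368, 454])
 )))) (.node (.node (.node (.node (.leaf [15, 51, 88, 313, 357, 455])
  (.leaf [15, 52, 189, 211, 221, 419])
 ) (.node (.leaf [15, 53, 173, 317, 328, 488])
  (.leaf [15, 54, 123, 145, 463, 478])
 )) (.node (.node (.leaf [15, 56, 227, 267, 294, 425])
  (.leaf [15, 57, 256, 307, 341, 398])
 ) (.node (.leaf [15, 58, 148, 169, 239, 380])
  (.leaf [15, 59, 222, 223, 298, 440])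
 ))) (.node (.node (.node (.leaf [15, 61, 208, 234, 319, 382])
  (.leaf [15, 62, 185, 187, 360, 452])
 ) (.node (.leaf [15, 65, 296, 308, 403, 412])
  (.leaf [15, 67, 224, 396, 411, 457])
 )) (.node (.node (.leaf [15, 70, 348, 407, 431, 473])
  (.leaf [15, 71, 242, 250, 270, 490])
 ) (.node (.leaf [15, 72, 289, 322, 397, 445])
  (.leaf [15, 73, 101, 177, 178, 499])
 )))))

def t501_10 : BT :=
  (.node (.node (.node (.node (.node (.leaf [15, 74, 192, 384, 418, 464])
  (.leaf [15, 77, 102, 150, 171, 497])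
 ) (.node (.leaf [15, 78, 147, 152, 157, 496])
  (.leaf [15, 79, 214, 230, 285, 458])
 )) (.node (.node (.leaf [15, 81, 432, 437, 444, 446])
  (.leaf [15, 85, 197, 241, 272, 436])
 ) (.node (.leaf [15, 86, 217, 268, 351, 378])
  (.leaf [15, 89, 339, 359, 439, 465])
 ))) (.node (.node (.node (.leaf [15, 90, 153, 245, 246, 340])
  (.leaf [15, 91, 186, 324, 370, 417])
 ) (.node (.leaf [15, 95, 137, 264, 279, 467])
  (.leaf [15, 98, 260, 366, 410, 475])
 )) (.node (.node (.leaf [15, 100, 275, 315, 379, 421])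
  (.leaf [15, 103, 129, 205, 323, 333])
 ) (.node (.leaf [15, 105, 204, 263, 332, 448])
  (.leaf [15, 106, 175, 251, 257, 474])
 )))) (.node (.node (.node (.node (.leaf [15, 108, 255, 283, 406, 424])
  (.leaf [15, 109, 258, 273, 314, 381])
 ) (.node (.leaf [15, 111, 167, 297, 304, 450])
  (.leaf [15, 112, 235, 309, 365, 485])
 )) (.node (.node (.leaf [15, 113, 253, 281, 287, 447])
  (.leaf [15, 114, 188, 236, 429, 430])
 ) (.node (.leaf [15, 116, 213, 286, 401, 434])
  (.leaf [15, 117, 356, 376, 441, 484])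
 ))) (.node (.node (.node (.leaf [15, 119, 238, 254, 345, 479])
  (.leaf [15, 122, 194, 325, 409, 459])
 ) (.node (.leaf [15, 126, 201, 269, 372, 470])
  (.leaf [15, 130, 252, 353, 420, 483])
 )) (.node (.node (.leaf [15, 133, 180, 274, 291, 373])
  (.leaf [15, 138, 277, 278, 363, 469])
 ) (.node (.leaf [15, 140, 207, 422, 426, 486])
  (.leaf [15, 142, 295, 330, 413, 414])
 )))))

def t501_11 : BT :=
  (.node (.node (.node (.node (.node (.leaf [15, 143, 195, 210, 367, 427])
  (.leaf [15, 146, 316, 334, 355, 482])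
 ) (.node (.leaf [15, 149, 190, 200, 387, 395])
  (.leaf [15, 151, 184, 399, 442, 468])
 )) (.node (.node (.leaf [15, 154, 233, 293, 335, 492])
  (.leaf [15, 155, 240, 327, 392, 428])
 ) (.node (.leaf [15, 158, 329, 350, 362, 383])
  (.leaf [15, 163, 228, 276, 402, 408])
 ))) (.node (.node (.node (.leaf [15, 164, 261, 354, 404, 423])
  (.leaf [15, 170, 232, 311, 369, 416])
 ) (.node (.leaf [15, 179, 290, 374, 386, 477])
  (.leaf [15, 181, 248, 400, 449, 491])
 )) (.node (.node (.leaf [15, 212, 219, 393, 405, 472])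
  (.leaf [15, 271, 303, 326, 343, 390])
 ) (.node (.leaf [20, 21, 54, 67, 115, 164])
  (.leaf [20, 25, 343, 367, 416, 482])
 )))) (.node (.node (.node (.node (.leaf [20, 26, 99, 284, 340, 473])
  (.leaf [20, 28, 33, 112, 123, 495])
 ) (.node (.leaf [20, 29, 40, 44, 121, 153])
  (.leaf [20, 30, 74, 239, 336, 491])
 )) (.node (.node (.leaf [20, 31, 248, 310, 366, 420])
  (.leaf [20, 32, 83, 142, 144, 162])
 ) (.node (.leaf [20, 34, 46, 130, 166, 497])
  (.leaf [20, 35, 76, 295, 321, 326])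
 ))) (.node (.node (.node (.leaf [20, 36, 241, 279, 316, 446])
  (.leaf [20, 38, 70, 167, 479, 493])
 ) (.node (.leaf [20, 41, 187, 222, 240, 448])
  (.leaf [20, 42, 315, 317, 406, 450])
 )) (.node (.node (.leaf [20, 47, 200, 247, 356, 458])
  (.leaf [20, 48, 62, 81, 122, 500])
 ) (.node (.leaf [20, 49, 92, 131, 136, 499])
  (.leaf [20, 50, 203, 318, 365, 382])
 )))))

def t501_12 : BT :=
  (.node (.node (.node (.node (.node (.leaf [20, 51, 226, 384, 434, 490])
  (.leaf [20, 52, 205, 218, 415, 418])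
 ) (.node (.leaf [20, 55, 242, 280, 376, 435])
  (.leaf [20, 56, 148, 207, 334, 480])
 )) (.node (.node (.leaf [20, 58, 341, 351, 432, 436])
  (.leaf [20, 60, 265, 330, 350, 477])
 ) (.node (.leaf [20, 64, 181, 278, 313, 452])
  (.leaf [20, 65, 139, 152, 213, 387])
 ))) (.node (.node (.node (.leaf [20, 68, 111, 177, 302, 398])
  (.leaf [20, 69, 158, 206, 275, 464])
 ) (.node (.leaf [20, 71, 198, 201, 253, 424])
  (.leaf [20, 73, 104, 290, 311, 459])
 )) (.node (.node (.leaf [20, 77, 124, 180, 263, 266])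
  (.leaf [20, 79, 396, 412, 426, 443])
 ) (.node (.leaf [20, 82, 94, 96, 101, 175])
  (.leaf [20, 86, 208, 287, 417, 438])
 )))) (.node (.node (.node (.node (.leaf [20, 87, 252, 400, 419, 455])
  (.leaf [20, 90, 237, 354, 386, 390])
 ) (.node (.leaf [20, 91, 236, 296, 380, 409])
  (.leaf [20, 97, 281, 283, 393, 474])
 )) (.node (.node (.leaf [20, 100, 274, 299, 319, 440])
  (.leaf [20, 102, 188, 291, 444, 472])
 ) (.node (.leaf [20, 103, 194, 268, 352, 363])
  (.leaf [20, 105, 173, 234, 258, 486])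
 ))) (.node (.node (.node (.leaf [20, 106, 109, 129, 168, 498])
  (.leaf [20, 107, 308, 374, 447, 483])
 ) (.node (.leaf [20, 110, 202, 359, 413, 437])
  (.leaf [20, 113, 292, 362, 397, 476])
 )) (.node (.node (.leaf [20, 114, 210, 233, 262, 484])
  (.leaf [20, 116, 199, 346, 372, 423])
 ) (.node (.leaf [20, 118, 134, 220, 223, 320])
  (.leaf [20, 125, 261, 378, 414, 488])
 )))))

def t501_13 : BT :=
  (.node (.node (.node (.node (.node (.leaf [20, 126, 345, 358, 403, 428])
  (.leaf [20, 127, 332, 389, 421, 451])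
 ) (.node (.leaf [20, 128, 231, 273, 297, 469])
  (.leaf [20, 132, 186, 246, 307, 465])
 )) (.node (.node (.leaf [20, 133, 303, 395, 404, 471])
  (.leaf [20, 137, 327, 331, 402, 445])
 ) (.node (.leaf [20, 138, 215, 294, 338, 475])
  (.leaf [20, 140, 169, 217, 225, 348])
 ))) (.node (.node (.node (.leaf [20, 141, 192, 325, 373, 489])
  (.leaf [20, 143, 176, 216, 293, 300])
 ) (.node (.leaf [20, 145, 185, 312, 349, 405])
  (.leaf [20, 146, 212, 344, 449, 463])
 )) (.node (.node (.leaf [20, 147, 190, 355, 370, 468])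
  (.leaf [20, 149, 182, 228, 309, 392])
 ) (.node (.leaf [20, 150, 209, 251, 254, 399])
  (.leaf [20, 151, 191, 244, 305, 381])
 )))) (.node (.node (.node (.node (.leaf [20, 154, 255, 289, 323, 401])
  (.leaf [20, 156, 211, 285, 369, 492])
 ) (.node (.leaf [20, 157, 195, 214, 383, 411])
  (.leaf [20, 159, 183, 230, 357, 429])
 )) (.node (.node (.leaf [20, 160, 270, 301, 306, 371])
  (.leaf [20, 161, 232, 353, 433, 478])
 ) (.node (.leaf [20, 165, 282, 335, 361, 431])
  (.leaf [20, 170, 219, 329, 342, 427])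
 ))) (.node (.node (.node (.leaf [20, 172, 256, 272, 314, 385])
  (.leaf [20, 174, 184, 257, 375, 430])
 ) (.node (.leaf [20, 178, 189, 243, 422, 441])
  (.leaf [20, 179, 227, 264, 410, 457])
 )) (.node (.node (.leaf [20, 204, 269, 377, 407, 485])
  (.leaf [20, 224, 304, 425, 439, 467])
 ) (.node (.leaf [20, 238, 271, 277, 324, 408])
  (.leaf [25, 26, 82, 113, 134, 495])
 )))))

def t501_14 : BT :=
  (.node (.node (.node (.node (.node (.leaf [25, 27, 282, 342, 408, 412])
  (.leaf [25, 31, 89, 92, 127, 500])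
 ) (.node (.leaf [25, 32, 186, 228, 365, 377])
  (.leaf [25, 34, 180, 215, 273, 457])
 )) (.node (.node (.leaf [25, 35, 251, 258, 268, 441])
  (.leaf [25, 36, 136, 205, 244, 351])
 ) (.node (.leaf [25, 37, 188, 218, 329, 428])
  (.leaf [25, 39, 137, 222, 231, 464])
 ))) (.node (.node (.node (.leaf [25, 42, 78, 106, 116, 169])
  (.leaf [25, 43, 145, 184, 322, 485])
 ) (.node (.leaf [25, 44, 181, 182, 405, 489])
  (.leaf [25, 45, 198, 291, 421, 432])
 )) (.node (.node (.leaf [25, 46, 49, 87, 126, 498])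
  (.leaf [25, 48, 326, 397, 414, 481])
 ) (.node (.leaf [25, 50, 85, 125, 135, 165])
  (.leaf [25, 51, 76, 104, 197, 425])
 )))) (.node (.node (.node (.node (.leaf [25, 52, 256, 263, 424, 438])
  (.leaf [25, 53, 243, 296, 362, 401])
 ) (.node (.leaf [25, 54, 111, 140, 157, 171])
  (.leaf [25, 55, 261, 315, 325, 468])
 )) (.node (.node (.leaf [25, 56, 67, 93, 144, 178])
  (.leaf [25, 57, 223, 383, 423, 467])
 ) (.node (.leaf [25, 59, 62, 80, 110, 496])
  (.leaf [25, 60, 102, 163, 327, 427])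
 ))) (.node (.node (.node (.leaf [25, 63, 211, 267, 382, 444])
  (.leaf [25, 64, 194, 199, 286, 478])
 ) (.node (.leaf [25, 65, 101, 138, 466, 487])
  (.leaf [25, 66, 86, 130, 162, 173])
 )) (.node (.node (.leaf [25, 68, 236, 307, 449, 476])
  (.leaf [25, 69, 185, 347, 395, 470])
 ) (.node (.leaf [25, 71, 200, 257, 429, 455])
  (.leaf [25, 72, 248, 354, 358, 413])
 )))))

def t501_15 : BT :=
  (.node (.node (.node (.node (.node (.leaf [25, 73, 75, 239, 271, 275])
  (.leaf [25, 74, 88, 161, 459, 461])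
 ) (.node (.leaf [25, 77, 295, 345, 404, 407])
  (.leaf [25, 79, 262, 341, 353, 430])
 )) (.node (.node (.leaf [25, 83, 270, 305, 418, 440])
  (.leaf [25, 84, 230, 245, 373, 426])
 ) (.node (.leaf [25, 91, 278, 301, 330, 486])
  (.leaf [25, 94, 287, 323, 357, 456])
 ))) (.node (.node (.node (.leaf [25, 95, 214, 316, 346, 409])
  (.leaf [25, 96, 139, 146, 350, 371])
 ) (.node (.leaf [25, 97, 201, 250, 265, 400])
  (.leaf [25, 99, 129, 196, 229, 359])
 )) (.node (.node (.leaf [25, 103, 217, 288, 308, 389])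
  (.leaf [25, 105, 153, 220, 285, 333])
 ) (.node (.leaf [25, 107, 207, 210, 339, 479])
  (.leaf [25, 115, 249, 324, 446, 491])
 )))) (.node (.node (.node (.node (.leaf [25, 117, 274, 279, 334, 447])
  (.leaf [25, 118, 206, 233, 439, 490])
 ) (.node (.leaf [25, 119, 364, 374, 402, 431])
  (.leaf [25, 121, 219, 297, 349, 493])
 )) (.node (.node (.leaf [25, 123, 331, 355, 360, 448])
  (.leaf [25, 124, 232, 277, 390, 442])
 ) (.node (.leaf [25, 128, 247, 361, 393, 450])
  (.leaf [25, 131, 227, 259, 336, 462])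
 ))) (.node (.node (.node (.leaf [25, 132, 202, 212, 368, 411])
  (.leaf [25, 142, 147, 242, 293, 318])
 ) (.node (.leaf [25, 143, 187, 213, 321, 403])
  (.leaf [25, 148, 193, 234, 328, 437])
 )) (.node (.node (.leaf [25, 149, 204, 264, 337, 378])
  (.leaf [25, 150, 195, 216, 415, 484])
 ) (.node (.leaf [25, 151, 314, 317, 396, 473])
  (.leaf [25, 152, 203, 254, 304, 370])
 )))))

def t501_16 : BT :=
  (.node (.node (.node (.node (.node (.leaf [25, 155, 252, 306, 369, 385])
  (.leaf [25, 156, 272, 319, 435, 460])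
 ) (.node (.leaf [25, 167, 241, 366, 392, 458])
  (.leaf [25, 168, 226, 387, 436, 480])
 )) (.node (.node (.leaf [25, 172, 224, 240, 380, 465])
  (.leaf [25, 174, 191, 269, 300, 376])
 ) (.node (.leaf [25, 176, 299, 356, 375, 417])
  (.leaf [25, 209, 225, 303, 312, 434])
 ))) (.node (.node (.node (.leaf [25, 237, 302, 384, 443, 452])
  (.leaf [25, 313, 348, 381, 391, 488])
 ) (.node (.leaf [30, 31, 204, 374, 392, 456])
  (.leaf [30, 32, 51, 61, 87, 496])
 )) (.node (.node (.leaf [30, 35, 99, 257, 265, 337])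
  (.leaf [30, 36, 212, 240, 307, 439])
 ) (.node (.leaf [30, 37, 266, 288, 426, 476])
  (.leaf [30, 39, 97, 191, 220, 480])
 )))) (.node (.node (.node (.node (.leaf [30, 40, 236, 268, 320, 381])
  (.leaf [30, 41, 170, 249, 256, 490])
 ) (.node (.leaf [30, 42, 84, 101, 451, 485])
  (.leaf [30, 43, 255, 300, 361, 413])
 )) (.node (.node (.leaf [30, 44, 258, 272, 312, 447])
  (.leaf [30, 45, 324, 363, 397, 478])
 ) (.node (.leaf [30, 46, 318, 319, 347, 475])
  (.leaf [30, 48, 151, 188, 260, 284])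
 ))) (.node (.node (.node (.leaf [30, 50, 177, 185, 201, 290])
  (.leaf [30, 52, 73, 93, 146, 159])
 ) (.node (.leaf [30, 53, 281, 435, 444, 471])
  (.leaf [30, 55, 90, 107, 112, 130])
 )) (.node (.node (.leaf [30, 57, 89, 103, 145, 161])
  (.leaf [30, 58, 215, 237, 238, 489])
 ) (.node (.leaf [30, 59, 328, 383, 431, 493])
  (.leaf [30, 60, 176, 221, 259, 468])
 )))))

def t501_17 : BT :=
  (.node (.node (.node (.node (.node (.leaf [30, 62, 358, 370, 384, 482])
  (.leaf [30, 66, 366, 379, 386, 398])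
 ) (.node (.leaf [30, 67, 199, 302, 315, 362])
  (.leaf [30, 68, 206, 293, 294, 432])
 )) (.node (.node (.leaf [30, 69, 186, 219, 296, 421])
  (.leaf [30, 70, 94, 154, 481, 487])
 ) (.node (.leaf [30, 71, 119, 169, 306, 390])
  (.leaf [30, 72, 184, 241, 344, 401])
 ))) (.node (.node (.node (.leaf [30, 75, 77, 83, 121, 141])
  (.leaf [30, 76, 138, 285, 352, 461])
 ) (.node (.leaf [30, 78, 225, 304, 326, 448])
  (.leaf [30, 80, 278, 297, 387, 412])
 )) (.node (.node (.leaf [30, 82, 195, 325, 403, 407])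
  (.leaf [30, 95, 243, 287, 408, 414])
 ) (.node (.leaf [30, 96, 125, 157, 163, 166])
  (.leaf [30, 98, 123, 174, 233, 416])
 )))) (.node (.node (.node (.node (.leaf [30, 100, 217, 224, 261, 371])
  (.leaf [30, 102, 214, 359, 360, 441])
 ) (.node (.leaf [30, 104, 303, 351, 382, 465])
  (.leaf [30, 105, 229, 273, 295, 484])
 )) (.node (.node (.leaf [30, 106, 115, 156, 452, 454])
  (.leaf [30, 108, 342, 349, 389, 428])
 ) (.node (.leaf [30, 109, 270, 350, 354, 462])
  (.leaf [30, 111, 222, 277, 378, 430])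
 ))) (.node (.node (.node (.leaf [30, 113, 218, 322, 394, 396])
  (.leaf [30, 116, 200, 232, 420, 472])
 ) (.node (.leaf [30, 117, 251, 289, 433, 467])
  (.leaf [30, 122, 202, 410, 419, 464])
 )) (.node (.node (.leaf [30, 124, 192, 380, 427, 466])
  (.leaf [30, 128, 198, 283, 372, 388])
 ) (.node (.leaf [30, 132, 235, 280, 346, 453])
  (.leaf [30, 134, 210, 343, 393, 402])
 )))))

def t501_18 : BT :=
  (.node (.node (.node (.node (.node (.leaf [30, 136, 196, 242, 327, 477])
  (.leaf [30, 139, 162, 230, 267, 291])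
 ) (.node (.leaf [30, 143, 173, 211, 338, 357])
  (.leaf [30, 144, 213, 313, 353, 442])
 )) (.node (.node (.leaf [30, 147, 194, 275, 331, 364])
  (.leaf [30, 148, 250, 299, 385, 470])
 ) (.node (.leaf [30, 150, 253, 279, 323, 376])
  (.leaf [30, 152, 223, 316, 341, 445])
 ))) (.node (.node (.node (.leaf [30, 153, 197, 301, 449, 483])
  (.leaf [30, 158, 244, 254, 335, 429])
 ) (.node (.leaf [30, 171, 234, 321, 440, 450])
  (.leaf [30, 172, 190, 263, 400, 473])
 )) (.node (.node (.leaf [30, 175, 334, 340, 437, 486])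
  (.leaf [30, 178, 245, 348, 395, 460])
 ) (.node (.leaf [30, 183, 298, 399, 415, 463])
  (.leaf [30, 231, 269, 282, 308, 411])
 )))) (.node (.node (.node (.node (.leaf [30, 271, 292, 406, 417, 494])
  (.leaf [35, 41, 45, 62, 263, 406])
 ) (.node (.leaf [35, 42, 189, 281, 356, 494])
  (.leaf [35, 44, 100, 115, 172, 497])
 )) (.node (.node (.leaf [35, 47, 297, 300, 390, 457])
  (.leaf [35, 48, 93, 164, 456, 471])
 ) (.node (.leaf [35, 49, 83, 199, 273, 339])
  (.leaf [35, 50, 254, 341, 352, 392])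
 ))) (.node (.node (.node (.leaf [35, 51, 152, 336, 343, 466])
  (.leaf [35, 52, 206, 224, 412, 449])
 ) (.node (.leaf [35, 53, 77, 96, 108, 111])
  (.leaf [35, 54, 55, 144, 267, 395])
 )) (.node (.node (.leaf [35, 56, 132, 309, 355, 450])
  (.leaf [35, 57, 203, 253, 379, 480])
 ) (.node (.leaf [35, 58, 338, 354, 409, 465])
  (.leaf [35, 59, 219, 270, 368, 436])
 )))))

def t501_19 : BT :=
  (.node (.node (.node (.node (.node (.leaf [35, 61, 182, 185, 207, 384])
  (.leaf [35, 63, 85, 140, 473, 478])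
 ) (.node (.leaf [35, 65, 275, 325, 415, 437])
  (.leaf [35, 68, 287, 318, 373, 421])
 )) (.node (.node (.leaf [35, 69, 103, 119, 156, 499])
  (.leaf [35, 73, 125, 133, 333, 439])
 ) (.node (.leaf [35, 74, 217, 266, 362, 431])
  (.leaf [35, 78, 188, 190, 359, 451])
 ))) (.node (.node (.node (.leaf [35, 80, 227, 280, 375, 458])
  (.leaf [35, 84, 112, 151, 459, 492])
 ) (.node (.leaf [35, 87, 293, 322, 349, 386])
  (.leaf [35, 88, 252, 274, 443, 464])
 )) (.node (.node (.leaf [35, 91, 233, 279, 307, 369])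
  (.leaf [35, 95, 303, 440, 442, 462])
 ) (.node (.leaf [35, 97, 312, 408, 410, 468])
  (.leaf [35, 102, 180, 210, 397, 433])
 )))) (.node (.node (.node (.node (.leaf [35, 104, 187, 294, 374, 413])
  (.leaf [35, 105, 148, 196, 255, 330])
 ) (.node (.leaf [35, 106, 208, 329, 358, 396])
  (.leaf [35, 107, 290, 331, 385, 475])
 )) (.node (.node (.leaf [35, 109, 149, 218, 234, 482])
  (.leaf [35, 114, 181, 222, 357, 366])
 ) (.node (.leaf [35, 116, 264, 394, 448, 469])
  (.leaf [35, 117, 335, 382, 411, 472])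
 ))) (.node (.node (.node (.leaf [35, 120, 183, 250, 364, 452])
  (.leaf [35, 121, 387, 416, 427, 432])
 ) (.node (.leaf [35, 122, 249, 277, 405, 453])
  (.leaf [35, 123, 201, 283, 328, 430])
 )) (.node (.node (.leaf [35, 124, 212, 239, 302, 418])
  (.leaf [35, 127, 231, 241, 380, 422])
 ) (.node (.leaf [35, 128, 163, 197, 345, 488])
  (.leaf [35, 129, 245, 347, 353, 378])
 )))))

def t501_20 : BT :=
  (.node (.node (.node (.node (.node (.leaf [35, 130, 195, 351, 360, 489])
  (.leaf [35, 131, 237, 246, 391, 483])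
 ) (.node (.leaf [35, 134, 191, 271, 367, 398])
  (.leaf [35, 136, 194, 213, 319, 388])
 )) (.node (.node (.leaf [35, 139, 248, 259, 332, 402])
  (.leaf [35, 143, 193, 334, 407, 417])
 ) (.node (.leaf [35, 145, 310, 361, 424, 486])
  (.leaf [35, 147, 282, 401, 403, 463])
 ))) (.node (.node (.node (.leaf [35, 154, 184, 235, 348, 470])
  (.leaf [35, 158, 198, 423, 447, 491])
 ) (.node (.leaf [35, 159, 324, 376, 381, 485])
  (.leaf [35, 161, 200, 276, 340, 493])
 )) (.node (.node (.leaf [35, 166, 247, 272, 400, 461])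
  (.leaf [35, 167, 261, 288, 344, 428])
 ) (.node (.leaf [35, 170, 313, 346, 419, 446])
  (.leaf [35, 171, 202, 292, 296, 467])
 )))) (.node (.node (.node (.node (.leaf [35, 173, 285, 301, 389, 399])
  (.leaf [35, 174, 205, 220, 393, 404])
 ) (.node (.leaf [35, 175, 230, 242, 377, 444])
  (.leaf [35, 176, 284, 291, 425, 435])
 )) (.node (.node (.leaf [35, 178, 228, 238, 289, 487])
  (.leaf [35, 179, 314, 342, 383, 434])
 ) (.node (.leaf [35, 204, 236, 414, 420, 484])
  (.leaf [35, 225, 260, 299, 323, 365])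
 ))) (.node (.node (.node (.leaf [35, 226, 298, 370, 372, 477])
  (.leaf [40, 42, 59, 73, 88, 113])
 ) (.node (.leaf [40, 46, 383, 397, 404, 416])
  (.leaf [40, 50, 69, 242, 260, 267])
 )) (.node (.node (.leaf [40, 51, 52, 56, 79, 177])
  (.leaf [40, 53, 239, 331, 370, 493])
 ) (.node (.leaf [40, 54, 107, 269, 277, 306])
  (.leaf [40, 55, 272, 275, 285, 374])
 )))))

def t501_21 : BT :=
  (.node (.node (.node (.node (.node (.leaf [40, 58, 247, 352, 414, 480])
  (.leaf [40, 60, 196, 250, 295, 426])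
 ) (.node (.leaf [40, 63, 335, 339, 379, 463])
  (.leaf [40, 66, 144, 171, 172, 499])
 )) (.node (.node (.leaf [40, 67, 180, 185, 391, 413])
  (.leaf [40, 70, 229, 265, 420, 421])
 ) (.node (.leaf [40, 72, 240, 388, 412, 468])
  (.leaf [40, 74, 325, 338, 368, 387])
 ))) (.node (.node (.node (.leaf [40, 80, 90, 145, 465, 474])
  (.leaf [40, 81, 342, 358, 390, 460])
 ) (.node (.leaf [40, 83, 252, 334, 367, 451])
  (.leaf [40, 84, 190, 208, 238, 399])
 )) (.node (.node (.leaf [40, 85, 99, 130, 201, 449])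
  (.leaf [40, 87, 94, 227, 281, 450])
 ) (.node (.leaf [40, 89, 105, 157, 278, 400])
  (.leaf [40, 91, 204, 317, 385, 418])
 )))) (.node (.node (.node (.node (.leaf [40, 92, 246, 294, 304, 382])
  (.leaf [40, 93, 200, 355, 365, 469])
 ) (.node (.leaf [40, 96, 189, 266, 309, 481])
  (.leaf [40, 97, 124, 125, 462, 476])
 )) (.node (.node (.leaf [40, 98, 215, 235, 427, 439])
  (.leaf [40, 100, 231, 423, 438, 458])
 ) (.node (.leaf [40, 102, 228, 356, 422, 440])
  (.leaf [40, 106, 243, 344, 415, 459])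
 ))) (.node (.node (.node (.leaf [40, 108, 197, 299, 396, 433])
  (.leaf [40, 110, 162, 253, 254, 348])
 ) (.node (.leaf [40, 114, 264, 319, 372, 431])
  (.leaf [40, 115, 207, 213, 378, 386])
 )) (.node (.node (.leaf [40, 117, 211, 350, 407, 446])
  (.leaf [40, 120, 210, 216, 360, 456])
 ) (.node (.leaf [40, 126, 176, 188, 212, 466])
  (.leaf [40, 127, 234, 316, 329, 434])
 )))))

def t501_22 : BT :=
  (.node (.node (.node (.node (.node (.leaf [40, 128, 166, 307, 314, 455])
  (.leaf [40, 131, 256, 347, 357, 436])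
 ) (.node (.leaf [40, 132, 287, 297, 333, 389])
  (.leaf [40, 134, 226, 232, 233, 403])
 )) (.node (.node (.leaf [40, 135, 293, 330, 371, 470])
  (.leaf [40, 136, 241, 289, 301, 408])
 ) (.node (.leaf [40, 137, 203, 321, 429, 452])
  (.leaf [40, 138, 150, 219, 225, 478])
 ))) (.node (.node (.node (.leaf [40, 139, 195, 263, 312, 376])
  (.leaf [40, 140, 261, 292, 384, 437])
 ) (.node (.leaf [40, 141, 205, 249, 271, 473])
  (.leaf [40, 142, 340, 362, 417, 490])
 )) (.node (.node (.leaf [40, 143, 218, 430, 445, 461])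
  (.leaf [40, 149, 323, 369, 424, 479])
 ) (.node (.leaf [40, 151, 322, 351, 411, 444])
  (.leaf [40, 152, 184, 296, 361, 441])
 )))) (.node (.node (.node (.node (.leaf [40, 156, 202, 245, 343, 475])
  (.leaf [40, 158, 308, 394, 402, 484])
 ) (.node (.leaf [40, 159, 290, 327, 419, 442])
  (.leaf [40, 161, 198, 222, 288, 471])
 )) (.node (.node (.leaf [40, 164, 276, 401, 435, 486])
  (.leaf [40, 165, 199, 305, 395, 489])
 ) (.node (.leaf [40, 168, 193, 332, 354, 392])
  (.leaf [40, 169, 206, 274, 336, 398])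
 ))) (.node (.node (.node (.leaf [40, 170, 286, 373, 428, 477])
  (.leaf [40, 179, 223, 311, 366, 432])
 ) (.node (.leaf [40, 191, 328, 364, 377, 491])
  (.leaf [40, 214, 270, 282, 345, 375])
 )) (.node (.node (.leaf [40, 251, 279, 380, 443, 472])
  (.leaf [45, 50, 159, 219, 320, 477])
 ) (.node (.leaf [45, 51, 288, 378, 427, 467])
  (.leaf [45, 52, 246, 350, 389, 441])
 )))))

def t501_23 : BT :=
  (.node (.node (.node (.node (.node (.leaf [45, 55, 211, 331, 375, 412])
  (.leaf [45, 56, 233, 247, 398, 426])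
 ) (.node (.leaf [45, 57, 117, 118, 298, 410])
  (.leaf [45, 58, 353, 366, 401, 485])
 )) (.node (.node (.leaf [45, 59, 92, 138, 139, 498])
  (.leaf [45, 60, 66, 111, 146, 174])
 ) (.node (.leaf [45, 61, 71, 74, 109, 154])
  (.leaf [45, 65, 264, 287, 327, 390])
 ))) (.node (.node (.node (.leaf [45, 67, 249, 348, 360, 447])
  (.leaf [45, 69, 166, 184, 238, 493])
 ) (.node (.leaf [45, 70, 147, 169, 316, 383])
  (.leaf [45, 76, 212, 296, 372, 452])
 )) (.node (.node (.leaf [45, 77, 193, 223, 250, 424])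
  (.leaf [45, 81, 202, 237, 313, 481])
 ) (.node (.leaf [45, 85, 231, 400, 413, 476])
  (.leaf [45, 87, 162, 228, 343, 465])
 )))) (.node (.node (.node (.node (.leaf [45, 89, 97, 121, 163, 175])
  (.leaf [45, 91, 336, 442, 446, 457])
 ) (.node (.leaf [45, 94, 280, 311, 330, 480])
  (.leaf [45, 96, 277, 284, 381, 418])
 )) (.node (.node (.leaf [45, 98, 326, 356, 387, 468])
  (.leaf [45, 99, 179, 352, 358, 454])
 ) (.node (.leaf [45, 101, 188, 229, 407, 469])
  (.leaf [45, 102, 152, 232, 315, 357])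
 ))) (.node (.node (.node (.leaf [45, 103, 200, 224, 388, 444])
  (.leaf [45, 104, 302, 310, 333, 417])
 ) (.node (.leaf [45, 105, 210, 338, 362, 440])
  (.leaf [45, 108, 180, 225, 420, 425])
 )) (.node (.node (.leaf [45, 110, 115, 181, 337, 486])
  (.leaf [45, 112, 218, 240, 373, 386])
 ) (.node (.leaf [45, 116, 268, 269, 275, 419])
  (.leaf [45, 119, 259, 283, 433, 461])
 )))))

def t501_24 : BT :=
  (.node (.node (.node (.node (.node (.leaf [45, 123, 242, 254, 306, 491])
  (.leaf [45, 126, 206, 286, 392, 443])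
 ) (.node (.leaf [45, 128, 182, 226, 289, 470])
  (.leaf [45, 129, 145, 213, 271, 282])
 )) (.node (.node (.leaf [45, 130, 273, 376, 380, 494])
  (.leaf [45, 131, 243, 384, 429, 460])
 ) (.node (.leaf [45, 133, 183, 293, 409, 436])
  (.leaf [45, 135, 272, 355, 404, 431])
 ))) (.node (.node (.node (.leaf [45, 136, 222, 251, 371, 385])
  (.leaf [45, 140, 304, 319, 322, 416])
 ) (.node (.leaf [45, 141, 260, 270, 309, 430])
  (.leaf [45, 142, 325, 339, 354, 395])
 )) (.node (.node (.leaf [45, 143, 220, 314, 364, 484])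
  (.leaf [45, 144, 236, 285, 329, 405])
 ) (.node (.leaf [45, 148, 321, 342, 351, 414])
  (.leaf [45, 149, 209, 261, 377, 435])
 )))) (.node (.node (.node (.node (.leaf [45, 150, 189, 208, 307, 374])
  (.leaf [45, 151, 216, 323, 402, 453])
 ) (.node (.leaf [45, 155, 214, 234, 344, 423])
  (.leaf [45, 156, 227, 312, 439, 474])
 )) (.node (.node (.leaf [45, 158, 187, 221, 391, 482])
  (.leaf [45, 164, 172, 197, 265, 459])
 ) (.node (.leaf [45, 167, 255, 294, 445, 448])
  (.leaf [45, 168, 215, 258, 301, 472])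
 ))) (.node (.node (.node (.leaf [45, 170, 190, 308, 347, 367])
  (.leaf [45, 171, 290, 297, 408, 488])
 ) (.node (.leaf [45, 178, 239, 244, 276, 428])
  (.leaf [45, 194, 299, 422, 449, 471])
 )) (.node (.node (.leaf [45, 199, 279, 361, 368, 490])
  (.leaf [45, 252, 257, 266, 340, 394])
 ) (.node (.leaf [50, 57, 156, 173, 471, 478])
  (.leaf [50, 58, 121, 129, 130, 499])
 )))))

def t501_25 : BT :=
  (.node (.node (.node (.node (.node (.leaf [50, 61, 323, 393, 421, 467])
  (.leaf [50, 62, 308, 340, 388, 442])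
 ) (.node (.leaf [50, 63, 266, 411, 428, 452])
  (.leaf [50, 64, 223, 226, 272, 489])
 )) (.node (.node (.leaf [50, 65, 182, 332, 345, 369])
  (.leaf [50, 66, 95, 132, 451, 457])
 ) (.node (.leaf [50, 67, 207, 271, 427, 484])
  (.leaf [50, 70, 192, 310, 371, 398])
 ))) (.node (.node (.node (.leaf [50, 72, 195, 246, 276, 414])
  (.leaf [50, 73, 181, 228, 385, 493])
 ) (.node (.leaf [50, 80, 83, 136, 169, 497])
  (.leaf [50, 81, 277, 291, 297, 492])
 )) (.node (.node (.leaf [50, 82, 97, 270, 303, 327])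
  (.leaf [50, 84, 243, 292, 375, 402])
 ) (.node (.leaf [50, 88, 188, 273, 362, 389])
  (.leaf [50, 89, 106, 119, 147, 153])
 )))) (.node (.node (.node (.node (.leaf [50, 90, 101, 171, 294, 360])
  (.leaf [50, 92, 183, 366, 370, 460])
 ) (.node (.leaf [50, 93, 198, 220, 331, 470])
  (.leaf [50, 94, 241, 321, 329, 453])
 )) (.node (.node (.leaf [50, 96, 212, 258, 445, 455])
  (.leaf [50, 99, 233, 285, 351, 430])
 ) (.node (.leaf [50, 100, 199, 232, 235, 367])
  (.leaf [50, 102, 115, 200, 289, 304])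
 ))) (.node (.node (.node (.leaf [50, 107, 111, 137, 168, 500])
  (.leaf [50, 109, 301, 339, 374, 425])
 ) (.node (.leaf [50, 110, 230, 300, 346, 472])
  (.leaf [50, 114, 229, 255, 368, 381])
 )) (.node (.node (.leaf [50, 117, 218, 293, 401, 469])
  (.leaf [50, 118, 262, 280, 415, 483])
 ) (.node (.leaf [50, 123, 152, 244, 248, 468])
  (.leaf [50, 126, 257, 306, 355, 461])
 )))))

def t501_26 : BT :=
  (.node (.node (.node (.node (.node (.leaf [50, 127, 191, 217, 363, 409])
  (.leaf [50, 134, 180, 253, 316, 491])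
 ) (.node (.leaf [50, 138, 251, 376, 407, 454])
  (.leaf [50, 139, 148, 295, 305, 337])
 )) (.node (.node (.leaf [50, 142, 205, 281, 380, 486])
  (.leaf [50, 143, 269, 311, 373, 443])
 ) (.node (.leaf [50, 144, 189, 234, 302, 432])
  (.leaf [50, 145, 197, 202, 347, 438])
 ))) (.node (.node (.node (.leaf [50, 154, 406, 408, 431, 448])
  (.leaf [50, 155, 190, 221, 237, 361])
 ) (.node (.leaf [50, 161, 275, 343, 449, 450])
  (.leaf [50, 162, 282, 334, 395, 475])
 )) (.node (.node (.leaf [50, 163, 256, 296, 317, 390])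
  (.leaf [50, 164, 206, 288, 420, 481])
 ) (.node (.leaf [50, 166, 245, 315, 322, 463])
  (.leaf [50, 167, 194, 413, 419, 488])
 )))) (.node (.node (.node (.node (.leaf [50, 174, 227, 263, 284, 399])
  (.leaf [50, 179, 204, 313, 350, 397])
 ) (.node (.leaf [50, 231, 247, 299, 359, 435])
  (.leaf [50, 252, 328, 439, 440, 458])
 )) (.node (.node (.leaf [50, 264, 309, 386, 405, 482])
  (.leaf [55, 60, 282, 439, 444, 492])
 ) (.node (.leaf [55, 61, 158, 231, 233, 264])
  (.leaf [55, 62, 83, 85, 108, 498])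
 ))) (.node (.node (.node (.leaf [55, 64, 252, 318, 356, 488])
  (.leaf [55, 67, 216, 228, 349, 419])
 ) (.node (.leaf [55, 68, 182, 200, 202, 380])
  (.leaf [55, 69, 169, 253, 300, 310])
 )) (.node (.node (.leaf [55, 70, 208, 255, 336, 408])
  (.leaf [55, 71, 283, 320, 426, 460])
 ) (.node (.leaf [55, 72, 225, 357, 430, 479])
  (.leaf [55, 73, 184, 218, 400, 480])
 )))))

def t501_27 : BT :=
  (.node (.node (.node (.node (.node (.leaf [55, 75, 172, 278, 338, 345])
  (.leaf [55, 76, 294, 297, 337, 370])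
 ) (.node (.leaf [55, 77, 86, 196, 254, 289])
  (.leaf [55, 79, 330, 340, 399, 462])
 )) (.node (.node (.leaf [55, 80, 207, 388, 448, 463])
  (.leaf [55, 82, 277, 288, 360, 398])
 ) (.node (.leaf [55, 84, 270, 391, 446, 471])
  (.leaf [55, 88, 339, 364, 392, 450])
 ))) (.node (.node (.node (.leaf [55, 91, 213, 302, 371, 405])
  (.leaf [55, 94, 268, 361, 362, 464])
 ) (.node (.leaf [55, 95, 183, 212, 220, 373])
  (.leaf [55, 97, 197, 313, 443, 466])
 )) (.node (.node (.leaf [55, 98, 175, 194, 245, 309])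
  (.leaf [55, 99, 189, 332, 414, 475])
 ) (.node (.leaf [55, 100, 128, 146, 453, 457])
  (.leaf [55, 103, 136, 150, 165, 178])
 )))) (.node (.node (.node (.node (.leaf [55, 106, 326, 346, 378, 442])
  (.leaf [55, 109, 204, 304, 341, 451])
 ) (.node (.leaf [55, 110, 118, 190, 244, 352])
  (.leaf [55, 113, 191, 250, 379, 445])
 )) (.node (.node (.leaf [55, 124, 312, 334, 383, 387])
  (.leaf [55, 125, 185, 247, 276, 473])
 ) (.node (.leaf [55, 133, 154, 161, 311, 365])
  (.leaf [55, 134, 273, 274, 418, 431])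
 ))) (.node (.node (.node (.leaf [55, 137, 195, 256, 295, 461])
  (.leaf [55, 138, 237, 327, 366, 422])
 ) (.node (.leaf [55, 141, 386, 393, 394, 424])
  (.leaf [55, 151, 279, 292, 306, 427])
 )) (.node (.node (.leaf [55, 152, 199, 358, 407, 415])
  (.leaf [55, 153, 210, 258, 420, 485])
 ) (.node (.leaf [55, 155, 205, 209, 227, 363])
  (.leaf [55, 156, 265, 324, 433, 455])
 )))))

def t501_28 : BT :=
  (.node (.node (.node (.node (.node (.leaf [55, 157, 219, 284, 298, 404])
  (.leaf [55, 160, 188, 286, 390, 410])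
 ) (.node (.leaf [55, 162, 290, 301, 355, 447])
  (.leaf [55, 163, 238, 257, 416, 472])
 )) (.node (.node (.leaf [55, 167, 287, 314, 348, 452])
  (.leaf [55, 168, 230, 260, 372, 417])
 ) (.node (.leaf [55, 170, 198, 248, 263, 389])
  (.leaf [55, 173, 180, 187, 385, 477])
 ))) (.node (.node (.node (.leaf [55, 174, 222, 303, 342, 409])
  (.leaf [55, 186, 243, 423, 449, 456])
 ) (.node (.leaf [55, 203, 214, 291, 317, 440])
  (.leaf [55, 307, 323, 367, 436, 478])
 )) (.node (.node (.leaf [60, 61, 101, 126, 152, 156])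
  (.leaf [60, 65, 285, 317, 404, 491])
 ) (.node (.leaf [60, 67, 186, 225, 272, 403])
  (.leaf [60, 68, 144, 286, 311, 456])
 )))) (.node (.node (.node (.node (.leaf [60, 69, 216, 332, 353, 406])
  (.leaf [60, 71, 210, 218, 374, 465])
 ) (.node (.leaf [60, 72, 85, 193, 299, 340])
  (.leaf [60, 74, 173, 194, 280, 288])
 )) (.node (.node (.leaf [60, 75, 212, 226, 333, 401])
  (.leaf [60, 76, 290, 323, 405, 451])
 ) (.node (.leaf [60, 77, 217, 234, 367, 464])
  (.leaf [60, 78, 115, 137, 474, 488])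
 ))) (.node (.node (.node (.leaf [60, 79, 169, 178, 463, 493])
  (.leaf [60, 80, 235, 252, 308, 457])
 ) (.node (.leaf [60, 89, 198, 303, 408, 417])
  (.leaf [60, 90, 238, 305, 397, 421])
 )) (.node (.node (.leaf [60, 91, 222, 321, 325, 484])
  (.leaf [60, 92, 289, 407, 437, 478])
 ) (.node (.leaf [60, 93, 107, 124, 136, 498])
  (.leaf [60, 94, 104, 172, 283, 436])
 )))))

def t501_29 : BT :=
  (.node (.node (.node (.node (.node (.leaf [60, 95, 215, 309, 372, 486])
  (.leaf [60, 96, 328, 349, 380, 462])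
 ) (.node (.leaf [60, 97, 310, 315, 344, 364])
  (.leaf [60, 98, 278, 296, 355, 378])
 )) (.node (.node (.leaf [60, 99, 132, 240, 266, 483])
  (.leaf [60, 103, 117, 180, 241, 461])
 ) (.node (.leaf [60, 105, 143, 197, 201, 472])
  (.leaf [60, 109, 251, 312, 369, 414])
 ))) (.node (.node (.node (.leaf [60, 110, 203, 351, 375, 428])
  (.leaf [60, 114, 204, 228, 360, 449])
 ) (.node (.leaf [60, 116, 220, 277, 307, 385])
  (.leaf [60, 118, 326, 338, 423, 446])
 )) (.node (.node (.leaf [60, 119, 291, 329, 366, 471])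
  (.leaf [60, 127, 192, 242, 430, 433])
 ) (.node (.leaf [60, 128, 298, 419, 445, 473])
  (.leaf [60, 129, 187, 237, 365, 447])
 )))) (.node (.node (.node (.node (.leaf [60, 130, 347, 354, 398, 416])
  (.leaf [60, 133, 205, 300, 394, 399])
 ) (.node (.leaf [60, 138, 148, 301, 348, 490])
  (.leaf [60, 139, 345, 368, 432, 481])
 )) (.node (.node (.leaf [60, 141, 239, 246, 335, 410])
  (.leaf [60, 145, 302, 304, 377, 494])
 ) (.node (.leaf [60, 150, 271, 284, 358, 371])
  (.leaf [60, 154, 223, 352, 415, 476])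
 ))) (.node (.node (.node (.leaf [60, 159, 339, 342, 370, 411])
  (.leaf [60, 160, 243, 245, 248, 435])
 ) (.node (.leaf [60, 161, 257, 260, 292, 442])
  (.leaf [60, 164, 208, 219, 359, 448])
 )) (.node (.node (.leaf [60, 167, 247, 434, 443, 455])
  (.leaf [60, 168, 244, 294, 396, 431])
 ) (.node (.leaf [60, 170, 297, 324, 424, 458])
  (.leaf [60, 171, 209, 316, 402, 412])
 )))))

def t501_30 : BT :=
  (.node (.node (.node (.node (.node (.leaf [60, 175, 255, 276, 390, 418])
  (.leaf [60, 177, 256, 274, 313, 429])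
 ) (.node (.leaf [60, 179, 191, 211, 346, 387])
  (.leaf [60, 183, 202, 264, 270, 361])
 )) (.node (.node (.leaf [60, 231, 281, 389, 395, 487])
  (.leaf [60, 236, 331, 362, 393, 469])
 ) (.node (.leaf [65, 66, 193, 199, 393, 442])
  (.leaf [65, 67, 229, 233, 242, 476])
 ))) (.node (.node (.node (.leaf [65, 70, 75, 76, 96, 497])
  (.leaf [65, 71, 334, 416, 420, 492])
 ) (.node (.leaf [65, 72, 95, 102, 140, 147])
  (.leaf [65, 73, 97, 156, 174, 500])
 )) (.node (.node (.leaf [65, 74, 224, 339, 349, 452])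
  (.leaf [65, 77, 252, 398, 431, 481])
 ) (.node (.leaf [65, 78, 130, 209, 263, 490])
  (.leaf [65, 81, 299, 316, 361, 489])
 )))) (.node (.node (.node (.node (.leaf [65, 82, 163, 185, 223, 307])
  (.leaf [65, 83, 232, 236, 400, 427])
 ) (.node (.leaf [65, 84, 269, 280, 314, 433])
  (.leaf [65, 86, 218, 237, 444, 485])
 )) (.node (.node (.leaf [65, 88, 153, 230, 278, 312])
  (.leaf [65, 89, 241, 322, 424, 464])
 ) (.node (.leaf [65, 90, 124, 272, 328, 484])
  (.leaf [65, 92, 120, 211, 298, 340])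
 ))) (.node (.node (.node (.leaf [65, 93, 181, 353, 379, 447])
  (.leaf [65, 98, 106, 132, 150, 166])
 ) (.node (.leaf [65, 100, 255, 267, 331, 483])
  (.leaf [65, 103, 249, 251, 364, 406])
 )) (.node (.node (.leaf [65, 105, 305, 326, 402, 409])
  (.leaf [65, 107, 284, 351, 449, 486])
 ) (.node (.leaf [65, 108, 191, 234, 320, 374])
  (.leaf [65, 111, 210, 336, 410, 474])
 )))))

def t501_31 : BT :=
  (.node (.node (.node (.node (.node (.leaf [65, 112, 201, 246, 256, 432])
  (.leaf [65, 114, 128, 177, 286, 408])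
 ) (.node (.leaf [65, 116, 321, 344, 388, 435])
  (.leaf [65, 119, 190, 250, 260, 457])
 )) (.node (.node (.leaf [65, 122, 303, 355, 391, 475])
  (.leaf [65, 123, 195, 206, 277, 440])
 ) (.node (.leaf [65, 127, 203, 221, 337, 366])
  (.leaf [65, 129, 155, 235, 281, 292])
 ))) (.node (.node (.node (.leaf [65, 135, 194, 294, 357, 426])
  (.leaf [65, 144, 271, 335, 377, 380])
 ) (.node (.leaf [65, 146, 295, 368, 405, 459])
  (.leaf [65, 148, 244, 443, 448, 477])
 )) (.node (.node (.leaf [65, 151, 245, 341, 371, 421])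
  (.leaf [65, 154, 262, 310, 358, 461])
 ) (.node (.leaf [65, 164, 319, 362, 376, 463])
  (.leaf [65, 168, 225, 343, 418, 454])
 )))) (.node (.node (.node (.node (.leaf [65, 169, 329, 330, 439, 472])
  (.leaf [65, 200, 266, 283, 359, 389])
 ) (.node (.leaf [65, 216, 253, 383, 384, 462])
  (.leaf [65, 324, 352, 372, 430, 493])
 )) (.node (.node (.leaf [70, 78, 295, 309, 364, 435])
  (.leaf [70, 79, 206, 283, 306, 465])
 ) (.node (.leaf [70, 80, 189, 264, 284, 430])
  (.leaf [70, 81, 270, 322, 359, 417])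
 ))) (.node (.node (.node (.leaf [70, 82, 199, 210, 351, 439])
  (.leaf [70, 83, 231, 314, 406, 480])
 ) (.node (.leaf [70, 84, 201, 213, 293, 361])
  (.leaf [70, 86, 219, 262, 302, 366])
 )) (.node (.node (.leaf [70, 87, 226, 271, 382, 476])
  (.leaf [70, 91, 212, 253, 331, 392])
 ) (.node (.leaf [70, 92, 116, 128, 137, 176])
  (.leaf [70, 95, 139, 187, 205, 288])
 )))))

def t501_32 : BT :=
  (.node (.node (.node (.node (.node (.leaf [70, 97, 234, 362, 378, 461])
  (.leaf [70, 102, 114, 134, 136, 173])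
 ) (.node (.leaf [70, 104, 195, 272, 390, 446])
  (.leaf [70, 106, 177, 196, 308, 325])
 )) (.node (.node (.leaf [70, 107, 311, 329, 354, 403])
  (.leaf [70, 111, 180, 344, 422, 478])
 ) (.node (.leaf [70, 112, 166, 275, 327, 358])
  (.leaf [70, 113, 266, 307, 437, 474])
 ))) (.node (.node (.node (.leaf [70, 115, 237, 299, 347, 463])
  (.leaf [70, 117, 216, 250, 317, 489])
 ) (.node (.leaf [70, 119, 300, 367, 372, 454])
  (.leaf [70, 121, 142, 202, 238, 450])
 )) (.node (.node (.leaf [70, 122, 185, 346, 389, 457])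
  (.leaf [70, 123, 290, 303, 413, 486])
 ) (.node (.leaf [70, 124, 203, 261, 405, 426])
  (.leaf [70, 125, 312, 332, 370, 401])
 )))) (.node (.node (.node (.node (.leaf [70, 126, 223, 280, 318, 418])
  (.leaf [70, 129, 242, 304, 449, 468])
 ) (.node (.leaf [70, 132, 375, 376, 414, 427])
  (.leaf [70, 135, 263, 319, 328, 441])
 )) (.node (.node (.leaf [70, 141, 258, 286, 294, 452])
  (.leaf [70, 144, 268, 334, 379, 393])
 ) (.node (.leaf [70, 146, 209, 296, 391, 438])
  (.leaf [70, 149, 259, 341, 434, 440])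
 ))) (.node (.node (.node (.leaf [70, 155, 247, 260, 278, 485])
  (.leaf [70, 157, 240, 257, 368, 385])
 ) (.node (.leaf [70, 163, 230, 301, 338, 467])
  (.leaf [70, 165, 211, 248, 315, 365])
 )) (.node (.node (.leaf [70, 172, 188, 276, 374, 381])
  (.leaf [70, 178, 184, 397, 443, 488])
 ) (.node (.leaf [70, 207, 221, 245, 291, 442])
  (.leaf [70, 232, 239, 399, 444, 458])
 )))))

def t501_33 : BT :=
  (.node (.node (.node (.node (.node (.leaf [70, 285, 340, 377, 447, 475])
  (.leaf [75, 80, 237, 240, 370, 461])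
 ) (.node (.leaf [75, 82, 220, 246, 266, 419])
  (.leaf [75, 86, 214, 248, 382, 439])
 )) (.node (.node (.leaf [75, 87, 208, 339, 393, 490])
  (.leaf [75, 88, 182, 194, 311, 412])
 ) (.node (.leaf [75, 90, 93, 162, 244, 433])
  (.leaf [75, 91, 217, 219, 304, 411])
 ))) (.node (.node (.node (.leaf [75, 92, 259, 277, 420, 454])
  (.leaf [75, 94, 116, 282, 319, 474])
 ) (.node (.leaf [75, 97, 202, 430, 440, 477])
  (.leaf [75, 98, 189, 359, 418, 423])
 )) (.node (.node (.leaf [75, 101, 180, 257, 334, 465])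
  (.leaf [75, 102, 167, 283, 326, 487])
 ) (.node (.leaf [75, 104, 256, 355, 387, 388])
  (.leaf [75, 105, 265, 290, 321, 366])
 )))) (.node (.node (.node (.node (.leaf [75, 107, 242, 357, 390, 473])
  (.leaf [75, 109, 131, 187, 216, 455])
 ) (.node (.leaf [75, 110, 236, 251, 262, 417])
  (.leaf [75, 111, 247, 337, 364, 475])
 )) (.node (.node (.leaf [75, 112, 209, 310, 400, 469])
  (.leaf [75, 113, 143, 332, 340, 481])
 ) (.node (.leaf [75, 115, 229, 330, 372, 383])
  (.leaf [75, 120, 133, 170, 470, 482])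
 ))) (.node (.node (.node (.leaf [75, 123, 267, 300, 335, 403])
  (.leaf [75, 125, 245, 314, 375, 479])
 ) (.node (.leaf [75, 126, 274, 292, 346, 424])
  (.leaf [75, 127, 204, 309, 327, 394])
 )) (.node (.node (.leaf [75, 128, 201, 318, 350, 442])
  (.leaf [75, 129, 181, 197, 344, 410])
 ) (.node (.leaf [75, 135, 203, 285, 380, 493])
  (.leaf [75, 136, 279, 303, 414, 425])
 )))))

def t501_34 : BT :=
  (.node (.node (.node (.node (.node (.leaf [75, 140, 305, 407, 448, 491])
  (.leaf [75, 142, 233, 352, 384, 438])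
 ) (.node (.leaf [75, 145, 273, 288, 399, 421])
  (.leaf [75, 146, 148, 157, 161, 499])
 )) (.node (.node (.leaf [75, 147, 222, 249, 373, 381])
  (.leaf [75, 150, 270, 408, 428, 489])
 ) (.node (.leaf [75, 151, 281, 358, 392, 404])
  (.leaf [75, 152, 225, 426, 447, 452])
 ))) (.node (.node (.node (.leaf [75, 155, 317, 389, 435, 456])
  (.leaf [75, 156, 193, 276, 313, 476])
 ) (.node (.leaf [75, 160, 230, 254, 443, 446])
  (.leaf [75, 163, 190, 235, 406, 432])
 )) (.node (.node (.leaf [75, 164, 353, 369, 398, 472])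
  (.leaf [75, 168, 234, 323, 377, 386])
 ) (.node (.leaf [75, 169, 200, 308, 349, 362])
  (.leaf [75, 171, 195, 198, 324, 480])
 )))) (.node (.node (.node (.node (.leaf [75, 173, 343, 378, 441, 483])
  (.leaf [75, 175, 238, 316, 376, 436])
 ) (.node (.leaf [75, 176, 205, 280, 416, 449])
  (.leaf [75, 186, 302, 368, 379, 486])
 )) (.node (.node (.leaf [75, 218, 224, 255, 264, 360])
  (.leaf [75, 241, 268, 385, 415, 468])
 ) (.node (.leaf [80, 85, 255, 285, 382, 384])
  (.leaf [80, 86, 101, 200, 279, 473])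
 ))) (.node (.node (.node (.leaf [80, 88, 98, 140, 187, 449])
  (.leaf [80, 89, 193, 257, 282, 494])
 ) (.node (.leaf [80, 91, 190, 205, 372, 426])
  (.leaf [80, 93, 158, 199, 277, 466])
 )) (.node (.node (.leaf [80, 96, 241, 320, 391, 397])
  (.leaf [80, 97, 260, 349, 352, 423])
 ) (.node (.leaf [80, 100, 211, 292, 322, 378])
  (.leaf [80, 103, 253, 343, 380, 407])
 )))))

def t501_35 : BT :=
  (.node (.node (.node (.node (.node (.leaf [80, 106, 160, 302, 318, 324])
  (.leaf [80, 108, 262, 409, 435, 479])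
 ) (.node (.leaf [80, 109, 185, 186, 340, 478])
  (.leaf [80, 112, 195, 381, 404, 456])
 )) (.node (.node (.leaf [80, 114, 268, 303, 314, 481])
  (.leaf [80, 115, 232, 316, 377, 484])
 ) (.node (.leaf [80, 117, 295, 313, 398, 492])
  (.leaf [80, 118, 224, 329, 347, 414])
 ))) (.node (.node (.node (.leaf [80, 119, 127, 194, 261, 475])
  (.leaf [80, 122, 208, 248, 356, 470])
 ) (.node (.leaf [80, 124, 148, 150, 168, 172])
  (.leaf [80, 125, 251, 353, 400, 428])
 )) (.node (.node (.leaf [80, 126, 291, 385, 390, 485])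
  (.leaf [80, 130, 220, 250, 386, 439])
 ) (.node (.leaf [80, 131, 267, 327, 393, 420])
  (.leaf [80, 133, 350, 367, 440, 467])
 )))) (.node (.node (.node (.node (.leaf [80, 134, 155, 156, 229, 422])
  (.leaf [80, 135, 210, 421, 438, 483])
 ) (.node (.leaf [80, 137, 288, 338, 411, 419])
  (.leaf [80, 146, 173, 309, 351, 454])
 )) (.node (.node (.leaf [80, 147, 212, 306, 425, 489])
  (.leaf [80, 149, 181, 304, 433, 446])
 ) (.node (.leaf [80, 151, 165, 299, 348, 487])
  (.leaf [80, 154, 175, 333, 339, 459])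
 ))) (.node (.node (.node (.leaf [80, 157, 183, 330, 334, 432])
  (.leaf [80, 159, 256, 300, 418, 462])
 ) (.node (.leaf [80, 162, 192, 263, 444, 450])
  (.leaf [80, 163, 242, 319, 355, 371])
 )) (.node (.node (.leaf [80, 167, 222, 424, 441, 476])
  (.leaf [80, 174, 182, 204, 206, 389])
 ) (.node (.leaf [80, 176, 225, 289, 364, 469])
  (.leaf [80, 177, 218, 344, 359, 366])
 )))))

def t501_36 : BT :=
  (.node (.node (.node (.node (.node (.leaf [80, 184, 337, 365, 406, 471])
  (.leaf [80, 219, 228, 383, 410, 490])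
 ) (.node (.leaf [80, 245, 258, 332, 346, 379])
  (.leaf [85, 86, 244, 245, 296, 484])
 )) (.node (.node (.leaf [85, 87, 316, 331, 396, 408])
  (.leaf [85, 90, 144, 182, 210, 308])
 ) (.node (.leaf [85, 96, 149, 167, 474, 492])
  (.leaf [85, 97, 294, 309, 332, 383])
 ))) (.node (.node (.node (.leaf [85, 101, 298, 349, 434, 450])
  (.leaf [85, 102, 211, 265, 395, 491])
 ) (.node (.leaf [85, 103, 133, 246, 280, 312])
  (.leaf [85, 105, 141, 156, 358, 375])
 )) (.node (.node (.leaf [85, 113, 230, 330, 342, 459])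
  (.leaf [85, 114, 321, 346, 441, 447])
 ) (.node (.leaf [85, 116, 303, 352, 360, 428])
  (.leaf [85, 120, 306, 363, 423, 471])
 )))) (.node (.node (.node (.node (.leaf [85, 121, 203, 223, 353, 487])
  (.leaf [85, 123, 180, 315, 369, 419])
 ) (.node (.leaf [85, 124, 257, 370, 444, 488])
  (.leaf [85, 126, 187, 251, 263, 464])
 )) (.node (.node (.leaf [85, 127, 219, 424, 432, 469])
  (.leaf [85, 131, 292, 311, 343, 451])
 ) (.node (.leaf [85, 132, 224, 322, 374, 430])
  (.leaf [85, 137, 209, 367, 376, 455])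
 ))) (.node (.node (.node (.leaf [85, 138, 297, 397, 426, 482])
  (.leaf [85, 143, 186, 252, 325, 366])
 ) (.node (.leaf [85, 145, 214, 289, 425, 480])
  (.leaf [85, 147, 198, 260, 404, 486])
 )) (.node (.node (.leaf [85, 151, 240, 262, 268, 422])
  (.leaf [85, 153, 302, 327, 328, 387])
 ) (.node (.leaf [85, 155, 222, 259, 329, 411])
  (.leaf [85, 157, 188, 202, 415, 485])
 )))))

def t501_37 : BT :=
  (.node (.node (.node (.node (.node (.leaf [85, 168, 221, 233, 379, 390])
  (.leaf [85, 169, 190, 215, 256, 477])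
 ) (.node (.leaf [85, 170, 181, 351, 429, 494])
  (.leaf [85, 173, 248, 333, 348, 373])
 )) (.node (.node (.leaf [85, 174, 237, 287, 378, 439])
  (.leaf [85, 175, 277, 318, 338, 393])
 ) (.node (.leaf [85, 177, 228, 305, 307, 412])
  (.leaf [85, 178, 362, 368, 402, 448])
 ))) (.node (.node (.node (.leaf [85, 179, 196, 205, 266, 433])
  (.leaf [85, 183, 192, 290, 326, 445])
 ) (.node (.leaf [85, 234, 269, 385, 388, 454])
  (.leaf [85, 345, 354, 372, 410, 467])
 )) (.node (.node (.leaf [90, 91, 319, 404, 428, 479])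
  (.leaf [90, 95, 193, 274, 304, 388])
 ) (.node (.leaf [90, 96, 372, 378, 398, 424])
  (.leaf [90, 98, 254, 297, 400, 486])
 )))) (.node (.node (.node (.node (.leaf [90, 99, 230, 344, 385, 489])
  (.leaf [90, 103, 198, 326, 420, 490])
 ) (.node (.leaf [90, 104, 236, 250, 258, 418])
  (.leaf [90, 106, 184, 234, 393, 419])
 )) (.node (.node (.leaf [90, 108, 190, 264, 379, 436])
  (.leaf [90, 113, 174, 178, 461, 462])
 ) (.node (.leaf [90, 115, 225, 273, 327, 375])
  (.leaf [90, 116, 163, 227, 265, 351])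
 ))) (.node (.node (.node (.leaf [90, 118, 189, 289, 310, 396])
  (.leaf [90, 120, 260, 290, 399, 412])
 ) (.node (.leaf [90, 122, 187, 337, 438, 446])
  (.leaf [90, 128, 256, 299, 366, 447])
 )) (.node (.node (.leaf [90, 129, 220, 280, 342, 491])
  (.leaf [90, 131, 217, 247, 382, 394])
 ) (.node (.leaf [90, 133, 157, 208, 215, 353])
  (.leaf [90, 140, 332, 355, 395, 492])
 )))))

def t501_38 : BT :=
  (.node (.node (.node (.node (.node (.leaf [90, 143, 276, 345, 413, 477])
  (.leaf [90, 146, 270, 338, 443, 450])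
 ) (.node (.leaf [90, 149, 231, 285, 365, 448])
  (.leaf [90, 151, 180, 207, 267, 439])
 )) (.node (.node (.leaf [90, 152, 226, 229, 243, 392])
  (.leaf [90, 154, 191, 347, 411, 455])
 ) (.node (.leaf [90, 158, 307, 311, 336, 444])
  (.leaf [90, 159, 201, 206, 271, 407])
 ))) (.node (.node (.node (.leaf [90, 167, 223, 268, 349, 459])
  (.leaf [90, 168, 261, 341, 381, 401])
 ) (.node (.leaf [90, 170, 224, 309, 422, 493])
  (.leaf [90, 172, 213, 251, 415, 469])
 )) (.node (.node (.leaf [90, 177, 186, 233, 298, 383])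
  (.leaf [90, 188, 192, 339, 352, 426])
 ) (.node (.leaf [90, 199, 219, 414, 434, 464])
  (.leaf [90, 255, 293, 377, 402, 471])
 )))) (.node (.node (.node (.node (.leaf [95, 96, 261, 278, 393, 430])
  (.leaf [95, 101, 228, 363, 366, 455])
 ) (.node (.leaf [95, 103, 209, 382, 401, 478])
  (.leaf [95, 105, 180, 216, 269, 405])
 )) (.node (.node (.leaf [95, 106, 226, 245, 425, 494])
  (.leaf [95, 109, 111, 115, 126, 143])
 ) (.node (.leaf [95, 112, 221, 293, 367, 383])
  (.leaf [95, 114, 199, 270, 404, 454])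
 ))) (.node (.node (.node (.leaf [95, 121, 249, 294, 317, 422])
  (.leaf [95, 127, 236, 339, 344, 399])
 ) (.node (.leaf [95, 135, 213, 218, 222, 398])
  (.leaf [95, 136, 198, 238, 321, 394])
 )) (.node (.node (.leaf [95, 141, 227, 242, 378, 395])
  (.leaf [95, 144, 255, 349, 400, 416])
 ) (.node (.leaf [95, 151, 210, 239, 365, 432])
  (.leaf [95, 154, 206, 256, 319, 453])
 )))))

def t501_39 : BT :=
  (.node (.node (.node (.node (.node (.leaf [95, 157, 182, 190, 302, 471])
  (.leaf [95, 158, 289, 305, 343, 456])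
 ) (.node (.leaf [95, 160, 196, 203, 345, 490])
  (.leaf [95, 164, 248, 419, 426, 493])
 )) (.node (.node (.leaf [95, 167, 290, 329, 387, 481])
  (.leaf [95, 169, 323, 335, 444, 468])
 ) (.node (.leaf [95, 173, 272, 282, 331, 458])
  (.leaf [95, 174, 208, 337, 369, 407])
 ))) (.node (.node (.node (.leaf [95, 176, 235, 296, 315, 482])
  (.leaf [95, 181, 207, 295, 312, 424])
 ) (.node (.leaf [95, 184, 326, 428, 439, 463])
  (.leaf [95, 314, 320, 361, 427, 470])
 )) (.node (.node (.leaf [100, 101, 216, 338, 376, 400])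
  (.leaf [100, 102, 205, 222, 295, 478])
 ) (.node (.leaf [100, 105, 185, 283, 339, 407])
  (.leaf [100, 106, 242, 288, 289, 417])
 )))) (.node (.node (.node (.node (.leaf [100, 107, 193, 225, 316, 410])
  (.leaf [100, 109, 368, 390, 427, 435])
 ) (.node (.leaf [100, 110, 277, 350, 380, 394])
  (.leaf [100, 111, 120, 229, 327, 346])
 )) (.node (.node (.leaf [100, 113, 121, 210, 272, 482])
  (.leaf [100, 117, 142, 148, 178, 500])
 ) (.node (.leaf [100, 122, 181, 244, 336, 401])
  (.leaf [100, 123, 280, 307, 377, 477])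
 ))) (.node (.node (.node (.leaf [100, 127, 266, 276, 341, 369])
  (.leaf [100, 129, 240, 270, 387, 484])
 ) (.node (.leaf [100, 133, 194, 296, 344, 434])
  (.leaf [100, 134, 236, 239, 279, 445])
 )) (.node (.node (.leaf [100, 135, 200, 358, 381, 479])
  (.leaf [100, 136, 317, 343, 436, 490])
 ) (.node (.leaf [100, 141, 197, 234, 342, 451])
  (.leaf [100, 144, 269, 412, 430, 474])
 )))))

def t501_40 : BT :=
  (.node (.node (.node (.node (.node (.leaf [100, 154, 189, 392, 405, 460])
  (.leaf [100, 157, 260, 347, 397, 429])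
 ) (.node (.leaf [100, 159, 218, 247, 321, 456])
  (.leaf [100, 160, 169, 180, 223, 313])
 )) (.node (.node (.leaf [100, 162, 252, 345, 374, 411])
  (.leaf [100, 164, 309, 310, 324, 462])
 ) (.node (.leaf [100, 166, 190, 201, 402, 467])
  (.leaf [100, 168, 209, 264, 413, 464])
 ))) (.node (.node (.node (.leaf [100, 192, 249, 448, 449, 461])
  (.leaf [100, 238, 300, 308, 332, 428])
 ) (.node (.leaf [100, 262, 351, 373, 416, 473])
  (.leaf [105, 106, 237, 374, 379, 455])
 )) (.node (.node (.leaf [105, 111, 142, 161, 467, 482])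
  (.leaf [105, 117, 198, 208, 245, 385])
 ) (.node (.leaf [105, 120, 238, 424, 434, 461])
  (.leaf [105, 123, 218, 387, 449, 488])
 )))) (.node (.node (.node (.node (.leaf [105, 124, 149, 175, 222, 432])
  (.leaf [105, 126, 304, 399, 404, 492])
 ) (.node (.leaf [105, 129, 172, 239, 286, 315])
  (.leaf [105, 130, 190, 202, 203, 465])
 )) (.node (.node (.leaf [105, 134, 212, 417, 446, 470])
  (.leaf [105, 136, 298, 316, 367, 390])
 ) (.node (.leaf [105, 138, 194, 272, 279, 457])
  (.leaf [105, 140, 206, 276, 349, 442])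
 ))) (.node (.node (.node (.leaf [105, 147, 209, 294, 361, 420])
  (.leaf [105, 158, 248, 292, 415, 487])
 ) (.node (.leaf [105, 159, 223, 235, 414, 491])
  (.leaf [105, 160, 181, 246, 260, 394])
 )) (.node (.node (.leaf [105, 162, 284, 336, 380, 480])
  (.leaf [105, 163, 189, 232, 347, 384])
 ) (.node (.leaf [105, 171, 254, 340, 439, 460])
  (.leaf [105, 174, 266, 348, 397, 468])
 )))))

def t501_41 : BT :=
  (.node (.node (.node (.node (.node (.leaf [105, 177, 215, 320, 443, 490])
  (.leaf [105, 178, 221, 262, 403, 450])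
 ) (.node (.leaf [105, 224, 303, 331, 356, 423])
  (.leaf [105, 226, 277, 433, 435, 462])
 )) (.node (.node (.leaf [105, 270, 289, 363, 431, 474])
  (.leaf [110, 111, 187, 387, 440, 476])
 ) (.node (.leaf [110, 116, 239, 241, 270, 362])
  (.leaf [110, 117, 197, 311, 357, 404])
 ))) (.node (.node (.node (.leaf [110, 120, 196, 318, 383, 396])
  (.leaf [110, 122, 286, 323, 422, 435])
 ) (.node (.leaf [110, 126, 279, 366, 374, 462])
  (.leaf [110, 127, 233, 267, 338, 491])
 )) (.node (.node (.leaf [110, 128, 205, 210, 261, 451])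
  (.leaf [110, 132, 331, 406, 407, 460])
 ) (.node (.leaf [110, 134, 284, 328, 360, 372])
  (.leaf [110, 135, 183, 266, 280, 469])
 )))) (.node (.node (.node (.node (.leaf [110, 138, 264, 293, 306, 458])
  (.leaf [110, 143, 247, 265, 329, 379])
 ) (.node (.leaf [110, 146, 370, 392, 410, 436])
  (.leaf [110, 147, 217, 272, 281, 426])
 )) (.node (.node (.leaf [110, 148, 220, 349, 429, 465])
  (.leaf [110, 149, 227, 245, 443, 468])
 ) (.node (.leaf [110, 152, 159, 297, 330, 354])
  (.leaf [110, 155, 213, 273, 299, 390])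
 ))) (.node (.node (.node (.leaf [110, 157, 292, 312, 316, 438])
  (.leaf [110, 161, 219, 341, 423, 455])
 ) (.node (.leaf [110, 163, 209, 295, 298, 378])
  (.leaf [110, 164, 240, 275, 333, 395])
 )) (.node (.node (.leaf [110, 172, 222, 226, 319, 446])
  (.leaf [110, 177, 248, 327, 433, 485])
 ) (.node (.leaf [110, 179, 231, 355, 412, 470])
  (.leaf [110, 191, 339, 419, 420, 461])
 )))))

def t501_42 : BT :=
  (.node (.node (.node (.node (.node (.leaf [110, 199, 218, 317, 353, 388])
  (.leaf [110, 257, 288, 393, 441, 492])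
 ) (.node (.leaf [115, 117, 336, 384, 435, 483])
  (.leaf [115, 120, 294, 341, 344, 397])
 )) (.node (.node (.leaf [115, 121, 155, 308, 356, 460])
  (.leaf [115, 122, 227, 256, 293, 394])
 ) (.node (.leaf [115, 123, 159, 210, 313, 329])
  (.leaf [115, 125, 132, 177, 477, 493])
 ))) (.node (.node (.node (.leaf [115, 129, 203, 215, 234, 408])
  (.leaf [115, 130, 193, 228, 303, 441])
 ) (.node (.leaf [115, 133, 242, 243, 297, 406])
  (.leaf [115, 134, 260, 331, 416, 456])
 )) (.node (.node (.leaf [115, 135, 187, 270, 395, 461])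
  (.leaf [115, 139, 247, 358, 366, 429])
 ) (.node (.leaf [115, 142, 182, 252, 323, 469])
  (.leaf [115, 144, 209, 257, 369, 426])
 )))) (.node (.node (.node (.node (.leaf [115, 145, 290, 348, 357, 457])
  (.leaf [115, 149, 217, 275, 280, 494])
 ) (.node (.leaf [115, 150, 158, 163, 173, 179])
  (.leaf [115, 152, 201, 278, 374, 376])
 )) (.node (.node (.leaf [115, 153, 194, 390, 392, 451])
  (.leaf [115, 161, 223, 265, 385, 407])
 ) (.node (.leaf [115, 166, 235, 319, 430, 466])
  (.leaf [115, 169, 211, 233, 258, 423])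
 ))) (.node (.node (.node (.leaf [115, 170, 246, 300, 409, 421])
  (.leaf [115, 171, 333, 342, 363, 442])
 ) (.node (.leaf [115, 185, 197, 334, 352, 381])
  (.leaf [115, 259, 309, 362, 437, 489])
 )) (.node (.node (.leaf [115, 266, 317, 410, 415, 453])
  (.leaf [120, 122, 207, 240, 350, 450])
 ) (.node (.leaf [120, 125, 164, 209, 252, 487])
  (.leaf [120, 130, 268, 312, 429, 448])
 )))))

def t501_43 : BT :=
  (.node (.node (.node (.node (.node (.leaf [120, 135, 265, 305, 382, 405])
  (.leaf [120, 136, 180, 220, 377, 403])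
 ) (.node (.leaf [120, 138, 190, 226, 343, 474])
  (.leaf [120, 142, 315, 342, 425, 458])
 )) (.node (.node (.leaf [120, 143, 283, 287, 422, 469])
  (.leaf [120, 144, 239, 324, 361, 385])
 ) (.node (.leaf [120, 146, 187, 254, 286, 411])
  (.leaf [120, 150, 194, 332, 437, 439])
 ))) (.node (.node (.node (.leaf [120, 153, 263, 299, 304, 380])
  (.leaf [120, 155, 256, 288, 297, 376])
 ) (.node (.leaf [120, 158, 285, 345, 347, 435])
  (.leaf [120, 160, 228, 284, 323, 447])
 )) (.node (.node (.leaf [120, 163, 219, 266, 395, 398])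
  (.leaf [120, 165, 186, 276, 367, 430])
 ) (.node (.leaf [120, 166, 257, 374, 401, 468])
  (.leaf [120, 167, 356, 409, 414, 490])
 )))) (.node (.node (.node (.node (.leaf [120, 168, 231, 236, 351, 466])
  (.leaf [120, 172, 191, 295, 365, 494])
 ) (.node (.leaf [120, 174, 234, 314, 338, 390])
  (.leaf [120, 175, 217, 227, 368, 472])
 )) (.node (.node (.leaf [120, 178, 198, 224, 311, 378])
  (.leaf [120, 189, 319, 402, 444, 483])
 ) (.node (.leaf [120, 195, 261, 320, 336, 370])
  (.leaf [120, 249, 253, 375, 393, 476])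
 ))) (.node (.node (.node (.leaf [125, 137, 259, 323, 399, 413])
  (.leaf [125, 138, 208, 227, 406, 441])
 ) (.node (.leaf [125, 140, 275, 297, 425, 471])
  (.leaf [125, 141, 180, 254, 339, 421])
 )) (.node (.node (.leaf [125, 143, 219, 313, 372, 437])
  (.leaf [125, 147, 255, 329, 380, 456])
 ) (.node (.leaf [125, 149, 223, 292, 350, 419])
  (.leaf [125, 150, 181, 346, 381, 451])
 )))))

def t501_44 : BT :=
  (.node (.node (.node (.node (.node (.leaf [125, 152, 242, 294, 410, 483])
  (.leaf [125, 153, 189, 229, 257, 376])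
 ) (.node (.leaf [125, 154, 267, 304, 435, 475])
  (.leaf [125, 158, 301, 322, 434, 481])
 )) (.node (.node (.leaf [125, 159, 193, 289, 443, 486])
  (.leaf [125, 162, 362, 364, 382, 418])
 ) (.node (.leaf [125, 167, 274, 318, 408, 426])
  (.leaf [125, 171, 237, 310, 351, 438])
 ))) (.node (.node (.node (.leaf [125, 176, 298, 302, 321, 436])
  (.leaf [125, 213, 248, 396, 404, 458])
 ) (.node (.leaf [125, 220, 226, 253, 306, 395])
  (.leaf [125, 320, 356, 360, 429, 482])
 )) (.node (.node (.leaf [130, 136, 187, 212, 324, 488])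
  (.leaf [130, 138, 231, 410, 445, 486])
 ) (.node (.leaf [130, 141, 194, 278, 440, 480])
  (.leaf [130, 142, 296, 309, 415, 477])
 )))) (.node (.node (.node (.node (.leaf [130, 143, 260, 304, 385, 462])
  (.leaf [130, 144, 199, 241, 259, 363])
 ) (.node (.leaf [130, 145, 265, 318, 422, 476])
  (.leaf [130, 146, 171, 218, 251, 357])
 )) (.node (.node (.leaf [130, 147, 311, 338, 402, 485])
  (.leaf [130, 149, 232, 279, 325, 371])
 ) (.node (.leaf [130, 150, 281, 288, 306, 384])
  (.leaf [130, 152, 292, 319, 377, 421])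
 ))) (.node (.node (.node (.leaf [130, 154, 204, 257, 434, 493])
  (.leaf [130, 160, 308, 336, 364, 430])
 ) (.node (.leaf [130, 161, 183, 286, 355, 389])
  (.leaf [130, 164, 256, 327, 411, 466])
 )) (.node (.node (.leaf [130, 168, 196, 375, 407, 452])
  (.leaf [130, 176, 253, 322, 337, 427])
 ) (.node (.leaf [130, 177, 230, 284, 348, 362])
  (.leaf [130, 178, 277, 315, 426, 479])
 )))))

def t501_45 : BT :=
  (.node (.node (.node (.node (.node (.leaf [130, 185, 239, 287, 328, 400])
  (.leaf [130, 206, 316, 382, 413, 456])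
 ) (.node (.leaf [130, 262, 359, 365, 395, 478])
  (.leaf [135, 137, 301, 349, 364, 420])
 )) (.node (.node (.leaf [135, 141, 252, 307, 352, 422])
  (.leaf [135, 142, 236, 256, 386, 456])
 ) (.node (.leaf [135, 144, 150, 167, 457, 460])
  (.leaf [135, 146, 235, 245, 331, 444])
 ))) (.node (.node (.node (.leaf [135, 148, 185, 327, 343, 361])
  (.leaf [135, 156, 251, 260, 384, 473])
 ) (.node (.leaf [135, 157, 374, 406, 418, 442])
  (.leaf [135, 158, 223, 242, 396, 474])
 )) (.node (.node (.leaf [135, 159, 182, 267, 273, 383])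
  (.leaf [135, 160, 189, 314, 439, 491])
 ) (.node (.leaf [135, 161, 190, 339, 434, 480])
  (.leaf [135, 164, 238, 246, 282, 373])
 )))) (.node (.node (.node (.node (.leaf [135, 174, 226, 309, 391, 432])
  (.leaf [135, 176, 215, 281, 332, 390])
 ) (.node (.leaf [135, 178, 208, 232, 445, 485])
  (.leaf [135, 204, 284, 401, 446, 454])
 )) (.node (.node (.leaf [135, 244, 283, 295, 311, 415])
  (.leaf [135, 310, 341, 375, 449, 467])
 ) (.node (.leaf [140, 148, 224, 390, 405, 462])
  (.leaf [140, 150, 198, 223, 282, 485])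
 ))) (.node (.node (.node (.leaf [140, 156, 186, 192, 247, 468])
  (.leaf [140, 158, 201, 228, 344, 460])
 ) (.node (.leaf [140, 159, 283, 366, 373, 454])
  (.leaf [140, 165, 273, 296, 445, 476])
 )) (.node (.node (.leaf [140, 166, 194, 281, 324, 367])
  (.leaf [140, 174, 279, 403, 435, 469])
 ) (.node (.leaf [140, 175, 182, 315, 371, 446])
  (.leaf [140, 204, 221, 402, 438, 455])
 )))))

def t501_46 : BT :=
  (.node (.node (.node (.node (.node (.leaf [140, 232, 243, 252, 288, 404])
  (.leaf [140, 294, 346, 380, 391, 477])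
 ) (.node (.leaf [145, 146, 181, 321, 376, 417])
  (.leaf [145, 153, 235, 335, 341, 471])
 )) (.node (.node (.leaf [145, 154, 254, 386, 432, 473])
  (.leaf [145, 162, 204, 328, 368, 419])
 ) (.node (.leaf [145, 164, 189, 244, 259, 450])
  (.leaf [145, 169, 268, 287, 355, 446])
 ))) (.node (.node (.node (.leaf [145, 171, 188, 203, 226, 484])
  (.leaf [145, 178, 199, 242, 360, 369])
 ) (.node (.leaf [145, 179, 267, 272, 301, 455])
  (.leaf [145, 212, 279, 389, 398, 460])
 )) (.node (.node (.leaf [145, 227, 243, 277, 313, 413])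
  (.leaf [145, 261, 311, 385, 406, 491])
 ) (.node (.leaf [150, 156, 233, 331, 363, 425])
  (.leaf [150, 160, 272, 274, 411, 423])
 )))) (.node (.node (.node (.node (.leaf [150, 170, 235, 262, 360, 397])
  (.leaf [150, 174, 277, 320, 326, 464])
 ) (.node (.leaf [150, 175, 210, 213, 265, 492])
  (.leaf [150, 177, 239, 386, 414, 468])
 )) (.node (.node (.leaf [150, 196, 297, 427, 434, 459])
  (.leaf [150, 202, 308, 328, 338, 396])
 ) (.node (.leaf [150, 286, 345, 367, 442, 483])
  (.leaf [155, 157, 199, 396, 447, 482])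
 ))) (.node (.node (.node (.leaf [155, 162, 216, 375, 378, 454])
  (.leaf [155, 163, 182, 239, 373, 394])
 ) (.node (.leaf [155, 165, 283, 354, 387, 405])
  (.leaf [155, 178, 267, 346, 401, 406])
 )) (.node (.node (.leaf [155, 179, 253, 280, 360, 413])
  (.leaf [155, 188, 334, 424, 433, 452])
 ) (.node (.leaf [155, 258, 355, 397, 407, 465])
  (.leaf [155, 266, 315, 336, 353, 448])
 )))))

def t501_47 : BT :=
  (.node (.node (.node (.node (.node (.leaf [160, 165, 208, 322, 333, 413])
  (.leaf [160, 167, 210, 211, 281, 425])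
 ) (.node (.leaf [160, 172, 201, 420, 428, 486])
  (.leaf [160, 174, 325, 327, 330, 471])
 )) (.node (.node (.leaf [160, 175, 183, 214, 263, 461])
  (.leaf [160, 179, 200, 321, 409, 437])
 ) (.node (.leaf [160, 195, 212, 238, 356, 438])
  (.leaf [160, 227, 337, 387, 419, 456])
 ))) (.node (.node (.node (.leaf [160, 290, 343, 368, 401, 480])
  (.leaf [165, 166, 205, 225, 251, 481])
 ) (.node (.leaf [165, 167, 187, 267, 364, 436])
  (.leaf [165, 170, 184, 188, 196, 378])
 )) (.node (.node (.leaf [165, 171, 243, 330, 338, 416])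
  (.leaf [165, 172, 368, 382, 408, 442])
 ) (.node (.leaf [165, 173, 297, 355, 358, 423])
  (.leaf [165, 175, 275, 350, 386, 470])
 )))) (.node (.node (.node (.node (.leaf [165, 176, 204, 290, 393, 396])
  (.leaf [165, 177, 252, 268, 341, 370])
 ) (.node (.leaf [165, 210, 219, 278, 287, 380])
  (.leaf [165, 222, 332, 425, 427, 452])
 )) (.node (.node (.leaf [165, 344, 352, 371, 420, 488])
  (.leaf [170, 172, 214, 363, 371, 456])
 ) (.node (.leaf [170, 175, 271, 352, 354, 453])
  (.leaf [170, 177, 205, 240, 272, 476])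
 ))) (.node (.node (.node (.leaf [170, 178, 260, 322, 381, 447])
  (.leaf [170, 216, 252, 277, 292, 432])
 ) (.node (.leaf [170, 241, 283, 410, 442, 450])
  (.leaf [170, 273, 358, 393, 414, 486])
 )) (.node (.node (.leaf [175, 177, 329, 374, 409, 457])
  (.leaf [175, 184, 190, 248, 285, 417])
 ) (.node (.leaf [175, 207, 303, 402, 420, 451])
  (.leaf [175, 274, 307, 378, 421, 469])
 )))))

def t501_48 : BT :=
  (.node (.node (.node (.node (.node (.leaf [180, 182, 248, 304, 305, 324])
  (.leaf [180, 186, 275, 319, 484, 500])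
 ) (.node (.leaf [180, 190, 199, 212, 228, 251])
  (.leaf [180, 208, 233, 325, 347, 495])
 )) (.node (.node (.leaf [180, 224, 234, 278, 476, 498])
  (.leaf [180, 231, 283, 284, 293, 342])
 ) (.node (.leaf [180, 238, 259, 296, 337, 351])
  (.leaf [180, 256, 262, 329, 475, 496])
 ))) (.node (.node (.node (.leaf [180, 276, 280, 301, 353, 497])
  (.leaf [180, 279, 455, 459, 480, 482])
 ) (.node (.leaf [180, 285, 298, 354, 456, 499])
  (.leaf [185, 196, 259, 316, 338, 497])
 )) (.node (.node (.leaf [185, 199, 266, 268, 294, 321])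
  (.leaf [185, 202, 231, 263, 298, 309])
 ) (.node (.leaf [185, 205, 221, 236, 269, 284])
  (.leaf [185, 206, 213, 257, 304, 350])
 )))) (.node (.node (.node (.node (.leaf [185, 216, 217, 337, 341, 359])
  (.leaf [185, 234, 459, 460, 465, 494])
 ) (.node (.leaf [185, 241, 325, 332, 491, 499])
  (.leaf [185, 248, 264, 272, 488, 495])
 )) (.node (.node (.leaf [185, 250, 291, 296, 330, 496])
  (.leaf [185, 253, 313, 358, 463, 498])
 ) (.node (.leaf [190, 191, 198, 307, 317, 349])
  (.leaf [190, 204, 229, 336, 486, 499])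
 ))) (.node (.node (.node (.leaf [190, 206, 321, 323, 494, 496])
  (.leaf [190, 207, 209, 236, 311, 341])
 ) (.node (.leaf [190, 211, 241, 249, 485, 500])
  (.leaf [190, 213, 232, 253, 272, 291])
 )) (.node (.node (.leaf [190, 217, 267, 274, 330, 495])
  (.leaf [190, 219, 450, 454, 470, 492])
 ) (.node (.leaf [190, 222, 242, 335, 356, 497])
  (.leaf [190, 239, 292, 294, 461, 498])
 )))))

def t501_49 : BT :=
  (.node (.node (.node (.node (.node (.leaf [195, 201, 227, 257, 279, 353])
  (.leaf [195, 207, 217, 230, 305, 498])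
 ) (.node (.leaf [195, 208, 249, 289, 327, 341])
  (.leaf [195, 218, 239, 298, 466, 497])
 )) (.node (.node (.leaf [195, 223, 273, 344, 490, 495])
  (.leaf [195, 234, 292, 310, 452, 499])
 ) (.node (.leaf [195, 248, 453, 455, 465, 471])
  (.leaf [195, 283, 302, 338, 477, 500])
 ))) (.node (.node (.node (.leaf [200, 206, 451, 460, 470, 476])
  (.leaf [200, 213, 238, 310, 325, 498])
 ) (.node (.leaf [200, 216, 241, 244, 312, 348])
  (.leaf [200, 219, 286, 288, 463, 499])
 )) (.node (.node (.leaf [200, 221, 298, 330, 491, 500])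
  (.leaf [200, 230, 243, 302, 316, 332])
 ) (.node (.leaf [200, 233, 246, 272, 309, 334])
  (.leaf [200, 253, 284, 295, 320, 497])
 )))) (.node (.node (.node (.node (.leaf [200, 259, 281, 346, 483, 496])
  (.leaf [205, 214, 267, 319, 471, 498])
 ) (.node (.leaf [205, 219, 254, 328, 468, 500])
  (.leaf [205, 302, 352, 357, 458, 499])
 )) (.node (.node (.leaf [210, 222, 244, 275, 341, 498])
  (.leaf [210, 227, 228, 311, 324, 332])
 ) (.node (.leaf [210, 241, 252, 294, 335, 349])
  (.leaf [210, 255, 279, 320, 478, 496])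
 ))) (.node (.node (.node (.leaf [210, 298, 453, 460, 467, 480])
  (.leaf [210, 306, 307, 333, 454, 497])
 ) (.node (.leaf [215, 223, 246, 274, 285, 327])
  (.leaf [215, 241, 260, 262, 474, 497])
 )) (.node (.node (.leaf [215, 248, 275, 296, 328, 339])
  (.leaf [220, 227, 239, 316, 321, 356])
 ) (.node (.leaf [220, 238, 251, 269, 272, 358])
  (.leaf [220, 276, 289, 302, 303, 347])
 )))))

def t501_50 : BT :=
  (.node (.node (.node (.node (.node (.leaf [220, 288, 311, 337, 452, 498])
  (.leaf [220, 319, 455, 464, 473, 488])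
 ) (.node (.leaf [225, 233, 239, 269, 471, 500])
  (.leaf [225, 236, 247, 264, 302, 497])
 )) (.node (.node (.leaf [225, 246, 267, 287, 317, 499])
  (.leaf [225, 279, 290, 350, 458, 498])
 ) (.node (.leaf [225, 329, 451, 464, 482, 486])
  (.leaf [225, 333, 345, 349, 468, 496])
 ))) (.node (.node (.node (.leaf [230, 271, 336, 347, 471, 496])
  (.leaf [235, 241, 454, 460, 478, 493])
 ) (.node (.leaf [235, 258, 304, 342, 480, 497])
  (.leaf [240, 259, 280, 319, 326, 354])
 )) (.node (.node (.leaf [240, 281, 305, 351, 455, 497])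
  (.leaf [245, 253, 282, 302, 481, 496])
 ) (.node (.leaf [245, 305, 313, 319, 461, 499])
  (.leaf [250, 263, 277, 279, 280, 358])
 )))) (.node (.node (.node (.node (.leaf [250, 273, 319, 323, 465, 497])
  (.leaf [250, 337, 451, 459, 488, 491])
 ) (.node (.leaf [255, 260, 272, 321, 341, 345])
  (.leaf [255, 354, 475, 477, 480, 481])
 )) (.node (.node (.leaf [260, 269, 297, 298, 312, 326])
  (.leaf [260, 274, 320, 342, 348, 500])
 ) (.node (.leaf [260, 285, 318, 330, 332, 337])
  (.leaf [260, 293, 466, 480, 491, 493])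
 ))) (.node (.node (.node (.leaf [265, 297, 341, 342, 489, 495])
  (.leaf [265, 328, 355, 356, 454, 499])
 ) (.node (.leaf [265, 332, 460, 462, 466, 485])
  (.leaf [270, 313, 468, 473, 485, 494])
 )) (.node (.node (.leaf [280, 302, 455, 457, 475, 476])
  (.leaf [285, 291, 307, 350, 357, 500])
 ) (.node (.leaf [285, 292, 309, 314, 353, 356])
  (.leaf [285, 320, 472, 474, 480, 485])
 )))))

def t501_51 : BT :=
  (.node (.node (.node (.node (.node (.leaf [305, 341, 465, 466, 473, 477])
  (.leaf [345, 357, 475, 486, 487, 493])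
 ) (.node (.leaf [360, 365, 402, 422, 491, 497])
  (.leaf [360, 371, 386, 401, 472, 498])
 )) (.node (.node (.leaf [360, 374, 377, 394, 405, 500])
  (.leaf [360, 375, 410, 425, 477, 496])
 ) (.node (.leaf [360, 382, 390, 417, 484, 495])
  (.leaf [360, 409, 455, 460, 468, 486])
 ))) (.node (.node (.node (.leaf [360, 411, 414, 439, 445, 499])
  (.leaf [365, 371, 450, 460, 477, 484])
 ) (.node (.leaf [365, 375, 398, 418, 486, 495])
  (.leaf [365, 380, 388, 426, 449, 499])
 )) (.node (.node (.leaf [365, 390, 430, 436, 468, 498])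
  (.leaf [365, 409, 412, 441, 472, 496])
 ) (.node (.leaf [370, 379, 380, 395, 467, 496])
  (.leaf [370, 394, 437, 447, 485, 495])
 )))) (.node (.node (.node (.node (.leaf [370, 398, 404, 439, 442, 498])
  (.leaf [370, 408, 427, 441, 490, 499])
 ) (.node (.leaf [375, 385, 403, 433, 434, 499])
  (.leaf [375, 390, 450, 455, 472, 491])
 )) (.node (.node (.leaf [375, 409, 431, 447, 484, 498])
  (.leaf [380, 387, 428, 445, 458, 497])
 ) (.node (.leaf [380, 396, 405, 421, 424, 495])
  (.leaf [380, 397, 435, 447, 454, 500])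
 ))) (.node (.node (.node (.leaf [380, 434, 452, 475, 485, 488])
  (.leaf [385, 391, 405, 420, 478, 498])
 ) (.node (.leaf [385, 401, 427, 440, 464, 500])
  (.leaf [385, 411, 463, 480, 490, 494])
 )) (.node (.node (.leaf [390, 415, 419, 429, 440, 499])
  (.leaf [395, 417, 434, 437, 454, 498])
 ) (.node (.leaf [395, 435, 458, 465, 482, 485])
  (.leaf [400, 411, 421, 441, 464, 498])
 )))))

def t501_52 : BT :=
  (.node (.node (.leaf [400, 440, 456, 470, 478, 490])
  (.leaf [410, 417, 424, 431, 455, 500])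
 ) (.node (.leaf [415, 445, 454, 465, 467, 475])
  (.leaf [420, 426, 464, 470, 471, 480])
 ))

def full501 : BT :=
  (.node (.node (.node (.node (.node t501_0 (.node t501_1 t501_2)) (.node t501_3 (.node t501_4 t501_5))) (.node (.node t501_6 (.node t501_7 t501_8)) (.node (.node t501_9 t501_10) (.node t501_11 t501_12)))) (.node (.node (.node t501_13 (.node t501_14 t501_15)) (.node t501_16 (.node t501_17 t501_18))) (.node (.node t501_19 (.node t501_20 t501_21)) (.node (.node t501_22 t501_23) (.node t501_24 t501_25))))) (.node (.node (.node (.node t501_26 (.node t501_27 t501_28)) (.node t501_29 (.node t501_30 t501_31))) (.node (.node t501_32 (.node t501_33 t501_34)) (.node (.node t501_35 t501_36) (.node t501_37 t501_38)))) (.node (.node (.node t501_39 (.node t501_40 t501_41)) (.node (.node t501_42 t501_43) (.node t501_44 t501_45))) (.node (.node t501_46 (.node t501_47 t501_48)) (.node (.node t501_49 t501_50) (.node t501_51 t501_52))))))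

def short501 : List (List ℕ × List ℕ) :=
  [([0], [10, 11, 12, 13, 14, 500]),
   ([0], [35, 36, 37, 38, 39, 500]),
   ([0], [55, 56, 57, 58, 59, 500]),
   ([0], [130, 131, 132, 133, 134, 500]),
   ([0], [150, 151, 152, 153, 154, 500]),
   ([0], [160, 161, 162, 163, 164, 500]),
   ([0], [255, 256, 257, 258, 259, 500]),
   ([0], [310, 311, 312, 313, 314, 500]),
   ([0], [365, 366, 367, 368, 369, 500]),
   ([0], [495, 496, 497, 498, 499, 500])]

theorem ex501 : ∃ 𝓑 : Set (Finset (Fin 501)), IsS2 (Fin 501) 6 𝓑 :=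
  of_codedT (codedZ 5) 6 100 1 501 rfl full501 short501
    (by decide +kernel) (by decide +kernel) (by decide +kernel) (by decide +kernel)
    (by decide +kernel) (by decide +kernel)

end Pool.Agent.TH848.KM
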