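import Pool.Agent.TH848.KM.Tree

/-!
A Steiner system `S(2,6,561)`: 51 copies of an abelian group of order 11 and 0 fixed points.
-/

set_option autoImplicit false
set_option maxRecDepth 100000

namespace Pool.Agent.TH848.KM

open Pool.Agent.H816R2.KM2

def t561_0 : BT :=
  (.node (.node (.node (.node (.node (.leaf [0, 1, 34, 436, 508, 522])
  (.leaf [0, 2, 32, 210, 363, 398])
 ) (.node (.leaf [0, 3, 137, 376, 493, 545])
  (.leaf [0, 4, 36, 181, 220, 315])
 )) (.node (.node (.leaf [0, 5, 126, 296, 332, 420])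
  (.leaf [0, 11, 218, 225, 535, 549])
 ) (.node (.leaf [0, 12, 105, 160, 409, 496])
  (.leaf [0, 13, 299, 399, 500, 539])
 ))) (.node (.node (.node (.leaf [0, 14, 122, 265, 406, 413])
  (.leaf [0, 15, 83, 343, 463, 468])
 ) (.node (.leaf [0, 16, 51, 58, 127, 552])
  (.leaf [0, 17, 164, 245, 272, 554])
 )) (.node (.node (.leaf [0, 18, 216, 339, 526, 527])
  (.leaf [0, 19, 85, 231, 293, 557])
 ) (.node (.leaf [0, 20, 70, 415, 467, 531])
  (.leaf [0, 21, 200, 248, 494, 528])
 )))) (.node (.node (.node (.node (.leaf [0, 22, 86, 163, 205, 301])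
  (.leaf [0, 23, 25, 276, 344, 430])
 ) (.node (.leaf [0, 24, 129, 155, 241, 260])
  (.leaf [0, 26, 120, 417, 422, 475])
 )) (.node (.node (.leaf [0, 27, 302, 480, 524, 541])
  (.leaf [0, 28, 201, 387, 442, 492])
 ) (.node (.leaf [0, 29, 50, 394, 501, 506])
  (.leaf [0, 31, 87, 96, 170, 270])
 ))) (.node (.node (.node (.leaf [0, 35, 183, 192, 251, 550])
  (.leaf [0, 37, 207, 323, 461, 510])
 ) (.node (.leaf [0, 38, 130, 326, 386, 495])
  (.leaf [0, 39, 144, 271, 280, 551])
 )) (.node (.node (.leaf [0, 40, 184, 282, 411, 540])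
  (.leaf [0, 41, 109, 123, 226, 300])
 ) (.node (.leaf [0, 42, 59, 101, 136, 154])
  (.leaf [0, 44, 180, 324, 512, 536])
 )))))

def t561_1 : BT :=
  (.node (.node (.node (.node (.node (.leaf [0, 45, 319, 380, 543, 546])
  (.leaf [0, 46, 60, 242, 362, 395])
 ) (.node (.leaf [0, 47, 146, 229, 451, 516])
  (.leaf [0, 48, 149, 243, 254, 555])
 )) (.node (.node (.leaf [0, 49, 187, 355, 483, 533])
  (.leaf [0, 52, 159, 257, 389, 474])
 ) (.node (.leaf [0, 53, 141, 165, 214, 558])
  (.leaf [0, 54, 171, 335, 497, 504])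
 ))) (.node (.node (.node (.leaf [0, 55, 63, 297, 392, 489])
  (.leaf [0, 56, 110, 215, 238, 317])
 ) (.node (.leaf [0, 57, 284, 346, 361, 472])
  (.leaf [0, 61, 77, 131, 331, 503])
 )) (.node (.node (.leaf [0, 62, 71, 138, 368, 402])
  (.leaf [0, 64, 249, 285, 488, 505])
 ) (.node (.leaf [0, 65, 115, 288, 360, 378])
  (.leaf [0, 66, 94, 174, 179, 209])
 )))) (.node (.node (.node (.node (.leaf [0, 67, 142, 206, 240, 255])
  (.leaf [0, 68, 88, 230, 342, 359])
 ) (.node (.leaf [0, 69, 78, 158, 194, 239])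
  (.leaf [0, 72, 117, 150, 333, 517])
 )) (.node (.node (.leaf [0, 73, 234, 410, 434, 509])
  (.leaf [0, 74, 253, 330, 370, 444])
 ) (.node (.leaf [0, 75, 99, 310, 365, 439])
  (.leaf [0, 76, 106, 175, 348, 482])
 ))) (.node (.node (.node (.leaf [0, 79, 140, 208, 259, 277])
  (.leaf [0, 80, 113, 233, 349, 354])
 ) (.node (.leaf [0, 81, 143, 405, 441, 465])
  (.leaf [0, 82, 128, 199, 397, 424])
 )) (.node (.node (.leaf [0, 84, 116, 306, 443, 518])
  (.leaf [0, 89, 91, 448, 458, 491])
 ) (.node (.leaf [0, 90, 103, 262, 298, 559])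
  (.leaf [0, 92, 307, 329, 404, 425])
 )))))

def t561_2 : BT :=
  (.node (.node (.node (.node (.node (.leaf [0, 93, 162, 279, 321, 553])
  (.leaf [0, 95, 98, 191, 211, 327])
 ) (.node (.leaf [0, 97, 223, 286, 437, 450])
  (.leaf [0, 100, 156, 381, 431, 538])
 )) (.node (.node (.leaf [0, 102, 166, 309, 400, 484])
  (.leaf [0, 104, 449, 453, 476, 478])
 ) (.node (.leaf [0, 107, 212, 266, 403, 511])
  (.leaf [0, 108, 278, 514, 530, 537])
 ))) (.node (.node (.node (.leaf [0, 111, 252, 373, 445, 473])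
  (.leaf [0, 112, 168, 182, 246, 258])
 ) (.node (.leaf [0, 114, 124, 157, 464, 486])
  (.leaf [0, 118, 152, 188, 244, 267])
 )) (.node (.node (.leaf [0, 119, 273, 471, 525, 547])
  (.leaf [0, 125, 198, 379, 479, 499])
 ) (.node (.leaf [0, 132, 247, 390, 446, 515])
  (.leaf [0, 133, 196, 224, 295, 314])
 )))) (.node (.node (.node (.node (.leaf [0, 135, 308, 313, 460, 523])
  (.leaf [0, 139, 320, 353, 414, 454])
 ) (.node (.leaf [0, 145, 167, 256, 369, 407])
  (.leaf [0, 147, 151, 186, 213, 221])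
 )) (.node (.node (.leaf [0, 148, 189, 382, 485, 519])
  (.leaf [0, 153, 217, 303, 416, 470])
 ) (.node (.leaf [0, 161, 316, 345, 377, 455])
  (.leaf [0, 169, 263, 351, 418, 440])
 ))) (.node (.node (.node (.leaf [0, 172, 176, 185, 322, 556])
  (.leaf [0, 173, 235, 352, 357, 469])
 ) (.node (.leaf [0, 178, 292, 358, 364, 412])
  (.leaf [0, 190, 305, 408, 419, 502])
 )) (.node (.node (.leaf [0, 193, 237, 325, 366, 462])
  (.leaf [0, 195, 421, 447, 481, 548])
 ) (.node (.leaf [0, 197, 203, 264, 336, 544])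
  (.leaf [0, 202, 261, 304, 356, 520])
 )))))

def t561_3 : BT :=
  (.node (.node (.node (.node (.node (.leaf [0, 204, 312, 427, 452, 534])
  (.leaf [0, 222, 228, 340, 456, 466])
 ) (.node (.leaf [0, 232, 275, 383, 391, 459])
  (.leaf [0, 236, 268, 367, 498, 529])
 )) (.node (.node (.leaf [0, 250, 337, 428, 432, 438])
  (.leaf [0, 269, 283, 347, 393, 423])
 ) (.node (.leaf [0, 274, 281, 287, 350, 532])
  (.leaf [0, 289, 290, 334, 371, 388])
 ))) (.node (.node (.node (.leaf [0, 294, 318, 375, 385, 429])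
  (.leaf [0, 328, 341, 374, 477, 513])
 ) (.node (.leaf [0, 401, 433, 457, 487, 560])
  (.leaf [11, 12, 240, 338, 440, 527])
 )) (.node (.node (.leaf [11, 13, 44, 187, 351, 455])
  (.leaf [11, 14, 76, 294, 421, 473])
 ) (.node (.leaf [11, 15, 92, 438, 512, 530])
  (.leaf [11, 16, 89, 198, 229, 277])
 )))) (.node (.node (.node (.node (.leaf [11, 22, 125, 262, 285, 289])
  (.leaf [11, 23, 144, 253, 395, 404])
 ) (.node (.leaf [11, 24, 149, 325, 364, 433])
  (.leaf [11, 25, 168, 355, 439, 524])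
 )) (.node (.node (.leaf [11, 26, 269, 372, 425, 502])
  (.leaf [11, 27, 45, 107, 360, 445])
 ) (.node (.leaf [11, 28, 41, 243, 342, 429])
  (.leaf [11, 29, 71, 375, 461, 499])
 ))) (.node (.node (.node (.leaf [11, 30, 78, 163, 222, 267])
  (.leaf [11, 31, 128, 197, 335, 406])
 ) (.node (.leaf [11, 32, 166, 251, 270, 301])
  (.leaf [11, 33, 58, 361, 378, 540])
 )) (.node (.node (.leaf [11, 34, 257, 380, 515, 534])
  (.leaf [11, 35, 84, 138, 391, 505])
 ) (.node (.leaf [11, 36, 113, 205, 389, 402])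
  (.leaf [11, 37, 127, 233, 427, 475])
 )))))

def t561_4 : BT :=
  (.node (.node (.node (.node (.node (.leaf [11, 38, 154, 341, 368, 424])
  (.leaf [11, 39, 80, 115, 221, 287])
 ) (.node (.leaf [11, 40, 100, 147, 255, 303])
  (.leaf [11, 42, 132, 279, 426, 513])
 )) (.node (.node (.leaf [11, 43, 162, 238, 259, 318])
  (.leaf [11, 47, 97, 215, 407, 467])
 ) (.node (.leaf [11, 48, 56, 169, 381, 480])
  (.leaf [11, 49, 308, 339, 472, 504])
 ))) (.node (.node (.node (.leaf [11, 50, 152, 312, 458, 477])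
  (.leaf [11, 51, 123, 143, 345, 466])
 ) (.node (.leaf [11, 52, 98, 139, 200, 323])
  (.leaf [11, 54, 74, 99, 160, 263])
 )) (.node (.node (.leaf [11, 55, 207, 290, 521, 545])
  (.leaf [11, 57, 102, 175, 274, 555])
 ) (.node (.leaf [11, 59, 108, 134, 376, 471])
  (.leaf [11, 60, 145, 354, 356, 393])
 )))) (.node (.node (.node (.node (.leaf [11, 61, 293, 344, 432, 436])
  (.leaf [11, 62, 264, 316, 444, 539])
 ) (.node (.leaf [11, 63, 319, 465, 474, 525])
  (.leaf [11, 65, 153, 195, 256, 556])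
 )) (.node (.node (.leaf [11, 66, 109, 146, 314, 327])
  (.leaf [11, 67, 70, 185, 386, 510])
 ) (.node (.leaf [11, 68, 309, 371, 411, 447])
  (.leaf [11, 69, 86, 112, 150, 167])
 ))) (.node (.node (.node (.leaf [11, 75, 320, 435, 497, 522])
  (.leaf [11, 81, 133, 275, 448, 478])
 ) (.node (.leaf [11, 82, 161, 363, 392, 456])
  (.leaf [11, 83, 210, 220, 223, 552])
 )) (.node (.node (.leaf [11, 85, 155, 245, 379, 420])
  (.leaf [11, 87, 261, 358, 396, 405])
 ) (.node (.leaf [11, 90, 171, 179, 252, 554])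
  (.leaf [11, 91, 106, 126, 140, 236])
 )))))

def t561_5 : BT :=
  (.node (.node (.node (.node (.node (.leaf [11, 93, 214, 311, 491, 538])
  (.leaf [11, 94, 176, 230, 384, 518])
 ) (.node (.leaf [11, 96, 226, 265, 306, 550])
  (.leaf [11, 101, 281, 331, 390, 489])
 )) (.node (.node (.leaf [11, 103, 136, 336, 514, 546])
  (.leaf [11, 105, 111, 186, 217, 551])
 ) (.node (.leaf [11, 110, 137, 157, 326, 553])
  (.leaf [11, 114, 117, 373, 443, 490])
 ))) (.node (.node (.node (.leaf [11, 116, 189, 199, 370, 516])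
  (.leaf [11, 118, 216, 329, 451, 483])
 ) (.node (.leaf [11, 119, 120, 219, 295, 302])
  (.leaf [11, 121, 131, 322, 409, 446])
 )) (.node (.node (.leaf [11, 124, 177, 268, 442, 463])
  (.leaf [11, 129, 184, 359, 394, 399])
 ) (.node (.leaf [11, 135, 182, 532, 542, 547])
  (.leaf [11, 141, 366, 492, 500, 503])
 )))) (.node (.node (.node (.node (.leaf [11, 142, 173, 288, 479, 531])
  (.leaf [11, 148, 248, 353, 367, 476])
 ) (.node (.leaf [11, 151, 156, 178, 241, 315])
  (.leaf [11, 164, 313, 328, 401, 430])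
 )) (.node (.node (.leaf [11, 165, 304, 317, 343, 523])
  (.leaf [11, 170, 254, 423, 468, 543])
 ) (.node (.leaf [11, 172, 183, 193, 388, 544])
  (.leaf [11, 174, 180, 387, 413, 454])
 ))) (.node (.node (.node (.leaf [11, 181, 260, 333, 416, 494])
  (.leaf [11, 188, 278, 334, 414, 506])
 ) (.node (.leaf [11, 190, 194, 346, 415, 428])
  (.leaf [11, 191, 228, 377, 398, 422])
 )) (.node (.node (.leaf [11, 192, 203, 235, 284, 300])
  (.leaf [11, 202, 227, 242, 247, 292])
 ) (.node (.leaf [11, 206, 208, 348, 357, 493])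
  (.leaf [11, 211, 258, 299, 352, 419])
 )))))

def t561_6 : BT :=
  (.node (.node (.node (.node (.node (.leaf [11, 212, 330, 385, 496, 528])
  (.leaf [11, 213, 237, 374, 400, 485])
 ) (.node (.leaf [11, 231, 271, 365, 412, 536])
  (.leaf [11, 232, 280, 282, 431, 487])
 )) (.node (.node (.leaf [11, 244, 286, 324, 362, 382])
  (.leaf [11, 246, 305, 340, 437, 441])
 ) (.node (.leaf [11, 272, 347, 452, 507, 509])
  (.leaf [11, 276, 310, 459, 488, 541])
 ))) (.node (.node (.node (.leaf [11, 298, 321, 383, 460, 462])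
  (.leaf [11, 307, 369, 457, 501, 517])
 ) (.node (.leaf [11, 449, 482, 486, 511, 557])
  (.leaf [22, 23, 61, 370, 420, 445])
 )) (.node (.node (.leaf [22, 25, 247, 464, 490, 548])
  (.leaf [22, 26, 63, 189, 291, 328])
 ) (.node (.leaf [22, 27, 95, 186, 354, 508])
  (.leaf [22, 33, 112, 132, 340, 483])
 )))) (.node (.node (.node (.node (.leaf [22, 34, 89, 154, 353, 415])
  (.leaf [22, 36, 39, 201, 480, 544])
 ) (.node (.leaf [22, 37, 139, 209, 417, 543])
  (.leaf [22, 38, 49, 178, 338, 466])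
 )) (.node (.node (.leaf [22, 40, 44, 269, 280, 319])
  (.leaf [22, 41, 219, 339, 384, 401])
 ) (.node (.leaf [22, 42, 71, 96, 117, 552])
  (.leaf [22, 43, 58, 77, 149, 246])
 ))) (.node (.node (.node (.leaf [22, 45, 142, 385, 439, 522])
  (.leaf [22, 46, 136, 170, 256, 292])
 ) (.node (.leaf [22, 47, 157, 264, 332, 404])
  (.leaf [22, 48, 80, 93, 376, 541])
 )) (.node (.node (.leaf [22, 50, 161, 199, 441, 520])
  (.leaf [22, 52, 104, 134, 230, 236])
 ) (.node (.leaf [22, 53, 231, 383, 448, 492])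
  (.leaf [22, 55, 107, 215, 240, 551])
 )))))

def t561_7 : BT :=
  (.node (.node (.node (.node (.node (.leaf [22, 56, 217, 294, 485, 499])
  (.leaf [22, 57, 92, 146, 195, 204])
 ) (.node (.leaf [22, 62, 141, 223, 293, 550])
  (.leaf [22, 64, 303, 310, 422, 538])
 )) (.node (.node (.leaf [22, 65, 88, 313, 407, 474])
  (.leaf [22, 66, 194, 283, 458, 494])
 ) (.node (.leaf [22, 67, 83, 153, 408, 497])
  (.leaf [22, 68, 203, 344, 412, 484])
 ))) (.node (.node (.node (.leaf [22, 69, 91, 234, 351, 501])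
  (.leaf [22, 70, 160, 375, 380, 398])
 ) (.node (.leaf [22, 72, 87, 135, 241, 554])
  (.leaf [22, 73, 281, 361, 449, 450])
 )) (.node (.node (.leaf [22, 74, 162, 183, 273, 557])
  (.leaf [22, 76, 138, 307, 451, 549])
 ) (.node (.leaf [22, 79, 148, 365, 461, 469])
  (.leaf [22, 82, 118, 169, 386, 477])
 )))) (.node (.node (.node (.node (.leaf [22, 84, 329, 400, 465, 532])
  (.leaf [22, 85, 124, 214, 308, 553])
 ) (.node (.leaf [22, 94, 305, 391, 411, 467])
  (.leaf [22, 97, 159, 306, 342, 512])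
 )) (.node (.node (.leaf [22, 99, 103, 190, 278, 296])
  (.leaf [22, 100, 220, 442, 470, 540])
 ) (.node (.leaf [22, 101, 114, 133, 166, 555])
  (.leaf [22, 105, 207, 282, 382, 504])
 ))) (.node (.node (.node (.leaf [22, 106, 158, 350, 377, 518])
  (.leaf [22, 108, 168, 255, 435, 495])
 ) (.node (.leaf [22, 109, 113, 187, 428, 528])
  (.leaf [22, 110, 290, 311, 424, 459])
 )) (.node (.node (.leaf [22, 111, 317, 468, 488, 491])
  (.leaf [22, 115, 229, 333, 395, 456])
 ) (.node (.leaf [22, 119, 251, 253, 279, 558])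
  (.leaf [22, 120, 259, 357, 409, 416])
 )))))

def t561_8 : BT :=
  (.node (.node (.node (.node (.node (.leaf [22, 121, 151, 174, 202, 559])
  (.leaf [22, 122, 131, 525, 535, 546])
 ) (.node (.leaf [22, 123, 200, 316, 349, 513])
  (.leaf [22, 126, 129, 222, 276, 314])
 )) (.node (.node (.leaf [22, 128, 176, 192, 371, 527])
  (.leaf [22, 137, 242, 427, 478, 523])
 ) (.node (.leaf [22, 140, 359, 366, 372, 516])
  (.leaf [22, 144, 235, 277, 348, 423])
 ))) (.node (.node (.node (.leaf [22, 145, 213, 426, 453, 460])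
  (.leaf [22, 150, 254, 322, 345, 539])
 ) (.node (.leaf [22, 152, 388, 390, 526, 530])
  (.leaf [22, 156, 171, 212, 250, 304])
 )) (.node (.node (.leaf [22, 173, 208, 298, 334, 443])
  (.leaf [22, 175, 257, 406, 506, 517])
 ) (.node (.leaf [22, 177, 216, 232, 405, 455])
  (.leaf [22, 179, 180, 356, 437, 476])
 )))) (.node (.node (.node (.node (.leaf [22, 182, 288, 336, 430, 500])
  (.leaf [22, 184, 320, 363, 463, 473])
 ) (.node (.leaf [22, 185, 193, 227, 243, 327])
  (.leaf [22, 191, 197, 362, 378, 533])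
 )) (.node (.node (.leaf [22, 198, 221, 414, 496, 507])
  (.leaf [22, 210, 274, 471, 479, 536])
 ) (.node (.leaf [22, 218, 238, 402, 481, 511])
  (.leaf [22, 224, 268, 312, 374, 432])
 ))) (.node (.node (.node (.leaf [22, 226, 393, 493, 509, 524])
  (.leaf [22, 228, 233, 299, 358, 489])
 ) (.node (.leaf [22, 237, 267, 410, 433, 452])
  (.leaf [22, 245, 321, 326, 446, 537])
 )) (.node (.node (.leaf [22, 249, 318, 331, 502, 531])
  (.leaf [22, 260, 286, 295, 309, 556])
 ) (.node (.leaf [22, 261, 266, 330, 335, 381])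
  (.leaf [22, 300, 325, 457, 515, 529])
 )))))

def t561_9 : BT :=
  (.node (.node (.node (.node (.node (.leaf [22, 315, 389, 396, 425, 462])
  (.leaf [22, 346, 367, 534, 542, 560])
 ) (.node (.leaf [33, 34, 56, 224, 408, 528])
  (.leaf [33, 35, 47, 295, 304, 328])
 )) (.node (.node (.leaf [33, 37, 165, 364, 400, 434])
  (.leaf [33, 38, 46, 426, 452, 486])
 ) (.node (.leaf [33, 49, 161, 195, 232, 560])
  (.leaf [33, 50, 180, 212, 485, 525])
 ))) (.node (.node (.node (.leaf [33, 51, 262, 301, 317, 555])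
  (.leaf [33, 53, 113, 171, 242, 266])
 ) (.node (.leaf [33, 54, 194, 306, 353, 372])
  (.leaf [33, 57, 215, 429, 466, 510])
 )) (.node (.node (.leaf [33, 60, 133, 213, 243, 278])
  (.leaf [33, 62, 68, 330, 468, 487])
 ) (.node (.leaf [33, 63, 283, 366, 381, 425])
  (.leaf [33, 64, 65, 197, 455, 500])
 )))) (.node (.node (.node (.node (.leaf [33, 66, 108, 332, 334, 481])
  (.leaf [33, 67, 146, 245, 384, 465])
 ) (.node (.leaf [33, 69, 153, 235, 255, 558])
  (.leaf [33, 70, 118, 261, 385, 462])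
 )) (.node (.node (.leaf [33, 71, 185, 297, 449, 484])
  (.leaf [33, 72, 100, 174, 221, 551])
 ) (.node (.leaf [33, 74, 314, 374, 394, 445])
  (.leaf [33, 75, 231, 327, 493, 519])
 ))) (.node (.node (.node (.leaf [33, 76, 182, 365, 369, 398])
  (.leaf [33, 77, 192, 402, 464, 526])
 ) (.node (.leaf [33, 79, 130, 137, 251, 316])
  (.leaf [33, 80, 179, 311, 346, 531])
 )) (.node (.node (.leaf [33, 81, 107, 348, 390, 393])
  (.leaf [33, 83, 91, 139, 205, 557])
 ) (.node (.leaf [33, 84, 131, 147, 168, 218])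
  (.leaf [33, 86, 157, 337, 447, 536])
 )))))

def t561_10 : BT :=
  (.node (.node (.node (.node (.node (.leaf [33, 87, 128, 359, 453, 491])
  (.leaf [33, 89, 250, 264, 338, 354])
 ) (.node (.leaf [33, 90, 210, 258, 439, 442])
  (.leaf [33, 92, 155, 248, 254, 553])
 )) (.node (.node (.leaf [33, 93, 140, 343, 351, 495])
  (.leaf [33, 94, 279, 336, 367, 412])
 ) (.node (.leaf [33, 95, 230, 329, 373, 444])
  (.leaf [33, 96, 124, 349, 362, 446])
 ))) (.node (.node (.node (.leaf [33, 97, 220, 418, 424, 479])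
  (.leaf [33, 99, 152, 237, 355, 535])
 ) (.node (.leaf [33, 102, 186, 299, 300, 552])
  (.leaf [33, 105, 271, 296, 417, 433])
 )) (.node (.node (.leaf [33, 106, 121, 269, 380, 498])
  (.leaf [33, 109, 143, 502, 511, 542])
 ) (.node (.leaf [33, 111, 115, 280, 436, 469])
  (.leaf [33, 114, 193, 341, 391, 499])
 )))) (.node (.node (.node (.node (.leaf [33, 116, 187, 263, 339, 431])
  (.leaf [33, 117, 129, 170, 416, 530])
 ) (.node (.leaf [33, 122, 148, 478, 509, 529])
  (.leaf [33, 127, 267, 290, 456, 537])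
 )) (.node (.node (.leaf [33, 141, 238, 350, 409, 516])
  (.leaf [33, 142, 145, 169, 191, 217])
 ) (.node (.leaf [33, 144, 209, 282, 388, 427])
  (.leaf [33, 154, 189, 208, 440, 497])
 ))) (.node (.node (.node (.leaf [33, 158, 222, 274, 410, 490])
  (.leaf [33, 159, 214, 309, 370, 475])
 ) (.node (.leaf [33, 162, 188, 463, 504, 545])
  (.leaf [33, 166, 291, 294, 420, 520])
 )) (.node (.node (.leaf [33, 167, 204, 288, 315, 324])
  (.leaf [33, 173, 253, 470, 488, 508])
 ) (.node (.leaf [33, 175, 176, 357, 395, 523])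
  (.leaf [33, 183, 377, 401, 489, 496])
 )))))

def t561_11 : BT :=
  (.node (.node (.node (.node (.node (.leaf [33, 196, 268, 441, 443, 494])
  (.leaf [33, 199, 286, 406, 461, 467])
 ) (.node (.leaf [33, 200, 298, 358, 387, 532])
  (.leaf [33, 201, 207, 471, 476, 534])
 )) (.node (.node (.leaf [33, 219, 289, 450, 524, 543])
  (.leaf [33, 225, 233, 277, 342, 356])
 ) (.node (.leaf [33, 227, 234, 236, 305, 320])
  (.leaf [33, 241, 313, 397, 422, 438])
 ))) (.node (.node (.node (.leaf [33, 244, 287, 405, 505, 517])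
  (.leaf [33, 252, 272, 403, 448, 460])
 ) (.node (.leaf [33, 257, 451, 454, 480, 548])
  (.leaf [33, 270, 382, 383, 512, 518])
 )) (.node (.node (.leaf [33, 276, 318, 335, 360, 547])
  (.leaf [33, 310, 368, 375, 513, 546])
 ) (.node (.leaf [33, 322, 325, 344, 473, 522])
  (.leaf [33, 411, 437, 459, 527, 550])
 )))) (.node (.node (.node (.node (.leaf [44, 45, 68, 176, 208, 275])
  (.leaf [44, 46, 105, 411, 458, 537])
 ) (.node (.leaf [44, 47, 73, 435, 527, 541])
  (.leaf [44, 48, 59, 214, 369, 380])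
 )) (.node (.node (.leaf [44, 49, 112, 327, 352, 445])
  (.leaf [44, 56, 220, 403, 407, 475])
 ) (.node (.leaf [44, 57, 116, 140, 232, 256])
  (.leaf [44, 60, 74, 298, 344, 474])
 ))) (.node (.node (.node (.leaf [44, 61, 72, 163, 183, 196])
  (.leaf [44, 64, 91, 262, 457, 497])
 ) (.node (.leaf [44, 65, 169, 223, 355, 370])
  (.leaf [44, 66, 80, 247, 313, 553])
 )) (.node (.node (.leaf [44, 69, 284, 308, 387, 531])
  (.leaf [44, 71, 225, 300, 422, 430])
 ) (.node (.leaf [44, 76, 152, 281, 295, 550])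
  (.leaf [44, 77, 166, 357, 485, 500])
 )))))

def t561_12 : BT :=
  (.node (.node (.node (.node (.node (.leaf [44, 78, 79, 179, 279, 320])
  (.leaf [44, 81, 286, 416, 454, 543])
 ) (.node (.leaf [44, 82, 92, 153, 246, 294])
  (.leaf [44, 83, 231, 270, 386, 447])
 )) (.node (.node (.leaf [44, 84, 122, 150, 236, 554])
  (.leaf [44, 85, 194, 321, 391, 504])
 ) (.node (.leaf [44, 86, 130, 181, 425, 437])
  (.leaf [44, 88, 138, 174, 332, 468])
 ))) (.node (.node (.node (.leaf [44, 93, 144, 396, 448, 486])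
  (.leaf [44, 95, 242, 496, 530, 539])
 ) (.node (.leaf [44, 96, 148, 237, 273, 278])
  (.leaf [44, 97, 175, 192, 491, 540])
 )) (.node (.node (.leaf [44, 98, 111, 364, 394, 402])
  (.leaf [44, 99, 151, 345, 434, 489])
 ) (.node (.leaf [44, 101, 171, 228, 240, 315])
  (.leaf [44, 102, 177, 205, 211, 296])
 )))) (.node (.node (.node (.node (.leaf [44, 104, 126, 264, 323, 552])
  (.leaf [44, 108, 198, 202, 419, 544])
 ) (.node (.leaf [44, 109, 302, 385, 423, 465])
  (.leaf [44, 110, 170, 188, 230, 258])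
 )) (.node (.node (.leaf [44, 113, 119, 312, 339, 520])
  (.leaf [44, 114, 191, 406, 534, 547])
 ) (.node (.leaf [44, 117, 229, 347, 453, 488])
  (.leaf [44, 120, 128, 346, 429, 481])
 ))) (.node (.node (.node (.leaf [44, 121, 283, 303, 436, 515])
  (.leaf [44, 123, 234, 257, 342, 399])
 ) (.node (.leaf [44, 124, 299, 410, 529, 538])
  (.leaf [44, 125, 291, 404, 471, 506])
 )) (.node (.node (.leaf [44, 129, 271, 378, 479, 480])
  (.leaf [44, 133, 266, 462, 466, 501])
 ) (.node (.leaf [44, 135, 309, 348, 408, 427])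
  (.leaf [44, 136, 249, 441, 483, 516])
 )))))

def t561_13 : BT :=
  (.node (.node (.node (.node (.node (.leaf [44, 139, 287, 306, 449, 502])
  (.leaf [44, 149, 371, 384, 522, 526])
 ) (.node (.leaf [44, 157, 243, 328, 362, 433])
  (.leaf [44, 158, 259, 413, 510, 523])
 )) (.node (.node (.leaf [44, 159, 400, 405, 420, 487])
  (.leaf [44, 160, 318, 431, 507, 508])
 ) (.node (.leaf [44, 164, 201, 267, 353, 451])
  (.leaf [44, 178, 182, 382, 418, 503])
 ))) (.node (.node (.node (.leaf [44, 189, 289, 366, 389, 473])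
  (.leaf [44, 197, 221, 235, 463, 546])
 ) (.node (.leaf [44, 199, 227, 368, 428, 509])
  (.leaf [44, 200, 263, 331, 412, 426])
 )) (.node (.node (.leaf [44, 206, 219, 341, 417, 517])
  (.leaf [44, 209, 245, 316, 335, 514])
 ) (.node (.leaf [44, 213, 277, 390, 443, 469])
  (.leaf [44, 215, 218, 350, 375, 442])
 )))) (.node (.node (.node (.node (.leaf [44, 224, 248, 288, 381, 532])
  (.leaf [44, 241, 265, 338, 363, 493])
 ) (.node (.leaf [44, 252, 311, 337, 343, 367])
  (.leaf [44, 274, 276, 282, 297, 557])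
 )) (.node (.node (.leaf [44, 293, 372, 398, 492, 533])
  (.leaf [44, 304, 330, 397, 414, 439])
 ) (.node (.leaf [44, 356, 421, 460, 518, 558])
  (.leaf [55, 57, 119, 180, 203, 310])
 ))) (.node (.node (.node (.leaf [55, 59, 259, 351, 363, 436])
  (.leaf [55, 60, 118, 509, 535, 547])
 ) (.node (.leaf [55, 67, 78, 397, 435, 513])
  (.leaf [55, 68, 98, 266, 389, 506])
 )) (.node (.node (.leaf [55, 70, 154, 252, 410, 483])
  (.leaf [55, 71, 174, 421, 451, 462])
 ) (.node (.leaf [55, 73, 81, 167, 265, 327])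
  (.leaf [55, 74, 211, 250, 422, 511])
 )))))

def t561_14 : BT :=
  (.node (.node (.node (.node (.node (.leaf [55, 76, 109, 147, 166, 206])
  (.leaf [55, 77, 285, 328, 393, 431])
 ) (.node (.leaf [55, 79, 110, 221, 269, 555])
  (.leaf [55, 80, 225, 381, 411, 485])
 )) (.node (.node (.leaf [55, 83, 226, 299, 415, 523])
  (.leaf [55, 84, 129, 133, 172, 559])
 ) (.node (.leaf [55, 86, 158, 354, 454, 519])
  (.leaf [55, 87, 197, 238, 504, 540])
 ))) (.node (.node (.node (.leaf [55, 88, 122, 335, 399, 518])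
  (.leaf [55, 91, 186, 231, 455, 528])
 ) (.node (.leaf [55, 92, 159, 332, 536, 541])
  (.leaf [55, 94, 136, 162, 242, 324])
 )) (.node (.node (.leaf [55, 95, 105, 156, 262, 278])
  (.leaf [55, 96, 149, 233, 416, 463])
 ) (.node (.leaf [55, 97, 106, 385, 427, 458])
  (.leaf [55, 99, 153, 274, 339, 453])
 )))) (.node (.node (.node (.node (.leaf [55, 101, 152, 409, 418, 493])
  (.leaf [55, 102, 212, 280, 482, 510])
 ) (.node (.leaf [55, 103, 228, 247, 263, 277])
  (.leaf [55, 111, 283, 296, 443, 546])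
 )) (.node (.node (.leaf [55, 112, 169, 200, 325, 550])
  (.leaf [55, 115, 205, 220, 337, 433])
 ) (.node (.leaf [55, 121, 194, 311, 434, 527])
  (.leaf [55, 123, 195, 386, 507, 512])
 ))) (.node (.node (.node (.leaf [55, 126, 135, 239, 338, 355])
  (.leaf [55, 127, 165, 281, 368, 525])
 ) (.node (.leaf [55, 128, 155, 244, 307, 552])
  (.leaf [55, 130, 245, 401, 404, 413])
 )) (.node (.node (.leaf [55, 131, 209, 353, 439, 495])
  (.leaf [55, 137, 236, 343, 520, 532])
 ) (.node (.leaf [55, 140, 183, 345, 412, 446])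
  (.leaf [55, 145, 198, 199, 291, 558])
 )))))

def t561_15 : BT :=
  (.node (.node (.node (.node (.node (.leaf [55, 148, 181, 235, 373, 500])
  (.leaf [55, 150, 164, 398, 473, 476])
 ) (.node (.leaf [55, 160, 229, 342, 382, 444])
  (.leaf [55, 163, 295, 319, 396, 460])
 )) (.node (.node (.leaf [55, 171, 256, 377, 426, 549])
  (.leaf [55, 175, 387, 488, 534, 537])
 ) (.node (.leaf [55, 176, 179, 260, 449, 514])
  (.leaf [55, 182, 301, 346, 374, 533])
 ))) (.node (.node (.node (.leaf [55, 184, 261, 306, 317, 323])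
  (.leaf [55, 185, 279, 442, 494, 522])
 ) (.node (.leaf [55, 189, 218, 270, 340, 403])
  (.leaf [55, 191, 204, 271, 273, 313])
 )) (.node (.node (.leaf [55, 208, 302, 331, 461, 481])
  (.leaf [55, 217, 326, 333, 352, 487])
 ) (.node (.leaf [55, 222, 232, 524, 526, 544])
  (.leaf [55, 234, 419, 447, 465, 466])
 )))) (.node (.node (.node (.node (.leaf [55, 246, 264, 400, 423, 503])
  (.leaf [55, 258, 292, 330, 441, 478])
 ) (.node (.leaf [55, 267, 321, 348, 367, 516])
  (.leaf [55, 288, 341, 414, 471, 539])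
 )) (.node (.node (.leaf [55, 298, 303, 378, 394, 452])
  (.leaf [55, 315, 318, 391, 405, 440])
 ) (.node (.leaf [55, 329, 420, 429, 469, 486])
  (.leaf [55, 366, 445, 505, 531, 556])
 ))) (.node (.node (.node (.leaf [66, 67, 271, 360, 450, 517])
  (.leaf [66, 68, 110, 229, 406, 532])
 ) (.node (.leaf [66, 70, 123, 372, 424, 453])
  (.leaf [66, 71, 131, 187, 212, 305])
 )) (.node (.node (.leaf [66, 78, 135, 162, 467, 508])
  (.leaf [66, 79, 103, 272, 288, 328])
 ) (.node (.leaf [66, 84, 159, 429, 480, 533])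
  (.leaf [66, 87, 315, 326, 346, 364])
 )))))

def t561_16 : BT :=
  (.node (.node (.node (.node (.node (.leaf [66, 89, 90, 309, 497, 523])
  (.leaf [66, 92, 106, 117, 378, 400])
 ) (.node (.leaf [66, 93, 237, 287, 375, 519])
  (.leaf [66, 95, 122, 143, 250, 267])
 )) (.node (.node (.leaf [66, 98, 294, 337, 344, 482])
  (.leaf [66, 100, 138, 331, 388, 433])
 ) (.node (.leaf [66, 104, 116, 325, 389, 535])
  (.leaf [66, 113, 128, 280, 379, 495])
 ))) (.node (.node (.node (.leaf [66, 115, 321, 361, 384, 416])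
  (.leaf [66, 118, 129, 249, 307, 310])
 ) (.node (.leaf [66, 121, 142, 259, 289, 554])
  (.leaf [66, 124, 279, 324, 461, 546])
 )) (.node (.node (.leaf [66, 125, 188, 286, 441, 472])
  (.leaf [66, 127, 195, 199, 234, 550])
 ) (.node (.leaf [66, 132, 137, 182, 196, 298])
  (.leaf [66, 134, 176, 311, 340, 470])
 )))) (.node (.node (.node (.node (.leaf [66, 136, 198, 362, 371, 518])
  (.leaf [66, 149, 216, 353, 478, 544])
 ) (.node (.leaf [66, 151, 246, 358, 426, 491])
  (.leaf [66, 158, 210, 243, 390, 525])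
 )) (.node (.node (.leaf [66, 160, 189, 192, 275, 552])
  (.leaf [66, 164, 173, 336, 341, 350])
 ) (.node (.leaf [66, 166, 258, 380, 488, 511])
  (.leaf [66, 170, 203, 276, 330, 507])
 ))) (.node (.node (.node (.leaf [66, 172, 291, 355, 504, 549])
  (.leaf [66, 178, 252, 261, 391, 454])
 ) (.node (.leaf [66, 197, 222, 343, 465, 510])
  (.leaf [66, 200, 413, 435, 440, 534])
 )) (.node (.node (.leaf [66, 202, 308, 374, 471, 537])
  (.leaf [66, 204, 219, 223, 266, 299])
 ) (.node (.leaf [66, 208, 253, 319, 398, 446])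
  (.leaf [66, 211, 323, 486, 536, 543])
 )))))

def t561_17 : BT :=
  (.node (.node (.node (.node (.node (.leaf [66, 213, 230, 356, 418, 502])
  (.leaf [66, 215, 217, 274, 365, 542])
 ) (.node (.leaf [66, 221, 225, 401, 503, 516])
  (.leaf [66, 224, 260, 293, 476, 489])
 )) (.node (.node (.leaf [66, 240, 273, 431, 459, 500])
  (.leaf [66, 241, 402, 419, 421, 529])
 ) (.node (.leaf [66, 245, 292, 455, 487, 492])
  (.leaf [66, 251, 412, 415, 432, 547])
 ))) (.node (.node (.node (.leaf [66, 262, 290, 475, 501, 531])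
  (.leaf [66, 268, 278, 345, 462, 540])
 ) (.node (.leaf [66, 277, 352, 408, 451, 473])
  (.leaf [66, 302, 304, 335, 403, 548])
 )) (.node (.node (.leaf [66, 394, 423, 526, 541, 557])
  (.leaf [77, 79, 100, 263, 481, 491])
 ) (.node (.leaf [77, 80, 191, 276, 480, 504])
  (.leaf [77, 81, 212, 499, 509, 518])
 )))) (.node (.node (.node (.node (.leaf [77, 82, 185, 335, 405, 476])
  (.leaf [77, 88, 93, 422, 478, 515])
 ) (.node (.leaf [77, 89, 155, 352, 443, 531])
  (.leaf [77, 91, 189, 210, 280, 313])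
 )) (.node (.node (.leaf [77, 92, 224, 398, 414, 435])
  (.leaf [77, 94, 233, 251, 292, 297])
 ) (.node (.leaf [77, 95, 194, 195, 437, 460])
  (.leaf [77, 99, 107, 250, 417, 524])
 ))) (.node (.node (.node (.leaf [77, 102, 182, 436, 452, 457])
  (.leaf [77, 104, 227, 258, 450, 523])
 ) (.node (.leaf [77, 105, 247, 315, 342, 471])
  (.leaf [77, 106, 256, 307, 358, 411])
 )) (.node (.node (.leaf [77, 108, 242, 302, 367, 438])
  (.leaf [77, 111, 237, 298, 332, 529])
 ) (.node (.leaf [77, 115, 325, 370, 424, 425])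
  (.leaf [77, 116, 345, 351, 514, 548])
 )))))

def t561_18 : BT :=
  (.node (.node (.node (.node (.node (.leaf [77, 117, 167, 418, 442, 497])
  (.leaf [77, 118, 141, 312, 337, 364])
 ) (.node (.leaf [77, 125, 415, 446, 545, 546])
  (.leaf [77, 130, 164, 340, 453, 519])
 )) (.node (.node (.leaf [77, 132, 181, 432, 470, 530])
  (.leaf [77, 139, 218, 372, 385, 544])
 ) (.node (.leaf [77, 144, 317, 318, 490, 532])
  (.leaf [77, 145, 294, 333, 336, 547])
 ))) (.node (.node (.node (.leaf [77, 153, 168, 243, 265, 554])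
  (.leaf [77, 170, 213, 375, 377, 535])
 ) (.node (.leaf [77, 173, 200, 203, 455, 511])
  (.leaf [77, 179, 196, 420, 463, 533])
 )) (.node (.node (.leaf [77, 184, 204, 383, 426, 465])
  (.leaf [77, 186, 306, 366, 376, 407])
 ) (.node (.leaf [77, 190, 353, 410, 445, 527])
  (.leaf [77, 198, 235, 354, 428, 543])
 )))) (.node (.node (.node (.node (.leaf [77, 201, 305, 373, 494, 513])
  (.leaf [77, 202, 279, 287, 361, 488])
 ) (.node (.leaf [77, 208, 216, 341, 388, 416])
  (.leaf [77, 209, 283, 309, 379, 430])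
 )) (.node (.node (.leaf [77, 214, 254, 440, 506, 510])
  (.leaf [77, 223, 245, 300, 349, 429])
 ) (.node (.leaf [77, 226, 253, 273, 381, 475])
  (.leaf [77, 232, 321, 368, 390, 486])
 ))) (.node (.node (.node (.leaf [77, 255, 260, 268, 350, 534])
  (.leaf [77, 259, 274, 291, 484, 540])
 ) (.node (.leaf [77, 269, 281, 290, 374, 542])
  (.leaf [77, 288, 334, 355, 399, 421])
 )) (.node (.node (.leaf [77, 301, 320, 371, 380, 487])
  (.leaf [77, 338, 458, 508, 520, 559])
 ) (.node (.leaf [88, 92, 125, 203, 383, 539])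
  (.leaf [88, 99, 118, 158, 264, 551])
 )))))

def t561_19 : BT :=
  (.node (.node (.node (.node (.node (.leaf [88, 100, 172, 206, 380, 450])
  (.leaf [88, 104, 275, 296, 424, 499])
 ) (.node (.leaf [88, 105, 301, 356, 470, 527])
  (.leaf [88, 106, 305, 315, 363, 464])
 )) (.node (.node (.leaf [88, 107, 146, 347, 369, 549])
  (.leaf [88, 110, 163, 291, 371, 513])
 ) (.node (.leaf [88, 111, 241, 392, 393, 467])
  (.leaf [88, 114, 145, 237, 314, 556])
 ))) (.node (.node (.node (.leaf [88, 115, 186, 343, 377, 423])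
  (.leaf [88, 116, 198, 456, 458, 504])
 ) (.node (.leaf [88, 117, 165, 272, 351, 404])
  (.leaf [88, 119, 205, 216, 368, 425])
 )) (.node (.node (.leaf [88, 124, 128, 304, 465, 489])
  (.leaf [88, 129, 289, 357, 506, 538])
 ) (.node (.leaf [88, 130, 182, 235, 266, 292])
  (.leaf [88, 131, 180, 336, 419, 451])
 )))) (.node (.node (.node (.node (.leaf [88, 132, 251, 258, 397, 545])
  (.leaf [88, 133, 227, 319, 323, 558])
 ) (.node (.leaf [88, 134, 171, 196, 375, 511])
  (.leaf [88, 139, 248, 462, 526, 531])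
 )) (.node (.node (.leaf [88, 142, 148, 391, 412, 413])
  (.leaf [88, 143, 306, 360, 432, 475])
 ) (.node (.leaf [88, 144, 221, 283, 394, 540])
  (.leaf [88, 159, 484, 485, 497, 517])
 ))) (.node (.node (.node (.leaf [88, 167, 333, 340, 433, 535])
  (.leaf [88, 170, 300, 364, 367, 444])
 ) (.node (.leaf [88, 175, 269, 373, 479, 487])
  (.leaf [88, 176, 252, 287, 415, 459])
 )) (.node (.node (.leaf [88, 178, 207, 253, 389, 401])
  (.leaf [88, 185, 278, 350, 406, 524])
 ) (.node (.leaf [88, 189, 312, 361, 480, 491])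
  (.leaf [88, 190, 294, 370, 435, 519])
 )))))

def t561_20 : BT :=
  (.node (.node (.node (.node (.node (.leaf [88, 193, 270, 429, 463, 476])
  (.leaf [88, 204, 213, 254, 257, 321])
 ) (.node (.leaf [88, 210, 211, 386, 438, 502])
  (.leaf [88, 226, 331, 446, 471, 482])
 )) (.node (.node (.leaf [88, 234, 262, 376, 388, 529])
  (.leaf [88, 263, 280, 461, 477, 509])
 ) (.node (.leaf [88, 279, 334, 427, 520, 528])
  (.leaf [88, 309, 311, 355, 503, 541])
 ))) (.node (.node (.node (.leaf [88, 316, 326, 398, 411, 544])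
  (.leaf [88, 384, 436, 494, 516, 550])
 ) (.node (.leaf [99, 100, 199, 288, 375, 413])
  (.leaf [99, 101, 187, 394, 400, 410])
 )) (.node (.node (.leaf [99, 104, 182, 371, 377, 461])
  (.leaf [99, 113, 127, 344, 517, 544])
 ) (.node (.leaf [99, 115, 128, 141, 164, 178])
  (.leaf [99, 117, 143, 364, 396, 540])
 )))) (.node (.node (.node (.node (.leaf [99, 119, 435, 443, 447, 470])
  (.leaf [99, 120, 126, 212, 241, 267])
 ) (.node (.leaf [99, 122, 193, 210, 474, 488])
  (.leaf [99, 123, 203, 331, 370, 391])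
 )) (.node (.node (.leaf [99, 129, 251, 478, 499, 500])
  (.leaf [99, 131, 145, 403, 436, 484])
 ) (.node (.leaf [99, 135, 213, 217, 493, 520])
  (.leaf [99, 138, 159, 239, 261, 559])
 ))) (.node (.node (.node (.leaf [99, 139, 223, 401, 402, 440])
  (.leaf [99, 156, 186, 357, 360, 494])
 ) (.node (.leaf [99, 157, 322, 323, 458, 548])
  (.leaf [99, 165, 275, 504, 508, 526])
 )) (.node (.node (.leaf [99, 166, 325, 342, 446, 533])
  (.leaf [99, 176, 321, 463, 477, 496])
 ) (.node (.leaf [99, 181, 214, 294, 354, 426])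
  (.leaf [99, 184, 272, 450, 495, 513])
 )))))

def t561_21 : BT :=
  (.node (.node (.node (.node (.node (.leaf [99, 189, 316, 353, 471, 511])
  (.leaf [99, 191, 266, 333, 423, 485])
 ) (.node (.leaf [99, 192, 327, 335, 359, 536])
  (.leaf [99, 194, 208, 338, 486, 534])
 )) (.node (.node (.leaf [99, 195, 247, 428, 545, 547])
  (.leaf [99, 206, 349, 363, 431, 472])
 ) (.node (.leaf [99, 216, 233, 248, 337, 481])
  (.leaf [99, 221, 346, 390, 405, 538])
 ))) (.node (.node (.node (.leaf [99, 228, 289, 319, 348, 523])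
  (.leaf [99, 229, 255, 286, 356, 442])
 ) (.node (.leaf [99, 234, 245, 246, 373, 467])
  (.leaf [99, 235, 249, 311, 425, 515])
 )) (.node (.node (.leaf [99, 236, 299, 314, 422, 476])
  (.leaf [99, 282, 318, 358, 509, 519])
 ) (.node (.leaf [99, 312, 326, 455, 506, 525])
  (.leaf [99, 368, 399, 457, 549, 557])
 )))) (.node (.node (.node (.node (.leaf [110, 112, 153, 460, 499, 535])
  (.leaf [110, 126, 132, 408, 453, 484])
 ) (.node (.leaf [110, 128, 223, 263, 485, 546])
  (.leaf [110, 130, 248, 262, 354, 380])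
 )) (.node (.node (.leaf [110, 135, 285, 329, 357, 426])
  (.leaf [110, 138, 178, 193, 455, 469])
 ) (.node (.leaf [110, 139, 246, 395, 428, 518])
  (.leaf [110, 142, 324, 359, 398, 433])
 ))) (.node (.node (.node (.leaf [110, 145, 298, 305, 489, 507])
  (.leaf [110, 146, 206, 377, 473, 511])
 ) (.node (.leaf [110, 149, 197, 259, 271, 328])
  (.leaf [110, 150, 186, 276, 287, 301])
 )) (.node (.node (.leaf [110, 154, 254, 335, 412, 540])
  (.leaf [110, 155, 156, 214, 289, 318])
 ) (.node (.leaf [110, 158, 176, 488, 504, 531])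
  (.leaf [110, 160, 239, 273, 474, 524])
 )))))

def t561_22 : BT :=
  (.node (.node (.node (.node (.node (.leaf [110, 162, 225, 308, 416, 479])
  (.leaf [110, 175, 307, 353, 500, 514])
 ) (.node (.leaf [110, 177, 199, 249, 414, 526])
  (.leaf [110, 179, 220, 385, 432, 477])
 )) (.node (.node (.leaf [110, 183, 343, 438, 456, 547])
  (.leaf [110, 190, 228, 266, 375, 491])
 ) (.node (.leaf [110, 196, 306, 421, 434, 516])
  (.leaf [110, 201, 211, 217, 232, 557])
 ))) (.node (.node (.node (.leaf [110, 208, 342, 352, 373, 502])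
  (.leaf [110, 212, 278, 381, 478, 520])
 ) (.node (.leaf [110, 234, 272, 360, 429, 548])
  (.leaf [110, 235, 243, 374, 378, 413])
 )) (.node (.node (.leaf [110, 245, 322, 403, 496, 515])
  (.leaf [110, 280, 283, 405, 463, 519])
 ) (.node (.leaf [110, 284, 302, 396, 440, 505])
  (.leaf [110, 288, 292, 415, 470, 506])
 )))) (.node (.node (.node (.node (.leaf [110, 334, 441, 509, 537, 558])
  (.leaf [121, 126, 156, 392, 418, 512])
 ) (.node (.leaf [121, 132, 172, 244, 344, 492])
  (.leaf [121, 133, 179, 288, 505, 538])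
 )) (.node (.node (.leaf [121, 137, 161, 178, 208, 271])
  (.leaf [121, 140, 251, 376, 440, 456])
 ) (.node (.leaf [121, 143, 177, 212, 413, 514])
  (.leaf [121, 144, 207, 336, 384, 441])
 ))) (.node (.node (.node (.leaf [121, 145, 200, 319, 378, 431])
  (.leaf [121, 150, 262, 304, 470, 518])
 ) (.node (.leaf [121, 160, 220, 221, 366, 532])
  (.leaf [121, 163, 191, 341, 367, 500])
 )) (.node (.node (.leaf [121, 164, 214, 230, 285, 325])
  (.leaf [121, 165, 267, 454, 466, 478])
 ) (.node (.leaf [121, 166, 217, 391, 423, 529])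
  (.leaf [121, 167, 290, 305, 348, 479])
 )))))

def t561_23 : BT :=
  (.node (.node (.node (.node (.node (.leaf [121, 168, 171, 280, 302, 310])
  (.leaf [121, 186, 223, 371, 438, 444])
 ) (.node (.leaf [121, 187, 245, 308, 312, 560])
  (.leaf [121, 197, 355, 374, 385, 525])
 )) (.node (.node (.leaf [121, 206, 260, 432, 435, 523])
  (.leaf [121, 215, 286, 342, 396, 449])
 ) (.node (.leaf [121, 216, 358, 445, 453, 506])
  (.leaf [121, 222, 327, 330, 394, 548])
 ))) (.node (.node (.node (.leaf [121, 226, 241, 365, 377, 390])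
  (.leaf [121, 229, 246, 261, 425, 465])
 ) (.node (.leaf [121, 240, 254, 393, 430, 544])
  (.leaf [121, 257, 353, 357, 369, 460])
 )) (.node (.node (.leaf [121, 277, 278, 363, 416, 476])
  (.leaf [121, 315, 320, 345, 491, 501])
 ) (.node (.leaf [121, 324, 326, 335, 417, 488])
  (.leaf [121, 372, 419, 463, 540, 552])
 )))) (.node (.node (.node (.node (.leaf [132, 133, 144, 273, 376, 436])
  (.leaf [132, 134, 224, 333, 419, 493])
 ) (.node (.leaf [132, 135, 300, 383, 409, 481])
  (.leaf [132, 136, 197, 312, 334, 381])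
 )) (.node (.node (.leaf [132, 145, 154, 206, 372, 433])
  (.leaf [132, 147, 150, 157, 450, 497])
 ) (.node (.leaf [132, 148, 160, 323, 378, 403])
  (.leaf [132, 151, 270, 328, 420, 506])
 ))) (.node (.node (.node (.leaf [132, 152, 269, 275, 353, 387])
  (.leaf [132, 153, 221, 485, 487, 511])
 ) (.node (.leaf [132, 162, 189, 201, 371, 401])
  (.leaf [132, 173, 302, 342, 441, 454])
 )) (.node (.node (.leaf [132, 175, 230, 370, 467, 528])
  (.leaf [132, 176, 278, 398, 437, 534])
 ) (.node (.leaf [132, 188, 229, 296, 404, 455])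
  (.leaf [132, 190, 208, 209, 391, 431])
 )))))

def t561_24 : BT :=
  (.node (.node (.node (.node (.node (.leaf [132, 199, 237, 363, 475, 482])
  (.leaf [132, 202, 394, 412, 476, 546])
 ) (.node (.leaf [132, 215, 276, 439, 489, 533])
  (.leaf [132, 217, 220, 356, 471, 496])
 )) (.node (.node (.leaf [132, 219, 306, 350, 402, 549])
  (.leaf [132, 232, 286, 292, 430, 440])
 ) (.node (.leaf [132, 253, 264, 293, 347, 501])
  (.leaf [132, 254, 284, 319, 461, 503])
 ))) (.node (.node (.node (.leaf [132, 257, 267, 274, 361, 425])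
  (.leaf [132, 261, 268, 283, 451, 536])
 ) (.node (.leaf [132, 271, 307, 452, 524, 527])
  (.leaf [132, 281, 305, 355, 400, 531])
 )) (.node (.node (.leaf [132, 303, 315, 351, 445, 541])
  (.leaf [132, 318, 359, 395, 418, 514])
 ) (.node (.leaf [132, 427, 474, 486, 521, 556])
  (.leaf [143, 144, 185, 302, 470, 497])
 )))) (.node (.node (.node (.node (.leaf [143, 145, 225, 341, 478, 505])
  (.leaf [143, 148, 288, 433, 472, 534])
 ) (.node (.leaf [143, 154, 168, 200, 336, 499])
  (.leaf [143, 156, 172, 187, 448, 518])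
 )) (.node (.node (.leaf [143, 158, 296, 363, 533, 538])
  (.leaf [143, 160, 162, 170, 388, 541])
 ) (.node (.leaf [143, 174, 183, 194, 330, 526])
  (.leaf [143, 180, 275, 287, 339, 510])
 ))) (.node (.node (.node (.leaf [143, 186, 193, 313, 399, 442])
  (.leaf [143, 188, 245, 342, 343, 524])
 ) (.node (.leaf [143, 197, 346, 397, 457, 474])
  (.leaf [143, 199, 274, 323, 395, 506])
 )) (.node (.node (.leaf [143, 213, 327, 332, 428, 449])
  (.leaf [143, 217, 260, 412, 427, 445])
 ) (.node (.leaf [143, 221, 300, 356, 453, 548])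
  (.leaf [143, 227, 325, 338, 379, 419])
 )))))

def t561_25 : BT :=
  (.node (.node (.node (.node (.node (.leaf [143, 229, 231, 362, 507, 547])
  (.leaf [143, 230, 310, 333, 353, 455])
 ) (.node (.leaf [143, 237, 290, 414, 421, 523])
  (.leaf [143, 252, 278, 285, 450, 544])
 )) (.node (.node (.leaf [143, 261, 308, 404, 452, 519])
  (.leaf [143, 293, 315, 382, 385, 415])
 ) (.node (.leaf [143, 298, 372, 380, 400, 436])
  (.leaf [143, 309, 321, 425, 444, 528])
 ))) (.node (.node (.node (.leaf [143, 351, 430, 490, 530, 553])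
  (.leaf [154, 157, 211, 222, 392, 416])
 ) (.node (.leaf [154, 158, 277, 411, 421, 441])
  (.leaf [154, 159, 295, 350, 357, 388])
 )) (.node (.node (.leaf [154, 165, 195, 231, 387, 469])
  (.leaf [154, 166, 279, 418, 422, 517])
 ) (.node (.leaf [154, 167, 172, 237, 405, 457])
  (.leaf [154, 171, 181, 232, 485, 539])
 )))) (.node (.node (.node (.node (.leaf [154, 177, 214, 298, 339, 543])
  (.leaf [154, 178, 333, 344, 356, 509])
 ) (.node (.leaf [154, 180, 216, 238, 462, 487])
  (.leaf [154, 198, 297, 425, 439, 549])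
 )) (.node (.node (.leaf [154, 199, 296, 432, 464, 495])
  (.leaf [154, 205, 318, 437, 468, 542])
 ) (.node (.leaf [154, 218, 285, 322, 364, 467])
  (.leaf [154, 221, 331, 450, 498, 522])
 ))) (.node (.node (.node (.leaf [154, 227, 289, 375, 456, 508])
  (.leaf [154, 242, 291, 366, 382, 453])
 ) (.node (.leaf [154, 249, 283, 438, 473, 489])
  (.leaf [154, 258, 278, 458, 463, 465])
 )) (.node (.node (.leaf [154, 261, 299, 307, 423, 532])
  (.leaf [154, 266, 305, 332, 488, 516])
 ) (.node (.leaf [154, 274, 308, 434, 478, 541])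
  (.leaf [154, 281, 304, 396, 476, 504])
 )))))

def t561_26 : BT :=
  (.node (.node (.node (.node (.node (.leaf [154, 294, 300, 377, 471, 514])
  (.leaf [154, 360, 420, 443, 535, 559])
 ) (.node (.leaf [165, 166, 328, 438, 475, 540])
  (.leaf [165, 167, 294, 314, 397, 481])
 )) (.node (.node (.leaf [165, 169, 276, 357, 378, 405])
  (.leaf [165, 183, 233, 242, 402, 413])
 ) (.node (.leaf [165, 188, 302, 410, 442, 460])
  (.leaf [165, 189, 229, 439, 448, 459])
 ))) (.node (.node (.node (.leaf [165, 192, 279, 386, 409, 449])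
  (.leaf [165, 201, 311, 319, 407, 520])
 ) (.node (.leaf [165, 209, 221, 310, 452, 467])
  (.leaf [165, 210, 240, 245, 451, 531])
 )) (.node (.node (.leaf [165, 212, 361, 372, 375, 471])
  (.leaf [165, 218, 252, 316, 414, 537])
 ) (.node (.leaf [165, 224, 226, 266, 426, 433])
  (.leaf [165, 227, 284, 365, 408, 500])
 )))) (.node (.node (.node (.node (.leaf [165, 228, 329, 330, 350, 391])
  (.leaf [165, 232, 239, 249, 335, 509])
 ) (.node (.leaf [165, 236, 323, 429, 430, 493])
  (.leaf [165, 268, 320, 412, 417, 512])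
 )) (.node (.node (.leaf [165, 280, 296, 369, 505, 506])
  (.leaf [165, 289, 395, 465, 486, 545])
 ) (.node (.leaf [165, 376, 424, 435, 546, 555])
  (.leaf [176, 181, 247, 268, 369, 522])
 ))) (.node (.node (.node (.leaf [176, 188, 220, 243, 350, 533])
  (.leaf [176, 200, 227, 283, 312, 555])
 ) (.node (.leaf [176, 201, 272, 327, 425, 503])
  (.leaf [176, 202, 223, 284, 316, 560])
 )) (.node (.node (.leaf [176, 203, 221, 279, 318, 557])
  (.leaf [176, 216, 254, 407, 419, 436])
 ) (.node (.leaf [176, 225, 236, 475, 510, 546])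
  (.leaf [176, 233, 291, 448, 515, 539])
 )))))

def t561_27 : BT :=
  (.node (.node (.node (.node (.node (.leaf [176, 235, 325, 401, 482, 544])
  (.leaf [176, 256, 258, 319, 345, 385])
 ) (.node (.leaf [176, 261, 374, 480, 487, 549])
  (.leaf [176, 265, 315, 390, 447, 479])
 )) (.node (.node (.leaf [176, 270, 292, 422, 490, 520])
  (.leaf [176, 273, 305, 333, 346, 383])
 ) (.node (.leaf [176, 348, 359, 391, 481, 559])
  (.leaf [187, 189, 240, 258, 372, 508])
 ))) (.node (.node (.node (.leaf [187, 203, 233, 303, 474, 491])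
  (.leaf [187, 209, 288, 298, 327, 557])
 ) (.node (.leaf [187, 210, 255, 414, 433, 498])
  (.leaf [187, 211, 294, 307, 328, 554])
 )) (.node (.node (.leaf [187, 214, 292, 304, 324, 555])
  (.leaf [187, 220, 253, 373, 525, 536])
 ) (.node (.leaf [187, 247, 249, 360, 512, 542])
  (.leaf [187, 251, 280, 332, 381, 417])
 )))) (.node (.node (.node (.node (.leaf [187, 252, 262, 378, 435, 461])
  (.leaf [187, 254, 317, 353, 406, 480])
 ) (.node (.leaf [187, 261, 282, 320, 376, 537])
  (.leaf [187, 271, 290, 391, 426, 484])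
 )) (.node (.node (.leaf [187, 345, 411, 477, 502, 551])
  (.leaf [198, 212, 268, 274, 359, 402])
 ) (.node (.leaf [198, 216, 242, 333, 345, 454])
  (.leaf [198, 220, 266, 301, 388, 548])
 ))) (.node (.node (.node (.leaf [198, 222, 256, 501, 522, 529])
  (.leaf [198, 231, 286, 355, 401, 471])
 ) (.node (.leaf [198, 234, 237, 348, 446, 455])
  (.leaf [198, 238, 251, 445, 448, 538])
 )) (.node (.node (.leaf [198, 244, 319, 397, 488, 524])
  (.leaf [198, 245, 253, 400, 521, 534])
 ) (.node (.leaf [198, 247, 250, 387, 465, 502])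
  (.leaf [198, 252, 283, 346, 404, 493])
 )))))

def t561_28 : BT :=
  (.node (.node (.node (.node (.node (.leaf [198, 382, 416, 469, 475, 551])
  (.leaf [209, 229, 259, 480, 503, 521])
 ) (.node (.leaf [209, 249, 293, 350, 367, 453])
  (.leaf [209, 251, 278, 371, 454, 542])
 )) (.node (.node (.leaf [209, 255, 262, 333, 348, 464])
  (.leaf [209, 269, 343, 451, 505, 529])
 ) (.node (.leaf [209, 270, 308, 435, 442, 477])
  (.leaf [209, 346, 354, 376, 406, 558])
 ))) (.node (.node (.node (.leaf [220, 245, 249, 328, 359, 472])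
  (.leaf [220, 252, 284, 303, 364, 478])
 ) (.node (.leaf [220, 391, 402, 416, 501, 553])
  (.leaf [231, 232, 323, 333, 376, 501])
 )) (.node (.node (.leaf [231, 236, 276, 304, 336, 346])
  (.leaf [231, 258, 312, 418, 499, 505])
 ) (.node (.leaf [231, 277, 324, 372, 392, 522])
  (.leaf [231, 278, 402, 410, 456, 532])
 )))) (.node (.node (.node (.node (.leaf [231, 287, 298, 315, 416, 514])
  (.leaf [231, 294, 325, 388, 475, 521])
 ) (.node (.leaf [231, 313, 377, 417, 503, 520])
  (.leaf [231, 434, 445, 459, 495, 552])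
 )) (.node (.node (.leaf [242, 268, 306, 387, 394, 429])
  (.leaf [242, 298, 388, 482, 491, 500])
 ) (.node (.leaf [242, 320, 337, 426, 483, 506])
  (.leaf [242, 386, 444, 515, 541, 556])
 ))) (.node (.node (.node (.leaf [253, 254, 315, 372, 387, 485])
  (.leaf [253, 267, 310, 363, 364, 548])
 ) (.node (.leaf [253, 277, 339, 383, 438, 463])
  (.leaf [253, 297, 317, 324, 443, 495])
 )) (.node (.node (.leaf [253, 369, 464, 491, 512, 555])
  (.leaf [264, 265, 312, 357, 415, 466])
 ) (.node (.leaf [264, 267, 304, 402, 522, 531])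
  (.leaf [264, 295, 310, 344, 392, 487])
 )))))

def t561_29 : BT :=
  (.node (.node (.node (.node (.leaf [264, 328, 417, 445, 467, 496])
  (.node (.leaf [264, 370, 409, 524, 538, 554])
  (.leaf [275, 333, 341, 402, 465, 559])
 )) (.node (.leaf [286, 337, 393, 403, 479, 559])
  (.node (.leaf [297, 384, 390, 462, 496, 554])
  (.leaf [308, 340, 358, 382, 499, 554])
 ))) (.node (.node (.leaf [319, 334, 360, 409, 468, 552])
  (.node (.leaf [330, 331, 363, 365, 409, 550])
  (.leaf [330, 352, 492, 547, 557, 558])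
 )) (.node (.leaf [330, 388, 393, 458, 459, 553])
  (.node (.leaf [341, 345, 376, 418, 426, 550])
  (.leaf [341, 396, 447, 524, 556, 560])
 )))) (.node (.node (.node (.leaf [341, 413, 415, 490, 494, 551])
  (.node (.leaf [352, 353, 429, 431, 497, 550])
  (.leaf [352, 476, 481, 535, 536, 553])
 )) (.node (.leaf [363, 390, 429, 478, 551, 557])
  (.node (.leaf [363, 425, 441, 458, 486, 555])
  (.leaf [374, 377, 392, 440, 446, 550])
 ))) (.node (.node (.leaf [374, 453, 462, 530, 552, 560])
  (.node (.leaf [396, 400, 464, 506, 514, 550])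
  (.leaf [396, 501, 503, 545, 549, 551])
 )) (.node (.leaf [407, 424, 495, 512, 551, 560])
  (.node (.leaf [429, 513, 518, 535, 541, 555])
  (.leaf [462, 465, 480, 517, 523, 550])
 )))))

def full561 : BT :=
  (.node (.node (.node (.node t561_0 (.node t561_1 t561_2)) (.node (.node t561_3 t561_4) (.node t561_5 t561_6))) (.node (.node (.node t561_7 t561_8) (.node t561_9 t561_10)) (.node (.node t561_11 t561_12) (.node t561_13 t561_14)))) (.node (.node (.node t561_15 (.node t561_16 t561_17)) (.node (.node t561_18 t561_19) (.node t561_20 t561_21))) (.node (.node (.node t561_22 t561_23) (.node t561_24 t561_25)) (.node (.node t561_26 t561_27) (.node t561_28 t561_29)))))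

def short561 : List (List ℕ × List ℕ) :=
  []

theorem ex561 : ∃ 𝓑 : Set (Finset (Fin 561)), IsS2 (Fin 561) 6 𝓑 :=
  of_codedT (codedZ 11) 6 51 0 561 rfl full561 short561
    (by decide +kernel) (by decide +kernel) (by decide +kernel) (by decide +kernel)
    (by decide +kernel) (by decide +kernel)

end Pool.Agent.TH848.KM
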