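import Pool.Agent.TH848.KM.Tree

/-!
A Steiner system `S(2,6,591)`: 15 copies of an abelian group of order 39 and 6 fixed points.
-/

set_option autoImplicit false
set_option maxRecDepth 100000

namespace Pool.Agent.TH848.KM

open Pool.Agent.H816R2.KM2

def t591_0 : BT :=
  (.node (.node (.node (.node (.node (.leaf [0, 1, 122, 147, 338, 352])
  (.leaf [0, 2, 12, 19, 23, 253])
 ) (.node (.leaf [0, 3, 197, 323, 425, 491])
  (.leaf [0, 5, 58, 66, 166, 330])
 )) (.node (.node (.leaf [0, 6, 56, 419, 500, 521])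
  (.leaf [0, 8, 213, 377, 526, 531])
 ) (.node (.leaf [0, 9, 145, 305, 433, 556])
  (.leaf [0, 13, 398, 449, 476, 557])
 ))) (.node (.node (.node (.leaf [0, 14, 179, 232, 281, 282])
  (.leaf [0, 15, 169, 389, 454, 580])
 ) (.node (.leaf [0, 39, 111, 200, 443, 550])
  (.leaf [0, 40, 116, 210, 363, 579])
 )) (.node (.node (.leaf [0, 41, 286, 442, 535, 587])
  (.leaf [0, 42, 138, 182, 353, 496])
 ) (.node (.leaf [0, 43, 237, 283, 292, 469])
  (.leaf [0, 44, 98, 151, 314, 474])
 )))) (.node (.node (.node (.node (.leaf [0, 45, 318, 372, 395, 560])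
  (.leaf [0, 46, 90, 229, 358, 361])
 ) (.node (.leaf [0, 47, 100, 163, 275, 573])
  (.leaf [0, 48, 268, 322, 396, 569])
 )) (.node (.node (.leaf [0, 49, 129, 530, 577, 588])
  (.leaf [0, 51, 118, 273, 316, 342])
 ) (.node (.leaf [0, 52, 114, 211, 549, 582])
  (.leaf [0, 54, 142, 300, 407, 589])
 ))) (.node (.node (.node (.leaf [0, 55, 399, 409, 451, 467])
  (.leaf [0, 57, 194, 206, 259, 542])
 ) (.node (.leaf [0, 59, 104, 397, 490, 512])
  (.leaf [0, 60, 220, 304, 335, 566])
 )) (.node (.node (.leaf [0, 62, 185, 252, 368, 489])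
  (.leaf [0, 63, 69, 119, 258, 458])
 ) (.node (.leaf [0, 64, 250, 298, 362, 503])
  (.leaf [0, 65, 86, 227, 404, 581])
 )))))

def t591_1 : BT :=
  (.node (.node (.node (.node (.node (.leaf [0, 67, 144, 357, 370, 533])
  (.leaf [0, 68, 235, 350, 375, 540])
 ) (.node (.leaf [0, 70, 140, 288, 514, 590])
  (.leaf [0, 71, 191, 385, 445, 564])
 )) (.node (.node (.leaf [0, 72, 131, 215, 245, 457])
  (.leaf [0, 73, 243, 364, 382, 493])
 ) (.node (.leaf [0, 74, 177, 434, 495, 558])
  (.leaf [0, 75, 262, 315, 367, 486])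
 ))) (.node (.node (.node (.leaf [0, 76, 106, 230, 254, 498])
  (.leaf [0, 77, 173, 186, 310, 517])
 ) (.node (.leaf [0, 78, 80, 88, 89, 94])
  (.leaf [0, 79, 302, 383, 427, 466])
 )) (.node (.node (.leaf [0, 81, 319, 444, 450, 532])
  (.leaf [0, 82, 127, 380, 459, 524])
 ) (.node (.leaf [0, 83, 329, 464, 470, 545])
  (.leaf [0, 84, 317, 430, 519, 563])
 )))) (.node (.node (.node (.node (.leaf [0, 85, 172, 360, 416, 461])
  (.leaf [0, 87, 289, 365, 428, 472])
 ) (.node (.leaf [0, 91, 130, 311, 431, 575])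
  (.leaf [0, 92, 167, 333, 453, 544])
 )) (.node (.node (.leaf [0, 93, 152, 188, 468, 477])
  (.leaf [0, 95, 199, 347, 403, 571])
 ) (.node (.leaf [0, 96, 143, 176, 207, 222])
  (.leaf [0, 97, 170, 371, 497, 584])
 ))) (.node (.node (.node (.leaf [0, 99, 285, 321, 336, 354])
  (.leaf [0, 101, 256, 279, 359, 576])
 ) (.node (.leaf [0, 102, 276, 381, 393, 423])
  (.leaf [0, 103, 139, 160, 499, 553])
 )) (.node (.node (.leaf [0, 105, 156, 159, 340, 538])
  (.leaf [0, 107, 149, 184, 238, 456])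
 ) (.node (.leaf [0, 108, 126, 178, 415, 485])
  (.leaf [0, 109, 134, 180, 223, 483])
 )))))

def t591_2 : BT :=
  (.node (.node (.node (.node (.node (.leaf [0, 110, 203, 290, 426, 527])
  (.leaf [0, 112, 294, 346, 376, 417])
 ) (.node (.leaf [0, 113, 209, 331, 448, 484])
  (.leaf [0, 115, 266, 326, 402, 508])
 )) (.node (.node (.leaf [0, 117, 181, 244, 410, 520])
  (.leaf [0, 120, 272, 366, 481, 567])
 ) (.node (.leaf [0, 123, 132, 270, 418, 541])
  (.leaf [0, 124, 202, 242, 301, 356])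
 ))) (.node (.node (.node (.leaf [0, 125, 219, 231, 267, 455])
  (.leaf [0, 128, 299, 506, 543, 586])
 ) (.node (.leaf [0, 133, 348, 421, 432, 471])
  (.leaf [0, 135, 217, 373, 487, 559])
 )) (.node (.node (.leaf [0, 137, 401, 412, 552, 554])
  (.leaf [0, 141, 216, 263, 388, 438])
 ) (.node (.leaf [0, 148, 204, 343, 392, 480])
  (.leaf [0, 150, 221, 349, 440, 537])
 )))) (.node (.node (.node (.node (.leaf [0, 153, 187, 239, 278, 328])
  (.leaf [0, 154, 224, 261, 334, 462])
 ) (.node (.leaf [0, 155, 201, 214, 284, 507])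
  (.leaf [0, 157, 260, 386, 447, 546])
 )) (.node (.node (.leaf [0, 158, 225, 446, 479, 513])
  (.leaf [0, 162, 198, 345, 355, 585])
 ) (.node (.leaf [0, 164, 248, 295, 406, 465])
  (.leaf [0, 168, 257, 274, 327, 555])
 ))) (.node (.node (.node (.leaf [0, 171, 378, 429, 539, 574])
  (.leaf [0, 174, 192, 264, 394, 511])
 ) (.node (.leaf [0, 175, 255, 384, 411, 509])
  (.leaf [0, 183, 280, 313, 400, 460])
 )) (.node (.node (.leaf [0, 189, 228, 271, 414, 522])
  (.leaf [0, 190, 277, 387, 391, 516])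
 ) (.node (.leaf [0, 195, 308, 390, 505, 561])
  (.leaf [0, 196, 246, 287, 332, 570])
 )))))

def t591_3 : BT :=
  (.node (.node (.node (.node (.node (.leaf [0, 208, 265, 437, 504, 510])
  (.leaf [0, 212, 247, 344, 408, 492])
 ) (.node (.leaf [0, 226, 293, 339, 420, 482])
  (.leaf [0, 236, 297, 341, 525, 562])
 )) (.node (.node (.leaf [0, 240, 303, 312, 324, 551])
  (.leaf [0, 249, 309, 528, 534, 548])
 ) (.node (.leaf [0, 291, 441, 452, 473, 475])
  (.leaf [0, 379, 405, 435, 536, 572])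
 ))) (.node (.node (.node (.leaf [0, 478, 501, 529, 568, 578])
  (.leaf [39, 40, 81, 278, 303, 325])
 ) (.node (.leaf [39, 41, 51, 58, 62, 487])
  (.leaf [39, 42, 105, 170, 240, 464])
 )) (.node (.node (.leaf [39, 44, 112, 136, 144, 361])
  (.leaf [39, 48, 301, 410, 539, 558])
 ) (.node (.leaf [39, 52, 252, 411, 449, 574])
  (.leaf [39, 53, 166, 374, 515, 516])
 )))) (.node (.node (.node (.node (.leaf [39, 54, 323, 364, 395, 579])
  (.leaf [39, 78, 138, 193, 420, 538])
 ) (.node (.leaf [39, 79, 103, 216, 327, 519])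
  (.leaf [39, 82, 160, 235, 455, 527])
 )) (.node (.node (.leaf [39, 85, 98, 129, 274, 507])
  (.leaf [39, 86, 177, 246, 304, 453])
 ) (.node (.leaf [39, 87, 185, 262, 465, 481])
  (.leaf [39, 88, 171, 328, 357, 586])
 ))) (.node (.node (.node (.leaf [39, 89, 229, 271, 349, 528])
  (.leaf [39, 90, 172, 212, 257, 425])
 ) (.node (.leaf [39, 91, 236, 289, 444, 557])
  (.leaf [39, 94, 106, 405, 474, 537])
 )) (.node (.node (.leaf [39, 95, 254, 378, 514, 546])
  (.leaf [39, 96, 122, 215, 307, 447])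
 ) (.node (.leaf [39, 97, 153, 340, 459, 496])
  (.leaf [39, 100, 123, 249, 345, 414])
 )))))

def t591_4 : BT :=
  (.node (.node (.node (.node (.node (.leaf [39, 104, 126, 250, 423, 502])
  (.leaf [39, 109, 363, 409, 491, 508])
 ) (.node (.leaf [39, 110, 309, 382, 473, 512])
  (.leaf [39, 113, 182, 230, 457, 573])
 )) (.node (.node (.leaf [39, 114, 169, 424, 480, 521])
  (.leaf [39, 116, 158, 310, 495, 548])
 ) (.node (.leaf [39, 117, 173, 228, 404, 568])
  (.leaf [39, 118, 183, 233, 336, 394])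
 ))) (.node (.node (.node (.leaf [39, 120, 294, 326, 377, 430])
  (.leaf [39, 121, 442, 471, 517, 526])
 ) (.node (.leaf [39, 124, 163, 207, 331, 334])
  (.leaf [39, 125, 217, 358, 427, 509])
 )) (.node (.node (.leaf [39, 130, 184, 231, 397, 403])
  (.leaf [39, 132, 261, 298, 534, 585])
 ) (.node (.leaf [39, 133, 253, 263, 553, 576])
  (.leaf [39, 140, 341, 380, 462, 486])
 )))) (.node (.node (.node (.node (.leaf [39, 141, 147, 275, 492, 583])
  (.leaf [39, 142, 335, 437, 484, 532])
 ) (.node (.leaf [39, 143, 161, 203, 258, 396])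
  (.leaf [39, 149, 319, 386, 418, 570])
 )) (.node (.node (.leaf [39, 150, 188, 287, 479, 582])
  (.leaf [39, 151, 316, 337, 466, 477])
 ) (.node (.leaf [39, 152, 372, 412, 429, 559])
  (.leaf [39, 154, 164, 223, 432, 488])
 ))) (.node (.node (.node (.leaf [39, 156, 180, 213, 299, 371])
  (.leaf [39, 157, 226, 290, 375, 456])
 ) (.node (.leaf [39, 165, 192, 281, 501, 580])
  (.leaf [39, 168, 244, 415, 439, 542])
 )) (.node (.node (.leaf [39, 175, 280, 329, 476, 535])
  (.leaf [39, 189, 297, 322, 497, 563])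
 ) (.node (.leaf [39, 190, 291, 346, 413, 460])
  (.leaf [39, 195, 197, 205, 206, 211])
 )))))

def t591_5 : BT :=
  (.node (.node (.node (.node (.node (.leaf [39, 196, 242, 317, 536, 552])
  (.leaf [39, 202, 270, 333, 367, 547])
 ) (.node (.leaf [39, 204, 243, 338, 445, 523])
  (.leaf [39, 208, 286, 390, 545, 556])
 )) (.node (.node (.leaf [39, 210, 308, 383, 441, 450])
  (.leaf [39, 214, 344, 365, 399, 431])
 ) (.node (.leaf [39, 218, 332, 391, 490, 513])
  (.leaf [39, 219, 238, 247, 315, 510])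
 ))) (.node (.node (.node (.leaf [39, 220, 295, 355, 407, 433])
  (.leaf [39, 224, 305, 379, 472, 581])
 ) (.node (.leaf [39, 225, 269, 282, 373, 458])
  (.leaf [39, 255, 266, 293, 406, 408])
 )) (.node (.node (.leaf [39, 260, 359, 482, 529, 551])
  (.leaf [39, 276, 339, 421, 454, 506])
 ) (.node (.leaf [39, 320, 352, 400, 494, 572])
  (.leaf [39, 446, 448, 525, 566, 577])
 )))) (.node (.node (.node (.node (.leaf [78, 81, 121, 184, 284, 362])
  (.leaf [78, 82, 367, 384, 438, 479])
 ) (.node (.leaf [78, 85, 203, 223, 421, 467])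
  (.leaf [78, 95, 163, 167, 412, 572])
 )) (.node (.node (.leaf [78, 96, 154, 305, 448, 550])
  (.leaf [78, 97, 314, 346, 505, 578])
 ) (.node (.leaf [78, 119, 177, 342, 403, 506])
  (.leaf [78, 124, 212, 337, 373, 587])
 ))) (.node (.node (.node (.leaf [78, 126, 285, 320, 537, 564])
  (.leaf [78, 127, 128, 208, 508, 522])
 ) (.node (.leaf [78, 129, 144, 261, 349, 406])
  (.leaf [78, 130, 358, 391, 444, 544])
 )) (.node (.node (.leaf [78, 132, 269, 340, 402, 443])
  (.leaf [78, 133, 249, 282, 336, 401])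
 ) (.node (.leaf [78, 145, 256, 374, 514, 574])
  (.leaf [78, 146, 207, 258, 308, 473])
 )))))

def t591_6 : BT :=
  (.node (.node (.node (.node (.node (.leaf [78, 147, 178, 244, 329, 547])
  (.leaf [78, 150, 290, 347, 453, 581])
 ) (.node (.leaf [78, 151, 209, 304, 464, 579])
  (.leaf [78, 152, 271, 436, 545, 575])
 )) (.node (.node (.leaf [78, 155, 166, 247, 273, 377])
  (.leaf [78, 157, 225, 369, 542, 589])
 ) (.node (.leaf [78, 162, 199, 332, 548, 561])
  (.leaf [78, 164, 274, 279, 527, 535])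
 ))) (.node (.node (.node (.leaf [78, 170, 345, 368, 469, 495])
  (.leaf [78, 175, 198, 360, 405, 418])
 ) (.node (.leaf [78, 179, 240, 446, 471, 489])
  (.leaf [78, 183, 232, 278, 344, 588])
 )) (.node (.node (.leaf [78, 191, 226, 343, 378, 590])
  (.leaf [78, 201, 309, 379, 407, 484])
 ) (.node (.leaf [78, 205, 264, 487, 558, 570])
  (.leaf [78, 220, 246, 286, 310, 481])
 )))) (.node (.node (.node (.node (.leaf [78, 222, 294, 423, 512, 566])
  (.leaf [78, 224, 331, 355, 432, 458])
 ) (.node (.leaf [78, 227, 250, 307, 365, 433])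
  (.leaf [78, 229, 251, 283, 498, 563])
 )) (.node (.node (.leaf [78, 233, 254, 288, 482, 515])
  (.leaf [78, 234, 235, 239, 242, 259])
 ) (.node (.leaf [78, 236, 317, 383, 500, 531])
  (.leaf [78, 241, 354, 415, 528, 576])
 ))) (.node (.node (.node (.leaf [78, 243, 325, 400, 435, 462])
  (.leaf [78, 255, 387, 507, 543, 569])
 ) (.node (.leaf [78, 257, 302, 398, 490, 532])
  (.leaf [78, 267, 351, 390, 411, 560])
 )) (.node (.node (.leaf [78, 348, 370, 442, 541, 584])
  (.leaf [78, 393, 450, 468, 582, 585])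
 ) (.node (.leaf [117, 119, 129, 136, 140, 460])
  (.leaf [117, 120, 222, 365, 474, 550])
 )))))

def t591_7 : BT :=
  (.node (.node (.node (.node (.node (.leaf [117, 122, 229, 292, 300, 334])
  (.leaf [117, 130, 265, 428, 486, 574])
 ) (.node (.leaf [117, 157, 310, 359, 461, 557])
  (.leaf [117, 158, 313, 396, 445, 539])
 )) (.node (.node (.leaf [117, 159, 346, 503, 516, 583])
  (.leaf [117, 160, 348, 352, 524, 581])
 ) (.node (.leaf [117, 162, 258, 273, 368, 422])
  (.leaf [117, 164, 230, 377, 427, 582])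
 ))) (.node (.node (.node (.leaf [117, 165, 251, 257, 286, 379])
  (.leaf [117, 168, 170, 178, 179, 184])
 ) (.node (.leaf [117, 176, 250, 299, 356, 492])
  (.leaf [117, 183, 317, 542, 566, 575])
 )) (.node (.node (.leaf [117, 185, 207, 240, 367, 491])
  (.leaf [117, 186, 344, 351, 375, 533])
 ) (.node (.leaf [117, 188, 213, 278, 541, 572])
  (.leaf [117, 193, 261, 328, 529, 558])
 )))) (.node (.node (.node (.node (.leaf [117, 203, 372, 480, 538, 578])
  (.leaf [117, 204, 380, 454, 496, 551])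
 ) (.node (.leaf [117, 208, 411, 470, 523, 569])
  (.leaf [117, 221, 238, 282, 436, 484])
 )) (.node (.node (.leaf [117, 233, 353, 402, 429, 544])
  (.leaf [117, 260, 262, 489, 500, 527])
 ) (.node (.leaf [117, 266, 308, 345, 413, 554])
  (.leaf [117, 289, 391, 407, 487, 497])
 ))) (.node (.node (.node (.leaf [117, 297, 303, 398, 465, 509])
  (.leaf [117, 306, 383, 397, 452, 521])
 ) (.node (.leaf [117, 360, 387, 395, 435, 515])
  (.leaf [156, 163, 359, 379, 395, 497])
 )) (.node (.node (.leaf [156, 173, 268, 319, 323, 488])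
  (.leaf [156, 175, 201, 233, 235, 552])
 ) (.node (.leaf [156, 197, 456, 482, 507, 522])
  (.leaf [156, 208, 281, 407, 512, 563])
 )))))

def t591_8 : BT :=
  (.node (.node (.node (.node (.node (.leaf [156, 210, 278, 461, 468, 518])
  (.leaf [156, 212, 390, 402, 438, 476])
 ) (.node (.leaf [156, 216, 243, 334, 439, 525])
  (.leaf [156, 219, 244, 257, 318, 355])
 )) (.node (.node (.leaf [156, 227, 410, 464, 478, 510])
  (.leaf [156, 229, 333, 479, 536, 553])
 ) (.node (.leaf [156, 234, 304, 342, 351, 428])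
  (.leaf [156, 239, 417, 469, 554, 587])
 ))) (.node (.node (.node (.leaf [156, 254, 266, 361, 459, 573])
  (.leaf [156, 273, 276, 338, 404, 447])
 ) (.node (.leaf [156, 274, 458, 473, 517, 562])
  (.leaf [156, 288, 316, 356, 440, 489])
 )) (.node (.node (.leaf [156, 291, 332, 423, 448, 558])
  (.leaf [156, 335, 413, 435, 557, 575])
 ) (.node (.leaf [156, 429, 430, 434, 437, 454])
  (.leaf [195, 198, 277, 335, 379, 518])
 )))) (.node (.node (.node (.node (.leaf [195, 199, 318, 340, 452, 563])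
  (.leaf [195, 212, 266, 358, 362, 426])
 ) (.node (.leaf [195, 213, 310, 404, 539, 573])
  (.leaf [195, 244, 265, 324, 414, 501])
 )) (.node (.node (.leaf [195, 247, 397, 441, 575, 586])
  (.leaf [195, 311, 350, 361, 481, 507])
 ) (.node (.leaf [195, 374, 444, 462, 474, 571])
  (.leaf [195, 468, 469, 473, 476, 493])
 ))) (.node (.node (.node (.leaf [234, 250, 301, 449, 459, 512])
  (.leaf [234, 277, 303, 419, 450, 490])
 ) (.node (.leaf [234, 309, 338, 354, 489, 543])
  (.leaf [234, 317, 337, 375, 382, 455])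
 )) (.node (.node (.leaf [234, 335, 457, 477, 578, 589])
  (.leaf [234, 353, 410, 444, 475, 588])
 ) (.node (.leaf [234, 427, 464, 499, 581, 590])
  (.leaf [234, 463, 468, 511, 537, 575])
 )))))

def t591_9 : BT :=
  (.node (.node (.node (.leaf [273, 275, 285, 292, 296, 546])
  (.leaf [273, 313, 360, 485, 491, 520])
 ) (.node (.leaf [273, 329, 371, 465, 484, 533])
  (.node (.leaf [273, 332, 352, 411, 544, 547])
  (.leaf [273, 363, 365, 373, 374, 379])
 ))) (.node (.node (.leaf [312, 313, 318, 341, 343, 512])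
  (.leaf [312, 368, 405, 478, 505, 562])
 ) (.node (.leaf [312, 396, 397, 401, 404, 421])
  (.node (.leaf [351, 554, 555, 559, 562, 579])
  (.leaf [390, 509, 516, 520, 536, 538])
 ))))

def full591 : BT :=
  (.node (.node (.node t591_0 t591_1) (.node t591_2 (.node t591_3 t591_4))) (.node (.node t591_5 t591_6) (.node t591_7 (.node t591_8 t591_9))))

def short591 : List (List ℕ × List ℕ) :=
  [([0], [585, 586, 587, 588, 589, 590])]

theorem ex591 : ∃ 𝓑 : Set (Finset (Fin 591)), IsS2 (Fin 591) 6 𝓑 :=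
  of_codedT (codedZ 39) 6 15 6 591 rfl full591 short591
    (by decide +kernel) (by decide +kernel) (by decide +kernel) (by decide +kernel)
    (by decide +kernel) (by decide +kernel)

end Pool.Agent.TH848.KM
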