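import Pool.Agent.TH848.KM.Tree

/-!
A Steiner system `S(2,6,616)`: 3 copies of an abelian group of order 205 and 1 fixed points.
-/

set_option autoImplicit false
set_option maxRecDepth 100000

namespace Pool.Agent.TH848.KM

open Pool.Agent.H816R2.KM2

def t616_0 : BT :=
  (.node (.node (.node (.node (.node (.leaf [0, 1, 112, 133, 235, 578])
  (.leaf [0, 2, 11, 59, 372, 549])
 ) (.node (.leaf [0, 3, 89, 166, 394, 610])
  (.leaf [0, 4, 87, 171, 225, 561])
 )) (.node (.node (.leaf [0, 5, 292, 407, 496, 591])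
  (.leaf [0, 6, 253, 285, 486, 558])
 ) (.node (.leaf [0, 7, 98, 141, 258, 510])
  (.leaf [0, 8, 169, 182, 296, 476])
 ))) (.node (.node (.node (.leaf [0, 10, 425, 426, 461, 585])
  (.leaf [0, 12, 66, 168, 212, 441])
 ) (.node (.leaf [0, 14, 246, 389, 533, 570])
  (.leaf [0, 15, 237, 267, 293, 446])
 )) (.node (.node (.leaf [0, 16, 78, 152, 277, 436])
  (.leaf [0, 17, 75, 207, 357, 599])
 ) (.node (.leaf [0, 18, 51, 177, 334, 419])
  (.leaf [0, 19, 248, 281, 513, 536])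
 )))) (.node (.node (.node (.node (.leaf [0, 20, 218, 373, 495, 525])
  (.leaf [0, 22, 85, 290, 325, 481])
 ) (.node (.leaf [0, 24, 250, 378, 456, 539])
  (.leaf [0, 25, 423, 438, 487, 497])
 )) (.node (.node (.leaf [0, 26, 336, 338, 453, 560])
  (.leaf [0, 27, 95, 223, 238, 568])
 ) (.node (.leaf [0, 29, 61, 153, 243, 411])
  (.leaf [0, 30, 97, 209, 269, 597])
 ))) (.node (.node (.node (.leaf [0, 35, 309, 379, 385, 579])
  (.leaf [0, 40, 450, 569, 590, 594])
 ) (.node (.leaf [0, 45, 454, 493, 509, 593])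
  (.leaf [0, 47, 135, 341, 406, 465])
 )) (.node (.node (.leaf [0, 50, 291, 371, 467, 542])
  (.leaf [0, 55, 272, 286, 381, 507])
 ) (.node (.leaf [0, 56, 233, 276, 440, 588])
  (.leaf [0, 60, 254, 273, 358, 530])
 )))))

def t616_1 : BT :=
  (.node (.node (.node (.node (.leaf [0, 65, 236, 260, 335, 553])
  (.node (.leaf [0, 76, 245, 318, 483, 596])
  (.leaf [0, 80, 364, 369, 439, 559])
 )) (.node (.node (.leaf [0, 90, 300, 320, 428, 498])
  (.leaf [0, 96, 257, 360, 526, 604])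
 ) (.node (.leaf [0, 99, 280, 398, 421, 584])
  (.leaf [0, 100, 457, 571, 602, 611])
 ))) (.node (.node (.leaf [0, 101, 219, 227, 424, 442])
  (.node (.leaf [0, 208, 355, 506, 518, 540])
  (.leaf [0, 215, 301, 308, 339, 367])
 )) (.node (.node (.leaf [0, 216, 347, 396, 516, 566])
  (.leaf [0, 224, 383, 393, 449, 469])
 ) (.node (.leaf [0, 244, 265, 409, 458, 583])
  (.leaf [0, 255, 352, 443, 501, 514])
 )))) (.node (.node (.node (.leaf [0, 256, 324, 414, 565, 572])
  (.node (.leaf [0, 263, 311, 314, 315, 327])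
  (.leaf [0, 266, 408, 433, 477, 545])
 )) (.node (.node (.leaf [0, 275, 342, 581, 598, 609])
  (.leaf [0, 297, 388, 397, 600, 605])
 ) (.node (.leaf [0, 302, 349, 484, 522, 551])
  (.leaf [0, 304, 392, 434, 437, 531])
 ))) (.node (.node (.node (.leaf [0, 306, 345, 390, 422, 537])
  (.leaf [0, 329, 356, 435, 504, 592])
 ) (.node (.leaf [0, 346, 368, 455, 482, 608])
  (.leaf [0, 363, 380, 460, 523, 576])
 )) (.node (.node (.leaf [205, 216, 234, 288, 332, 531])
  (.leaf [205, 228, 297, 339, 376, 565])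
 ) (.node (.leaf [205, 415, 458, 477, 491, 564])
  (.leaf [205, 439, 463, 465, 471, 567])
 )))))

def full616 : BT :=
  (.node t616_0 t616_1)

def short616 : List (List ℕ × List ℕ) :=
  [([0, 1, 2, 3, 4, 5, 6, 7, 8, 9, 10, 11, 12, 13, 14, 15, 16, 17, 18, 19, 20, 21, 22, 23, 24, 25, 26, 27, 28, 29, 30, 31, 32, 33, 34, 35, 36, 37, 38, 39, 40], [0, 41, 82, 123, 164, 615]),
   ([0, 1, 2, 3, 4, 5, 6, 7, 8, 9, 10, 11, 12, 13, 14, 15, 16, 17, 18, 19, 20, 21, 22, 23, 24, 25, 26, 27, 28, 29, 30, 31, 32, 33, 34, 35, 36, 37, 38, 39, 40], [205, 246, 287, 328, 369, 615]),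
   ([0, 1, 2, 3, 4, 5, 6, 7, 8, 9, 10, 11, 12, 13, 14, 15, 16, 17, 18, 19, 20, 21, 22, 23, 24, 25, 26, 27, 28, 29, 30, 31, 32, 33, 34, 35, 36, 37, 38, 39, 40], [410, 451, 492, 533, 574, 615])]

theorem ex616 : ∃ 𝓑 : Set (Finset (Fin 616)), IsS2 (Fin 616) 6 𝓑 :=
  of_codedT (codedZ 205) 6 3 1 616 rfl full616 short616
    (by decide +kernel) (by decide +kernel) (by decide +kernel) (by decide +kernel)
    (by decide +kernel) (by decide +kernel)

end Pool.Agent.TH848.KM
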