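import Pool.Agent.TH848.KM.Tree

/-!
A Steiner system `S(2,6,651)`: 50 copies of an abelian group of order 13 and 1 fixed points.
-/

set_option autoImplicit false
set_option maxRecDepth 100000

namespace Pool.Agent.TH848.KM

open Pool.Agent.H816R2.KM2

def t651_0 : BT :=
  (.node (.node (.node (.node (.node (.leaf [0, 1, 5, 28, 248, 637])
  (.leaf [0, 2, 123, 333, 417, 611])
 ) (.node (.leaf [0, 3, 52, 92, 506, 543])
  (.leaf [0, 6, 64, 118, 299, 482])
 )) (.node (.node (.leaf [0, 13, 199, 322, 620, 633])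
  (.leaf [0, 14, 169, 377, 476, 487])
 ) (.node (.leaf [0, 15, 162, 240, 387, 600])
  (.leaf [0, 16, 348, 509, 548, 554])
 ))) (.node (.node (.node (.leaf [0, 17, 99, 326, 464, 570])
  (.leaf [0, 18, 383, 424, 466, 587])
 ) (.node (.leaf [0, 19, 129, 188, 201, 531])
  (.leaf [0, 20, 88, 104, 109, 530])
 )) (.node (.node (.leaf [0, 21, 32, 66, 290, 358])
  (.leaf [0, 22, 93, 239, 412, 484])
 ) (.node (.leaf [0, 23, 60, 252, 279, 405])
  (.leaf [0, 24, 131, 445, 468, 634])
 )))) (.node (.node (.node (.node (.leaf [0, 25, 47, 154, 433, 498])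
  (.leaf [0, 26, 142, 189, 214, 638])
 ) (.node (.leaf [0, 29, 89, 206, 342, 532])
  (.leaf [0, 30, 127, 309, 414, 640])
 )) (.node (.node (.leaf [0, 31, 191, 205, 356, 581])
  (.leaf [0, 33, 293, 311, 395, 614])
 ) (.node (.leaf [0, 34, 42, 211, 220, 385])
  (.leaf [0, 35, 186, 408, 486, 559])
 ))) (.node (.node (.node (.leaf [0, 37, 332, 352, 454, 629])
  (.leaf [0, 38, 94, 388, 429, 534])
 ) (.node (.leaf [0, 39, 135, 187, 609, 632])
  (.leaf [0, 40, 268, 527, 542, 604])
 )) (.node (.node (.leaf [0, 41, 128, 198, 472, 502])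
  (.leaf [0, 43, 228, 242, 409, 616])
 ) (.node (.leaf [0, 44, 423, 517, 574, 584])
  (.leaf [0, 45, 84, 227, 471, 523])
 )))))

def t651_1 : BT :=
  (.node (.node (.node (.node (.node (.leaf [0, 46, 71, 110, 302, 321])
  (.leaf [0, 48, 103, 159, 339, 453])
 ) (.node (.leaf [0, 49, 55, 133, 325, 386])
  (.leaf [0, 50, 197, 415, 462, 556])
 )) (.node (.node (.leaf [0, 51, 119, 225, 288, 592])
  (.leaf [0, 53, 208, 218, 501, 597])
 ) (.node (.leaf [0, 54, 221, 269, 379, 566])
  (.leaf [0, 56, 296, 521, 528, 639])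
 ))) (.node (.node (.node (.leaf [0, 57, 137, 347, 555, 631])
  (.leaf [0, 59, 274, 281, 446, 608])
 ) (.node (.leaf [0, 61, 344, 524, 536, 569])
  (.leaf [0, 63, 273, 353, 516, 544])
 )) (.node (.node (.leaf [0, 65, 179, 241, 449, 563])
  (.leaf [0, 67, 215, 351, 492, 602])
 ) (.node (.leaf [0, 68, 80, 249, 406, 432])
  (.leaf [0, 69, 285, 294, 550, 595])
 )))) (.node (.node (.node (.node (.leaf [0, 70, 75, 107, 488, 612])
  (.leaf [0, 72, 106, 234, 474, 512])
 ) (.node (.leaf [0, 73, 175, 372, 568, 577])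
  (.leaf [0, 74, 138, 381, 522, 596])
 )) (.node (.node (.leaf [0, 76, 101, 145, 194, 458])
  (.leaf [0, 77, 81, 98, 278, 582])
 ) (.node (.leaf [0, 78, 392, 496, 499, 515])
  (.leaf [0, 79, 139, 243, 257, 363])
 ))) (.node (.node (.node (.leaf [0, 82, 181, 264, 399, 513])
  (.leaf [0, 83, 310, 340, 369, 382])
 ) (.node (.leaf [0, 85, 90, 210, 463, 605])
  (.leaf [0, 86, 402, 500, 507, 642])
 )) (.node (.node (.leaf [0, 87, 229, 327, 456, 601])
  (.leaf [0, 91, 204, 465, 533, 630])
 ) (.node (.leaf [0, 95, 305, 343, 480, 547])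
  (.leaf [0, 96, 272, 367, 419, 448])
 )))))

def t651_2 : BT :=
  (.node (.node (.node (.node (.node (.leaf [0, 97, 157, 168, 303, 370])
  (.leaf [0, 100, 255, 289, 378, 511])
 ) (.node (.leaf [0, 105, 146, 280, 376, 576])
  (.leaf [0, 108, 217, 275, 391, 403])
 )) (.node (.node (.leaf [0, 111, 222, 230, 541, 646])
  (.leaf [0, 112, 116, 130, 185, 470])
 ) (.node (.leaf [0, 113, 223, 426, 479, 575])
  (.leaf [0, 114, 398, 418, 562, 586])
 ))) (.node (.node (.node (.leaf [0, 115, 190, 345, 349, 627])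
  (.leaf [0, 117, 212, 518, 549, 565])
 ) (.node (.leaf [0, 120, 324, 435, 436, 591])
  (.leaf [0, 122, 261, 319, 397, 606])
 )) (.node (.node (.leaf [0, 124, 155, 284, 316, 447])
  (.leaf [0, 126, 219, 508, 557, 650])
 ) (.node (.leaf [0, 132, 167, 444, 553, 624])
  (.leaf [0, 134, 384, 505, 615, 625])
 )))) (.node (.node (.node (.node (.leaf [0, 136, 144, 202, 267, 396])
  (.leaf [0, 140, 152, 375, 626, 643])
 ) (.node (.leaf [0, 141, 158, 346, 494, 593])
  (.leaf [0, 143, 237, 411, 438, 636])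
 )) (.node (.node (.leaf [0, 147, 266, 308, 560, 579])
  (.leaf [0, 148, 413, 545, 558, 588])
 ) (.node (.leaf [0, 149, 178, 192, 195, 648])
  (.leaf [0, 150, 265, 312, 450, 644])
 ))) (.node (.node (.node (.leaf [0, 151, 200, 315, 442, 590])
  (.leaf [0, 153, 287, 341, 421, 552])
 ) (.node (.leaf [0, 156, 334, 350, 359, 618])
  (.leaf [0, 160, 519, 526, 589, 635])
 )) (.node (.node (.leaf [0, 161, 232, 452, 514, 520])
  (.leaf [0, 163, 216, 298, 455, 477])
 ) (.node (.leaf [0, 164, 263, 427, 437, 572])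
  (.leaf [0, 165, 166, 271, 613, 641])
 )))))

def t651_3 : BT :=
  (.node (.node (.node (.node (.node (.leaf [0, 170, 231, 374, 473, 481])
  (.leaf [0, 171, 323, 380, 422, 607])
 ) (.node (.leaf [0, 172, 174, 291, 318, 361])
  (.leaf [0, 173, 251, 258, 259, 623])
 )) (.node (.node (.leaf [0, 176, 193, 328, 441, 475])
  (.leaf [0, 177, 238, 434, 461, 551])
 ) (.node (.leaf [0, 180, 338, 416, 583, 621])
  (.leaf [0, 182, 485, 491, 585, 603])
 ))) (.node (.node (.node (.leaf [0, 183, 207, 235, 262, 313])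
  (.leaf [0, 184, 244, 354, 459, 497])
 ) (.node (.leaf [0, 196, 355, 529, 535, 546])
  (.leaf [0, 203, 337, 537, 539, 567])
 )) (.node (.node (.leaf [0, 209, 233, 336, 360, 394])
  (.leaf [0, 213, 250, 439, 467, 628])
 ) (.node (.leaf [0, 224, 253, 307, 404, 493])
  (.leaf [0, 226, 301, 362, 410, 478])
 )))) (.node (.node (.node (.node (.leaf [0, 236, 277, 330, 364, 371])
  (.leaf [0, 245, 283, 389, 425, 431])
 ) (.node (.leaf [0, 246, 297, 320, 400, 483])
  (.leaf [0, 254, 295, 304, 365, 420])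
 )) (.node (.node (.leaf [0, 260, 276, 300, 314, 457])
  (.leaf [0, 270, 366, 460, 598, 610])
 ) (.node (.leaf [0, 282, 401, 580, 594, 619])
  (.leaf [0, 286, 335, 443, 490, 538])
 ))) (.node (.node (.node (.leaf [0, 292, 329, 440, 564, 647])
  (.leaf [0, 317, 510, 561, 573, 578])
 ) (.node (.leaf [0, 357, 368, 407, 430, 504])
  (.leaf [0, 373, 393, 469, 571, 599])
 )) (.node (.node (.leaf [0, 390, 451, 495, 525, 617])
  (.leaf [13, 14, 129, 237, 429, 540])
 ) (.node (.leaf [13, 15, 23, 82, 366, 646])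
  (.leaf [13, 17, 185, 246, 507, 585])
 )))))

def t651_4 : BT :=
  (.node (.node (.node (.node (.node (.leaf [13, 19, 28, 117, 411, 449])
  (.leaf [13, 26, 96, 328, 442, 616])
 ) (.node (.leaf [13, 27, 154, 175, 230, 554])
  (.leaf [13, 29, 60, 184, 326, 583])
 )) (.node (.node (.leaf [13, 30, 57, 426, 467, 543])
  (.leaf [13, 31, 162, 346, 367, 522])
 ) (.node (.leaf [13, 32, 89, 247, 444, 529])
  (.leaf [13, 33, 152, 277, 323, 327])
 ))) (.node (.node (.node (.leaf [13, 34, 358, 440, 491, 561])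
  (.leaf [13, 36, 141, 298, 396, 511])
 ) (.node (.leaf [13, 38, 67, 76, 402, 436])
  (.leaf [13, 39, 47, 202, 318, 484])
 )) (.node (.node (.leaf [13, 40, 144, 348, 416, 492])
  (.leaf [13, 41, 381, 489, 512, 553])
 ) (.node (.leaf [13, 42, 150, 153, 538, 587])
  (.leaf [13, 43, 261, 509, 580, 599])
 )))) (.node (.node (.node (.node (.leaf [13, 44, 109, 224, 260, 462])
  (.leaf [13, 45, 315, 357, 362, 623])
 ) (.node (.leaf [13, 46, 49, 53, 176, 476])
  (.leaf [13, 50, 379, 382, 445, 638])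
 )) (.node (.node (.leaf [13, 51, 221, 279, 401, 555])
  (.leaf [13, 52, 99, 501, 590, 622])
 ) (.node (.leaf [13, 54, 299, 483, 520, 536])
  (.leaf [13, 55, 90, 145, 164, 209])
 ))) (.node (.node (.node (.leaf [13, 56, 77, 428, 527, 628])
  (.leaf [13, 58, 342, 355, 562, 563])
 ) (.node (.leaf [13, 59, 120, 232, 374, 466])
  (.leaf [13, 61, 204, 292, 493, 611])
 )) (.node (.node (.leaf [13, 62, 330, 508, 532, 601])
  (.leaf [13, 64, 103, 245, 324, 478])
 ) (.node (.leaf [13, 65, 187, 211, 359, 586])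
  (.leaf [13, 66, 107, 167, 334, 485])
 )))))

def t651_5 : BT :=
  (.node (.node (.node (.node (.node (.leaf [13, 68, 136, 250, 514, 547])
  (.leaf [13, 69, 198, 351, 413, 600])
 ) (.node (.leaf [13, 70, 72, 139, 589, 641])
  (.leaf [13, 73, 349, 468, 605, 613])
 )) (.node (.node (.leaf [13, 74, 206, 290, 560, 617])
  (.leaf [13, 75, 293, 339, 386, 469])
 ) (.node (.leaf [13, 78, 116, 200, 313, 648])
  (.leaf [13, 79, 157, 268, 439, 591])
 ))) (.node (.node (.node (.leaf [13, 83, 320, 459, 534, 574])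
  (.leaf [13, 84, 100, 178, 356, 480])
 ) (.node (.leaf [13, 86, 241, 435, 458, 639])
  (.leaf [13, 87, 183, 210, 297, 614])
 )) (.node (.node (.leaf [13, 88, 98, 218, 317, 552])
  (.leaf [13, 91, 285, 304, 319, 642])
 ) (.node (.leaf [13, 92, 131, 201, 270, 275])
  (.leaf [13, 93, 216, 446, 474, 559])
 )))) (.node (.node (.node (.node (.leaf [13, 94, 193, 450, 454, 577])
  (.leaf [13, 101, 276, 286, 500, 607])
 ) (.node (.leaf [13, 102, 134, 314, 418, 496])
  (.leaf [13, 104, 111, 119, 414, 608])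
 )) (.node (.node (.leaf [13, 105, 147, 208, 533, 632])
  (.leaf [13, 106, 191, 213, 266, 388])
 ) (.node (.leaf [13, 108, 170, 180, 337, 625])
  (.leaf [13, 112, 234, 347, 565, 573])
 ))) (.node (.node (.node (.leaf [13, 113, 239, 340, 568, 650])
  (.leaf [13, 114, 254, 332, 370, 612])
 ) (.node (.leaf [13, 118, 222, 223, 294, 631])
  (.leaf [13, 121, 135, 377, 524, 575])
 )) (.node (.node (.leaf [13, 122, 360, 448, 477, 581])
  (.leaf [13, 125, 163, 471, 472, 637])
 ) (.node (.leaf [13, 126, 212, 233, 343, 451])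
  (.leaf [13, 127, 203, 353, 564, 618])
 )))))

def t651_6 : BT :=
  (.node (.node (.node (.node (.node (.leaf [13, 130, 226, 325, 430, 498])
  (.leaf [13, 132, 244, 272, 495, 627])
 ) (.node (.leaf [13, 137, 331, 394, 624, 635])
  (.leaf [13, 138, 177, 263, 310, 350])
 )) (.node (.node (.leaf [13, 140, 274, 289, 494, 647])
  (.leaf [13, 142, 281, 433, 548, 576])
 ) (.node (.leaf [13, 143, 287, 306, 417, 582])
  (.leaf [13, 146, 311, 393, 557, 579])
 ))) (.node (.node (.node (.leaf [13, 148, 205, 473, 528, 606])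
  (.leaf [13, 149, 173, 253, 368, 455])
 ) (.node (.leaf [13, 151, 159, 231, 567, 604])
  (.leaf [13, 156, 189, 288, 452, 542])
 )) (.node (.node (.leaf [13, 158, 280, 354, 515, 571])
  (.leaf [13, 161, 365, 392, 438, 513])
 ) (.node (.leaf [13, 165, 265, 427, 497, 541])
  (.leaf [13, 166, 215, 305, 309, 506])
 )))) (.node (.node (.node (.node (.leaf [13, 168, 190, 256, 584, 640])
  (.leaf [13, 169, 262, 341, 404, 410])
 ) (.node (.leaf [13, 171, 207, 219, 371, 421])
  (.leaf [13, 172, 269, 338, 412, 643])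
 )) (.node (.node (.leaf [13, 174, 186, 336, 380, 630])
  (.leaf [13, 179, 352, 400, 437, 530])
 ) (.node (.leaf [13, 188, 258, 300, 321, 481])
  (.leaf [13, 192, 228, 390, 391, 420])
 ))) (.node (.node (.node (.leaf [13, 196, 278, 399, 621, 645])
  (.leaf [13, 197, 409, 521, 593, 619])
 ) (.node (.leaf [13, 214, 316, 329, 406, 423])
  (.leaf [13, 217, 387, 432, 463, 487])
 )) (.node (.node (.leaf [13, 220, 249, 398, 407, 457])
  (.leaf [13, 225, 267, 550, 588, 602])
 ) (.node (.leaf [13, 227, 251, 425, 510, 531])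
  (.leaf [13, 229, 235, 284, 296, 502])
 )))))

def t651_7 : BT :=
  (.node (.node (.node (.node (.node (.leaf [13, 240, 248, 259, 505, 609])
  (.leaf [13, 252, 273, 422, 465, 615])
 ) (.node (.leaf [13, 257, 302, 333, 424, 569])
  (.leaf [13, 264, 395, 482, 572, 626])
 )) (.node (.node (.leaf [13, 271, 291, 415, 479, 597])
  (.leaf [13, 283, 453, 456, 570, 603])
 ) (.node (.leaf [13, 301, 384, 397, 490, 537])
  (.leaf [13, 303, 503, 517, 526, 629])
 ))) (.node (.node (.node (.leaf [13, 307, 372, 373, 375, 596])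
  (.leaf [13, 308, 361, 518, 556, 592])
 ) (.node (.leaf [13, 312, 544, 545, 610, 634])
  (.leaf [13, 344, 504, 546, 549, 578])
 )) (.node (.node (.leaf [13, 376, 383, 431, 464, 535])
  (.leaf [26, 27, 37, 138, 347, 627])
 ) (.node (.leaf [26, 30, 46, 359, 404, 596])
  (.leaf [26, 31, 446, 476, 524, 546])
 )))) (.node (.node (.node (.node (.leaf [26, 32, 114, 335, 509, 533])
  (.leaf [26, 39, 313, 321, 365, 421])
 ) (.node (.leaf [26, 40, 100, 133, 384, 510])
  (.leaf [26, 41, 273, 415, 460, 589])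
 )) (.node (.node (.leaf [26, 43, 172, 221, 247, 512])
  (.leaf [26, 44, 144, 167, 197, 568])
 ) (.node (.leaf [26, 45, 121, 264, 345, 440])
  (.leaf [26, 48, 324, 366, 426, 644])
 ))) (.node (.node (.node (.leaf [26, 49, 112, 280, 382, 531])
  (.leaf [26, 50, 82, 373, 391, 418])
 ) (.node (.leaf [26, 51, 163, 300, 429, 496])
  (.leaf [26, 52, 231, 438, 495, 643])
 )) (.node (.node (.leaf [26, 54, 117, 427, 489, 494])
  (.leaf [26, 55, 81, 191, 289, 585])
 ) (.node (.leaf [26, 56, 201, 408, 502, 513])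
  (.leaf [26, 58, 162, 232, 405, 635])
 )))))

def t651_8 : BT :=
  (.node (.node (.node (.node (.node (.leaf [26, 59, 291, 296, 315, 551])
  (.leaf [26, 60, 176, 213, 299, 486])
 ) (.node (.leaf [26, 61, 116, 290, 488, 583])
  (.leaf [26, 62, 127, 411, 591, 604])
 )) (.node (.node (.leaf [26, 63, 101, 135, 202, 222])
  (.leaf [26, 64, 110, 175, 503, 570])
 ) (.node (.leaf [26, 65, 227, 275, 455, 637])
  (.leaf [26, 66, 120, 234, 449, 600])
 ))) (.node (.node (.node (.leaf [26, 67, 155, 268, 445, 519])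
  (.leaf [26, 69, 263, 357, 388, 400])
 ) (.node (.leaf [26, 70, 80, 518, 559, 617])
  (.leaf [26, 71, 169, 188, 211, 379])
 )) (.node (.node (.leaf [26, 72, 183, 215, 230, 425])
  (.leaf [26, 74, 198, 370, 435, 475])
 ) (.node (.leaf [26, 75, 250, 387, 448, 574])
  (.leaf [26, 76, 125, 278, 550, 603])
 )))) (.node (.node (.node (.node (.leaf [26, 78, 141, 330, 356, 537])
  (.leaf [26, 79, 181, 309, 423, 474])
 ) (.node (.leaf [26, 84, 98, 119, 205, 385])
  (.leaf [26, 85, 161, 258, 479, 618])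
 )) (.node (.node (.leaf [26, 87, 260, 285, 504, 562])
  (.leaf [26, 88, 158, 199, 450, 598])
 ) (.node (.leaf [26, 89, 182, 358, 417, 628])
  (.leaf [26, 90, 97, 180, 237, 522])
 ))) (.node (.node (.node (.leaf [26, 91, 272, 342, 466, 481])
  (.leaf [26, 92, 242, 326, 344, 601])
 ) (.node (.leaf [26, 93, 151, 319, 393, 556])
  (.leaf [26, 94, 298, 431, 528, 634])
 )) (.node (.node (.leaf [26, 99, 130, 295, 545, 587])
  (.leaf [26, 102, 109, 246, 256, 369])
 ) (.node (.leaf [26, 103, 164, 428, 558, 636])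
  (.leaf [26, 104, 293, 436, 555, 582])
 )))))

def t651_9 : BT :=
  (.node (.node (.node (.node (.node (.leaf [26, 105, 118, 277, 337, 613])
  (.leaf [26, 106, 124, 424, 552, 606])
 ) (.node (.leaf [26, 107, 177, 380, 406, 458])
  (.leaf [26, 111, 306, 308, 311, 605])
 )) (.node (.node (.leaf [26, 113, 165, 269, 467, 647])
  (.leaf [26, 115, 152, 381, 441, 526])
 ) (.node (.leaf [26, 122, 325, 491, 608, 633])
  (.leaf [26, 126, 132, 378, 607, 640])
 ))) (.node (.node (.node (.leaf [26, 129, 226, 487, 541, 622])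
  (.leaf [26, 134, 217, 433, 493, 595])
 ) (.node (.leaf [26, 136, 147, 407, 480, 543])
  (.leaf [26, 139, 249, 515, 525, 527])
 )) (.node (.node (.leaf [26, 143, 276, 498, 579, 632])
  (.leaf [26, 146, 267, 395, 477, 624])
 ) (.node (.leaf [26, 148, 159, 179, 310, 614])
  (.leaf [26, 149, 204, 209, 235, 302])
 )))) (.node (.node (.node (.node (.leaf [26, 150, 243, 332, 520, 646])
  (.leaf [26, 154, 398, 500, 578, 619])
 ) (.node (.leaf [26, 156, 251, 317, 565, 621])
  (.leaf [26, 160, 184, 301, 383, 453])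
 )) (.node (.node (.leaf [26, 166, 220, 252, 312, 462])
  (.leaf [26, 168, 386, 392, 482, 557])
 ) (.node (.leaf [26, 170, 270, 284, 376, 538])
  (.leaf [26, 171, 239, 331, 361, 464])
 ))) (.node (.node (.node (.leaf [26, 173, 459, 511, 611, 612])
  (.leaf [26, 178, 196, 266, 367, 434])
 ) (.node (.leaf [26, 185, 192, 364, 501, 567])
  (.leaf [26, 187, 224, 374, 452, 457])
 )) (.node (.node (.leaf [26, 193, 257, 439, 469, 575])
  (.leaf [26, 195, 274, 294, 350, 465])
 ) (.node (.leaf [26, 206, 282, 318, 353, 499])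
  (.leaf [26, 207, 241, 497, 599, 602])
 )))))

def t651_10 : BT :=
  (.node (.node (.node (.node (.node (.leaf [26, 208, 233, 236, 271, 548])
  (.leaf [26, 210, 348, 360, 444, 461])
 ) (.node (.leaf [26, 218, 265, 303, 534, 544])
  (.leaf [26, 219, 255, 287, 560, 584])
 )) (.node (.node (.leaf [26, 223, 248, 262, 416, 594])
  (.leaf [26, 225, 228, 238, 623, 645])
 ) (.node (.leaf [26, 240, 402, 521, 547, 577])
  (.leaf [26, 244, 492, 508, 542, 573])
 ))) (.node (.node (.node (.leaf [26, 245, 327, 396, 468, 505])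
  (.leaf [26, 253, 322, 470, 564, 593])
 ) (.node (.leaf [26, 261, 478, 517, 561, 581])
  (.leaf [26, 279, 292, 314, 420, 590])
 )) (.node (.node (.leaf [26, 281, 320, 371, 536, 650])
  (.leaf [26, 307, 485, 507, 586, 641])
 ) (.node (.leaf [26, 323, 362, 472, 549, 639])
  (.leaf [26, 338, 340, 343, 397, 642])
 )))) (.node (.node (.node (.node (.leaf [26, 368, 414, 569, 609, 615])
  (.leaf [26, 372, 403, 456, 597, 625])
 ) (.node (.leaf [26, 394, 473, 506, 572, 630])
  (.leaf [26, 419, 484, 571, 588, 610])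
 )) (.node (.node (.leaf [39, 40, 55, 241, 461, 634])
  (.leaf [39, 41, 45, 98, 429, 645])
 ) (.node (.leaf [39, 52, 353, 416, 549, 573])
  (.leaf [39, 53, 105, 282, 443, 621])
 ))) (.node (.node (.node (.leaf [39, 57, 93, 174, 501, 647])
  (.leaf [39, 60, 188, 303, 309, 614])
 ) (.node (.leaf [39, 61, 192, 374, 398, 596])
  (.leaf [39, 62, 71, 155, 184, 542])
 )) (.node (.node (.leaf [39, 63, 363, 424, 577, 650])
  (.leaf [39, 64, 113, 141, 316, 528])
 ) (.node (.leaf [39, 65, 125, 304, 506, 604])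
  (.leaf [39, 66, 168, 200, 331, 414])
 )))))

def t651_11 : BT :=
  (.node (.node (.node (.node (.node (.leaf [39, 67, 180, 394, 553, 568])
  (.leaf [39, 68, 89, 133, 330, 638])
 ) (.node (.leaf [39, 69, 142, 190, 533, 620])
  (.leaf [39, 70, 243, 449, 515, 581])
 )) (.node (.node (.leaf [39, 72, 130, 263, 367, 401])
  (.leaf [39, 73, 153, 215, 253, 560])
 ) (.node (.leaf [39, 74, 485, 494, 584, 619])
  (.leaf [39, 75, 182, 400, 537, 649])
 ))) (.node (.node (.node (.leaf [39, 76, 259, 265, 599, 642])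
  (.leaf [39, 79, 194, 229, 237, 590])
 ) (.node (.leaf [39, 80, 431, 435, 441, 627])
  (.leaf [39, 81, 160, 251, 557, 567])
 )) (.node (.node (.leaf [39, 82, 119, 302, 409, 574])
  (.leaf [39, 83, 127, 156, 543, 548])
 ) (.node (.leaf [39, 85, 252, 285, 475, 522])
  (.leaf [39, 86, 87, 185, 338, 451])
 )))) (.node (.node (.node (.node (.leaf [39, 88, 299, 337, 465, 523])
  (.leaf [39, 90, 234, 507, 570, 626])
 ) (.node (.leaf [39, 91, 266, 335, 354, 646])
  (.leaf [39, 95, 107, 225, 357, 359])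
 )) (.node (.node (.leaf [39, 97, 203, 233, 306, 486])
  (.leaf [39, 100, 138, 336, 342, 569])
 ) (.node (.leaf [39, 101, 175, 373, 452, 629])
  (.leaf [39, 102, 327, 471, 498, 546])
 ))) (.node (.node (.node (.leaf [39, 103, 340, 467, 539, 607])
  (.leaf [39, 106, 387, 395, 490, 595])
 ) (.node (.leaf [39, 108, 244, 422, 559, 564])
  (.leaf [39, 109, 159, 177, 193, 211])
 )) (.node (.node (.leaf [39, 110, 201, 294, 514, 545])
  (.leaf [39, 111, 134, 403, 495, 583])
 ) (.node (.leaf [39, 112, 269, 334, 591, 602])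
  (.leaf [39, 114, 121, 277, 505, 630])
 )))))

def t651_12 : BT :=
  (.node (.node (.node (.node (.node (.leaf [39, 117, 166, 209, 426, 529])
  (.leaf [39, 118, 145, 247, 257, 466])
 ) (.node (.leaf [39, 122, 320, 326, 341, 408])
  (.leaf [39, 123, 186, 369, 454, 476])
 )) (.node (.node (.leaf [39, 124, 139, 189, 332, 392])
  (.leaf [39, 129, 148, 227, 245, 307])
 ) (.node (.leaf [39, 131, 195, 411, 492, 601])
  (.leaf [39, 137, 463, 481, 482, 550])
 ))) (.node (.node (.node (.leaf [39, 140, 348, 388, 493, 578])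
  (.leaf [39, 144, 210, 362, 371, 502])
 ) (.node (.leaf [39, 149, 158, 446, 580, 616])
  (.leaf [39, 151, 176, 183, 391, 407])
 )) (.node (.node (.leaf [39, 154, 376, 562, 622, 625])
  (.leaf [39, 157, 346, 361, 474, 594])
 ) (.node (.leaf [39, 161, 165, 216, 472, 628])
  (.leaf [39, 167, 223, 264, 378, 623])
 )))) (.node (.node (.node (.node (.leaf [39, 170, 276, 345, 499, 531])
  (.leaf [39, 171, 198, 250, 292, 293])
 ) (.node (.leaf [39, 172, 197, 516, 532, 572])
  (.leaf [39, 173, 275, 432, 468, 496])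
 )) (.node (.node (.leaf [39, 178, 236, 254, 439, 453])
  (.leaf [39, 191, 425, 547, 561, 565])
 ) (.node (.leaf [39, 204, 242, 255, 397, 536])
  (.leaf [39, 206, 228, 419, 433, 450])
 ))) (.node (.node (.node (.leaf [39, 212, 214, 260, 333, 527])
  (.leaf [39, 213, 235, 368, 554, 618])
 ) (.node (.leaf [39, 218, 274, 278, 483, 637])
  (.leaf [39, 219, 239, 281, 525, 566])
 )) (.node (.node (.leaf [39, 220, 329, 517, 519, 606])
  (.leaf [39, 231, 262, 324, 605, 636])
 ) (.node (.leaf [39, 246, 290, 310, 399, 571])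
  (.leaf [39, 248, 396, 415, 585, 592])
 )))))

def t651_13 : BT :=
  (.node (.node (.node (.node (.node (.leaf [39, 249, 300, 317, 349, 504])
  (.leaf [39, 258, 372, 520, 552, 586])
 ) (.node (.leaf [39, 261, 298, 534, 575, 598])
  (.leaf [39, 272, 287, 312, 511, 615])
 )) (.node (.node (.leaf [39, 273, 344, 358, 366, 456])
  (.leaf [39, 279, 295, 377, 427, 538])
 ) (.node (.leaf [39, 286, 350, 455, 513, 631])
  (.leaf [39, 288, 380, 423, 610, 613])
 ))) (.node (.node (.node (.leaf [39, 291, 297, 390, 635, 641])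
  (.leaf [39, 296, 355, 406, 448, 524])
 ) (.node (.leaf [39, 305, 445, 459, 555, 644])
  (.leaf [39, 311, 360, 412, 437, 600])
 )) (.node (.node (.leaf [39, 319, 364, 386, 544, 624])
  (.leaf [39, 325, 477, 480, 588, 611])
 ) (.node (.leaf [39, 442, 462, 473, 488, 540])
  (.leaf [52, 53, 83, 235, 288, 466])
 )))) (.node (.node (.node (.node (.leaf [52, 54, 245, 247, 422, 443])
  (.leaf [52, 55, 61, 173, 390, 647])
 ) (.node (.leaf [52, 57, 323, 343, 419, 602])
  (.leaf [52, 65, 160, 293, 313, 447])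
 )) (.node (.node (.leaf [52, 66, 237, 486, 488, 646])
  (.leaf [52, 67, 133, 171, 254, 609])
 ) (.node (.leaf [52, 68, 106, 123, 180, 277])
  (.leaf [52, 69, 214, 221, 341, 572])
 ))) (.node (.node (.node (.leaf [52, 70, 140, 406, 445, 514])
  (.leaf [52, 71, 276, 384, 577, 636])
 ) (.node (.leaf [52, 72, 105, 411, 435, 440])
  (.leaf [52, 75, 252, 262, 350, 392])
 )) (.node (.node (.leaf [52, 76, 315, 369, 558, 639])
  (.leaf [52, 77, 88, 351, 396, 473])
 ) (.node (.leaf [52, 79, 186, 228, 278, 503])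
  (.leaf [52, 80, 282, 311, 382, 562])
 )))))

def t651_14 : BT :=
  (.node (.node (.node (.node (.node (.leaf [52, 81, 209, 256, 544, 578])
  (.leaf [52, 84, 120, 184, 316, 556])
 ) (.node (.leaf [52, 85, 167, 198, 270, 346])
  (.leaf [52, 86, 127, 332, 449, 512])
 )) (.node (.node (.leaf [52, 89, 147, 152, 248, 269])
  (.leaf [52, 90, 178, 290, 364, 474])
 ) (.node (.leaf [52, 93, 230, 263, 592, 649])
  (.leaf [52, 94, 212, 241, 584, 586])
 ))) (.node (.node (.node (.leaf [52, 95, 461, 471, 588, 600])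
  (.leaf [52, 96, 122, 168, 535, 585])
 ) (.node (.leaf [52, 97, 151, 208, 456, 628])
  (.leaf [52, 98, 283, 472, 490, 627])
 )) (.node (.node (.leaf [52, 100, 148, 164, 576, 597])
  (.leaf [52, 102, 113, 303, 391, 515])
 ) (.node (.leaf [52, 108, 165, 174, 314, 591])
  (.leaf [52, 109, 253, 337, 527, 536])
 )))) (.node (.node (.node (.node (.leaf [52, 110, 143, 211, 322, 599])
  (.leaf [52, 112, 239, 291, 358, 388])
 ) (.node (.leaf [52, 115, 261, 325, 368, 457])
  (.leaf [52, 116, 190, 455, 502, 519])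
 )) (.node (.node (.leaf [52, 118, 240, 330, 386, 397])
  (.leaf [52, 121, 441, 448, 469, 541])
 ) (.node (.leaf [52, 124, 192, 340, 480, 630])
  (.leaf [52, 125, 154, 470, 516, 612])
 ))) (.node (.node (.node (.leaf [52, 129, 216, 356, 580, 582])
  (.leaf [52, 131, 385, 567, 603, 632])
 ) (.node (.leaf [52, 134, 299, 354, 463, 464])
  (.leaf [52, 135, 305, 361, 467, 645])
 )) (.node (.node (.leaf [52, 136, 205, 302, 359, 437])
  (.leaf [52, 138, 268, 539, 547, 621])
 ) (.node (.leaf [52, 139, 166, 460, 489, 608])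
  (.leaf [52, 141, 206, 415, 423, 623])
 )))))

def t651_15 : BT :=
  (.node (.node (.node (.node (.node (.leaf [52, 144, 153, 207, 605, 641])
  (.leaf [52, 146, 357, 493, 589, 625])
 ) (.node (.leaf [52, 149, 201, 339, 370, 561])
  (.leaf [52, 150, 157, 363, 482, 525])
 )) (.node (.node (.leaf [52, 158, 273, 429, 507, 554])
  (.leaf [52, 159, 236, 379, 381, 618])
 ) (.node (.leaf [52, 162, 196, 222, 413, 640])
  (.leaf [52, 163, 229, 380, 403, 418])
 ))) (.node (.node (.node (.leaf [52, 172, 259, 327, 417, 637])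
  (.leaf [52, 179, 329, 444, 497, 551])
 ) (.node (.leaf [52, 182, 202, 249, 387, 408])
  (.leaf [52, 185, 371, 434, 508, 581])
 )) (.node (.node (.leaf [52, 191, 309, 320, 526, 616])
  (.leaf [52, 194, 203, 266, 613, 617])
 ) (.node (.leaf [52, 199, 242, 477, 520, 553])
  (.leaf [52, 200, 223, 255, 555, 563])
 )))) (.node (.node (.node (.node (.leaf [52, 210, 250, 265, 306, 476])
  (.leaf [52, 213, 244, 298, 485, 552])
 ) (.node (.leaf [52, 215, 347, 433, 566, 598])
  (.leaf [52, 227, 295, 336, 583, 634])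
 )) (.node (.node (.leaf [52, 233, 328, 374, 517, 593])
  (.leaf [52, 251, 326, 401, 446, 532])
 ) (.node (.leaf [52, 260, 271, 319, 378, 513])
  (.leaf [52, 264, 279, 439, 548, 568])
 ))) (.node (.node (.node (.leaf [52, 272, 432, 450, 521, 542])
  (.leaf [52, 285, 307, 334, 376, 398])
 ) (.node (.leaf [52, 324, 373, 430, 499, 537])
  (.leaf [52, 344, 372, 389, 478, 510])
 )) (.node (.node (.leaf [52, 345, 405, 436, 468, 614])
  (.leaf [52, 360, 407, 546, 559, 565])
 ) (.node (.leaf [52, 366, 375, 409, 428, 633])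
  (.leaf [52, 393, 395, 399, 431, 606])
 )))))

def t651_16 : BT :=
  (.node (.node (.node (.node (.node (.leaf [52, 451, 453, 494, 611, 635])
  (.leaf [65, 66, 215, 345, 520, 643])
 ) (.node (.leaf [65, 68, 329, 422, 598, 628])
  (.leaf [65, 71, 181, 235, 411, 580])
 )) (.node (.node (.leaf [65, 78, 372, 504, 573, 592])
  (.leaf [65, 79, 117, 387, 467, 614])
 ) (.node (.leaf [65, 80, 264, 527, 541, 570])
  (.leaf [65, 81, 173, 376, 492, 589])
 ))) (.node (.node (.node (.leaf [65, 83, 287, 321, 437, 524])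
  (.leaf [65, 84, 108, 328, 367, 500])
 ) (.node (.leaf [65, 85, 277, 300, 431, 585])
  (.leaf [65, 87, 95, 172, 298, 633])
 )) (.node (.node (.leaf [65, 91, 151, 314, 568, 602])
  (.leaf [65, 92, 316, 369, 562, 626])
 ) (.node (.leaf [65, 93, 209, 225, 301, 382])
  (.leaf [65, 94, 118, 380, 457, 640])
 )))) (.node (.node (.node (.node (.leaf [65, 96, 365, 393, 529, 603])
  (.leaf [65, 97, 114, 140, 291, 550])
 ) (.node (.leaf [65, 98, 164, 402, 417, 535])
  (.leaf [65, 100, 188, 205, 368, 579])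
 )) (.node (.node (.leaf [65, 101, 121, 141, 174, 355])
  (.leaf [65, 102, 261, 482, 502, 530])
 ) (.node (.leaf [65, 105, 250, 322, 338, 358])
  (.leaf [65, 107, 168, 356, 440, 548])
 ))) (.node (.node (.node (.leaf [65, 109, 297, 545, 559, 627])
  (.leaf [65, 113, 254, 555, 606, 634])
 ) (.node (.leaf [65, 122, 148, 162, 288, 501])
  (.leaf [65, 123, 200, 337, 533, 624])
 )) (.node (.node (.leaf [65, 124, 427, 522, 531, 593])
  (.leaf [65, 126, 229, 256, 347, 571])
 ) (.node (.leaf [65, 128, 217, 285, 477, 537])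
  (.leaf [65, 129, 379, 461, 508, 525])
 )))))

def t651_17 : BT :=
  (.node (.node (.node (.node (.node (.leaf [65, 137, 157, 324, 446, 638])
  (.leaf [65, 139, 310, 323, 412, 478])
 ) (.node (.leaf [65, 143, 249, 351, 534, 594])
  (.leaf [65, 144, 161, 245, 284, 415])
 )) (.node (.node (.leaf [65, 146, 232, 278, 428, 463])
  (.leaf [65, 150, 270, 286, 348, 507])
 ) (.node (.leaf [65, 152, 335, 336, 471, 493])
  (.leaf [65, 154, 201, 292, 503, 646])
 ))) (.node (.node (.node (.leaf [65, 155, 383, 398, 401, 561])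
  (.leaf [65, 156, 346, 430, 486, 622])
 ) (.node (.leaf [65, 158, 458, 464, 470, 523])
  (.leaf [65, 159, 399, 420, 445, 515])
 )) (.node (.node (.leaf [65, 163, 231, 370, 375, 554])
  (.leaf [65, 165, 192, 204, 553, 590])
 ) (.node (.leaf [65, 170, 234, 299, 505, 636])
  (.leaf [65, 171, 339, 388, 410, 631])
 )))) (.node (.node (.node (.node (.leaf [65, 184, 239, 243, 311, 514])
  (.leaf [65, 190, 228, 407, 454, 468])
 ) (.node (.leaf [65, 193, 276, 332, 466, 578])
  (.leaf [65, 194, 196, 262, 334, 519])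
 )) (.node (.node (.leaf [65, 195, 219, 319, 495, 635])
  (.leaf [65, 198, 271, 423, 496, 538])
 ) (.node (.leaf [65, 203, 216, 222, 273, 361])
  (.leaf [65, 206, 325, 432, 476, 650])
 ))) (.node (.node (.node (.leaf [65, 212, 425, 436, 494, 516])
  (.leaf [65, 221, 312, 318, 442, 475])
 ) (.node (.leaf [65, 224, 308, 343, 512, 596])
  (.leaf [65, 226, 260, 303, 488, 572])
 )) (.node (.node (.leaf [65, 233, 450, 456, 465, 469])
  (.leaf [65, 237, 320, 521, 569, 588])
 ) (.node (.leaf [65, 244, 268, 305, 435, 543])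
  (.leaf [65, 251, 363, 462, 613, 632])
 )))))

def t651_18 : BT :=
  (.node (.node (.node (.node (.node (.leaf [65, 257, 331, 426, 497, 549])
  (.leaf [65, 263, 349, 354, 421, 424])
 ) (.node (.leaf [65, 282, 302, 366, 406, 481])
  (.leaf [65, 295, 408, 459, 499, 556])
 )) (.node (.node (.leaf [65, 306, 307, 452, 539, 558])
  (.leaf [65, 381, 544, 611, 617, 619])
 ) (.node (.leaf [78, 80, 87, 205, 353, 623])
  (.leaf [78, 81, 297, 480, 486, 562])
 ))) (.node (.node (.node (.leaf [78, 91, 159, 222, 328, 359])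
  (.leaf [78, 93, 142, 257, 304, 396])
 ) (.node (.leaf [78, 96, 106, 285, 418, 434])
  (.leaf [78, 97, 148, 259, 402, 481])
 )) (.node (.node (.leaf [78, 100, 212, 225, 410, 506])
  (.leaf [78, 102, 406, 417, 626, 632])
 ) (.node (.leaf [78, 103, 125, 350, 403, 459])
  (.leaf [78, 104, 139, 388, 420, 563])
 )))) (.node (.node (.node (.node (.leaf [78, 105, 144, 314, 382, 510])
  (.leaf [78, 108, 213, 290, 333, 355])
 ) (.node (.leaf [78, 109, 197, 255, 535, 604])
  (.leaf [78, 110, 155, 299, 324, 524])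
 )) (.node (.node (.leaf [78, 111, 140, 436, 444, 451])
  (.leaf [78, 113, 158, 367, 558, 576])
 ) (.node (.leaf [78, 114, 120, 300, 441, 534])
  (.leaf [78, 117, 252, 384, 415, 645])
 ))) (.node (.node (.node (.leaf [78, 118, 163, 166, 500, 569])
  (.leaf [78, 121, 234, 413, 514, 540])
 ) (.node (.leaf [78, 123, 162, 175, 317, 610])
  (.leaf [78, 124, 241, 465, 609, 636])
 )) (.node (.node (.leaf [78, 130, 174, 231, 407, 580])
  (.leaf [78, 131, 268, 279, 485, 617])
 ) (.node (.leaf [78, 132, 345, 487, 552, 578])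
  (.leaf [78, 133, 147, 284, 292, 349])
 )))))

def t651_19 : BT :=
  (.node (.node (.node (.node (.node (.leaf [78, 134, 366, 381, 518, 602])
  (.leaf [78, 136, 151, 220, 265, 529])
 ) (.node (.leaf [78, 137, 229, 301, 401, 452])
  (.leaf [78, 143, 224, 334, 389, 646])
 )) (.node (.node (.leaf [78, 145, 240, 287, 416, 628])
  (.leaf [78, 150, 298, 370, 527, 551])
 ) (.node (.leaf [78, 152, 230, 237, 567, 634])
  (.leaf [78, 153, 173, 347, 574, 597])
 ))) (.node (.node (.node (.leaf [78, 168, 232, 498, 513, 607])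
  (.leaf [78, 169, 192, 198, 218, 450])
 ) (.node (.leaf [78, 171, 310, 435, 492, 519])
  (.leaf [78, 178, 209, 312, 507, 612])
 )) (.node (.node (.leaf [78, 182, 244, 544, 622, 631])
  (.leaf [78, 183, 274, 421, 469, 638])
 ) (.node (.leaf [78, 186, 270, 409, 425, 493])
  (.leaf [78, 194, 215, 303, 326, 426])
 )))) (.node (.node (.node (.node (.leaf [78, 201, 281, 449, 457, 491])
  (.leaf [78, 206, 239, 522, 629, 639])
 ) (.node (.leaf [78, 207, 341, 368, 470, 479])
  (.leaf [78, 217, 488, 503, 565, 637])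
 )) (.node (.node (.leaf [78, 223, 391, 448, 497, 650])
  (.leaf [78, 226, 273, 408, 548, 620])
 ) (.node (.leaf [78, 245, 387, 445, 536, 594])
  (.leaf [78, 254, 321, 371, 482, 553])
 ))) (.node (.node (.node (.leaf [78, 261, 282, 412, 546, 588])
  (.leaf [78, 266, 411, 490, 547, 616])
 ) (.node (.leaf [78, 269, 428, 471, 557, 561])
  (.leaf [78, 272, 352, 358, 361, 643])
 )) (.node (.node (.leaf [78, 293, 322, 325, 383, 397])
  (.leaf [78, 307, 329, 346, 585, 587])
 ) (.node (.leaf [78, 318, 319, 390, 414, 577])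
  (.leaf [78, 336, 393, 462, 608, 619])
 )))))

def t651_20 : BT :=
  (.node (.node (.node (.node (.node (.leaf [78, 338, 431, 545, 599, 641])
  (.leaf [78, 340, 423, 447, 533, 549])
 ) (.node (.leaf [78, 376, 484, 501, 584, 600])
  (.leaf [78, 378, 385, 424, 596, 649])
 )) (.node (.node (.leaf [78, 398, 458, 581, 593, 633])
  (.leaf [78, 511, 543, 572, 603, 635])
 ) (.node (.leaf [91, 92, 99, 265, 519, 607])
  (.leaf [91, 93, 109, 350, 496, 623])
 ))) (.node (.node (.node (.leaf [91, 94, 213, 418, 462, 492])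
  (.leaf [91, 95, 383, 521, 539, 582])
 ) (.node (.leaf [91, 104, 153, 212, 230, 389])
  (.leaf [91, 105, 176, 296, 306, 313])
 )) (.node (.node (.leaf [91, 106, 206, 231, 268, 425])
  (.leaf [91, 110, 188, 239, 248, 649])
 ) (.node (.leaf [91, 112, 189, 193, 243, 254])
  (.leaf [91, 113, 143, 415, 495, 613])
 )))) (.node (.node (.node (.node (.leaf [91, 118, 273, 351, 390, 579])
  (.leaf [91, 119, 277, 282, 627, 643])
 ) (.node (.leaf [91, 120, 370, 384, 567, 572])
  (.leaf [91, 121, 202, 464, 510, 587])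
 )) (.node (.node (.leaf [91, 122, 424, 474, 490, 565])
  (.leaf [91, 123, 207, 217, 256, 440])
 ) (.node (.leaf [91, 127, 139, 320, 586, 594])
  (.leaf [91, 129, 324, 367, 458, 526])
 ))) (.node (.node (.node (.leaf [91, 132, 154, 185, 321, 347])
  (.leaf [91, 133, 150, 411, 446, 513])
 ) (.node (.leaf [91, 141, 167, 250, 309, 523])
  (.leaf [91, 144, 156, 283, 406, 639])
 )) (.node (.node (.leaf [91, 146, 183, 236, 445, 620])
  (.leaf [91, 147, 186, 257, 487, 650])
 ) (.node (.leaf [91, 158, 233, 349, 369, 399])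
  (.leaf [91, 161, 226, 437, 536, 559])
 )))))

def t651_21 : BT :=
  (.node (.node (.node (.node (.node (.leaf [91, 166, 245, 278, 332, 361])
  (.leaf [91, 170, 224, 288, 326, 545])
 ) (.node (.leaf [91, 171, 356, 400, 486, 491])
  (.leaf [91, 173, 417, 477, 618, 641])
 )) (.node (.node (.leaf [91, 175, 179, 180, 218, 589])
  (.leaf [91, 182, 291, 357, 403, 438])
 ) (.node (.leaf [91, 187, 432, 527, 555, 615])
  (.leaf [91, 191, 286, 431, 549, 626])
 ))) (.node (.node (.node (.leaf [91, 194, 345, 528, 573, 640])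
  (.leaf [91, 195, 397, 405, 475, 509])
 ) (.node (.leaf [91, 199, 260, 453, 485, 612])
  (.leaf [91, 201, 240, 290, 584, 604])
 )) (.node (.node (.leaf [91, 203, 307, 381, 448, 603])
  (.leaf [91, 208, 303, 452, 563, 576])
 ) (.node (.leaf [91, 219, 297, 402, 412, 644])
  (.leaf [91, 232, 292, 365, 469, 577])
 )))) (.node (.node (.node (.node (.leaf [91, 234, 281, 392, 436, 622])
  (.leaf [91, 242, 470, 552, 585, 619])
 ) (.node (.leaf [91, 247, 322, 330, 333, 550])
  (.leaf [91, 249, 501, 551, 591, 636])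
 )) (.node (.node (.leaf [91, 251, 413, 502, 605, 617])
  (.leaf [91, 252, 275, 334, 407, 538])
 ) (.node (.leaf [91, 262, 308, 362, 468, 616])
  (.leaf [91, 271, 386, 387, 421, 430])
 ))) (.node (.node (.node (.leaf [91, 311, 337, 434, 520, 566])
  (.leaf [91, 318, 366, 522, 571, 601])
 ) (.node (.leaf [91, 344, 352, 409, 512, 534])
  (.leaf [91, 363, 433, 449, 553, 564])
 )) (.node (.node (.leaf [91, 374, 507, 508, 516, 648])
  (.leaf [91, 398, 422, 531, 547, 569])
 ) (.node (.leaf [104, 105, 107, 197, 311, 648])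
  (.leaf [104, 118, 152, 355, 378, 548])
 )))))

def t651_22 : BT :=
  (.node (.node (.node (.node (.node (.leaf [104, 120, 157, 426, 535, 561])
  (.leaf [104, 126, 136, 366, 438, 492])
 ) (.node (.leaf [104, 127, 215, 242, 547, 551])
  (.leaf [104, 128, 173, 367, 449, 557])
 )) (.node (.node (.leaf [104, 129, 254, 352, 574, 636])
  (.leaf [104, 134, 168, 297, 465, 506])
 ) (.node (.leaf [104, 137, 234, 282, 300, 542])
  (.leaf [104, 138, 272, 479, 498, 592])
 ))) (.node (.node (.node (.leaf [104, 141, 216, 419, 451, 490])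
  (.leaf [104, 142, 171, 203, 278, 476])
 ) (.node (.leaf [104, 144, 155, 361, 468, 644])
  (.leaf [104, 148, 253, 348, 405, 515])
 )) (.node (.node (.leaf [104, 151, 226, 238, 445, 493])
  (.leaf [104, 158, 247, 265, 368, 391])
 ) (.node (.leaf [104, 159, 317, 469, 569, 630])
  (.leaf [104, 160, 392, 440, 591, 640])
 )))) (.node (.node (.node (.node (.leaf [104, 163, 271, 334, 484, 624])
  (.leaf [104, 166, 330, 374, 486, 637])
 ) (.node (.leaf [104, 177, 413, 533, 581, 641])
  (.leaf [104, 180, 302, 349, 505, 585])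
 )) (.node (.node (.leaf [104, 181, 183, 322, 435, 511])
  (.leaf [104, 184, 224, 252, 483, 603])
 ) (.node (.leaf [104, 187, 402, 424, 454, 628])
  (.leaf [104, 193, 277, 397, 594, 609])
 ))) (.node (.node (.node (.leaf [104, 198, 269, 461, 514, 556])
  (.leaf [104, 199, 319, 463, 526, 583])
 ) (.node (.leaf [104, 200, 346, 399, 467, 642])
  (.leaf [104, 202, 208, 274, 341, 342])
 )) (.node (.node (.leaf [104, 206, 404, 487, 513, 595])
  (.leaf [104, 210, 267, 324, 494, 562])
 ) (.node (.leaf [104, 214, 231, 365, 478, 621])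
  (.leaf [104, 217, 394, 460, 586, 619])
 )))))

def t651_23 : BT :=
  (.node (.node (.node (.node (.node (.leaf [104, 221, 236, 448, 590, 627])
  (.leaf [104, 225, 270, 473, 517, 566])
 ) (.node (.leaf [104, 233, 273, 290, 398, 632])
  (.leaf [104, 237, 328, 552, 554, 577])
 )) (.node (.node (.leaf [104, 256, 382, 433, 573, 623])
  (.leaf [104, 262, 415, 474, 480, 572])
 ) (.node (.leaf [104, 287, 289, 360, 520, 605])
  (.leaf [104, 298, 343, 516, 521, 614])
 ))) (.node (.node (.node (.leaf [104, 340, 384, 452, 502, 541])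
  (.leaf [104, 358, 359, 379, 396, 466])
 ) (.node (.leaf [104, 362, 427, 428, 464, 588])
  (.leaf [104, 369, 443, 446, 602, 646])
 )) (.node (.node (.leaf [104, 372, 441, 500, 613, 616])
  (.leaf [104, 390, 453, 491, 571, 597])
 ) (.node (.leaf [104, 408, 477, 481, 527, 538])
  (.leaf [104, 411, 425, 447, 518, 600])
 )))) (.node (.node (.node (.node (.leaf [104, 462, 524, 529, 611, 626])
  (.leaf [117, 118, 125, 266, 302, 648])
 ) (.node (.leaf [117, 119, 160, 179, 330, 418])
  (.leaf [117, 120, 361, 506, 514, 635])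
 )) (.node (.node (.leaf [117, 121, 288, 364, 425, 517])
  (.leaf [117, 130, 139, 350, 495, 522])
 ) (.node (.leaf [117, 133, 205, 454, 561, 592])
  (.leaf [117, 134, 150, 262, 359, 374])
 ))) (.node (.node (.node (.leaf [117, 135, 178, 278, 281, 366])
  (.leaf [117, 138, 232, 254, 563, 579])
 ) (.node (.leaf [117, 141, 253, 289, 447, 471])
  (.leaf [117, 145, 422, 534, 538, 638])
 )) (.node (.node (.leaf [117, 147, 195, 303, 365, 633])
  (.leaf [117, 152, 400, 500, 570, 637])
 ) (.node (.leaf [117, 153, 196, 292, 339, 455])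
  (.leaf [117, 154, 176, 208, 270, 490])
 )))))

def t651_24 : BT :=
  (.node (.node (.node (.node (.node (.leaf [117, 155, 226, 521, 557, 615])
  (.leaf [117, 161, 191, 389, 556, 611])
 ) (.node (.leaf [117, 164, 180, 304, 390, 492])
  (.leaf [117, 171, 230, 320, 378, 405])
 )) (.node (.node (.leaf [117, 172, 183, 241, 287, 348])
  (.leaf [117, 173, 225, 439, 530, 580])
 ) (.node (.leaf [117, 181, 240, 316, 502, 566])
  (.leaf [117, 184, 267, 294, 372, 480])
 ))) (.node (.node (.node (.leaf [117, 186, 305, 375, 507, 646])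
  (.leaf [117, 187, 231, 261, 401, 431])
 ) (.node (.leaf [117, 188, 345, 388, 397, 600])
  (.leaf [117, 190, 290, 306, 406, 569])
 )) (.node (.node (.leaf [117, 192, 236, 272, 428, 525])
  (.leaf [117, 197, 214, 326, 337, 441])
 ) (.node (.leaf [117, 199, 215, 332, 440, 649])
  (.leaf [117, 204, 523, 577, 620, 634])
 )))) (.node (.node (.node (.node (.leaf [117, 213, 457, 559, 573, 574])
  (.leaf [117, 220, 279, 535, 605, 619])
 ) (.node (.leaf [117, 235, 319, 352, 491, 616])
  (.leaf [117, 237, 282, 343, 484, 587])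
 )) (.node (.node (.leaf [117, 242, 258, 298, 445, 482])
  (.leaf [117, 248, 362, 466, 493, 591])
 ) (.node (.leaf [117, 249, 395, 410, 450, 505])
  (.leaf [117, 251, 263, 264, 268, 627])
 ))) (.node (.node (.node (.leaf [117, 257, 318, 340, 391, 552])
  (.leaf [117, 291, 295, 413, 585, 613])
 ) (.node (.leaf [117, 317, 435, 468, 497, 595])
  (.leaf [117, 344, 360, 393, 487, 531])
 )) (.node (.node (.leaf [117, 394, 399, 461, 516, 622])
  (.leaf [130, 131, 228, 285, 479, 558])
 ) (.node (.leaf [130, 132, 140, 241, 366, 617])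
  (.leaf [130, 136, 192, 352, 423, 609])
 )))))

def t651_25 : BT :=
  (.node (.node (.node (.node (.node (.leaf [130, 143, 387, 436, 538, 547])
  (.leaf [130, 148, 178, 450, 475, 575])
 ) (.node (.leaf [130, 149, 162, 280, 344, 361])
  (.leaf [130, 150, 208, 351, 509, 515])
 )) (.node (.node (.leaf [130, 153, 256, 420, 437, 446])
  (.leaf [130, 158, 246, 315, 392, 490])
 ) (.node (.leaf [130, 159, 334, 395, 426, 458])
  (.leaf [130, 161, 198, 254, 333, 560])
 ))) (.node (.node (.node (.leaf [130, 166, 189, 316, 360, 607])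
  (.leaf [130, 167, 299, 455, 528, 650])
 ) (.node (.leaf [130, 168, 296, 329, 574, 619])
  (.leaf [130, 170, 466, 543, 562, 596])
 )) (.node (.node (.leaf [130, 171, 211, 212, 217, 647])
  (.leaf [130, 175, 313, 467, 516, 541])
 ) (.node (.leaf [130, 177, 481, 511, 563, 573])
  (.leaf [130, 179, 201, 229, 542, 594])
 )))) (.node (.node (.node (.node (.leaf [130, 180, 223, 465, 570, 601])
  (.leaf [130, 184, 310, 569, 592, 626])
 ) (.node (.leaf [130, 187, 216, 388, 405, 565])
  (.leaf [130, 188, 221, 290, 372, 524])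
 )) (.node (.node (.leaf [130, 194, 304, 322, 608, 623])
  (.leaf [130, 203, 399, 472, 540, 636])
 ) (.node (.leaf [130, 205, 371, 428, 500, 520])
  (.leaf [130, 206, 220, 243, 283, 393])
 ))) (.node (.node (.node (.leaf [130, 209, 376, 413, 512, 649])
  (.leaf [130, 210, 391, 411, 416, 572])
 ) (.node (.leaf [130, 219, 418, 476, 494, 614])
  (.leaf [130, 225, 330, 433, 578, 622])
 )) (.node (.node (.leaf [130, 232, 250, 298, 438, 618])
  (.leaf [130, 233, 419, 457, 546, 641])
 ) (.node (.leaf [130, 235, 237, 238, 435, 643])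
  (.leaf [130, 236, 321, 422, 468, 518])
 )))))

def t651_26 : BT :=
  (.node (.node (.node (.node (.node (.leaf [130, 245, 249, 265, 320, 382])
  (.leaf [130, 247, 312, 349, 536, 642])
 ) (.node (.leaf [130, 262, 297, 441, 463, 555])
  (.leaf [130, 266, 368, 482, 521, 610])
 )) (.node (.node (.leaf [130, 286, 326, 440, 582, 586])
  (.leaf [130, 288, 362, 402, 533, 564])
 ) (.node (.leaf [130, 303, 331, 406, 415, 559])
  (.leaf [143, 144, 311, 419, 466, 551])
 ))) (.node (.node (.node (.leaf [143, 149, 190, 517, 612, 624])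
  (.leaf [143, 158, 179, 250, 477, 499])
 ) (.node (.leaf [143, 161, 329, 410, 459, 566])
  (.leaf [143, 169, 393, 407, 549, 598])
 )) (.node (.node (.leaf [143, 170, 228, 251, 430, 610])
  (.leaf [143, 171, 234, 332, 527, 591])
 ) (.node (.leaf [143, 175, 307, 401, 533, 605])
  (.leaf [143, 183, 226, 321, 330, 546])
 )))) (.node (.node (.node (.node (.leaf [143, 189, 191, 278, 486, 535])
  (.leaf [143, 194, 371, 406, 512, 565])
 ) (.node (.leaf [143, 207, 437, 467, 487, 503])
  (.leaf [143, 208, 273, 368, 444, 602])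
 )) (.node (.node (.leaf [143, 219, 335, 372, 589, 620])
  (.leaf [143, 225, 394, 434, 455, 537])
 ) (.node (.leaf [143, 230, 279, 337, 386, 516])
  (.leaf [143, 235, 473, 478, 514, 600])
 ))) (.node (.node (.node (.leaf [143, 239, 353, 369, 380, 572])
  (.leaf [143, 245, 333, 340, 479, 524])
 ) (.node (.leaf [143, 261, 267, 284, 532, 578])
  (.leaf [143, 286, 377, 481, 494, 506])
 )) (.node (.node (.leaf [143, 289, 328, 336, 388, 482])
  (.leaf [143, 293, 429, 431, 454, 570])
 ) (.node (.leaf [143, 297, 315, 378, 457, 493])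
  (.leaf [143, 301, 409, 416, 441, 615])
 )))))

def t651_27 : BT :=
  (.node (.node (.node (.node (.node (.leaf [143, 303, 363, 463, 529, 618])
  (.leaf [143, 316, 339, 421, 426, 439])
 ) (.node (.leaf [143, 348, 358, 383, 433, 606])
  (.leaf [143, 422, 471, 497, 581, 603])
 )) (.node (.node (.leaf [143, 451, 528, 585, 588, 597])
  (.leaf [156, 161, 242, 464, 597, 605])
 ) (.node (.leaf [156, 162, 354, 383, 510, 648])
  (.leaf [156, 170, 196, 230, 282, 358])
 ))) (.node (.node (.node (.leaf [156, 171, 276, 391, 472, 571])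
  (.leaf [156, 173, 179, 482, 538, 584])
 ) (.node (.leaf [156, 180, 275, 426, 516, 623])
  (.leaf [156, 181, 194, 271, 500, 531])
 )) (.node (.node (.leaf [156, 182, 185, 280, 523, 533])
  (.leaf [156, 184, 202, 256, 554, 599])
 ) (.node (.leaf [156, 187, 215, 343, 437, 507])
  (.leaf [156, 188, 270, 293, 535, 646])
 )))) (.node (.node (.node (.node (.leaf [156, 198, 213, 265, 451, 580])
  (.leaf [156, 204, 254, 372, 388, 588])
 ) (.node (.leaf [156, 205, 241, 290, 370, 493])
  (.leaf [156, 207, 316, 382, 398, 469])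
 )) (.node (.node (.leaf [156, 216, 292, 305, 342, 579])
  (.leaf [156, 217, 454, 485, 546, 606])
 ) (.node (.leaf [156, 219, 439, 576, 596, 603])
  (.leaf [156, 223, 491, 624, 625, 634])
 ))) (.node (.node (.node (.leaf [156, 236, 294, 375, 421, 541])
  (.leaf [156, 238, 243, 341, 399, 519])
 ) (.node (.leaf [156, 239, 320, 434, 460, 573])
  (.leaf [156, 245, 303, 312, 353, 428])
 )) (.node (.node (.leaf [156, 250, 259, 285, 296, 582])
  (.leaf [156, 273, 411, 413, 520, 537])
 ) (.node (.leaf [156, 277, 329, 504, 526, 539])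
  (.leaf [156, 286, 300, 471, 511, 633])
 )))))

def t651_28 : BT :=
  (.node (.node (.node (.node (.node (.leaf [156, 287, 385, 404, 414, 527])
  (.leaf [156, 321, 408, 453, 498, 583])
 ) (.node (.leaf [156, 339, 403, 431, 602, 635])
  (.leaf [169, 187, 273, 383, 531, 638])
 )) (.node (.node (.leaf [169, 190, 351, 431, 601, 610])
  (.leaf [169, 191, 264, 335, 588, 631])
 ) (.node (.leaf [169, 197, 347, 394, 528, 632])
  (.leaf [169, 202, 309, 384, 457, 550])
 ))) (.node (.node (.node (.leaf [169, 203, 267, 293, 380, 432])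
  (.leaf [169, 206, 362, 536, 546, 571])
 ) (.node (.leaf [169, 222, 314, 482, 515, 648])
  (.leaf [169, 233, 387, 459, 563, 590])
 )) (.node (.node (.leaf [169, 234, 374, 460, 521, 649])
  (.leaf [169, 235, 328, 417, 615, 633])
 ) (.node (.leaf [169, 242, 339, 416, 443, 456])
  (.leaf [169, 251, 361, 453, 626, 641])
 )))) (.node (.node (.node (.node (.leaf [169, 259, 303, 349, 437, 533])
  (.leaf [169, 260, 298, 381, 406, 650])
 ) (.node (.leaf [169, 261, 327, 552, 600, 622])
  (.leaf [169, 271, 458, 495, 506, 557])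
 )) (.node (.node (.leaf [169, 278, 382, 422, 577, 611])
  (.leaf [169, 280, 307, 353, 551, 608])
 ) (.node (.leaf [169, 292, 425, 448, 527, 602])
  (.leaf [169, 296, 352, 442, 519, 565])
 ))) (.node (.node (.node (.leaf [169, 312, 423, 451, 594, 618])
  (.leaf [169, 346, 449, 547, 613, 634])
 ) (.node (.leaf [169, 365, 391, 499, 539, 560])
  (.leaf [169, 401, 414, 543, 558, 628])
 )) (.node (.node (.leaf [169, 508, 522, 523, 606, 644])
  (.leaf [182, 183, 464, 467, 497, 506])
 ) (.node (.leaf [182, 187, 414, 415, 563, 639])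
  (.leaf [182, 203, 437, 456, 461, 575])
 )))))

def t651_29 : BT :=
  (.node (.node (.node (.node (.node (.leaf [182, 205, 258, 388, 549, 597])
  (.leaf [182, 212, 298, 524, 555, 605])
 ) (.node (.leaf [182, 215, 319, 359, 395, 548])
  (.leaf [182, 221, 275, 345, 384, 527])
 )) (.node (.node (.leaf [182, 223, 227, 257, 349, 584])
  (.leaf [182, 251, 458, 479, 493, 508])
 ) (.node (.leaf [182, 260, 429, 487, 519, 648])
  (.leaf [182, 271, 289, 333, 342, 588])
 ))) (.node (.node (.node (.leaf [182, 276, 317, 377, 502, 562])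
  (.leaf [182, 283, 362, 422, 474, 486])
 ) (.node (.leaf [182, 285, 302, 428, 469, 608])
  (.leaf [182, 288, 316, 500, 534, 559])
 )) (.node (.node (.leaf [182, 306, 425, 514, 587, 616])
  (.leaf [182, 313, 336, 454, 484, 557])
 ) (.node (.leaf [182, 328, 340, 351, 376, 582])
  (.leaf [182, 331, 462, 476, 545, 583])
 )))) (.node (.node (.node (.node (.leaf [182, 361, 402, 442, 503, 536])
  (.leaf [182, 363, 373, 385, 392, 625])
 ) (.node (.leaf [182, 433, 475, 521, 546, 634])
  (.leaf [195, 196, 217, 313, 513, 627])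
 )) (.node (.node (.leaf [195, 197, 224, 384, 482, 563])
  (.leaf [195, 198, 204, 396, 419, 586])
 ) (.node (.leaf [195, 200, 240, 352, 408, 479])
  (.leaf [195, 226, 232, 243, 300, 390])
 ))) (.node (.node (.node (.leaf [195, 237, 368, 389, 551, 572])
  (.leaf [195, 252, 417, 424, 428, 638])
 ) (.node (.leaf [195, 254, 279, 445, 520, 567])
  (.leaf [195, 256, 273, 287, 375, 519])
 )) (.node (.node (.leaf [195, 276, 295, 310, 487, 546])
  (.leaf [195, 301, 334, 387, 576, 636])
 ) (.node (.leaf [195, 304, 325, 349, 451, 502])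
  (.leaf [195, 307, 336, 442, 573, 599])
 )))))

def t651_30 : BT :=
  (.node (.node (.node (.node (.node (.leaf [195, 308, 339, 543, 555, 575])
  (.leaf [195, 316, 431, 494, 589, 624])
 ) (.node (.leaf [195, 322, 430, 574, 604, 614])
  (.leaf [195, 331, 381, 517, 565, 647])
 )) (.node (.node (.leaf [195, 340, 426, 486, 505, 510])
  (.leaf [195, 363, 370, 454, 500, 649])
 ) (.node (.leaf [208, 222, 343, 350, 367, 405])
  (.leaf [208, 230, 308, 440, 565, 627])
 ))) (.node (.node (.node (.leaf [208, 231, 316, 483, 508, 538])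
  (.leaf [208, 238, 334, 370, 539, 600])
 ) (.node (.leaf [208, 240, 246, 345, 404, 619])
  (.leaf [208, 242, 272, 355, 473, 544])
 )) (.node (.node (.leaf [208, 245, 416, 506, 542, 593])
  (.leaf [208, 249, 287, 371, 400, 429])
 ) (.node (.leaf [208, 251, 299, 315, 630, 635])
  (.leaf [208, 252, 291, 466, 471, 639])
 )))) (.node (.node (.node (.node (.leaf [208, 254, 285, 354, 531, 626])
  (.leaf [208, 256, 535, 540, 594, 637])
 ) (.node (.leaf [208, 262, 292, 318, 411, 454])
  (.leaf [208, 264, 314, 397, 525, 621])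
 )) (.node (.node (.leaf [208, 275, 326, 438, 476, 588])
  (.leaf [208, 282, 396, 422, 522, 556])
 ) (.node (.leaf [208, 288, 305, 365, 614, 647])
  (.leaf [208, 296, 390, 455, 470, 598])
 ))) (.node (.node (.node (.leaf [208, 344, 377, 449, 450, 589])
  (.leaf [208, 362, 366, 415, 618, 625])
 ) (.node (.leaf [208, 364, 480, 545, 552, 617])
  (.leaf [208, 379, 388, 403, 599, 634])
 )) (.node (.node (.leaf [208, 384, 428, 448, 516, 629])
  (.leaf [208, 387, 475, 488, 498, 524])
 ) (.node (.leaf [208, 392, 495, 529, 532, 571])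
  (.leaf [221, 223, 352, 503, 587, 604])
 )))))

def t651_31 : BT :=
  (.node (.node (.node (.node (.node (.leaf [221, 243, 354, 418, 539, 610])
  (.leaf [221, 254, 334, 348, 374, 601])
 ) (.node (.leaf [221, 261, 335, 356, 504, 550])
  (.leaf [221, 277, 317, 321, 450, 538])
 )) (.node (.node (.leaf [221, 286, 296, 338, 422, 648])
  (.leaf [221, 295, 383, 445, 497, 505])
 ) (.node (.leaf [221, 300, 323, 479, 520, 649])
  (.leaf [221, 303, 508, 521, 548, 589])
 ))) (.node (.node (.node (.leaf [221, 315, 437, 485, 519, 634])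
  (.leaf [221, 320, 411, 499, 528, 575])
 ) (.node (.leaf [221, 322, 359, 387, 480, 531])
  (.leaf [221, 346, 456, 535, 559, 612])
 )) (.node (.node (.leaf [221, 351, 510, 537, 543, 613])
  (.leaf [221, 369, 394, 433, 523, 614])
 ) (.node (.leaf [221, 421, 491, 532, 584, 605])
  (.leaf [234, 254, 307, 385, 476, 550])
 )))) (.node (.node (.node (.node (.leaf [234, 259, 406, 493, 504, 604])
  (.leaf [234, 260, 352, 371, 506, 571])
 ) (.node (.leaf [234, 263, 266, 333, 343, 594])
  (.leaf [234, 265, 278, 412, 583, 646])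
 )) (.node (.node (.leaf [234, 268, 289, 368, 409, 463])
  (.leaf [234, 272, 324, 362, 529, 628])
 ) (.node (.leaf [234, 277, 444, 452, 517, 648])
  (.leaf [234, 284, 387, 471, 568, 593])
 ))) (.node (.node (.node (.leaf [234, 303, 382, 466, 497, 522])
  (.leaf [234, 310, 403, 428, 502, 575])
 ) (.node (.leaf [234, 320, 338, 399, 440, 638])
  (.leaf [247, 267, 352, 420, 501, 639])
 )) (.node (.node (.leaf [247, 269, 276, 337, 388, 453])
  (.leaf [247, 271, 382, 392, 480, 596])
 ) (.node (.leaf [247, 275, 434, 463, 507, 595])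
  (.leaf [247, 279, 356, 495, 508, 518])
 )))))

def t651_32 : BT :=
  (.node (.node (.node (.node (.node (.leaf [247, 284, 299, 370, 389, 633])
  (.leaf [247, 309, 354, 372, 433, 452])
 ) (.node (.leaf [247, 317, 476, 486, 564, 616])
  (.leaf [247, 332, 340, 459, 515, 570])
 )) (.node (.node (.leaf [247, 344, 363, 494, 604, 630])
  (.leaf [247, 346, 387, 497, 542, 621])
 ) (.node (.leaf [247, 351, 485, 532, 581, 624])
  (.leaf [247, 401, 471, 514, 537, 573])
 ))) (.node (.node (.node (.leaf [247, 403, 493, 531, 538, 645])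
  (.leaf [260, 279, 304, 437, 448, 631])
 ) (.node (.leaf [260, 282, 308, 466, 561, 633])
  (.leaf [260, 292, 447, 459, 559, 625])
 )) (.node (.node (.leaf [260, 299, 392, 410, 454, 576])
  (.leaf [260, 305, 442, 464, 563, 618])
 ) (.node (.leaf [260, 345, 370, 443, 492, 555])
  (.leaf [273, 274, 316, 346, 588, 618])
 )))) (.node (.node (.node (.node (.leaf [273, 275, 330, 439, 511, 569])
  (.leaf [273, 291, 472, 603, 608, 610])
 ) (.node (.leaf [273, 323, 348, 391, 455, 573])
  (.leaf [273, 339, 418, 487, 490, 628])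
 )) (.node (.node (.leaf [273, 406, 486, 517, 552, 634])
  (.leaf [286, 307, 502, 514, 594, 610])
 ) (.node (.leaf [286, 310, 334, 361, 417, 516])
  (.leaf [286, 311, 363, 560, 588, 623])
 ))) (.node (.node (.node (.leaf [286, 328, 396, 452, 493, 637])
  (.leaf [286, 362, 477, 539, 578, 596])
 ) (.node (.leaf [299, 329, 388, 527, 582, 607])
  (.leaf [299, 331, 397, 416, 471, 644])
 )) (.node (.node (.leaf [299, 340, 473, 475, 627, 647])
  (.leaf [299, 341, 379, 498, 539, 642])
 ) (.node (.leaf [312, 314, 326, 332, 406, 411])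
  (.leaf [312, 315, 461, 463, 572, 640])
 )))))

def t651_33 : BT :=
  (.node (.node (.node (.node (.leaf [312, 327, 340, 372, 489, 535])
  (.node (.leaf [312, 339, 429, 510, 595, 601])
  (.leaf [312, 357, 371, 381, 389, 558])
 )) (.node (.node (.leaf [325, 329, 499, 505, 552, 644])
  (.leaf [325, 353, 379, 448, 576, 589])
 ) (.node (.leaf [325, 390, 450, 461, 509, 619])
  (.leaf [325, 403, 460, 485, 530, 570])
 ))) (.node (.node (.leaf [325, 414, 424, 431, 468, 525])
  (.node (.leaf [338, 388, 434, 469, 561, 603])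
  (.leaf [338, 448, 488, 530, 567, 616])
 )) (.node (.node (.leaf [351, 364, 406, 447, 527, 592])
  (.leaf [351, 405, 438, 451, 521, 640])
 ) (.node (.leaf [351, 440, 489, 493, 622, 639])
  (.leaf [364, 409, 418, 457, 537, 625])
 )))) (.node (.node (.node (.leaf [364, 428, 430, 482, 522, 566])
  (.node (.leaf [364, 452, 462, 478, 535, 649])
  (.leaf [364, 483, 504, 534, 584, 595])
 )) (.node (.node (.leaf [377, 410, 465, 472, 497, 553])
  (.leaf [377, 430, 469, 489, 503, 644])
 ) (.node (.leaf [377, 480, 515, 544, 558, 625])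
  (.leaf [390, 407, 444, 541, 558, 604])
 ))) (.node (.node (.node (.leaf [403, 416, 437, 462, 516, 553])
  (.leaf [546, 547, 602, 622, 643, 647])
 ) (.node (.leaf [546, 551, 590, 632, 637, 644])
  (.leaf [559, 561, 594, 632, 640, 645])
 )) (.node (.node (.leaf [559, 562, 610, 623, 637, 649])
  (.leaf [572, 576, 600, 618, 637, 647])
 ) (.node (.leaf [572, 578, 594, 633, 642, 644])
  (.leaf [585, 608, 612, 629, 643, 650])
 )))))

def full651 : BT :=
  (.node (.node (.node (.node (.node t651_0 t651_1) (.node t651_2 t651_3)) (.node (.node t651_4 t651_5) (.node t651_6 t651_7))) (.node (.node (.node t651_8 t651_9) (.node t651_10 t651_11)) (.node (.node t651_12 t651_13) (.node t651_14 (.node t651_15 t651_16))))) (.node (.node (.node (.node t651_17 t651_18) (.node t651_19 t651_20)) (.node (.node t651_21 t651_22) (.node t651_23 t651_24))) (.node (.node (.node t651_25 t651_26) (.node t651_27 t651_28)) (.node (.node t651_29 t651_30) (.node t651_31 (.node t651_32 t651_33))))))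

def short651 : List (List ℕ × List ℕ) :=
  []

theorem ex651 : ∃ 𝓑 : Set (Finset (Fin 651)), IsS2 (Fin 651) 6 𝓑 :=
  of_codedT (codedZ 13) 6 50 1 651 rfl full651 short651
    (by decide +kernel) (by decide +kernel) (by decide +kernel) (by decide +kernel)
    (by decide +kernel) (by decide +kernel)

end Pool.Agent.TH848.KM
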