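import Pool.Agent.TH848.KM.Tree

/-!
A Steiner system `S(2,8,225)`: 1 copies of an abelian group of order 225 and 0 fixed points.
-/

set_option autoImplicit false
set_option maxRecDepth 100000

namespace Pool.Agent.TH848.KM

open Pool.Agent.H816R2.KM2

def t225_0 : BT :=
  (.node (.node (.leaf [0, 1, 90, 94, 149, 191, 200, 205])
  (.leaf [0, 2, 9, 19, 70, 82, 167, 212])
 ) (.node (.leaf [0, 3, 37, 89, 116, 121, 159, 197])
  (.leaf [0, 16, 46, 64, 75, 178, 184, 217])
 ))

def full225 : BT :=
  t225_0

def short225 : List (List ℕ × List ℕ) :=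
  []

theorem ex225 : ∃ 𝓑 : Set (Finset (Fin 225)), IsS2 (Fin 225) 8 𝓑 :=
  of_codedT (codedP 15 (codedZ 15)) 8 1 0 225 rfl full225 short225
    (by decide +kernel) (by decide +kernel) (by decide +kernel) (by decide +kernel)
    (by decide +kernel) (by decide +kernel)

end Pool.Agent.TH848.KM
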