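import Pool.Agent.TH848.KM.Tree

/-!
A Steiner system `S(2,7,127)`: 40 copies of an abelian group of order 3 and 7 fixed points.
-/

set_option autoImplicit false
set_option maxRecDepth 100000

namespace Pool.Agent.TH848.KM

open Pool.Agent.H816R2.KM2

def t127_0 : BT :=
  (.node (.node (.node (.node (.node (.leaf [0, 3, 35, 44, 107, 112, 120])
  (.leaf [0, 4, 22, 28, 48, 70, 125])
 ) (.node (.leaf [0, 5, 12, 40, 58, 83, 122])
  (.leaf [0, 6, 61, 76, 96, 105, 111])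
 )) (.node (.node (.leaf [0, 7, 30, 50, 63, 87, 114])
  (.leaf [0, 8, 39, 46, 51, 95, 101])
 ) (.node (.leaf [0, 13, 19, 21, 38, 80, 121])
  (.leaf [0, 14, 67, 91, 106, 116, 123])
 ))) (.node (.node (.node (.leaf [0, 15, 85, 88, 99, 100, 119])
  (.leaf [0, 16, 18, 54, 64, 66, 113])
 ) (.node (.leaf [0, 17, 32, 47, 62, 69, 108])
  (.leaf [0, 20, 49, 59, 77, 84, 110])
 )) (.node (.node (.leaf [0, 23, 72, 94, 109, 115, 124])
  (.leaf [0, 24, 37, 55, 89, 93, 98])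
 ) (.node (.leaf [0, 25, 53, 60, 68, 82, 117])
  (.leaf [0, 26, 27, 31, 74, 92, 104])
 )))) (.node (.node (.node (.node (.leaf [0, 29, 36, 43, 81, 86, 102])
  (.leaf [0, 33, 52, 57, 65, 90, 103])
 ) (.node (.leaf [0, 34, 45, 56, 73, 79, 118])
  (.leaf [0, 41, 42, 71, 75, 78, 97])
 )) (.node (.node (.leaf [3, 6, 91, 94, 97, 98, 119])
  (.leaf [3, 7, 31, 38, 47, 75, 105])
 ) (.node (.leaf [3, 8, 18, 40, 55, 73, 102])
  (.leaf [3, 9, 29, 74, 77, 78, 100])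
 ))) (.node (.node (.node (.leaf [3, 10, 17, 20, 71, 86, 116])
  (.leaf [3, 11, 36, 42, 49, 87, 109])
 ) (.node (.leaf [3, 12, 22, 24, 45, 64, 126])
  (.leaf [3, 14, 61, 85, 113, 117, 124])
 )) (.node (.node (.leaf [3, 15, 67, 72, 96, 103, 110])
  (.leaf [3, 16, 37, 56, 58, 90, 99])
 ) (.node (.leaf [3, 19, 26, 30, 43, 62, 101])
  (.leaf [3, 23, 76, 88, 104, 118, 123])
 )))))

def t127_1 : BT :=
  (.node (.node (.node (.node (.node (.leaf [3, 25, 33, 39, 66, 70, 114])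
  (.leaf [3, 28, 34, 65, 82, 95, 108])
 ) (.node (.leaf [3, 32, 63, 80, 84, 92, 115])
  (.leaf [3, 46, 48, 57, 68, 93, 106])
 )) (.node (.node (.leaf [3, 54, 60, 79, 83, 89, 111])
  (.leaf [6, 9, 51, 55, 62, 90, 104])
 ) (.node (.leaf [6, 10, 12, 39, 50, 84, 113])
  (.leaf [6, 11, 17, 24, 33, 63, 124])
 ))) (.node (.node (.node (.leaf [6, 13, 18, 29, 31, 68, 101])
  (.leaf [6, 14, 15, 23, 102, 108, 120])
 ) (.node (.leaf [6, 16, 38, 43, 53, 78, 123])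
  (.leaf [6, 20, 69, 83, 87, 95, 115])
 )) (.node (.node (.leaf [6, 21, 28, 36, 60, 64, 114])
  (.leaf [6, 22, 25, 71, 79, 92, 112])
 ) (.node (.leaf [6, 26, 48, 73, 75, 81, 100])
  (.leaf [6, 27, 34, 42, 54, 70, 126])
 )))) (.node (.node (.node (.node (.leaf [6, 35, 72, 85, 106, 118, 122])
  (.leaf [6, 44, 67, 88, 109, 117, 125])
 ) (.node (.leaf [6, 45, 66, 80, 82, 86, 110])
  (.leaf [9, 12, 61, 69, 75, 82, 102])
 )) (.node (.node (.leaf [9, 13, 28, 44, 58, 92, 118])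
  (.leaf [9, 17, 31, 52, 72, 89, 113])
 ) (.node (.leaf [9, 18, 24, 36, 96, 107, 125])
  (.leaf [9, 20, 23, 42, 66, 81, 103])
 ))) (.node (.node (.node (.leaf [9, 21, 35, 57, 79, 84, 97])
  (.leaf [9, 22, 38, 40, 76, 95, 119])
 ) (.node (.leaf [9, 26, 45, 68, 87, 91, 122])
  (.leaf [9, 27, 53, 83, 105, 106, 114])
 )) (.node (.node (.leaf [9, 30, 47, 59, 98, 111, 123])
  (.leaf [9, 32, 33, 54, 67, 93, 101])
 ) (.node (.leaf [9, 39, 56, 80, 108, 109, 116])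
  (.leaf [9, 46, 60, 63, 73, 94, 120])
 )))))

def t127_2 : BT :=
  (.node (.node (.node (.node (.node (.leaf [9, 48, 65, 71, 99, 117, 121])
  (.leaf [12, 15, 38, 65, 74, 81, 97])
 ) (.node (.leaf [12, 17, 25, 41, 80, 88, 106])
  (.leaf [12, 19, 46, 59, 72, 87, 116])
 )) (.node (.node (.leaf [12, 26, 44, 49, 53, 93, 119])
  (.leaf [12, 29, 34, 47, 51, 76, 110])
 ) (.node (.leaf [12, 31, 36, 70, 90, 94, 108])
  (.leaf [12, 32, 35, 48, 60, 78, 105])
 ))) (.node (.node (.node (.leaf [12, 33, 89, 95, 99, 104, 112])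
  (.leaf [12, 42, 73, 77, 98, 101, 115])
 ) (.node (.leaf [12, 52, 63, 66, 71, 85, 96])
  (.leaf [15, 19, 24, 29, 75, 95, 106])
 )) (.node (.node (.leaf [15, 21, 51, 58, 71, 93, 105])
  (.leaf [15, 22, 47, 54, 77, 82, 118])
 ) (.node (.leaf [15, 27, 40, 46, 86, 90, 98])
  (.leaf [15, 28, 59, 62, 66, 79, 117])
 )))) (.node (.node (.node (.node (.leaf [15, 31, 33, 41, 43, 83, 121])
  (.leaf [15, 35, 76, 91, 113, 115, 125])
 ) (.node (.leaf [15, 44, 61, 94, 104, 116, 122])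
  (.leaf [18, 22, 46, 49, 62, 91, 99])
 )) (.node (.node (.leaf [18, 27, 59, 65, 109, 112, 118])
  (.leaf [18, 30, 80, 83, 97, 117, 120])
 ) (.node (.leaf [18, 38, 51, 60, 72, 86, 126])
  (.leaf [18, 39, 47, 71, 103, 106, 119])
 ))) (.node (.node (.node (.leaf [18, 41, 44, 63, 90, 95, 111])
  (.leaf [18, 48, 53, 56, 98, 110, 122])
 ) (.node (.leaf [18, 52, 76, 78, 87, 92, 124])
  (.leaf [21, 25, 44, 55, 59, 74, 113])
 )) (.node (.node (.leaf [21, 29, 40, 53, 66, 72, 112])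
  (.leaf [21, 33, 62, 68, 96, 100, 115])
 ) (.node (.leaf [21, 34, 49, 52, 83, 88, 98])
  (.leaf [21, 41, 54, 65, 85, 87, 107])
 )))))

def t127_3 : BT :=
  (.node (.node (.node (.node (.leaf [21, 42, 86, 92, 99, 106, 108])
  (.node (.leaf [24, 27, 47, 56, 97, 115, 121])
  (.leaf [24, 30, 53, 71, 108, 113, 118])
 )) (.node (.leaf [24, 34, 38, 57, 61, 77, 109])
  (.node (.leaf [24, 39, 65, 83, 100, 110, 123])
  (.leaf [24, 48, 59, 80, 103, 104, 114])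
 ))) (.node (.node (.leaf [27, 30, 39, 48, 96, 102, 124])
  (.node (.leaf [27, 36, 71, 80, 100, 111, 122])
  (.leaf [27, 49, 55, 60, 85, 95, 123])
 )) (.node (.leaf [30, 36, 56, 65, 104, 105, 119])
  (.node (.leaf [30, 41, 57, 66, 76, 89, 126])
  (.leaf [30, 44, 52, 54, 75, 86, 115])
 )))) (.node (.node (.node (.leaf [30, 58, 72, 81, 84, 95, 125])
  (.node (.leaf [33, 36, 40, 50, 74, 91, 118])
  (.leaf [33, 38, 45, 71, 84, 88, 102])
 )) (.node (.leaf [36, 39, 53, 59, 99, 115, 120])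
  (.node (.leaf [36, 47, 48, 83, 112, 113, 116])
  (.leaf [42, 48, 63, 67, 74, 79, 107])
 ))) (.node (.node (.leaf [42, 58, 60, 65, 69, 88, 96])
  (.node (.leaf [45, 51, 63, 78, 99, 103, 125])
  (.leaf [48, 55, 66, 69, 77, 91, 120])
 )) (.node (.node (.leaf [54, 57, 69, 81, 99, 105, 124])
  (.leaf [60, 74, 87, 90, 106, 110, 121])
 ) (.node (.leaf [66, 75, 84, 93, 104, 111, 121])
  (.leaf [96, 101, 104, 106, 109, 113, 126])
 )))))

def full127 : BT :=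
  (.node (.node t127_0 t127_1) (.node t127_2 t127_3))

def short127 : List (List ℕ × List ℕ) :=
  [([0], [0, 1, 2, 9, 10, 11, 126]),
   ([0], [3, 4, 5, 51, 52, 53, 121]),
   ([0], [6, 7, 8, 57, 58, 59, 121]),
   ([0], [12, 13, 14, 54, 55, 56, 125]),
   ([0], [15, 16, 17, 48, 49, 50, 126]),
   ([0], [18, 19, 20, 33, 34, 35, 123]),
   ([0], [21, 22, 23, 30, 31, 32, 122]),
   ([0], [24, 25, 26, 84, 85, 86, 120]),
   ([0], [27, 28, 29, 87, 88, 89, 120]),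
   ([0], [36, 37, 38, 66, 67, 68, 124]),
   ([0], [39, 40, 41, 60, 61, 62, 125]),
   ([0], [42, 43, 44, 45, 46, 47, 124]),
   ([0], [63, 64, 65, 75, 76, 77, 122]),
   ([0], [69, 70, 71, 72, 73, 74, 123]),
   ([0], [78, 79, 80, 93, 94, 95, 126]),
   ([0], [81, 82, 83, 90, 91, 92, 126]),
   ([0], [120, 121, 122, 123, 124, 125, 126]),
   ([0], [114, 115, 116, 117, 118, 119, 126])]

theorem ex127 : ∃ 𝓑 : Set (Finset (Fin 127)), IsS2 (Fin 127) 7 𝓑 :=
  of_codedT (codedZ 3) 7 40 7 127 rfl full127 short127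
    (by decide +kernel) (by decide +kernel) (by decide +kernel) (by decide +kernel)
    (by decide +kernel) (by decide +kernel)

end Pool.Agent.TH848.KM
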