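import Pool.Agent.TH848.KM.Tree

/-!
A Steiner system `S(2,7,337)`: 1 copies of an abelian group of order 337 and 0 fixed points.
-/

set_option autoImplicit false
set_option maxRecDepth 100000

namespace Pool.Agent.TH848.KM

open Pool.Agent.H816R2.KM2

def t337_0 : BT :=
  (.node (.node (.node (.leaf [0, 10, 11, 144, 168, 280, 299])
  (.leaf [0, 18, 21, 35, 212, 248, 254])
 ) (.node (.leaf [0, 30, 59, 117, 264, 303, 305])
  (.leaf [0, 31, 116, 129, 195, 215, 255])
 )) (.node (.node (.leaf [0, 33, 80, 88, 141, 218, 333])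
  (.leaf [0, 46, 69, 74, 183, 235, 311])
 ) (.node (.leaf [0, 65, 81, 90, 135, 240, 262])
  (.leaf [1, 8, 52, 64, 79, 175, 295])
 )))

def full337 : BT :=
  t337_0

def short337 : List (List ℕ × List ℕ) :=
  []

theorem ex337 : ∃ 𝓑 : Set (Finset (Fin 337)), IsS2 (Fin 337) 7 𝓑 :=
  of_codedT (codedZ 337) 7 1 0 337 rfl full337 short337
    (by decide +kernel) (by decide +kernel) (by decide +kernel) (by decide +kernel)
    (by decide +kernel) (by decide +kernel)

end Pool.Agent.TH848.KM
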