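import Pool.Agent.H816R2.KM2N

/-!
A variant of `of_coded` whose base blocks are stored in a binary tree and whose covering condition
is checked in a single pass, so that the kernel needs little memory and no deep recursion.
-/

set_option autoImplicit false

namespace Pool.Agent.TH848.KM

open Pool.Agent.H816R2.KM2

/-- A binary tree of blocks. -/
inductive BT where
  | leaf : List ℕ → BT
  | node : BT → BT → BT

def BT.toList : BT → List (List ℕ)
  | .leaf B => [B]
  | .node a b => a.toList ++ b.toList

def BT.allB (p : List ℕ → Bool) : BT → Bool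
  | .leaf B => p B
  | .node a b => a.allB p && b.allB p

def BT.size : BT → ℕ
  | .leaf _ => 1
  | .node a b => a.size + b.size

theorem BT.allB_spec (p : List ℕ → Bool) : ∀ t : BT, t.allB p = true → t.toList.all p = true
  | .leaf B, h => by simpa [BT.toList, BT.allB] using h
  | .node a b, h => by
    rw [BT.allB, Bool.and_eq_true] at h
    rw [BT.toList, List.all_append, Bool.and_eq_true]
    exact ⟨BT.allB_spec p a h.1, BT.allB_spec p b h.2⟩

theorem BT.size_spec : ∀ t : BT, t.toList.length = t.size
  | .leaf B => rfl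
  | .node a b => by
    rw [BT.toList, List.length_append, BT.size, BT.size_spec a, BT.size_spec b]

/-- the pairs covered by the block `B`, one row of `v` bits for each class of points -/
def rowN (bk : ℕ → List ℕ → List ℕ) (sh : ℕ → ℕ) (u : ℕ) (B : List ℕ) : List ℕ → ℕ
  | [] => 0
  | p :: l => (if p < u then (addBits (bk p B) 0) <<< (sh p) else 0) ||| rowN bk sh u B l

def BT.rows (bk : ℕ → List ℕ → List ℕ) (sh : ℕ → ℕ) (u : ℕ) : BT → ℕ
  | .leaf B => rowN bk sh u B B
  | .node a b => a.rows bk sh u ||| b.rows bk sh u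

def listRows (bk : ℕ → List ℕ → List ℕ) (sh : ℕ → ℕ) (u : ℕ) : List (List ℕ) → ℕ
  | [] => 0
  | B :: l => rowN bk sh u B B ||| listRows bk sh u l

theorem rowN_spec (bk : ℕ → List ℕ → List ℕ) (sh : ℕ → ℕ) (u : ℕ) (B : List ℕ) :
    ∀ (l : List ℕ) (i : ℕ), Nat.testBit (rowN bk sh u B l) i = true →
      ∃ p ∈ l, p < u ∧ sh p ≤ i ∧ (i - sh p) ∈ bk p B := by
  intro l
  induction l with
  | nil => intro i h; simp [rowN] at h
  | cons p l ih =>
    intro i h
    rw [rowN, Nat.testBit_or, Bool.or_eq_true] at h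
    rcases h with h | h
    · by_cases hp : p < u
      · rw [if_pos hp, Nat.testBit_shiftLeft, Bool.and_eq_true, decide_eq_true_eq] at h
        rcases (addBits_spec _ _ _).1 h.2 with h1 | h1
        · simp at h1
        · exact ⟨p, List.mem_cons_self, hp, h.1, h1⟩
      · rw [if_neg hp] at h
        simp at h
    · obtain ⟨q, hq, h1⟩ := ih i h
      exact ⟨q, List.mem_cons_of_mem _ hq, h1⟩

theorem BT.rows_spec (bk : ℕ → List ℕ → List ℕ) (sh : ℕ → ℕ) (u : ℕ) :
    ∀ (t : BT) (i : ℕ), Nat.testBit (t.rows bk sh u) i = true →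
      ∃ B ∈ t.toList, ∃ p ∈ B, p < u ∧ sh p ≤ i ∧ (i - sh p) ∈ bk p B
  | .leaf B, i, h => by
    obtain ⟨p, hp, h1⟩ := rowN_spec bk sh u B B i h
    exact ⟨B, by simp [BT.toList], p, hp, h1⟩
  | .node a b, i, h => by
    rw [BT.rows, Nat.testBit_or, Bool.or_eq_true] at h
    rcases h with h | h
    · obtain ⟨B, hB, h1⟩ := BT.rows_spec bk sh u a i h
      exact ⟨B, by rw [BT.toList]; exact List.mem_append_left _ hB, h1⟩
    · obtain ⟨B, hB, h1⟩ := BT.rows_spec bk sh u b i h
      exact ⟨B, by rw [BT.toList]; exact List.mem_append_right _ hB, h1⟩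

theorem listRows_spec (bk : ℕ → List ℕ → List ℕ) (sh : ℕ → ℕ) (u : ℕ) :
    ∀ (L : List (List ℕ)) (i : ℕ), Nat.testBit (listRows bk sh u L) i = true →
      ∃ B ∈ L, ∃ p ∈ B, p < u ∧ sh p ≤ i ∧ (i - sh p) ∈ bk p B := by
  intro L
  induction L with
  | nil => intro i h; simp [listRows] at h
  | cons B L ih =>
    intro i h
    rw [listRows, Nat.testBit_or, Bool.or_eq_true] at h
    rcases h with h | h
    · obtain ⟨p, hp, h1⟩ := rowN_spec bk sh u B B i h
      exact ⟨B, List.mem_cons_self, p, hp, h1⟩
    · obtain ⟨C, hC, h1⟩ := ih i h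
      exact ⟨C, List.mem_cons_of_mem _ hC, h1⟩

theorem covB_iff (rp : ℕ → ℕ) (bk : ℕ → List ℕ → List ℕ) (r : ℕ) (B : List ℕ) :
    ∀ (l : List ℕ) (acc d : ℕ), Nat.testBit (covB rp bk r B l acc) d = true ↔
      (Nat.testBit acc d = true ∨ ∃ p ∈ l, rp p = r ∧ d ∈ bk p B) := by
  intro l
  induction l with
  | nil => intro acc d; simp [covB]
  | cons p l ih =>
    intro acc d
    rw [covB, ih]
    by_cases hp : (rp p == r) = true
    · rw [if_pos hp, addBits_spec]
      have hp' : rp p = r := by simpa using hp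
      constructor
      · rintro ((h | h) | ⟨q, hq, h⟩)
        · exact Or.inl h
        · exact Or.inr ⟨p, List.mem_cons_self, hp', h⟩
        · exact Or.inr ⟨q, List.mem_cons_of_mem _ hq, h⟩
      · rintro (h | ⟨q, hq, h⟩)
        · exact Or.inl (Or.inl h)
        · rcases List.mem_cons.1 hq with rfl | hq
          · exact Or.inl (Or.inr h.2)
          · exact Or.inr ⟨q, hq, h⟩
    · rw [if_neg hp]
      have hp' : rp p ≠ r := by simpa using hp
      constructor
      · rintro (h | ⟨q, hq, h⟩)
        · exact Or.inl h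
        · exact Or.inr ⟨q, List.mem_cons_of_mem _ hq, h⟩
      · rintro (h | ⟨q, hq, h⟩)
        · exact Or.inl h
        · rcases List.mem_cons.1 hq with rfl | hq
          · exact absurd h.1 hp'
          · exact Or.inr ⟨q, hq, h⟩

theorem covAll_iff (rp : ℕ → ℕ) (bk : ℕ → List ℕ → List ℕ) (r : ℕ) :
    ∀ (L : List (List ℕ)) (acc d : ℕ), Nat.testBit (covAll rp bk r L acc) d = true ↔
      (Nat.testBit acc d = true ∨ ∃ B ∈ L, ∃ p ∈ B, rp p = r ∧ d ∈ bk p B) := by
  intro L
  induction L with
  | nil => intro acc d; simp [covAll]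
  | cons B L ih =>
    intro acc d
    rw [covAll, ih, covB_iff]
    constructor
    · rintro ((h | h) | ⟨C, hC, h⟩)
      · exact Or.inl h
      · exact Or.inr ⟨B, List.mem_cons_self, h⟩
      · exact Or.inr ⟨C, List.mem_cons_of_mem _ hC, h⟩
    · rintro (h | ⟨C, hC, h⟩)
      · exact Or.inl (Or.inl h)
      · rcases List.mem_cons.1 hC with rfl | hC
        · exact Or.inl (Or.inr h)
        · exact Or.inr ⟨C, hC, h⟩

theorem of_codedT {N : Type} [AddCommGroup N] [Fintype N] [DecidableEq N] (C : Coded N)
    (k c f v : ℕ) (hv : c * C.nn + f = v)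
    (full : BT) (short : List (List ℕ × List ℕ))
    (h1 : full.allB (okB k v) = true)
    (h2 : (short.all fun s => okB k v s.2 && s.1.all fun a => decide (a < C.nn)) = true)
    (h3 : okShort (trc C.nn (c * C.nn) C.addc) C.nn short = true)
    (h4 : (C.nn * full.size + (short.map fun s => s.1.length).sum) * (k * k - k) ≤ v * v - v)
    (h6 : (full.rows (fun p B => B.map (trc C.nn (c * C.nn) C.addc (C.negc (p % C.nn))))
      (fun p => p / C.nn * v) (c * C.nn) |||
      listRows (fun p B => B.map (trc C.nn (c * C.nn) C.addc (C.negc (p % C.nn))))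
      (fun p => p / C.nn * v) (c * C.nn) (short.map Prod.snd) == 2 ^ (c * v) - 1) = true)
    (hfix : ((List.range f).all fun x => (List.range f).all fun y => x == y ||
      short.any fun s => s.2.contains (c * C.nn + x) && s.2.contains (c * C.nn + y)) = true) :
    ∃ 𝓑' : Set (Finset (Fin v)), IsS2 (Fin v) k 𝓑' := by
  have hnn := C.hnn
  have h1' := BT.allB_spec _ _ h1
  refine of_coded C k c f v hv full.toList short h1' h2 h3
    (by rw [BT.size_spec]; exact h4) ?_ hfix
  -- blocks have points below `v`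
  have hlt : ∀ B ∈ full.toList ++ short.map Prod.snd, ∀ x ∈ B, x < v := by
    intro B hB
    rcases List.mem_append.1 hB with hB | hB
    · rw [List.all_eq_true] at h1'
      exact (okB_spec (h1' B hB)).2.2
    · obtain ⟨s, hs, rfl⟩ := List.mem_map.1 hB
      rw [List.all_eq_true] at h2
      have h := h2 s hs
      rw [Bool.and_eq_true] at h
      exact (okB_spec h.1).2.2
  have htr : ∀ p x, x < v → trc C.nn (c * C.nn) C.addc (C.negc (p % C.nn)) x < v := by
    intro p x hx
    unfold trc
    split_ifs with hxu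
    · have ha := (C.hneg _ (Nat.mod_lt p hnn)).1
      have hb := (C.hadd _ (Nat.mod_lt x hnn) _ ha).1
      have hq : x / C.nn < c := Nat.div_lt_of_lt_mul (by rw [mul_comm]; exact hxu)
      have h7 : (x / C.nn + 1) * C.nn ≤ c * C.nn := Nat.mul_le_mul_right _ hq
      rw [add_mul, one_mul] at h7
      omega
    · exact hx
  rw [List.all_eq_true]
  intro r hr
  obtain ⟨i, hi, rfl⟩ := List.mem_map.1 hr
  rw [List.mem_range] at hi
  rw [beq_iff_eq]
  apply Nat.eq_of_testBit_eq
  intro d
  rw [Nat.testBit_two_pow_sub_one]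
  have key : Nat.testBit (covAll (rpc C.nn (c * C.nn))
      (fun p B => B.map (trc C.nn (c * C.nn) C.addc (C.negc (p % C.nn)))) (i * C.nn)
      (full.toList ++ short.map Prod.snd) 0) d = true ↔ d < v := by
    rw [covAll_iff]
    constructor
    · rintro (h | ⟨B, hB, p, hp, -, hd⟩)
      · simp at h
      · obtain ⟨x, hx, rfl⟩ := List.mem_map.1 hd
        exact htr p x (hlt B hB x hx)
    · intro hd
      right
      rw [beq_iff_eq] at h6
      have h8 : Nat.testBit (2 ^ (c * v) - 1) (i * v + d) = true := by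
        rw [Nat.testBit_two_pow_sub_one, decide_eq_true_eq]
        calc i * v + d < i * v + v := by omega
          _ = (i + 1) * v := by ring
          _ ≤ c * v := Nat.mul_le_mul_right _ hi
      rw [← h6, Nat.testBit_or, Bool.or_eq_true] at h8
      have h9 : ∃ B ∈ full.toList ++ short.map Prod.snd, ∃ p ∈ B, p < c * C.nn ∧
          p / C.nn * v ≤ i * v + d ∧ (i * v + d - p / C.nn * v) ∈
            B.map (trc C.nn (c * C.nn) C.addc (C.negc (p % C.nn))) := by
        rcases h8 with h8 | h8
        · obtain ⟨B, hB, h⟩ := BT.rows_spec _ _ _ _ _ h8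
          exact ⟨B, List.mem_append_left _ hB, h⟩
        · obtain ⟨B, hB, h⟩ := listRows_spec _ _ _ _ _ h8
          exact ⟨B, List.mem_append_right _ hB, h⟩
      obtain ⟨B, hB, p, hp, hpu, hle, hmem⟩ := h9
      obtain ⟨x, hx, hxe⟩ := List.mem_map.1 hmem
      have hx' := htr p x (hlt B hB x hx)
      rw [hxe] at hx'
      have hv0 : 0 < v := by omega
      have hpi : p / C.nn = i := by
        rcases Nat.lt_trichotomy (p / C.nn) i with h | h | h
        · exfalso
          have : (p / C.nn + 1) * v ≤ i * v := Nat.mul_le_mul_right _ h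
          rw [add_mul, one_mul] at this
          omega
        · exact h
        · exfalso
          have : (i + 1) * v ≤ p / C.nn * v := Nat.mul_le_mul_right _ h
          rw [add_mul, one_mul] at this
          omega
      refine ⟨B, hB, p, hp, ?_, ?_⟩
      · unfold rpc
        rw [if_pos hpu, hpi]
      · rw [hpi, Nat.add_sub_cancel_left] at hmem
        exact hmem
  by_cases hd : d < v
  · rw [key.2 hd]
    exact (decide_eq_true hd).symm
  · have : ¬ Nat.testBit (covAll (rpc C.nn (c * C.nn))
      (fun p B => B.map (trc C.nn (c * C.nn) C.addc (C.negc (p % C.nn)))) (i * C.nn)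
      (full.toList ++ short.map Prod.snd) 0) d = true := fun h => hd (key.1 h)
    rw [Bool.not_eq_true] at this
    rw [this]
    exact (decide_eq_false hd).symm

end Pool.Agent.TH848.KM
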